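import Pool.Agent.Lib.MP_dd05d9_lc.Defs

/-!
`ap R h i = sum_{j <= deg R} R_j h(i+j)`, `dl R l` = values of `ap R` at the first `l.length - deg R` positions.
PROOFS.
* ap_congr: only `h i, ..., h (i + deg R)` enter.
* dl_length, dl_getD: by definition (`List.getD` of a map of range).
* ap_ext: for every `n >= deg R` the sum may be extended to `range (n+1)` (coefficients are 0 beyond the degree).
* ap_mul: `ap (S * R) h = ap S (ap R h)`: coefficients of a product; or: identify `ap R h` with
  `Polynomial.aeval` of the shift in `Module.End Z (N -> Z)` applied to `h` (aeval_eq_sum_range), then `map_mul`.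
* dl_append: entry by entry: position `i < |l| + |l'| - n`.  With `n = deg R`:
  if `i < |l| - n`: the entry only uses `l`.  If `i >= |l|` (then `i - |l| < |l'| - n`) it only uses `l'`.  In between
  `|l| - n <= i < |l|` (with truncated subtraction) the window `i .. i+n` lies in the last `n` entries of `l` and
  the first `n` entries of `l'` [the window ends at `i + n <= |l| - 1 + n`, so at index `<= n - 1` of `l'`; and
  starts at `>= |l| - n`]; the lengths: `|dl (sfx n l ++ l'.take n)| = min |l| n + min |l'| n - n`.
  Prove it with `List.ext_getElem` or via `getD`.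
* dl_append_left: the same with the whole `l'` if `n <= |l|`.  dl_append_right: the same with the whole `l` if `n <= |l'|`.
* dl_prefix: consequence.
* INI: `R` monic of degree `n`: `f (i+n) = ap R f i - sum_{j<n} R_j f(i+j)`, strong induction.
* dl_pref: `dl R (pref f m) = pref (ap R f) (m - n)`.
* ap_mul_zero: if `ap R h i = 0` for all `i >= a` then `ap (S*R) h i = 0` for all `i >= a`.
-/

set_option autoImplicit false

namespace AW

theorem ap_congr (R : Polynomial ℤ) (h h' : ℕ → ℤ) (i : ℕ)
    (e : ∀ j ≤ R.natDegree, h (i + j) = h' (i + j)) : ap R h i = ap R h' i := by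
  unfold ap
  refine Finset.sum_congr rfl fun j hj => ?_
  rw [Finset.mem_range] at hj
  rw [e j (by omega)]

theorem ap_ext (R : Polynomial ℤ) (h : ℕ → ℤ) (i n : ℕ) (hn : R.natDegree ≤ n) :
    ap R h i = ∑ j ∈ Finset.range (n + 1), R.coeff j * h (i + j) := by
  unfold ap
  refine Finset.sum_subset (by intro j hj; rw [Finset.mem_range] at hj ⊢; omega) ?_
  intro j _ hj
  rw [Finset.mem_range, not_lt] at hj
  rw [Polynomial.coeff_eq_zero_of_natDegree_lt (by omega), zero_mul]

/-- the shift -/
private def DLa_E : Module.End ℤ (ℕ → ℤ) where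
  toFun h := fun i => h (i + 1)
  map_add' _ _ := rfl
  map_smul' _ _ := rfl

private theorem DLa_pow (h : ℕ → ℤ) (j i : ℕ) : (DLa_E ^ j) h i = h (i + j) := by
  induction j generalizing i with
  | zero => rfl
  | succ j ih =>
    rw [pow_succ']
    change (DLa_E ^ j) h (i + 1) = h (i + (j + 1))
    rw [ih]
    congr 1
    omega

private theorem DLa_aeval (R : Polynomial ℤ) (h : ℕ → ℤ) :
    ap R h = (Polynomial.aeval DLa_E R) h := by
  funext i
  rw [Polynomial.aeval_eq_sum_range, LinearMap.sum_apply, Finset.sum_apply]
  unfold ap
  refine Finset.sum_congr rfl fun j _ => ?_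
  rw [LinearMap.smul_apply, Pi.smul_apply, DLa_pow, smul_eq_mul]

theorem ap_mul (S R : Polynomial ℤ) (h : ℕ → ℤ) : ap (S * R) h = ap S (ap R h) := by
  rw [DLa_aeval, DLa_aeval, DLa_aeval, map_mul]
  rfl

theorem ap_mul_zero (S R : Polynomial ℤ) (h : ℕ → ℤ) (a : ℕ) (e : ∀ i, a ≤ i → ap R h i = 0) :
    ∀ i, a ≤ i → ap (S * R) h i = 0 := by
  intro i hi
  rw [ap_mul]
  unfold ap at e ⊢
  refine Finset.sum_eq_zero fun j _ => ?_
  rw [e (i + j) (by omega), mul_zero]

theorem ap_shift (R : Polynomial ℤ) (h : ℕ → ℤ) (a i : ℕ) :
    ap R (fun j => h (j + a)) i = ap R h (i + a) := by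
  unfold ap
  refine Finset.sum_congr rfl fun j _ => ?_
  change R.coeff j * h (i + j + a) = R.coeff j * h (i + a + j)
  rw [show i + j + a = i + a + j by omega]

theorem dl_length (R : Polynomial ℤ) (l : List ℤ) : (dl R l).length = l.length - R.natDegree := by
  unfold dl
  rw [List.length_map, List.length_range]

theorem dl_getD (R : Polynomial ℤ) (l : List ℤ) (i : ℕ) (h : i < l.length - R.natDegree) :
    (dl R l).getD i 0 = ap R (fun j => l.getD j 0) i := by
  unfold dl
  rw [List.getD_eq_getElem _ _ (by rw [List.length_map, List.length_range]; exact h),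
    List.getElem_map, List.getElem_range]

theorem sfx_length (n : ℕ) (l : List ℤ) : (sfx n l).length = min n l.length := by
  unfold sfx
  rw [List.length_reverse, List.length_take, List.length_reverse]

private theorem DLa_map {m : ℕ} {f g : ℕ → ℤ} (h : ∀ i < m, f i = g i) :
    (List.range m).map f = (List.range m).map g := by
  refine List.map_congr_left fun i hi => ?_
  rw [List.mem_range] at hi
  exact h i hi

private theorem DLa_split (a b : ℕ) (f : ℕ → ℤ) : (List.range (a + b)).map f =
    (List.range a).map f ++ (List.range b).map (fun i => f (i + a)) := by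
  rw [List.range_add, List.map_append, List.map_map]
  congr 1
  refine List.map_congr_left fun i _ => ?_
  change f (a + i) = f (i + a)
  rw [add_comm]

private theorem DLa_split' (a b c : ℕ) (f : ℕ → ℤ) :
    (List.range (a + b)).map (fun i => f (i + c)) =
    (List.range a).map (fun i => f (i + c)) ++ (List.range b).map (fun i => f (i + (a + c))) := by
  rw [DLa_split]
  congr 1
  refine List.map_congr_left fun i _ => ?_
  rw [add_assoc]

private theorem DLa_app_lt (l l' : List ℤ) (i : ℕ) (h : i < l.length) :
    (l ++ l').getD i 0 = l.getD i 0 := List.getD_append _ _ _ _ h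

private theorem DLa_app_ge (l l' : List ℤ) (i : ℕ) (h : l.length ≤ i) :
    (l ++ l').getD i 0 = l'.getD (i - l.length) 0 := List.getD_append_right _ _ _ _ h

private theorem DLa_take (n : ℕ) (l : List ℤ) (i : ℕ) (h : i < n) :
    (l.take n).getD i 0 = l.getD i 0 := by
  rw [List.getD_eq_getElem?_getD, List.getD_eq_getElem?_getD, List.getElem?_take_of_lt h]

private theorem DLa_sfx (n : ℕ) (l : List ℤ) (i : ℕ) (h : i < min n l.length) :
    (sfx n l).getD i 0 = l.getD (l.length - n + i) 0 := by
  have e : sfx n l = l.drop (l.length - n) := by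
    unfold sfx
    rw [List.take_reverse, List.reverse_reverse]
  rw [e, List.getD_eq_getElem?_getD, List.getD_eq_getElem?_getD, List.getElem?_drop]

theorem dl_append (R : Polynomial ℤ) (l l' : List ℤ) :
    dl R (l ++ l') = dl R l ++ (dl R (sfx R.natDegree l ++ l'.take R.natDegree) ++ dl R l') := by
  have e : (l ++ l').length - R.natDegree = (l.length - R.natDegree) +
      (((sfx R.natDegree l ++ l'.take R.natDegree).length - R.natDegree) +
        (l'.length - R.natDegree)) := by
    rw [List.length_append, List.length_append, sfx_length, List.length_take]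
    omega
  have e2 : (sfx R.natDegree l ++ l'.take R.natDegree).length =
      min R.natDegree l.length + min R.natDegree l'.length := by
    rw [List.length_append, sfx_length, List.length_take]
  have e3 : dl R (l ++ l') = (List.range ((l.length - R.natDegree) +
      (((sfx R.natDegree l ++ l'.take R.natDegree).length - R.natDegree) +
        (l'.length - R.natDegree)))).map (ap R (fun j => (l ++ l').getD j 0)) := by
    unfold dl
    rw [e]
  rw [e3, DLa_split, DLa_split']
  congr 1
  · exact DLa_map fun i hi => ap_congr _ _ _ _ fun t ht => by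
      rw [DLa_app_lt l l' (i + t) (by omega)]
  · congr 1
    · refine DLa_map fun i hi => ?_
      rw [← ap_shift]
      refine ap_congr _ _ _ _ fun t ht => ?_
      rw [e2] at hi
      by_cases h1 : i + t < min R.natDegree l.length
      · rw [DLa_app_lt l l' _ (by omega), DLa_app_lt _ _ (i + t) (by rw [sfx_length]; exact h1),
          DLa_sfx _ _ _ h1]
        congr 1
        omega
      · rw [DLa_app_ge l l' _ (by omega), DLa_app_ge _ _ (i + t) (by rw [sfx_length]; omega),
          sfx_length, DLa_take _ _ _ (by omega)]
        congr 1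
        omega
    · refine DLa_map fun i hi => ?_
      rw [← ap_shift]
      refine ap_congr _ _ _ _ fun t ht => ?_
      rw [e2, DLa_app_ge l l' _ (by omega)]
      congr 1
      omega

theorem dl_append_left (R : Polynomial ℤ) (l l' : List ℤ) (h : R.natDegree ≤ l.length) :
    dl R (l ++ l') = dl R l ++ dl R (sfx R.natDegree l ++ l') := by
  have e3 : dl R (l ++ l') = (List.range ((l.length - R.natDegree) +
      ((sfx R.natDegree l ++ l').length - R.natDegree))).map
        (ap R (fun j => (l ++ l').getD j 0)) := by
    unfold dl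
    rw [List.length_append, List.length_append, sfx_length]
    congr 2
    omega
  rw [e3, DLa_split]
  congr 1
  · exact DLa_map fun i hi => ap_congr _ _ _ _ fun t ht => by
      rw [DLa_app_lt l l' (i + t) (by omega)]
  · refine DLa_map fun i hi => ?_
    rw [← ap_shift]
    refine ap_congr _ _ _ _ fun t ht => ?_
    rw [List.length_append, sfx_length] at hi
    by_cases h1 : i + t < min R.natDegree l.length
    · rw [DLa_app_lt l l' _ (by omega), DLa_app_lt _ _ (i + t) (by rw [sfx_length]; exact h1),
        DLa_sfx _ _ _ h1]
      congr 1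
      omega
    · rw [DLa_app_ge l l' _ (by omega), DLa_app_ge _ _ (i + t) (by rw [sfx_length]; omega),
        sfx_length]
      congr 1
      omega

theorem dl_append_right (R : Polynomial ℤ) (l l' : List ℤ) (h : R.natDegree ≤ l'.length) :
    dl R (l ++ l') = dl R (l ++ l'.take R.natDegree) ++ dl R l' := by
  have e3 : dl R (l ++ l') = (List.range (((l ++ l'.take R.natDegree).length - R.natDegree) +
      (l'.length - R.natDegree))).map (ap R (fun j => (l ++ l').getD j 0)) := by
    unfold dl
    rw [List.length_append, List.length_append, List.length_take]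
    congr 2
    omega
  rw [e3, DLa_split]
  congr 1
  · refine DLa_map fun i hi => ?_
    refine ap_congr _ _ _ _ fun t ht => ?_
    rw [List.length_append, List.length_take] at hi
    by_cases h1 : i + t < l.length
    · rw [DLa_app_lt l l' _ h1, DLa_app_lt l _ _ h1]
    · rw [DLa_app_ge l l' _ (by omega), DLa_app_ge l _ _ (by omega), DLa_take _ _ _ (by omega)]
  · refine DLa_map fun i hi => ?_
    rw [← ap_shift]
    refine ap_congr _ _ _ _ fun t ht => ?_
    rw [List.length_append, List.length_take, DLa_app_ge l l' _ (by omega)]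
    congr 1
    omega

theorem dl_SB (R : Polynomial ℤ) {N M : ℕ} {l : List ℤ} (h : SB N l) (hn : R.natDegree ≤ M)
    (hc : ∀ j, |R.coeff j| ≤ (M : ℤ)) : SB (N * ((M + 1) * M + 1)) (dl R l) := by
  obtain ⟨h1, h2⟩ := h
  have hN : N ≤ N * ((M + 1) * M + 1) := Nat.le_mul_of_pos_right N (by omega)
  refine ⟨by rw [dl_length]; omega, ?_⟩
  intro x hx
  unfold dl at hx
  rw [List.mem_map] at hx
  obtain ⟨i, -, rfl⟩ := hx
  have h3 : ∀ j, |l.getD j 0| ≤ (N : ℤ) := by
    intro j
    by_cases hj : j < l.length
    · rw [List.getD_eq_getElem _ _ hj]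
      exact h2 _ (List.getElem_mem hj)
    · rw [List.getD_eq_default _ _ (by omega), abs_zero]
      exact Int.natCast_nonneg N
  unfold ap
  refine (Finset.abs_sum_le_sum_abs _ _).trans ?_
  have h4 : ∀ j ∈ Finset.range (R.natDegree + 1), |R.coeff j * l.getD (i + j) 0| ≤
      (M : ℤ) * N := by
    intro j _
    rw [abs_mul]
    exact mul_le_mul (hc j) (h3 _) (abs_nonneg _) (Int.natCast_nonneg M)
  refine (Finset.sum_le_sum h4).trans ?_
  rw [Finset.sum_const, Finset.card_range, nsmul_eq_mul]
  have h5 : (R.natDegree + 1) * (M * N) ≤ N * ((M + 1) * M + 1) := by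
    calc (R.natDegree + 1) * (M * N) ≤ (M + 1) * (M * N) := Nat.mul_le_mul_right _ (by omega)
      _ = N * ((M + 1) * M) := by ring
      _ ≤ N * ((M + 1) * M + 1) := Nat.mul_le_mul_left _ (by omega)
  exact_mod_cast h5

theorem ap_ini (R : Polynomial ℤ) (hR : R.Monic) (f f' : ℕ → ℤ)
    (h0 : ∀ i < R.natDegree, f i = f' i) (h : ap R f = ap R f') : f = f' := by
  funext i
  induction i using Nat.strong_induction_on with
  | _ i ih =>
    by_cases hi : i < R.natDegree
    · exact h0 i hi
    · obtain ⟨m, rfl⟩ := Nat.exists_eq_add_of_le (not_lt.1 hi)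
      have h1 := congrFun h m
      unfold ap at h1
      rw [Finset.sum_range_succ, Finset.sum_range_succ, Polynomial.Monic.coeff_natDegree hR,
        one_mul, one_mul] at h1
      have h2 : ∑ j ∈ Finset.range R.natDegree, R.coeff j * f (m + j) =
          ∑ j ∈ Finset.range R.natDegree, R.coeff j * f' (m + j) := by
        refine Finset.sum_congr rfl fun j hj => ?_
        rw [Finset.mem_range] at hj
        rw [ih (m + j) (by omega)]
      rw [h2] at h1
      have h3 := add_left_cancel h1
      rw [add_comm R.natDegree m]
      exact h3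

theorem dl_range (R : Polynomial ℤ) (f : ℕ → ℤ) (m : ℕ) :
    dl R ((List.range m).map f) = (List.range (m - R.natDegree)).map (ap R f) := by
  unfold dl
  rw [List.length_map, List.length_range]
  refine DLa_map fun i hi => ap_congr _ _ _ _ fun t ht => ?_
  rw [List.getD_eq_getElem _ _ (by rw [List.length_map, List.length_range]; omega),
    List.getElem_map, List.getElem_range]

end AW
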