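import Pool.Agent.Lib.MP_dd05d9_lc.Defs

/-! closure properties of the size functions -/

set_option autoImplicit false

namespace AW

theorem PM.id : PM (fun n => n) := ⟨Primrec.id, monotone_id, fun _ => le_rfl⟩

theorem PM.comp {F G : ℕ → ℕ} (hF : PM F) (hG : PM G) : PM (fun n => F (G n)) :=
  ⟨hF.1.comp hG.1, fun _ _ h => hF.2.1 (hG.2.1 h), fun n => (hG.2.2 n).trans (hF.2.2 _)⟩

theorem PM.add {F G : ℕ → ℕ} (hF : PM F) (hG : PM G) : PM (fun n => F n + G n) :=
  ⟨Primrec.nat_add.comp hF.1 hG.1, fun _ _ h => Nat.add_le_add (hF.2.1 h) (hG.2.1 h),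
    fun n => (hF.2.2 n).trans (Nat.le_add_right _ _)⟩

theorem PM.mul {F G : ℕ → ℕ} (hF : PM F) (hG : PM G) : PM (fun n => F n * (G n + 1)) :=
  ⟨Primrec.nat_mul.comp hF.1 (Primrec.succ.comp hG.1),
    fun _ _ h => Nat.mul_le_mul (hF.2.1 h) (Nat.succ_le_succ (hG.2.1 h)),
    fun n => (hF.2.2 n).trans (Nat.le_mul_of_pos_right _ (Nat.succ_pos _))⟩

theorem PM.addc {F : ℕ → ℕ} (hF : PM F) (c : ℕ) : PM (fun n => F n + c) :=
  ⟨Primrec.nat_add.comp hF.1 (Primrec.const c), fun _ _ h => Nat.add_le_add_right (hF.2.1 h) c,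
    fun n => (hF.2.2 n).trans (Nat.le_add_right _ _)⟩

theorem PM.mulc {F : ℕ → ℕ} (hF : PM F) (c : ℕ) (hc : 1 ≤ c) : PM (fun n => F n * c) :=
  ⟨Primrec.nat_mul.comp hF.1 (Primrec.const c), fun _ _ h => Nat.mul_le_mul_right c (hF.2.1 h),
    fun n => (hF.2.2 n).trans (Nat.le_mul_of_pos_right _ hc)⟩

/-- iteration `F^[G n] (H n)` -/
theorem PM.iter {F G H : ℕ → ℕ} (hF : PM F) (hG : PM G) (hH : PM H) :
    PM (fun n => F^[G n] (H n)) := by
  refine ⟨Primrec.nat_iterate hG.1 hH.1 (hF.1.comp Primrec.snd).to₂, ?_, ?_⟩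
  · intro a b hab
    have h1 : ∀ m x y : ℕ, x ≤ y → F^[m] x ≤ F^[m] y := by
      intro m
      induction m with
      | zero => intro x y h; exact h
      | succ m ih => intro x y h; exact ih _ _ (hF.2.1 h)
    have h2 : ∀ m x : ℕ, F^[m] x ≤ F^[m + 1] x := by
      intro m x
      rw [Function.iterate_succ_apply]
      exact h1 m _ _ (hF.2.2 x)
    have h3 : ∀ x : ℕ, Monotone (fun m => F^[m] x) := fun x => monotone_nat_of_le_succ (fun m => h2 m x)
    exact (h1 _ _ _ (hH.2.1 hab)).trans (h3 _ (hG.2.1 hab))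
  · intro n
    have h2 : ∀ m x : ℕ, x ≤ F^[m] x := by
      intro m
      induction m with
      | zero => intro x; exact le_rfl
      | succ m ih => intro x; exact (hF.2.2 x).trans (ih _)
    exact (hH.2.2 n).trans (h2 _ _)

theorem PM.iterc {F : ℕ → ℕ} (hF : PM F) (c : ℕ) : PM (fun n => F^[c] n) := by
  induction c with
  | zero => exact PM.id
  | succ c ih =>
    have h : PM (fun n => (fun m => F^[c] m) (F n)) := PM.comp (F := fun m => F^[c] m) ih hF
    exact h

theorem PM.max {F G : ℕ → ℕ} (hF : PM F) (hG : PM G) : PM (fun n => Nat.max (F n) (G n)) :=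
  ⟨Primrec.nat_max.comp hF.1 hG.1, fun _ _ h => max_le_max (hF.2.1 h) (hG.2.1 h),
    fun n => (hF.2.2 n).trans (le_max_left _ _)⟩

theorem PM.pow2 : PM (fun n => 2 ^ n) := by
  have h : PM (fun n => (fun x => x * 2)^[n] (n + 1)) := by
    exact PM.iter (F := fun x => x * 2) (G := fun n => n) (H := fun n => n + 1)
      (PM.mulc PM.id 2 (by norm_num)) PM.id (PM.addc PM.id 1)
  have hP : Primrec (fun n : ℕ => 2 ^ n) := by
    have h1 : Primrec (fun n : ℕ => (fun x => x * 2)^[n] 1) :=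
      Primrec.nat_iterate Primrec.id (Primrec.const 1)
        ((Primrec.nat_mul.comp Primrec.snd (Primrec.const 2))).to₂
    refine h1.of_eq ?_
    intro n
    induction n with
    | zero => rfl
    | succ n ih => rw [Function.iterate_succ_apply', ih, pow_succ]
  exact ⟨hP, fun a b hab => Nat.pow_le_pow_right (by norm_num) hab, fun n => Nat.lt_two_pow_self.le⟩

/-- a power with both arguments growing -/
theorem PM.pow {F G : ℕ → ℕ} (hF : PM F) (hG : PM G) : PM (fun n => (F n + 1) ^ (G n + 1)) := by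
  have hP : Primrec (fun n : ℕ => (F n + 1) ^ (G n + 1)) := by
    have h1 : Primrec (fun n : ℕ => (fun x => x * (F n + 1))^[G n + 1] 1) :=
      Primrec.nat_iterate (Primrec.succ.comp hG.1) (Primrec.const 1)
        ((Primrec.nat_mul.comp Primrec.snd (Primrec.succ.comp (hF.1.comp Primrec.fst)))).to₂
    refine h1.of_eq ?_
    intro n
    generalize G n + 1 = m
    induction m with
    | zero => rfl
    | succ n ih => rw [Function.iterate_succ_apply', ih, pow_succ]
  refine ⟨hP, fun a b hab => ?_, fun n => ?_⟩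
  · exact (Nat.pow_le_pow_left (Nat.succ_le_succ (hF.2.1 hab)) _).trans
      (Nat.pow_le_pow_right (Nat.succ_pos _) (Nat.succ_le_succ (hG.2.1 hab)))
  · calc n ≤ F n + 1 := (hF.2.2 n).trans (Nat.le_succ _)
      _ = (F n + 1) ^ 1 := (pow_one _).symm
      _ ≤ (F n + 1) ^ (G n + 1) := Nat.pow_le_pow_right (Nat.succ_pos _) (by omega)

end AW
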