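import Pool.Agent.Lib.MP_dd05d9_lc.FSa
import Pool.Agent.Lib.MP_dd05d9_lc.DLa
import Pool.Agent.Lib.MP_dd05d9_lc.PMa

/-!
`W` FS of size `M`, length `l`; `dl R (W k)` has length `l - n`; entry `i < l - n` is `sum_{j <= n} R_j (W k).getD (i+j) 0`, a
combination of at most `M + 1` polynomials of size `M` with coefficients bounded by `M` (PB.smul, PB.add, induction on the number of
terms; terms with `i + j < l`): size `(M+1) * M * (M+1)`.
-/

set_option autoImplicit false

namespace AW

private theorem FSdl_sum {M : ℕ} (q : ℕ → ℕ → ℤ) (m : ℕ) (h : ∀ j < m, PB M (q j)) :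
    PB (m * M) (fun k => ∑ j ∈ Finset.range m, q j k) := by
  induction m with
  | zero =>
    refine ⟨[], ⟨by simp, by simp⟩, fun k => ?_⟩
    simp [pe]
  | succ m ih =>
    have h1 := PB.add (ih (fun j hj => h j (by omega))) (h m (by omega))
    have e : (fun k => ∑ j ∈ Finset.range (m + 1), q j k) =
        fun k => (∑ j ∈ Finset.range m, q j k) + q m k := by
      funext k
      rw [Finset.sum_range_succ]
    rw [e, Nat.succ_mul]
    exact h1

theorem FS.dl : ∃ F : ℕ → ℕ, PM F ∧ ∀ (M : ℕ) (W : ℕ → List ℤ) (R : Polynomial ℤ), FS M W →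
    R.natDegree ≤ M → (∀ j, |R.coeff j| ≤ (M : ℤ)) → FS (F M) (fun k => AW.dl R (W k)) := by
  have hPM : PM (fun n => n * (n + 1) * (n + 1)) := PM.mul (PM.mul PM.id PM.id) PM.id
  refine ⟨fun n => n * (n + 1) * (n + 1), hPM, fun M W R hW hn hc => ?_⟩
  obtain ⟨l, hl, h1, h2⟩ := hW
  refine ⟨l - R.natDegree, ((Nat.sub_le _ _).trans hl).trans (hPM.2.2 M), fun k => ?_,
    fun i hi => ?_⟩
  · rw [dl_length, h1]
  · have e : (fun k => (AW.dl R (W k)).getD i 0) = fun k =>
        ∑ j ∈ Finset.range (R.natDegree + 1), R.coeff j * (W k).getD (i + j) 0 := by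
      funext k
      rw [dl_getD R (W k) i (by rw [h1]; exact hi)]
      rfl
    rw [e]
    have h3 := FSdl_sum (M := M * (M + 1)) (fun j k => R.coeff j * (W k).getD (i + j) 0)
      (R.natDegree + 1) (fun j hj => PB.smul (R.coeff j) (hc j) (h2 (i + j) (by omega)))
    refine PB.mono ?_ h3
    calc (R.natDegree + 1) * (M * (M + 1)) ≤ (M + 1) * (M * (M + 1)) :=
          Nat.mul_le_mul_right _ (by omega)
      _ = M * (M + 1) * (M + 1) := by ring

end AW
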