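import Pool.Agent.Lib.MP_dd05d9_lc.GPa

/-!
`gm g h = (g.1, g.2 + h.2)` if `h.1 = []`, otherwise `(g.1 ++ addF h.1 g.2, h.2)`.  For the families `G`, `H` the case distinction is
uniform in `k` (third clause of GP).  First case: PB.add.  Second case: P.addF (Ev), P.append after shift; nonempty.
Ev_of_GP is not needed if P.addF is used for all shifts; `G (. + c)` by GP.shift or P.shift.
* GP.mul' : the same for families which are only eventually GP.
* GP.prod: UNIFORM in the length of the list, so use GP.mul, not GP.mul'.  Let `c0 = F0 N`: all members shifted by `c0` are in `GP e (F0 c0)`.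
  Claim: there is a PM function `H` (built from the functions of GP.mul and GP.shift) such that for a list of length `j` there is a shift
  `s <= H^[j] B0` (`B0 = F0 (F0 N)`), after which the product is in `GP e (H^[j] B0)`.  Step: the product of the tail after shift `s` is in
  `GP e B`, the first member after shift `s` in `GP e (Fsh (B + B0))`; GP.mul with size `B' = Fsh (B+B0) + B`: after the further shift `F B'` the product is in
  `GP e (F (F B'))`.  So `F^[L.length]`: PM.iter; Ev_of_GP.  The empty product is `([],0)`: GP.const or P.nil.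
-/

set_option autoImplicit false

namespace AW

private theorem GMul_addF_ne {l : List ℤ} (h : l ≠ []) (b : ℤ) : addF l b ≠ [] := by
  cases l with
  | nil => exact absurd rfl h
  | cons x t => simp [addF]

theorem GP.mul (e : ℕ) : ∃ F : ℕ → ℕ, PM F ∧ ∀ (N : ℕ) (G H : ℕ → List ℤ × ℤ), GP e N G →
    GP e N H → Ev (GP e) F N (fun k => gm (G k) (H k)) := by
  obtain ⟨F1, hF1, h1⟩ := P.addF e
  obtain ⟨Fs, hFs, hs⟩ := GP.shift e
  have hPM : PM (fun N => (Fs (N + F1 N) + F1 (F1 N)) + (N + N)) :=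
    PM.add (PM.add (PM.comp hFs (PM.add PM.id hF1)) (PM.comp hF1 hF1)) (PM.add PM.id PM.id)
  obtain ⟨F, hF, h2⟩ := Ev_of_GP e hPM
  refine ⟨F, hF, ?_⟩
  intro N G H hG hH
  rcases hH.2.2 with h3 | h3
  · refine h2 N 0 _ (Nat.zero_le _) ?_
    have e1 : (fun k => gm (G (k + 0)) (H (k + 0))) = fun k => ((G k).1, (G k).2 + (H k).2) := by
      funext k
      rw [add_zero, gm, if_pos (h3 k)]
    rw [e1]
    refine GP.mono (N := N + N) (by omega) ⟨P.mono (Nat.le_add_left N N) hG.1, PB.add hG.2.1 hH.2.1, hG.2.2⟩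
  · refine h2 N (F1 N) _ ?_ ?_
    · have := hF1.2.2 (F1 N)
      show F1 N ≤ (Fs (N + F1 N) + F1 (F1 N)) + (N + N)
      omega
    · have e1 : (fun k => gm (G (k + F1 N)) (H (k + F1 N))) =
          fun k => ((G (k + F1 N)).1 ++ addF (H (k + F1 N)).1 (G (k + F1 N)).2, (H (k + F1 N)).2) := by
        funext k
        rw [gm, if_neg (h3 _)]
      rw [e1]
      have hG' := hs (N + F1 N) (F1 N) G (GP.mono (Nat.le_add_right _ _) hG) (Nat.le_add_left _ _)
      have hH' := hs (N + F1 N) (F1 N) H (GP.mono (Nat.le_add_right _ _) hH) (Nat.le_add_left _ _)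
      have hA := h1 N (fun k => (H k).1) (fun k => (G k).2) hH.1 hG.2.1 (F1 N) le_rfl
      refine ⟨P.mono (Nat.le_add_right _ _) (P.append hG'.1 hA), PB.mono ?_ hH'.2.1, Or.inr ?_⟩
      · show Fs (N + F1 N) ≤ (Fs (N + F1 N) + F1 (F1 N)) + (N + N)
        omega
      · intro k h4
        exact GMul_addF_ne (h3 _) _ (List.append_eq_nil_iff.1 h4).2

theorem GP.mul' (e : ℕ) {F0 : ℕ → ℕ} (h0 : PM F0) : ∃ F : ℕ → ℕ, PM F ∧
    ∀ (N : ℕ) (G H : ℕ → List ℤ × ℤ), Ev (GP e) F0 N G →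
    Ev (GP e) F0 N H → Ev (GP e) F N (fun k => gm (G k) (H k)) := by
  obtain ⟨Fm, hFm, hm⟩ := GP.mul e
  have h00 : PM (fun N => F0 (F0 N)) := PM.comp h0 h0
  have h01 : PM (fun N => Fm (F0 (F0 N))) := PM.comp hFm h00
  have hPM : PM (fun N => (Fm (Fm (F0 (F0 N))) + Fm (F0 (F0 N))) + F0 N) :=
    PM.add (PM.add (PM.comp hFm h01) h01) h0
  obtain ⟨F, hF, h2⟩ := Ev_of_GP e hPM
  refine ⟨F, hF, ?_⟩
  intro N G H hG hH
  have hG1 := hG (F0 N) le_rfl
  have hH1 := hH (F0 N) le_rfl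
  have h3 := hm _ _ _ hG1 hH1 (Fm (F0 (F0 N))) le_rfl
  refine h2 N (Fm (F0 (F0 N)) + F0 N) _ ?_ ?_
  · show Fm (F0 (F0 N)) + F0 N ≤ (Fm (Fm (F0 (F0 N))) + Fm (F0 (F0 N))) + F0 N
    omega
  · have e1 : (fun k => gm (G (k + (Fm (F0 (F0 N)) + F0 N))) (H (k + (Fm (F0 (F0 N)) + F0 N)))) =
        fun k => gm (G (k + Fm (F0 (F0 N)) + F0 N)) (H (k + Fm (F0 (F0 N)) + F0 N)) := by
      funext k
      rw [add_assoc]
    rw [e1]
    refine GP.mono ?_ h3
    show Fm (Fm (F0 (F0 N))) ≤ (Fm (Fm (F0 (F0 N))) + Fm (F0 (F0 N))) + F0 N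
    omega

private theorem GMul_iter {S : ℕ → ℕ} (hS : PM S) {m n : ℕ} (h : m ≤ n) (x : ℕ) :
    S^[m] x ≤ S^[n] x := by
  induction n, h using Nat.le_induction with
  | base => exact le_rfl
  | succ n _ ih =>
    rw [Function.iterate_succ_apply']
    exact ih.trans (hS.2.2 _)

theorem GP.prod (e : ℕ) {F0 : ℕ → ℕ} (h0 : PM F0) : ∃ F : ℕ → ℕ, PM F ∧
    ∀ (N : ℕ) (L : List (ℕ → List ℤ × ℤ)), L.length ≤ N → (∀ G ∈ L, Ev (GP e) F0 N G) →
    Ev (GP e) F N (fun k => (L.map (fun G => G k)).foldr gm ([], 0)) := by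
  obtain ⟨Fm, hFm, hm⟩ := GP.mul e
  obtain ⟨Fs, hFs, hs⟩ := GP.shift e
  have hB' : PM (fun B => Fs (B + B) + B) := PM.add (PM.comp hFs (PM.add PM.id PM.id)) PM.id
  have hB1 : PM (fun B => Fm (Fs (B + B) + B)) := PM.comp hFm hB'
  have hS : PM (fun B => (Fm (Fm (Fs (B + B) + B)) + Fm (Fs (B + B) + B)) + B) :=
    PM.add (PM.add (PM.comp hFm hB1) hB1) PM.id
  set S : ℕ → ℕ := fun B => (Fm (Fm (Fs (B + B) + B)) + Fm (Fs (B + B) + B)) + B with hSdef
  have h00 : PM (fun N => F0 (F0 N) + 2) := PM.addc (PM.comp h0 h0) 2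
  have hPM : PM (fun N => S^[N] (F0 (F0 N) + 2) + F0 N) := PM.add (PM.iter hS PM.id h00) h0
  obtain ⟨F, hF, h2⟩ := Ev_of_GP e hPM
  refine ⟨F, hF, ?_⟩
  intro N L hL hmem
  have claim : ∀ T : List (ℕ → List ℤ × ℤ), (∀ G ∈ T, Ev (GP e) F0 N G) →
      ∃ s ≤ S^[T.length] (F0 (F0 N) + 2), GP e (S^[T.length] (F0 (F0 N) + 2))
        (fun k => (T.map (fun G => G (k + s + F0 N))).foldr gm ([], 0)) := by
    intro T
    induction T with
    | nil =>
      intro _
      refine ⟨0, Nat.zero_le _, ?_⟩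
      have h3 : GP e (0 + 2) (fun _ : ℕ => (([], 0) : List ℤ × ℤ)) :=
        GP.const ⟨le_rfl, by simp⟩ (by simp)
      refine GP.mono (N := 0 + 2) ?_ h3
      show 0 + 2 ≤ F0 (F0 N) + 2
      omega
    | cons G T ih =>
      intro hT
      obtain ⟨s, hs1, hs2⟩ := ih (fun G' hG' => hT G' (List.mem_cons_of_mem _ hG'))
      have hG := hT G List.mem_cons_self (F0 N) le_rfl
      have hBle : F0 (F0 N) + 2 ≤ S^[T.length] (F0 (F0 N) + 2) :=
        GMul_iter hS (Nat.zero_le _) (F0 (F0 N) + 2)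
      have e0 : S^[(G :: T).length] (F0 (F0 N) + 2) = S (S^[T.length] (F0 (F0 N) + 2)) := by
        rw [List.length_cons, Function.iterate_succ_apply']
      rw [e0]
      generalize S^[T.length] (F0 (F0 N) + 2) = B at hs1 hs2 hBle ⊢
      have hG2 : GP e (B + B) (fun k => G (k + F0 N)) := GP.mono (by omega) hG
      have hG3 := hs (B + B) s _ hG2 (by omega)
      have hG4 : GP e (Fs (B + B) + B) (fun k => G (k + s + F0 N)) :=
        GP.mono (Nat.le_add_right _ _) hG3
      have hH4 : GP e (Fs (B + B) + B)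
          (fun k => (T.map (fun G => G (k + s + F0 N))).foldr gm ([], 0)) :=
        GP.mono (Nat.le_add_left _ _) hs2
      have h5 := hm _ _ _ hG4 hH4 (Fm (Fs (B + B) + B)) le_rfl
      refine ⟨Fm (Fs (B + B) + B) + s, ?_, ?_⟩
      · show Fm (Fs (B + B) + B) + s ≤ (Fm (Fm (Fs (B + B) + B)) + Fm (Fs (B + B) + B)) + B
        omega
      · have e1 : (fun k => ((G :: T).map (fun G => G (k + (Fm (Fs (B + B) + B) + s) + F0 N))).foldr
            gm ([], 0)) = fun k => gm (G (k + Fm (Fs (B + B) + B) + s + F0 N))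
            ((T.map (fun G => G (k + Fm (Fs (B + B) + B) + s + F0 N))).foldr gm ([], 0)) := by
          funext k
          have e2 : k + (Fm (Fs (B + B) + B) + s) + F0 N = k + Fm (Fs (B + B) + B) + s + F0 N := by
            omega
          simp only [List.map_cons, List.foldr_cons, e2]
        rw [e1]
        refine GP.mono ?_ h5
        show Fm (Fm (Fs (B + B) + B)) ≤ (Fm (Fm (Fs (B + B) + B)) + Fm (Fs (B + B) + B)) + B
        omega
  obtain ⟨s, hs1, hs2⟩ := claim L hmem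
  have hle := GMul_iter hS hL (F0 (F0 N) + 2)
  refine h2 N (s + F0 N) _ ?_ ?_
  · exact Nat.add_le_add_right (hs1.trans hle) _
  · have e1 : (fun k => (L.map (fun G => G (k + (s + F0 N)))).foldr gm ([], 0)) =
        fun k => (L.map (fun G => G (k + s + F0 N))).foldr gm ([], 0) := by
      funext k
      rw [add_assoc]
    rw [e1]
    exact GP.mono (hle.trans (Nat.le_add_right _ _)) hs2

end AW
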