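import Pool.Agent.Lib.MP_dd05d9_lc.Defs

/-!
Polynomials in the binomial basis.  `pe a k = sum_{i < a.length} a_i C(k,i)`.
Useful first: `pe a k = sum_{i < n} a_i C(k,i)` for every `n >= a.length` (`getD` is 0 outside).
PROOFS.
* mono: same list.
* const: list `[c]`.  idf: list `[0,1]`.
* add: list of length `max`, entries `a_i + b_i` (use `List.ofFn` or `(List.range n).map`).
* smul: `a.map (c * .)`.
* succ: `C(k+1,i) = C(k,i) + C(k,i-1)`, so the list with entries `a_i + a_{i+1}` (same length).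
* shift, pe_shift: induction on `c` with succ (the new list has the same length).
* pred is not needed.
* diff: the list `a.tail` (entries `a_{i+1}`), `pe a (k+1) - pe a k = pe a.tail k`.
* sum: the list `s 0 :: a`, induction on `k` with `C(k+1,i+1) = C(k,i+1) + C(k,i)`.
* bound: `C(k,i) <= 2^k`, at most `N` terms, `|a_i| <= N`.
-/

set_option autoImplicit false

namespace AW

theorem pe_ext (a : List ℤ) (n k : ℕ) (h : a.length ≤ n) :
    pe a k = ∑ i ∈ Finset.range n, a.getD i 0 * (k.choose i : ℤ) := by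
  unfold pe
  refine Finset.sum_subset (fun i hi => ?_) (fun i _ hi => ?_)
  · rw [Finset.mem_range] at hi ⊢
    omega
  · rw [Finset.mem_range, not_lt] at hi
    rw [List.getD_eq_default _ _ hi, zero_mul]

private theorem Poly1_map (n : ℕ) (f : ℕ → ℤ) (k : ℕ) :
    pe ((List.range n).map f) k = ∑ i ∈ Finset.range n, f i * (k.choose i : ℤ) := by
  rw [pe_ext _ n k (by simp)]
  refine Finset.sum_congr rfl fun i hi => ?_
  rw [Finset.mem_range] at hi
  have : ((List.range n).map f).getD i 0 = f i := by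
    rw [List.getD_eq_getElem _ _ (by simpa using hi)]
    simp
  rw [this]

private theorem Poly1_getD {N : ℕ} {a : List ℤ} (h : SB N a) (i : ℕ) : |a.getD i 0| ≤ (N : ℤ) := by
  by_cases hi : i < a.length
  · rw [List.getD_eq_getElem _ _ hi]
    exact h.2 _ (List.getElem_mem hi)
  · rw [List.getD_eq_default _ _ (by omega)]
    simp

private theorem Poly1_tail (a : List ℤ) (i : ℕ) : a.tail.getD i 0 = a.getD (i + 1) 0 := by
  cases a with
  | nil => simp
  | cons x t => simp

private theorem Poly1_succ (a : List ℤ) (n k : ℕ) (h : a.length ≤ n) :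
    pe a (k + 1) = pe a k + ∑ i ∈ Finset.range n, a.getD (i + 1) 0 * (k.choose i : ℤ) := by
  rw [pe_ext a (n + 1) (k + 1) (by omega), pe_ext a (n + 1) k (by omega),
    Finset.sum_range_succ' _ n, Finset.sum_range_succ' _ n]
  have h1 : ∑ i ∈ Finset.range n, a.getD (i + 1) 0 * (((k + 1).choose (i + 1) : ℕ) : ℤ) =
      ∑ i ∈ Finset.range n, a.getD (i + 1) 0 * ((k.choose (i + 1) : ℕ) : ℤ) +
        ∑ i ∈ Finset.range n, a.getD (i + 1) 0 * ((k.choose i : ℕ) : ℤ) := by
    rw [← Finset.sum_add_distrib]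
    refine Finset.sum_congr rfl fun i _ => ?_
    rw [Nat.choose_succ_succ]
    push_cast
    ring
  rw [h1]
  simp only [Nat.choose_zero_right]
  ring

theorem PB.mono {N M : ℕ} {p : ℕ → ℤ} (h : N ≤ M) (hp : PB N p) : PB M p := by
  obtain ⟨a, ⟨hl, hb⟩, hpe⟩ := hp
  exact ⟨a, ⟨hl.trans h, fun x hx => (hb x hx).trans (by exact_mod_cast h)⟩, hpe⟩

theorem PB.const {N : ℕ} {c : ℤ} (h : |c| ≤ (N : ℤ)) : PB (N + 1) (fun _ => c) := by
  refine ⟨[c], ⟨by simp, fun x hx => ?_⟩, fun k => ?_⟩
  · rw [List.mem_singleton] at hx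
    subst hx
    push_cast
    omega
  · simp [pe]

theorem PB.idf : PB 2 (fun k => (k : ℤ)) := by
  refine ⟨[0, 1], ⟨by simp, fun x hx => ?_⟩, fun k => ?_⟩
  · simp only [List.mem_cons, List.not_mem_nil, or_false] at hx
    rcases hx with rfl | rfl <;> norm_num
  · simp [pe, Finset.sum_range_succ]

theorem PB.add {N M : ℕ} {p q : ℕ → ℤ} (hp : PB N p) (hq : PB M q) :
    PB (N + M) (fun k => p k + q k) := by
  obtain ⟨a, ha, hpa⟩ := hp
  obtain ⟨b, hb, hqb⟩ := hq
  refine ⟨(List.range (max a.length b.length)).map (fun i => a.getD i 0 + b.getD i 0),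
    ⟨?_, fun x hx => ?_⟩, fun k => ?_⟩
  · rw [List.length_map, List.length_range]
    have h1 := ha.1
    have h2 := hb.1
    omega
  · rw [List.mem_map] at hx
    obtain ⟨i, -, rfl⟩ := hx
    have h1 := Poly1_getD ha i
    have h2 := Poly1_getD hb i
    push_cast
    exact (abs_add_le _ _).trans (add_le_add h1 h2)
  · show p k + q k = _
    rw [Poly1_map, hpa, hqb, pe_ext a (max a.length b.length) k (le_max_left _ _),
      pe_ext b (max a.length b.length) k (le_max_right _ _), ← Finset.sum_add_distrib]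
    refine Finset.sum_congr rfl fun i _ => ?_
    ring

theorem PB.smul {N M : ℕ} {p : ℕ → ℤ} (c : ℤ) (hc : |c| ≤ (M : ℤ)) (hp : PB N p) :
    PB (N * (M + 1)) (fun k => c * p k) := by
  obtain ⟨a, ha, hpa⟩ := hp
  refine ⟨(List.range a.length).map (fun i => c * a.getD i 0), ⟨?_, fun x hx => ?_⟩, fun k => ?_⟩
  · rw [List.length_map, List.length_range]
    have h1 := ha.1
    nlinarith
  · rw [List.mem_map] at hx
    obtain ⟨i, -, rfl⟩ := hx
    have h1 := Poly1_getD ha i
    rw [abs_mul]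
    push_cast
    have h2 : |c| * |a.getD i 0| ≤ (M : ℤ) * N :=
      mul_le_mul hc h1 (abs_nonneg _) (Int.natCast_nonneg _)
    have h3 : (0 : ℤ) ≤ N := Int.natCast_nonneg _
    nlinarith
  · show c * p k = _
    rw [Poly1_map, hpa, pe, Finset.mul_sum]
    refine Finset.sum_congr rfl fun i _ => ?_
    ring

private theorem Poly1_succ' (a : List ℤ) (k : ℕ) :
    pe a (k + 1) = pe ((List.range a.length).map (fun i => a.getD i 0 + a.getD (i + 1) 0)) k := by
  rw [Poly1_map, Poly1_succ a a.length k le_rfl, pe, ← Finset.sum_add_distrib]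
  refine Finset.sum_congr rfl fun i _ => ?_
  ring

theorem PB.succ {N : ℕ} {p : ℕ → ℤ} (hp : PB N p) : PB (2 * N) (fun k => p (k + 1)) := by
  obtain ⟨a, ha, hpa⟩ := hp
  refine ⟨(List.range a.length).map (fun i => a.getD i 0 + a.getD (i + 1) 0),
    ⟨?_, fun x hx => ?_⟩, fun k => ?_⟩
  · rw [List.length_map, List.length_range]
    have h1 := ha.1
    omega
  · rw [List.mem_map] at hx
    obtain ⟨i, -, rfl⟩ := hx
    have h1 := Poly1_getD ha i
    have h2 := Poly1_getD ha (i + 1)
    have h3 := abs_add_le (a.getD i 0) (a.getD (i + 1) 0)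
    push_cast
    linarith
  · show p (k + 1) = _
    rw [hpa, Poly1_succ']

theorem PB.shift {N : ℕ} {p : ℕ → ℤ} (hp : PB N p) (c : ℕ) :
    PB (2 ^ c * N) (fun k => p (k + c)) := by
  induction c with
  | zero => simpa using hp
  | succ c ih =>
    have h1 := ih.succ
    have h2 : 2 * (2 ^ c * N) = 2 ^ (c + 1) * N := by ring
    rw [h2] at h1
    have h3 : (fun k => p (k + 1 + c)) = fun k => p (k + (c + 1)) := by
      funext k
      congr 1
      omega
    rw [← h3]
    exact h1

theorem pe_shift (a : List ℤ) (c : ℕ) :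
    ∃ b : List ℤ, b.length = a.length ∧ ∀ k, pe a (k + c) = pe b k := by
  induction c with
  | zero => exact ⟨a, rfl, fun k => rfl⟩
  | succ c ih =>
    obtain ⟨b, hb, hk⟩ := ih
    refine ⟨(List.range b.length).map (fun i => b.getD i 0 + b.getD (i + 1) 0), ?_, fun k => ?_⟩
    · rw [List.length_map, List.length_range, hb]
    · rw [← Poly1_succ' b k, ← hk (k + 1)]
      congr 1
      omega

theorem pe_diff (a : List ℤ) (k : ℕ) : pe a (k + 1) - pe a k = pe a.tail k := by
  rw [Poly1_succ a a.length k le_rfl, pe_ext a.tail a.length k (by simp)]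
  rw [add_sub_cancel_left]
  refine Finset.sum_congr rfl fun i _ => ?_
  rw [Poly1_tail]

theorem PB.sum {N : ℕ} {a s : ℕ → ℤ} (ha : PB N a) (h0 : |s 0| ≤ (N : ℤ))
    (hs : ∀ k, s (k + 1) = s k + a k) : PB (N + 1) s := by
  obtain ⟨l, hl, hpa⟩ := ha
  refine ⟨s 0 :: l, ⟨?_, fun x hx => ?_⟩, fun k => ?_⟩
  · rw [List.length_cons]
    have h1 := hl.1
    omega
  · rw [List.mem_cons] at hx
    push_cast
    rcases hx with rfl | hx
    · linarith
    · have := hl.2 x hx
      linarith
  · induction k with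
    | zero =>
      rw [pe, List.length_cons, Finset.sum_range_succ']
      simp
    | succ k ih =>
      have h1 := pe_diff (s 0 :: l) k
      rw [List.tail_cons] at h1
      rw [hs, ih, hpa]
      linarith

theorem PB.bound {N : ℕ} {p : ℕ → ℤ} (hp : PB N p) (k : ℕ) :
    |p k| ≤ ((N * N * 2 ^ k : ℕ) : ℤ) := by
  obtain ⟨a, ha, hpa⟩ := hp
  rw [hpa, pe]
  refine (Finset.abs_sum_le_sum_abs _ _).trans ?_
  have h1 : ∀ i ∈ Finset.range a.length,
      |a.getD i 0 * ((k.choose i : ℕ) : ℤ)| ≤ ((N * 2 ^ k : ℕ) : ℤ) := by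
    intro i _
    rw [abs_mul]
    have h2 := Poly1_getD ha i
    have h3 : |((k.choose i : ℕ) : ℤ)| ≤ ((2 ^ k : ℕ) : ℤ) := by
      rw [abs_of_nonneg (Int.natCast_nonneg _)]
      exact_mod_cast Nat.choose_le_two_pow k i
    have h4 := mul_le_mul h2 h3 (abs_nonneg _) (Int.natCast_nonneg _)
    push_cast at h4 ⊢
    exact h4
  refine (Finset.sum_le_card_nsmul _ _ _ h1).trans ?_
  rw [Finset.card_range, nsmul_eq_mul]
  have h5 : a.length * (N * 2 ^ k) ≤ N * N * 2 ^ k := by
    rw [mul_assoc]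
    exact Nat.mul_le_mul_right _ ha.1
  exact_mod_cast h5

end AW
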