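import Pool.Agent.Lib.MP_dd05d9_lc.PMa
import Pool.Agent.Lib.MP_dd05d9_lc.Poly1

/-!
PROOF of `PB_nv`.  Let `p k = pe a k`, `|a_i| <= N`, `a.length <= N`.  If all `a_i = 0` then `p = 0`.
Otherwise let `m` be the last index with `a_m <> 0` (so `m < N`, and `pe a k = sum_{i <= m} a_i C(k,i)`).
If `m = 0`: `p k = a_0 <> 0`.  If `m >= 1` and `k >= 2 m`: `C(k,i) <= C(k,m-1)` for `i <= m-1`
(`Nat.choose_le_choose` type monotonicity, `Nat.choose_le_succ_of_lt_half_left` / or use the identity
`C(k,i+1) (i+1) = C(k,i) (k-i)` (`Nat.choose_succ_right_eq`)), so `|sum_{i<m} a_i C(k,i)| <= N m C(k,m-1)`,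
and `C(k,m) m = C(k,m-1) (k-m+1) > N m^2 C(k,m-1)` as soon as `k >= N m^2 + m`, i.e. `C(k,m) > N m C(k,m-1)`.
So `F N = N * (N * (N+1) + 1) + 3 N` or any larger function works (`PM` by PM.add, PM.mul, ...).
`pe_diffs`: apply `pe_diff` `N` times: the list becomes empty (length at most `N`).
-/

set_option autoImplicit false

namespace AW

private theorem poly2_choose_mono {k i j : ℕ} (hij : i ≤ j) (hj : j ≤ k / 2) :
    k.choose i ≤ k.choose j := by
  induction j, hij using Nat.le_induction with
  | base => exact le_rfl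
  | succ j hij ih => exact (ih (by omega)).trans (Nat.choose_le_succ_of_lt_half_left (by omega))

theorem PB_nv : ∃ F : ℕ → ℕ, PM F ∧ ∀ (N : ℕ) (p : ℕ → ℤ), PB N p →
    (∀ k, F N ≤ k → p k ≠ 0) ∨ (∀ k, p k = 0) := by
  refine ⟨fun N => N * (N * (N + 1) + 1) + (N + N),
    PM.add (PM.mul PM.id (PM.mul PM.id PM.id)) (PM.add PM.id PM.id), ?_⟩
  rintro N p ⟨a, ⟨hal, hab⟩, hp⟩
  by_cases hz : ∀ i, a.getD i 0 = 0
  · right
    intro k
    rw [hp]
    unfold pe
    apply Finset.sum_eq_zero
    intro i _
    rw [hz i, zero_mul]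
  · left
    push Not at hz
    obtain ⟨i0, hi0⟩ := hz
    have hb : ∀ i, |a.getD i 0| ≤ (N : ℤ) := by
      intro i
      by_cases hi : i < a.length
      · rw [List.getD_eq_getElem _ _ hi]
        exact hab _ (List.getElem_mem hi)
      · rw [List.getD_eq_default _ _ (not_lt.1 hi)]
        simp
    have hlt : ∀ i, a.getD i 0 ≠ 0 → i < N := by
      intro i hi
      by_contra h
      apply hi
      exact List.getD_eq_default _ _ (by omega)
    obtain ⟨m, hm, hmax⟩ : ∃ m, a.getD m 0 ≠ 0 ∧ ∀ i, m < i → a.getD i 0 = 0 := by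
      refine ⟨Nat.findGreatest (fun i => a.getD i 0 ≠ 0) N, ?_, ?_⟩
      · exact Nat.findGreatest_spec (P := fun i => a.getD i 0 ≠ 0) (hlt i0 hi0).le hi0
      · intro i hi
        by_contra h
        have := Nat.le_findGreatest (P := fun i => a.getD i 0 ≠ 0) (hlt i h).le h
        omega
    intro k hk
    have hmN := hlt m hm
    have e : p k = ∑ i ∈ Finset.range m, a.getD i 0 * (k.choose i : ℤ) +
        a.getD m 0 * (k.choose m : ℤ) := by
      rw [hp, pe_ext a N k hal, ← Finset.sum_range_succ (fun i => a.getD i 0 * (k.choose i : ℤ)) m]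
      symm
      apply Finset.sum_subset
      · intro i hi
        rw [Finset.mem_range] at hi ⊢
        omega
      · intro i _ hi
        rw [Finset.mem_range] at hi
        rw [hmax i (by omega), zero_mul]
    have hk' : N * (N * (N + 1) + 1) + (N + N) ≤ k := hk
    rcases Nat.eq_zero_or_pos m with h0 | hpos
    · subst h0
      rw [e]
      simpa using hm
    · obtain ⟨j, rfl⟩ : ∃ j, m = j + 1 := ⟨m - 1, by omega⟩
      have hjk : (j + 1) * (j + 1) * N + (j + 1) ≤ k := by
        have h1 : (j + 1) * (j + 1) * N ≤ N * N * N :=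
          Nat.mul_le_mul_right _ (Nat.mul_le_mul hmN.le hmN.le)
        nlinarith [h1, hk']
      have hhalf : j ≤ k / 2 := by
        have h3 : N + N ≤ k := by
          have := Nat.zero_le (N * (N * (N + 1) + 1))
          omega
        omega
      have hc := Nat.choose_succ_right_eq k j
      have hCj : 0 < k.choose j := Nat.choose_pos (by omega)
      have hmain : (j + 1) * N * k.choose j < k.choose (j + 1) := by
        have h4 : (j + 1) * ((j + 1) * N * k.choose j) < (j + 1) * k.choose (j + 1) := by
          have h5 : (j + 1) * (j + 1) * N + 1 ≤ k - j := by omega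
          calc (j + 1) * ((j + 1) * N * k.choose j) = k.choose j * ((j + 1) * (j + 1) * N) := by ring
            _ < k.choose j * ((j + 1) * (j + 1) * N + 1) :=
                Nat.mul_lt_mul_of_pos_left (Nat.lt_succ_self _) hCj
            _ ≤ k.choose j * (k - j) := Nat.mul_le_mul_left _ h5
            _ = (j + 1) * k.choose (j + 1) := by rw [← hc]; ring
        exact Nat.lt_of_mul_lt_mul_left h4
      have hsum : |∑ i ∈ Finset.range (j + 1), a.getD i 0 * (k.choose i : ℤ)| ≤
          (((j + 1) * N * k.choose j : ℕ) : ℤ) := by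
        calc |∑ i ∈ Finset.range (j + 1), a.getD i 0 * (k.choose i : ℤ)|
            ≤ ∑ i ∈ Finset.range (j + 1), |a.getD i 0 * (k.choose i : ℤ)| :=
              Finset.abs_sum_le_sum_abs _ _
          _ ≤ ∑ i ∈ Finset.range (j + 1), (N : ℤ) * (k.choose j : ℤ) := by
              apply Finset.sum_le_sum
              intro i hi
              rw [Finset.mem_range] at hi
              rw [abs_mul, Nat.abs_cast]
              apply mul_le_mul (hb i) _ (by positivity) (by positivity)
              exact_mod_cast poly2_choose_mono (by omega : i ≤ j) hhalf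
          _ = (((j + 1) * N * k.choose j : ℕ) : ℤ) := by
              rw [Finset.sum_const, Finset.card_range]
              push_cast
              rw [nsmul_eq_mul]
              push_cast
              ring
      have hlast : (k.choose (j + 1) : ℤ) ≤ |a.getD (j + 1) 0 * (k.choose (j + 1) : ℤ)| := by
        rw [abs_mul, Nat.abs_cast]
        have h6 : (1 : ℤ) ≤ |a.getD (j + 1) 0| := Int.one_le_abs hm
        have h7 : (0 : ℤ) ≤ (k.choose (j + 1) : ℤ) := by positivity
        nlinarith
      intro hzero
      rw [hzero] at e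
      have e2 : a.getD (j + 1) 0 * (k.choose (j + 1) : ℤ) =
          -(∑ i ∈ Finset.range (j + 1), a.getD i 0 * (k.choose i : ℤ)) := by linarith
      rw [e2, abs_neg] at hlast
      have h8 : (((j + 1) * N * k.choose j : ℕ) : ℤ) < (k.choose (j + 1) : ℤ) := by
        exact_mod_cast hmain
      linarith

/-- the difference operator kills `pe a` after `N >= a.length` applications -/
theorem pe_diffs (N : ℕ) (a : List ℤ) (ha : a.length ≤ N) :
    (fun h : ℕ → ℤ => fun k => h (k + 1) - h k)^[N] (pe a) = fun _ => 0 := by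
  induction N generalizing a with
  | zero =>
    have h0 : a = [] := List.length_eq_zero_iff.1 (by omega)
    subst h0
    funext k
    simp [pe]
  | succ N ih =>
    rw [Function.iterate_succ_apply]
    have h1 : (fun k => pe a (k + 1) - pe a k) = pe a.tail := by
      funext k
      exact pe_diff a k
    rw [h1]
    apply ih
    rw [List.length_tail]
    omega

end AW
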