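import Pool.Agent.Lib.MP_dd05d9_lc.PMa
import Pool.Agent.Lib.MP_dd05d9_lc.DLa
import Pool.Agent.Lib.MP_dd05d9_lc.Poly2

/-!
`RB N M R`: R monic, degree and coefficients at most `M`, `R.reverse = R` or `-R`, divisible by `(X^l - 1)^N` for
`1 <= l <= N`.
* RB_exists: `R = prod_{l in Icc 1 N} (X^l - 1)^N`; monic (`Polynomial.monic_prod_of_monic`, `monic_X_pow_sub_C`),
  degree `<= N * N * N`; coefficients: let `nrm p = sum_j |p_j|` (finite sum over the support or over `range (deg+1)`);
  `nrm (p q) <= nrm p * nrm q`, `nrm (X^l - 1) <= 2`, so the coefficients are `<= 2^(N*N)`.  (Alternatively: the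
  coefficients of a product of `m` polynomials with coefficients in {-1,0,1}, two nonzero ones each, are at most `2^m`:
  induction, `coeff ((X^l - 1) * p) j = p_{j-l} - p_j`, so the bound doubles in each step.)
  `F N = N*N*N + 2^(N*N) + ...` (PM).  Reverse: `Polynomial.reverse_mul_of_domain`, `(X^l - 1).reverse = 1 - X^l`.
* kill: `h (l*j + t) = pe (a t) j` for all `t < l` and all `j`, `(a t).length <= N`.  `ap (X^l - 1) h i = h (i+l) - h i` (degree l);
  for fixed residue `t` it is the difference operator in `j`, so `N` times gives zero by `pe_diffs` (Poly2), and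
  `R = S * (X^l - 1)^N`, ap_mul.
* dl_rev: `ap R.reverse` on the reversed list reads the same window backwards: for `R.coeff 0 <> 0` (true, as
  `R.reverse = +-R` has the same degree) `R.reverse.coeff j = R.coeff (n - j)`; so `dl R l.reverse = +- (dl R l).reverse`;
  only the vanishing is stated.
* ann_inc: `(W (k+c)).drop |W k| = Y k ++ ... ++ Y (k+c-1)` =: X, `X.getD (l*j+t) 0 = (Y (k+j)).getD t 0 = pe (a t) (k+j)` for `j < c`,
  `= pe (b t) j` (pe_shift); the infinite sequence `h (l*j+t) := pe (b t) j` agrees with `X` on the length of `X`, kill, ap_congr.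
* ann_dec: reverse everything (`(W k).reverse` is an inc family with `(Y k).reverse`) and use dl_rev.
-/

set_option autoImplicit false

namespace AW

def RB (N M : ℕ) (R : Polynomial ℤ) : Prop :=
  R.Monic ∧ R.natDegree ≤ M ∧ (∀ j, |R.coeff j| ≤ (M : ℤ)) ∧ (R.reverse = R ∨ R.reverse = -R) ∧
    ∀ l, 1 ≤ l → l ≤ N → (Polynomial.X ^ l - 1) ^ N ∣ R

private theorem coeff_D {l : ℕ} (j : ℕ) :
    (Polynomial.X ^ l - 1 : Polynomial ℤ).coeff j =
      (if j = l then 1 else 0) - (if j = 0 then 1 else 0) := by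
  rw [Polynomial.coeff_sub, Polynomial.coeff_X_pow, Polynomial.coeff_one]

private theorem natDegree_D {l : ℕ} (hl : 1 ≤ l) :
    (Polynomial.X ^ l - 1 : Polynomial ℤ).natDegree = l := by
  have h := Polynomial.natDegree_X_pow_sub_C (R := ℤ) (n := l) (r := 1)
  rwa [map_one] at h

private theorem monic_D {l : ℕ} (hl : 1 ≤ l) : (Polynomial.X ^ l - 1 : Polynomial ℤ).Monic := by
  have h := Polynomial.monic_X_pow_sub_C (R := ℤ) (n := l) 1 (by omega)
  rwa [map_one] at h

private theorem reverse_D {l : ℕ} (hl : 1 ≤ l) :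
    (Polynomial.X ^ l - 1 : Polynomial ℤ).reverse = -(Polynomial.X ^ l - 1) := by
  ext j
  rw [Polynomial.coeff_reverse, natDegree_D hl, Polynomial.coeff_neg, coeff_D, coeff_D]
  rcases Nat.lt_or_ge l j with h | h
  · rw [Polynomial.revAt_eq_self_of_lt h]
    have h1 : j ≠ l := by omega
    have h2 : j ≠ 0 := by omega
    simp [h1, h2]
  · rw [Polynomial.revAt_le h]
    by_cases h1 : j = 0
    · have h2 : (0 : ℕ) ≠ l := by omega
      have h3 : l ≠ 0 := by omega
      subst h1
      simp [h2, h3]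
    · by_cases h2 : j = l
      · subst h2
        have h3 : (0 : ℕ) ≠ j := by omega
        simp [h3, h1]
      · have h3 : l - j ≠ l := by omega
        have h4 : l - j ≠ 0 := by omega
        simp [h1, h2, h3, h4]

private theorem rev_mul {p q : Polynomial ℤ} (hp : p.reverse = p ∨ p.reverse = -p)
    (hq : q.reverse = q ∨ q.reverse = -q) : (p * q).reverse = p * q ∨ (p * q).reverse = -(p * q) := by
  rw [Polynomial.reverse_mul_of_domain]
  rcases hp with hp | hp <;> rcases hq with hq | hq <;> rw [hp, hq]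
  · exact Or.inl rfl
  · exact Or.inr (by ring)
  · exact Or.inr (by ring)
  · exact Or.inl (by ring)

private theorem rev_pow {l : ℕ} (hl : 1 ≤ l) (n : ℕ) :
    ((Polynomial.X ^ l - 1 : Polynomial ℤ) ^ n).reverse = (Polynomial.X ^ l - 1) ^ n ∨
      ((Polynomial.X ^ l - 1 : Polynomial ℤ) ^ n).reverse = -(Polynomial.X ^ l - 1) ^ n := by
  induction n with
  | zero =>
    rw [pow_zero]
    have h := Polynomial.reverse_C (1 : ℤ)
    rw [map_one] at h
    exact Or.inl h
  | succ n ihn =>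
    rw [pow_succ]
    exact rev_mul ihn (Or.inr (reverse_D hl))

private theorem coeff_D_mul {l : ℕ} {p : Polynomial ℤ} {B : ℤ} (hp : ∀ j, |p.coeff j| ≤ B) (j : ℕ) :
    |((Polynomial.X ^ l - 1) * p).coeff j| ≤ 2 * B := by
  rw [sub_mul, one_mul, Polynomial.coeff_sub, Polynomial.coeff_X_pow_mul']
  have hB : 0 ≤ B := (abs_nonneg _).trans (hp 0)
  have h1 : |(if l ≤ j then p.coeff (j - l) else 0)| ≤ B := by
    split_ifs
    · exact hp _
    · simpa using hB
  calc _ ≤ |(if l ≤ j then p.coeff (j - l) else 0)| + |p.coeff j| := abs_sub _ _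
    _ ≤ 2 * B := by linarith [hp j]

private theorem coeff_D_pow_mul {l : ℕ} (n : ℕ) {p : Polynomial ℤ} {B : ℤ}
    (hp : ∀ j, |p.coeff j| ≤ B) (j : ℕ) :
    |((Polynomial.X ^ l - 1) ^ n * p).coeff j| ≤ 2 ^ n * B := by
  induction n generalizing j with
  | zero => simpa using hp j
  | succ n ih =>
    have h := coeff_D_mul (l := l) ih j
    have e : (Polynomial.X ^ l - 1 : Polynomial ℤ) ^ (n + 1) * p =
        (Polynomial.X ^ l - 1) * ((Polynomial.X ^ l - 1) ^ n * p) := by ring
    rw [e]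
    exact h.trans (le_of_eq (by ring))

private theorem prod_props (N : ℕ) (s : Finset ℕ) (hs : ∀ l ∈ s, 1 ≤ l ∧ l ≤ N) :
    (∏ l ∈ s, (Polynomial.X ^ l - 1 : Polynomial ℤ) ^ N).Monic ∧
    (∏ l ∈ s, (Polynomial.X ^ l - 1 : Polynomial ℤ) ^ N).natDegree ≤ s.card * (N * N) ∧
    (∀ j, |(∏ l ∈ s, (Polynomial.X ^ l - 1 : Polynomial ℤ) ^ N).coeff j| ≤ 2 ^ (s.card * N)) ∧
    ((∏ l ∈ s, (Polynomial.X ^ l - 1 : Polynomial ℤ) ^ N).reverse =
        (∏ l ∈ s, (Polynomial.X ^ l - 1 : Polynomial ℤ) ^ N) ∨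
      (∏ l ∈ s, (Polynomial.X ^ l - 1 : Polynomial ℤ) ^ N).reverse =
        -(∏ l ∈ s, (Polynomial.X ^ l - 1 : Polynomial ℤ) ^ N)) := by
  classical
  induction s using Finset.induction_on with
  | empty =>
    refine ⟨by simp, by simp, fun j => ?_, Or.inl ?_⟩
    · rw [Finset.prod_empty, Polynomial.coeff_one]
      split_ifs <;> simp
    · rw [Finset.prod_empty]
      have h := Polynomial.reverse_C (1 : ℤ)
      rwa [map_one] at h
  | insert l s hl ih =>
    obtain ⟨a1, a2, a3, a4⟩ := ih (fun x hx => hs x (Finset.mem_insert_of_mem hx))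
    obtain ⟨b1, b2⟩ := hs l (Finset.mem_insert_self l s)
    rw [Finset.prod_insert hl, Finset.card_insert_of_notMem hl]
    refine ⟨((monic_D b1).pow N).mul a1, ?_, ?_, ?_⟩
    · refine Polynomial.natDegree_mul_le.trans ?_
      have h1 : ((Polynomial.X ^ l - 1 : Polynomial ℤ) ^ N).natDegree ≤ N * N := by
        refine Polynomial.natDegree_pow_le.trans ?_
        rw [natDegree_D b1]
        exact Nat.mul_le_mul_left N b2
      calc _ ≤ N * N + s.card * (N * N) := Nat.add_le_add h1 a2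
        _ = (s.card + 1) * (N * N) := by ring
    · intro j
      exact (coeff_D_pow_mul N a3 j).trans (le_of_eq (by rw [← pow_add]; ring_nf))
    · exact rev_mul (rev_pow b1 N) a4

theorem RB_exists : ∃ F : ℕ → ℕ, PM F ∧ ∀ N, ∃ R, RB N (F N) R := by
  refine ⟨fun n => n * (n + 1) * (n + 1) + 2 ^ (n * (n + 1)), ?_, ?_⟩
  · have h1 : PM (fun n => n * (n + 1)) := PM.mul PM.id PM.id
    have h2 : PM (fun n => n * (n + 1) * (n + 1)) := PM.mul h1 PM.id
    have h3 : PM (fun n => 2 ^ (n * (n + 1))) := PM.comp PM.pow2 h1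
    exact PM.add h2 h3
  · intro N
    obtain ⟨a1, a2, a3, a4⟩ := prod_props N (Finset.Icc 1 N) (fun l hl => Finset.mem_Icc.mp hl)
    have hc : (Finset.Icc 1 N).card = N := by simp
    rw [hc] at a2 a3
    refine ⟨_, a1, ?_, ?_, a4, ?_⟩
    · refine a2.trans ?_
      calc N * (N * N) ≤ N * (N + 1) * (N + 1) := by nlinarith
        _ ≤ _ := Nat.le_add_right _ _
    · intro j
      refine (a3 j).trans ?_
      have h : 2 ^ (N * N) ≤ N * (N + 1) * (N + 1) + 2 ^ (N * (N + 1)) :=
        (Nat.pow_le_pow_right (by norm_num) (Nat.mul_le_mul_left N (Nat.le_succ N))).trans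
          (Nat.le_add_left _ _)
      exact_mod_cast h
    · intro l h1 h2
      exact Finset.dvd_prod_of_mem (fun l => (Polynomial.X ^ l - 1 : Polynomial ℤ) ^ N)
        (Finset.mem_Icc.mpr ⟨h1, h2⟩)

theorem RB.mono {N M M' : ℕ} {R : Polynomial ℤ} (h : M ≤ M') (hR : RB N M R) : RB N M' R :=
  ⟨hR.1, hR.2.1.trans h, fun j => (hR.2.2.1 j).trans (by exact_mod_cast h), hR.2.2.2.1,
    hR.2.2.2.2⟩

theorem kill {N M l : ℕ} {R : Polynomial ℤ} (hR : RB N M R) (h1 : 1 ≤ l) (h2 : l ≤ N)
    (h : ℕ → ℤ) (a : ℕ → List ℤ) (ha : ∀ t < l, (a t).length ≤ N)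
    (e : ∀ t < l, ∀ j, h (l * j + t) = pe (a t) j) : ∀ i, ap R h i = 0 := by
  obtain ⟨S, hS⟩ := hR.2.2.2.2 l h1 h2
  have hDap : ∀ g : ℕ → ℤ, ∀ i, ap (Polynomial.X ^ l - 1) g i = g (i + l) - g i := by
    intro g i
    rw [ap_ext _ g i l (natDegree_D h1).le]
    simp only [coeff_D, sub_mul, Finset.sum_sub_distrib, ite_mul, one_mul, zero_mul]
    rw [Finset.sum_ite_eq' (Finset.range (l + 1)) l, Finset.sum_ite_eq' (Finset.range (l + 1)) 0]
    simp
  have hpow : ∀ (n : ℕ) (g : ℕ → ℤ), ap ((Polynomial.X ^ l - 1) ^ n) g =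
      (fun g : ℕ → ℤ => ap (Polynomial.X ^ l - 1) g)^[n] g := by
    intro n
    induction n with
    | zero =>
      intro g
      funext i
      rw [pow_zero, ap_ext 1 g i 0 (by simp)]
      simp
    | succ n ih =>
      intro g
      rw [pow_succ, ap_mul, ih, Function.iterate_succ_apply]
  have hit : ∀ (n : ℕ) (g : ℕ → ℤ) (t j : ℕ),
      ((fun g : ℕ → ℤ => ap (Polynomial.X ^ l - 1) g)^[n] g) (l * j + t) =
      ((fun h : ℕ → ℤ => fun k => h (k + 1) - h k)^[n] (fun j => g (l * j + t))) j := by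
    intro n
    induction n with
    | zero => intro g t j; rfl
    | succ n ih =>
      intro g t j
      rw [Function.iterate_succ_apply, Function.iterate_succ_apply, ih]
      refine congrArg (fun u => ((fun h : ℕ → ℤ => fun k => h (k + 1) - h k)^[n] u) j) ?_
      funext m
      rw [hDap]
      have e1 : l * m + t + l = l * (m + 1) + t := by ring
      rw [e1]
  have hz : ap ((Polynomial.X ^ l - 1) ^ N) h = fun _ => 0 := by
    funext i
    obtain ⟨j, t, ht, rfl⟩ : ∃ j t, t < l ∧ i = l * j + t :=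
      ⟨i / l, i % l, Nat.mod_lt _ h1, (Nat.div_add_mod i l).symm⟩
    have e2 : (fun j => h (l * j + t)) = pe (a t) := funext (e t ht)
    rw [hpow, hit, e2, pe_diffs N _ (ha t ht)]
  intro i
  rw [hS, mul_comm, ap_mul, hz]
  simp [ap]

end AW
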