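import Pool.Agent.Lib.MP_dd05d9_lc.SF
import Pool.Agent.Lib.MP_dd05d9_lc.GMul
import Pool.Agent.Lib.MP_dd05d9_lc.FSdl
import Pool.Agent.Lib.MP_dd05d9_lc.RXm

/-!
Hypothesis `h`: for all `Y` in `P (e+1) N`: `Ev (GP e) F0 M` of `cmp (dl R (Y k))` (fixed N, M, R).
* adv_eq: dl_append, cmp_append, gm_assoc.
* ADVi: `A k = gm (cmp (dl R (sfx n (Z k) ++ take n (Y k)))) (cmp (dl R (Y k)))` is `Ev (GP e) F M`: `Z` in `P (e+2) (N+1)` (P.inc), P.sf with `n <= M + 1`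
  (P.mono to M + 1), P.pr for `Y`; FS.append (common shift `c`), FS.dl (the FS family of size `F1 c`, take the size `F1 c + M`), cmp_FS (at level e) gives `Ev (GP e)` of
  the shifted family, hence of the family; `h` for `Y`; GP.mul'.
* ADVd: the same with `sfx n (Y k) ++ take n (Z k)`.
-/

set_option autoImplicit false

namespace AW

private theorem ADV_mid (e : ℕ) {F1 : ℕ → ℕ} (h1 : PM F1) : ∃ F : ℕ → ℕ, PM F ∧
    ∀ (M : ℕ) (R : Polynomial ℤ) (A B : ℕ → List ℤ), R.natDegree ≤ M →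
    (∀ j, |R.coeff j| ≤ (M : ℤ)) → Ev FS F1 (M + 1) A → Ev FS F1 (M + 1) B →
    Ev (GP e) F M (fun k => cmp (dl R (A k ++ B k))) := by
  obtain ⟨Fd, hFd, hd⟩ := FS.dl
  obtain ⟨F3, hF3, h3⟩ := cmp_FS e
  have pc : PM (fun n => F1 (n + 1) + n) :=
    PM.add (PM.comp (F := F1) (G := fun n => n + 1) h1 (PM.addc PM.id 1)) PM.id
  have pF1c : PM (fun n => F1 (F1 (n + 1) + n)) := PM.comp (F := F1) (G := fun n => F1 (n + 1) + n) h1 pc
  have pS : PM (fun n => F1 (F1 (n + 1) + n) + F1 (F1 (n + 1) + n) + n) :=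
    PM.add (PM.add pF1c pF1c) PM.id
  have pT : PM (fun n => Fd (F1 (F1 (n + 1) + n) + F1 (F1 (n + 1) + n) + n)) :=
    PM.comp (F := Fd) (G := fun n => F1 (F1 (n + 1) + n) + F1 (F1 (n + 1) + n) + n) hFd pS
  generalize hT : (fun n => Fd (F1 (F1 (n + 1) + n) + F1 (F1 (n + 1) + n) + n)) = T at pT
  have pT3 : PM (fun n => F3 (T n)) := PM.comp (F := F3) (G := T) hF3 pT
  have pT33 : PM (fun n => F3 (F3 (T n))) := PM.comp (F := F3) (G := fun n => F3 (T n)) hF3 pT3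
  have p0 : PM (fun n => F3 (T n) + (F1 (n + 1) + n) + F3 (F3 (T n))) :=
    PM.add (PM.add pT3 pc) pT33
  obtain ⟨F, hF, hEv⟩ := Ev_of_GP e p0
  refine ⟨F, hF, ?_⟩
  intro M R A B hn hc hA hB
  have a1 := hA (F1 (M + 1) + M) (Nat.le_add_right _ _)
  have b1 := hB (F1 (M + 1) + M) (Nat.le_add_right _ _)
  have ab := FS.append a1 b1
  have ab' := FS.mono (M := F1 (F1 (M + 1) + M) + F1 (F1 (M + 1) + M) + M)
    (Nat.le_add_right _ _) ab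
  have hd1 := hd _ _ R ab' (hn.trans (Nat.le_add_left _ _)) (fun j => (hc j).trans (by
    have : M ≤ F1 (F1 (M + 1) + M) + F1 (F1 (M + 1) + M) + M := Nat.le_add_left _ _
    exact_mod_cast this))
  have hTM : Fd (F1 (F1 (M + 1) + M) + F1 (F1 (M + 1) + M) + M) = T M := by rw [← hT]
  rw [hTM] at hd1
  have g := h3 _ _ hd1 (F3 (T M)) le_rfl
  refine hEv M (F3 (T M) + (F1 (M + 1) + M)) _ (Nat.le_add_right _ _) ?_
  refine GP.mono (Nat.le_add_left _ _) ?_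
  have e1 : (fun k => cmp (dl R (A (k + (F3 (T M) + (F1 (M + 1) + M))) ++
      B (k + (F3 (T M) + (F1 (M + 1) + M)))))) =
      fun k => cmp (dl R (A (k + F3 (T M) + (F1 (M + 1) + M)) ++
      B (k + F3 (T M) + (F1 (M + 1) + M)))) := by
    funext k
    rw [Nat.add_assoc]
  show GP e _ (fun k => cmp (dl R (A (k + (F3 (T M) + (F1 (M + 1) + M))) ++
      B (k + (F3 (T M) + (F1 (M + 1) + M))))))
  rw [e1]
  exact g

theorem adv_inc (R : Polynomial ℤ) {Z Y : ℕ → List ℤ} (hZ : ∀ k, Z (k + 1) = Z k ++ Y k) (k : ℕ) :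
    cmp (dl R (Z (k + 1))) = gm (cmp (dl R (Z k)))
      (gm (cmp (dl R (sfx R.natDegree (Z k) ++ (Y k).take R.natDegree))) (cmp (dl R (Y k)))) := by
  rw [hZ k, dl_append, cmp_append, cmp_append]

theorem adv_dec (R : Polynomial ℤ) {Z Y : ℕ → List ℤ} (hZ : ∀ k, Z (k + 1) = Y k ++ Z k) (k : ℕ) :
    cmp (dl R (Z (k + 1))) = gm (gm (cmp (dl R (Y k)))
      (cmp (dl R (sfx R.natDegree (Y k) ++ (Z k).take R.natDegree)))) (cmp (dl R (Z k))) := by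
  rw [hZ k, dl_append, cmp_append, cmp_append, gm_assoc]

private theorem ADV_fsmono : ∀ (N M : ℕ) (W : ℕ → List ℤ), N ≤ M → FS N W → FS M W :=
  fun _ _ _ h hW => FS.mono h hW

private theorem ADV_gpmono (e : ℕ) : ∀ (N M : ℕ) (W : ℕ → List ℤ × ℤ), N ≤ M → GP e N W →
    GP e M W := fun _ _ _ h hW => GP.mono h hW

theorem ADVi (e : ℕ) {F0 : ℕ → ℕ} (h0 : PM F0) : ∃ F : ℕ → ℕ, PM F ∧
    ∀ (N M : ℕ) (R : Polynomial ℤ), N ≤ M → RB N M R →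
    (∀ Y : ℕ → List ℤ, P (e + 1) N Y → Ev (GP e) F0 M (fun k => cmp (dl R (Y k)))) →
    ∀ Z Y : ℕ → List ℤ, P (e + 1) N Y → SB N (Z 0) → (∀ k, Z (k + 1) = Z k ++ Y k) →
    Ev (GP e) F M (fun k => gm (cmp (dl R (sfx R.natDegree (Z k) ++ (Y k).take R.natDegree)))
      (cmp (dl R (Y k)))) := by
  obtain ⟨F1, hF1, h1⟩ := P.sf (e + 1 + 1)
  obtain ⟨F2, hF2, h2⟩ := P.pr (e + 1)
  obtain ⟨F5, hF5, h5⟩ := ADV_mid e (PM.add hF1 hF2)
  obtain ⟨F, hF, h6⟩ := GP.mul' e (PM.add hF5 h0)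
  refine ⟨F, hF, ?_⟩
  intro N M R hNM hR h Z Y hY hZ0 hZ
  have pZ : P (e + 1 + 1) (M + 1) Z := P.mono (Nat.succ_le_succ hNM) (P.inc hY hZ0 hZ)
  have pY : P (e + 1) (M + 1) Y := P.mono (hNM.trans (Nat.le_succ M)) hY
  have hn : R.natDegree ≤ M + 1 := hR.2.1.trans (Nat.le_succ M)
  have s1 := Ev.mono ADV_fsmono hF1 (fun n => Nat.le_add_right (F1 n) (F2 n)) le_rfl
    (h1 (M + 1) R.natDegree Z pZ hn)
  have s2 := Ev.mono ADV_fsmono hF2 (fun n => Nat.le_add_left (F2 n) (F1 n)) le_rfl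
    (h2 (M + 1) R.natDegree Y pY hn)
  have m := h5 M R _ _ hR.2.1 hR.2.2.1 s1 s2
  exact h6 M _ _ (Ev.mono (ADV_gpmono e) hF5 (fun n => Nat.le_add_right (F5 n) (F0 n)) le_rfl m)
    (Ev.mono (ADV_gpmono e) h0 (fun n => Nat.le_add_left (F0 n) (F5 n)) le_rfl (h Y hY))

theorem ADVd (e : ℕ) {F0 : ℕ → ℕ} (h0 : PM F0) : ∃ F : ℕ → ℕ, PM F ∧
    ∀ (N M : ℕ) (R : Polynomial ℤ), N ≤ M → RB N M R →
    (∀ Y : ℕ → List ℤ, P (e + 1) N Y → Ev (GP e) F0 M (fun k => cmp (dl R (Y k)))) →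
    ∀ Z Y : ℕ → List ℤ, P (e + 1) N Y → SB N (Z 0) → (∀ k, Z (k + 1) = Y k ++ Z k) →
    Ev (GP e) F M (fun k => gm (cmp (dl R (Y k)))
      (cmp (dl R (sfx R.natDegree (Y k) ++ (Z k).take R.natDegree)))) := by
  obtain ⟨F1, hF1, h1⟩ := P.sf (e + 1)
  obtain ⟨F2, hF2, h2⟩ := P.pr (e + 1 + 1)
  obtain ⟨F5, hF5, h5⟩ := ADV_mid e (PM.add hF1 hF2)
  obtain ⟨F, hF, h6⟩ := GP.mul' e (PM.add hF5 h0)
  refine ⟨F, hF, ?_⟩
  intro N M R hNM hR h Z Y hY hZ0 hZ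
  have pZ : P (e + 1 + 1) (M + 1) Z := P.mono (Nat.succ_le_succ hNM) (P.dec hY hZ0 hZ)
  have pY : P (e + 1) (M + 1) Y := P.mono (hNM.trans (Nat.le_succ M)) hY
  have hn : R.natDegree ≤ M + 1 := hR.2.1.trans (Nat.le_succ M)
  have s1 := Ev.mono ADV_fsmono hF1 (fun n => Nat.le_add_right (F1 n) (F2 n)) le_rfl
    (h1 (M + 1) R.natDegree Y pY hn)
  have s2 := Ev.mono ADV_fsmono hF2 (fun n => Nat.le_add_left (F2 n) (F1 n)) le_rfl
    (h2 (M + 1) R.natDegree Z pZ hn)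
  have m := h5 M R _ _ hR.2.1 hR.2.2.1 s1 s2
  exact h6 M _ _ (Ev.mono (ADV_gpmono e) h0 (fun n => Nat.le_add_left (F0 n) (F5 n)) le_rfl (h Y hY))
    (Ev.mono (ADV_gpmono e) hF5 (fun n => Nat.le_add_right (F5 n) (F0 n)) le_rfl m)

end AW
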