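import Pool.Agent.Lib.MP_dd05d9_lc.Defs

/-!
`cmp l = l.foldl stp ([],0)`, `gm` = product of gap words.
PROOFS. * gm_one_left/right: cases. `addF l 0 = l`. * gm_assoc: cases on `h.1 = []`, `g.1 = []`
(`addF (l ++ l') b = addF l b ++ l'` if `l <> []`, `addF (addF l a) b = addF l (a+b)`, `addF l b = [] <-> l = []`).
* foldl_stp: `l.foldl stp g = gm g (cmp l)`: induction on `l` from the right (`List.reverseRecOn`), or from the left:
  `foldl stp g (x :: l) = foldl stp (stp g x) l = gm (stp g x) (cmp l)` and `stp g x = gm g (stp ([],0) x)`, `gm_assoc`.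
* cmp_append follows.  * cmp_zeros: induction on n. * cmp_all_zero.
* length: the list part has even length `2 * (number of nonzero entries)`.
* cmp_fst_eq_nil: `(cmp l).1 = []` iff all entries are zero.
* cmp_SB: entries of `(cmp l).1` are gaps (between 0 and the length of l) or entries of l; the length is
  `2 * count <= 2 * l.length`; `0 <= (cmp l).2 <= l.length`.
* gm_SB: cases.
-/

set_option autoImplicit false

namespace AW

theorem addF_zero (l : List ℤ) : addF l 0 = l := by
  cases l with
  | nil => rfl
  | cons x t => simp [addF]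

theorem addF_add (l : List ℤ) (a b : ℤ) : addF (addF l a) b = addF l (a + b) := by
  cases l with
  | nil => rfl
  | cons x t => simp [addF, add_assoc]

theorem addF_append (l l' : List ℤ) (b : ℤ) (h : l ≠ []) : addF (l ++ l') b = addF l b ++ l' := by
  cases l with
  | nil => exact absurd rfl h
  | cons x t => simp [addF]

theorem addF_eq_nil (l : List ℤ) (b : ℤ) : addF l b = [] ↔ l = [] := by
  cases l with
  | nil => simp [addF]
  | cons x t => simp [addF]

theorem addF_length (l : List ℤ) (b : ℤ) : (addF l b).length = l.length := by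
  cases l with
  | nil => rfl
  | cons x t => simp [addF]

theorem gm_one_left (g : List ℤ × ℤ) : gm ([], 0) g = g := by
  unfold gm
  by_cases h : g.1 = []
  · rw [if_pos h]
    ext1
    · exact h.symm
    · simp
  · rw [if_neg h]
    simp [addF_zero]

theorem gm_one_right (g : List ℤ × ℤ) : gm g ([], 0) = g := by
  unfold gm
  simp

theorem gm_assoc (g h j : List ℤ × ℤ) : gm (gm g h) j = gm g (gm h j) := by
  unfold gm
  by_cases hj : j.1 = []
  · by_cases hh : h.1 = []
    · simp [hj, hh, add_assoc]
    · simp [hj, hh]
  · by_cases hh : h.1 = []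
    · simp [hj, hh, addF_eq_nil, addF_add, add_comm]
    · simp [hj, hh, addF_append _ _ _ hh]

/-- one step is multiplication by the code of one letter -/
theorem CMa_stp_eq (g : List ℤ × ℤ) (x : ℤ) : stp g x = gm g (stp ([], 0) x) := by
  unfold stp gm
  by_cases hx : x = 0
  · simp [hx]
  · simp [hx, addF]

theorem foldl_stp (g : List ℤ × ℤ) (l : List ℤ) : l.foldl stp g = gm g (cmp l) := by
  induction l generalizing g with
  | nil => simp [cmp, gm_one_right]
  | cons x l ih =>
    have h1 : cmp (x :: l) = gm (stp ([], 0) x) (cmp l) := by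
      show (x :: l).foldl stp ([], 0) = _
      rw [List.foldl_cons, ih]
    rw [List.foldl_cons, ih, h1, CMa_stp_eq g x, gm_assoc]

theorem cmp_nil : cmp [] = ([], 0) := rfl

theorem cmp_append (l l' : List ℤ) : cmp (l ++ l') = gm (cmp l) (cmp l') := by
  unfold cmp
  rw [List.foldl_append, foldl_stp]
  rfl

/-- the last letter -/
theorem CMa_cmp_concat (l : List ℤ) (x : ℤ) : cmp (l ++ [x]) = stp (cmp l) x := by
  unfold cmp
  rw [List.foldl_append]
  rfl

theorem cmp_all_zero (l : List ℤ) (h : ∀ x ∈ l, x = 0) : cmp l = ([], (l.length : ℤ)) := by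
  induction l using List.reverseRecOn with
  | nil => rfl
  | append_singleton l x ih =>
    rw [CMa_cmp_concat, ih (fun y hy => h y (by simp [hy]))]
    have hx : x = 0 := h x (by simp)
    unfold stp
    simp [hx]

theorem cmp_length (l : List ℤ) : (cmp l).1.length = 2 * (l.filter (fun x => x ≠ 0)).length := by
  induction l using List.reverseRecOn with
  | nil => rfl
  | append_singleton l x ih =>
    rw [CMa_cmp_concat, List.filter_append, List.length_append]
    unfold stp
    by_cases hx : x = 0
    · simp [hx, ih]
    · simp [hx, ih]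
      ring

theorem cmp_fst_eq_nil (l : List ℤ) : (cmp l).1 = [] ↔ ∀ x ∈ l, x = 0 := by
  rw [← List.length_eq_zero_iff, cmp_length]
  constructor
  · intro h x hx
    have h2 : (l.filter (fun x => x ≠ 0)).length = 0 := by omega
    rw [List.length_eq_zero_iff, List.filter_eq_nil_iff] at h2
    have h3 := h2 x hx
    simpa using h3
  · intro h
    have h2 : l.filter (fun x => x ≠ 0) = [] := by
      rw [List.filter_eq_nil_iff]
      intro x hx
      simp [h x hx]
    rw [h2]
    rfl

theorem cmp_SB {N : ℕ} {l : List ℤ} (h : SB N l) :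
    SB (2 * N) (cmp l).1 ∧ 0 ≤ (cmp l).2 ∧ (cmp l).2 ≤ (N : ℤ) := by
  obtain ⟨h1, h2⟩ := h
  have key : (∀ x ∈ (cmp l).1, |x| ≤ ((2 * N : ℕ) : ℤ)) ∧ 0 ≤ (cmp l).2 ∧
      (cmp l).2 ≤ (l.length : ℤ) := by
    induction l using List.reverseRecOn with
    | nil => simp [cmp]
    | append_singleton l x ih =>
      have hlen : l.length + 1 ≤ N := by simpa using h1
      obtain ⟨ih1, ih2, ih3⟩ := ih (by omega) (fun y hy => h2 y (by simp [hy]))
      rw [CMa_cmp_concat]
      unfold stp
      by_cases hx : x = 0
      · simp only [hx, if_true]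
        refine ⟨ih1, by linarith, ?_⟩
        simp
        linarith
      · simp only [hx, if_false]
        refine ⟨?_, le_refl _, by positivity⟩
        intro y hy
        rw [List.mem_append] at hy
        rcases hy with hy | hy
        · exact ih1 y hy
        · simp only [List.mem_cons, List.not_mem_nil, or_false] at hy
          have hN : (l.length : ℤ) ≤ N := by exact_mod_cast (by omega : l.length ≤ N)
          rcases hy with rfl | rfl
          · rw [abs_of_nonneg ih2]
            push_cast
            have : (0 : ℤ) ≤ N := by positivity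
            linarith
          · have h3 := h2 y (by simp)
            push_cast
            have : (0 : ℤ) ≤ N := by positivity
            linarith
  obtain ⟨k1, k2, k3⟩ := key
  refine ⟨⟨?_, k1⟩, k2, k3.trans (by exact_mod_cast h1)⟩
  rw [cmp_length]
  have := List.length_filter_le (fun x : ℤ => decide (x ≠ 0)) l
  have h4 : (l.filter (fun x => x ≠ 0)).length ≤ l.length := this
  omega

theorem gm_SB {A B : ℕ} {g h : List ℤ × ℤ} (h1 : SB A g.1) (h2 : |g.2| ≤ (A : ℤ)) (h3 : SB B h.1)
    (h4 : |h.2| ≤ (B : ℤ)) : SB (A + B) (gm g h).1 ∧ |(gm g h).2| ≤ ((A + B : ℕ) : ℤ) := by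
  have hA : (0 : ℤ) ≤ A := by positivity
  have hB : (0 : ℤ) ≤ B := by positivity
  unfold gm
  by_cases hh : h.1 = []
  · rw [if_pos hh]
    refine ⟨⟨h1.1.trans (by omega), fun x hx => ?_⟩, ?_⟩
    · have := h1.2 x hx
      push_cast
      linarith
    · have := abs_add_le g.2 h.2
      push_cast
      linarith
  · rw [if_neg hh]
    refine ⟨⟨?_, fun x hx => ?_⟩, ?_⟩
    · rw [List.length_append, addF_length]
      have := h1.1
      have := h3.1
      omega
    · rw [List.mem_append] at hx
      push_cast
      rcases hx with hx | hx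
      · have := h1.2 x hx
        linarith
      · obtain ⟨y, t, hyt⟩ : ∃ y t, h.1 = y :: t := by
          cases hc : h.1 with
          | nil => exact absurd hc hh
          | cons y t => exact ⟨y, t, rfl⟩
        rw [hyt] at hx
        simp only [addF, List.mem_cons] at hx
        rcases hx with rfl | hx
        · have h5 := h3.2 y (by rw [hyt]; simp)
          have := abs_add_le y g.2
          linarith
        · have h5 := h3.2 x (by rw [hyt]; simp [hx])
          linarith
    · push_cast
      linarith

end AW
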