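import Pool.Agent.Lib.MP_dd05d9_lc.HD
import Pool.Agent.Lib.MP_dd05d9_lc.CMa

/-!
P.di: eventually empty: then `addF [] b = []`, P.nil.  Or eventually nonempty (shift by `e`, P.shift, N replaced by max N e):
P.hd: `W k = x k :: V k` (use `List.cons_head_tail` / cases), `addF (W k) (b k) = [x k + b k] ++ V k`: FS.single, PB.add, PB.shift, P.ofFS, P.append.
Same for the last entry is not needed.
-/

set_option autoImplicit false

namespace AW

theorem P.addF (e : ℕ) : ∃ F : ℕ → ℕ, PM F ∧ ∀ (N : ℕ) (W : ℕ → List ℤ) (b : ℕ → ℤ), P e N W →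
    PB N b → Ev (P e) F N (fun k => AW.addF (W k) (b k)) := by
  obtain ⟨Fs, hs, Hs⟩ := P.shift e
  obtain ⟨Fh, hh, Hh⟩ := P.hd e
  refine ⟨fun n => ((Fh (Fs (n + e)) + e) + (Fh n + (Fh n + 2 ^ n * (n + 1)))) + 2,
    PM.addc (PM.add (PM.addc (PM.comp hh (PM.comp hs (PM.addc PM.id e))) e)
      (PM.add hh (PM.add hh (PM.mul PM.pow2 PM.id)))) 2, ?_⟩
  intro N W b hW hb c hc
  dsimp only at hc ⊢
  have hNc : N ≤ c := by
    have h1 := hh.2.2 N
    omega
  rcases P.di hW with h0 | h0
  · have e1 : (fun k => AW.addF (W (k + c)) (b (k + c))) = fun _ => [] := by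
      funext k
      rw [h0 (k + c) (by omega)]
      rfl
    rw [e1]
    exact P.nil e _
  · have h1 : P e (N + e) W := P.mono (by omega) hW
    have h2 : P e (Fs (N + e)) (fun k => W (k + e)) := Hs (N + e) W e h1 (by omega)
    obtain ⟨a1, a2⟩ := Hh (Fs (N + e)) (fun k => W (k + e)) h2 (fun k => h0 (k + e) (by omega))
    have hc0 : Fh (Fs (N + e)) ≤ c - e := by omega
    have b1 := a1 (c - e) hc0
    have b2 := a2 (c - e) hc0
    have hec : c - e + e = c := by omega
    have b3 := PB.shift hb c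
    have b4 := P.ofFS (e := e) (FS.single (PB.add b1 b3))
    have b5 := P.append b4 b2
    have e2 : (fun k => AW.addF (W (k + c)) (b (k + c))) =
        fun k => [(W (k + (c - e) + e)).headD 0 + b (k + c)] ++ (W (k + (c - e) + e)).tail := by
      funext k
      have e3 : k + (c - e) + e = k + c := by omega
      rw [e3]
      have h3 := h0 (k + c) (by omega)
      cases hw : W (k + c) with
      | nil => exact absurd hw h3
      | cons x t => rfl
    rw [e2]
    refine P.mono ?_ b5
    have m1 : Fh (c - e) ≤ Fh c := hh.2.1 (by omega)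
    have m2 : 2 ^ c * N ≤ 2 ^ c * (c + 1) := Nat.mul_le_mul_left _ (by omega)
    omega

end AW
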