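import Pool.Agent.Lib.MP_dd05d9_lc.Poly1

/-!
`FS N W` : constant length `l <= N`, entries `(W k).getD i 0` polynomial for `i < l`.
All proofs: entry by entry (`List.getD_append`, `List.getD_append_right`, `List.getElem_take`, ...); for `i >= l`
the entry is 0.
* ofEntries is the definition.  * bound: from PB.bound, length `<= N <= N*N*2^k` (N = 0 : empty list).
* cons: `FS.append` with `[x k]`.  * tail = drop 1.
-/

set_option autoImplicit false

namespace AW

theorem SB.mono {N M : ℕ} {l : List ℤ} (h : N ≤ M) (hl : SB N l) : SB M l :=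
  ⟨hl.1.trans h, fun x hx => (hl.2 x hx).trans (by exact_mod_cast h)⟩

theorem SB.append {N M : ℕ} {l l' : List ℤ} (hl : SB N l) (hl' : SB M l') :
    SB (N + M) (l ++ l') := by
  refine ⟨?_, fun x hx => ?_⟩
  · rw [List.length_append]
    exact Nat.add_le_add hl.1 hl'.1
  · rcases List.mem_append.mp hx with h | h
    · exact (hl.2 x h).trans (by exact_mod_cast Nat.le_add_right N M)
    · exact (hl'.2 x h).trans (by exact_mod_cast Nat.le_add_left M N)

theorem FS.mono {N M : ℕ} {W : ℕ → List ℤ} (h : N ≤ M) (hW : FS N W) : FS M W := by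
  obtain ⟨l, hl, h1, h2⟩ := hW
  exact ⟨l, hl.trans h, h1, fun i hi => PB.mono h (h2 i hi)⟩

private theorem FSa_getD_mem {l : List ℤ} {i : ℕ} (hi : i < l.length) : l.getD i 0 ∈ l := by
  rw [List.getD_eq_getElem _ _ hi]
  exact List.getElem_mem hi

theorem FS.const {N : ℕ} {l : List ℤ} (h : SB N l) : FS (N + 1) (fun _ => l) :=
  ⟨l.length, h.1.trans (Nat.le_succ _), fun _ => rfl,
    fun _ hi => PB.const (h.2 _ (FSa_getD_mem hi))⟩

theorem FS.nil (N : ℕ) : FS N (fun _ => []) :=
  ⟨0, Nat.zero_le _, fun _ => rfl, fun i hi => absurd hi (Nat.not_lt_zero i)⟩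

theorem FS.single {N : ℕ} {p : ℕ → ℤ} (hp : PB N p) : FS (N + 1) (fun k => [p k]) := by
  refine ⟨1, by omega, fun _ => rfl, fun i hi => ?_⟩
  obtain rfl : i = 0 := by omega
  exact PB.mono (Nat.le_succ _) hp

theorem FS.append {N M : ℕ} {W V : ℕ → List ℤ} (hW : FS N W) (hV : FS M V) :
    FS (N + M) (fun k => W k ++ V k) := by
  obtain ⟨l, hl, h1, h2⟩ := hW
  obtain ⟨m, hm, h3, h4⟩ := hV
  refine ⟨l + m, Nat.add_le_add hl hm, fun k => ?_, fun i hi => ?_⟩
  · rw [List.length_append, h1, h3]
  · by_cases hil : i < l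
    · have e : (fun k => (W k ++ V k).getD i 0) = fun k => (W k).getD i 0 := by
        funext k
        rw [List.getD_append]
        rw [h1]
        exact hil
      rw [e]
      exact PB.mono (Nat.le_add_right _ _) (h2 i hil)
    · have e : (fun k => (W k ++ V k).getD i 0) = fun k => (V k).getD (i - l) 0 := by
        funext k
        rw [List.getD_append_right, h1]
        rw [h1]
        exact Nat.le_of_not_lt hil
      rw [e]
      exact PB.mono (Nat.le_add_left _ _) (h4 (i - l) (by omega))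

theorem FS.take {N : ℕ} {W : ℕ → List ℤ} (n : ℕ) (hW : FS N W) : FS N (fun k => (W k).take n) := by
  obtain ⟨l, hl, h1, h2⟩ := hW
  refine ⟨min n l, (min_le_right _ _).trans hl, fun k => ?_, fun i hi => ?_⟩
  · rw [List.length_take, h1]
  · have hin : i < n := lt_of_lt_of_le hi (min_le_left _ _)
    have e : (fun k => ((W k).take n).getD i 0) = fun k => (W k).getD i 0 := by
      funext k
      rw [List.getD_eq_getElem?_getD, List.getD_eq_getElem?_getD, List.getElem?_take_of_lt hin]
    rw [e]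
    exact h2 i (lt_of_lt_of_le hi (min_le_right _ _))

theorem FS.drop {N : ℕ} {W : ℕ → List ℤ} (n : ℕ) (hW : FS N W) : FS N (fun k => (W k).drop n) := by
  obtain ⟨l, hl, h1, h2⟩ := hW
  refine ⟨l - n, (Nat.sub_le _ _).trans hl, fun k => ?_, fun i hi => ?_⟩
  · rw [List.length_drop, h1]
  · have e : (fun k => ((W k).drop n).getD i 0) = fun k => (W k).getD (n + i) 0 := by
      funext k
      rw [List.getD_eq_getElem?_getD, List.getD_eq_getElem?_getD, List.getElem?_drop]
    rw [e]
    exact h2 (n + i) (by omega)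

theorem FS.reverse {N : ℕ} {W : ℕ → List ℤ} (hW : FS N W) : FS N (fun k => (W k).reverse) := by
  obtain ⟨l, hl, h1, h2⟩ := hW
  refine ⟨l, hl, fun k => ?_, fun i hi => ?_⟩
  · rw [List.length_reverse, h1]
  · have e : (fun k => ((W k).reverse).getD i 0) = fun k => (W k).getD (l - 1 - i) 0 := by
      funext k
      rw [List.getD_eq_getElem?_getD, List.getD_eq_getElem?_getD,
        List.getElem?_reverse (by rw [h1]; exact hi), h1]
    rw [e]
    exact h2 (l - 1 - i) (by omega)

theorem FS.shift {N : ℕ} {W : ℕ → List ℤ} (hW : FS N W) (c : ℕ) :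
    FS (2 ^ c * N) (fun k => W (k + c)) := by
  obtain ⟨l, hl, h1, h2⟩ := hW
  refine ⟨l, hl.trans (Nat.le_mul_of_pos_left _ (by positivity)), fun k => h1 _, fun i hi => ?_⟩
  exact PB.shift (h2 i hi) c

theorem FS.bound {N : ℕ} {W : ℕ → List ℤ} (hW : FS N W) (k : ℕ) : SB (N * N * 2 ^ k) (W k) := by
  obtain ⟨l, hl, h1, h2⟩ := hW
  refine ⟨?_, fun x hx => ?_⟩
  · rw [h1]
    rcases Nat.eq_zero_or_pos N with h | h
    · omega
    · calc l ≤ N := hl
        _ ≤ N * (N * 2 ^ k) := Nat.le_mul_of_pos_right _ (by positivity)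
        _ = N * N * 2 ^ k := by ring
  · obtain ⟨i, hi, hix⟩ := List.getElem_of_mem hx
    have h3 := PB.bound (h2 i (by rw [← h1 k]; exact hi)) k
    rw [List.getD_eq_getElem _ _ hi, hix] at h3
    exact h3

end AW
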