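import Pool.Agent.Lib.MP_dd05d9_lc.RXm
import Pool.Agent.Lib.MP_dd05d9_lc.FSa

/-!
* dl_rev: let `n = R.natDegree`.  `R.coeff 0 <> 0` (otherwise `R.reverse` has smaller degree, but `R.reverse = +-R`; use
  `Polynomial.reverse_natDegree`), and `R.coeff (n - j) = +- R.coeff j` for `j <= n` (`Polynomial.coeff_reverse`, `revAt`).  Entry `i` of
  `dl R l.reverse` is `sum_j R_j l_{|l|-1-i-j}` `= +- sum_j R_{n-j} l_{...}` = +- entry `|l| - n - 1 - i` of `dl R l`.  So all entries of
  `dl R l` are 0 iff all entries of `dl R l.reverse` are.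
* ann_inc: `(W (k+c)).drop |W k| = Y k ++ ... ++ Y (k+c-1)` =: X; `X.getD (l*j+t) 0 = (Y (k+j)).getD t 0 = pe (a t) (k+j)` for `j < c`, `t < l`,
  `= pe (b t) j` (pe_shift); the infinite sequence `h (l*j+t) := pe (b t) j` (`h i = pe (b (i % l)) (i / l)`) agrees with `X` on the
  length of `X`; kill and ap_congr.
* ann_dec: reverse everything (`(W k).reverse` is an inc family with `(Y k).reverse`, FS.reverse) and use dl_rev.
-/

set_option autoImplicit false

namespace AW

theorem dl_rev {N M : ℕ} {R : Polynomial ℤ} (hR : RB N M R) (l : List ℤ)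
    (h : ∀ x ∈ dl R l, x = 0) : ∀ x ∈ dl R l.reverse, x = 0 := by
  intro x hx
  unfold dl at hx
  rw [List.mem_map] at hx
  obtain ⟨i, hi, rfl⟩ := hx
  rw [List.mem_range, List.length_reverse] at hi
  set n := R.natDegree with hn
  have h0 : ap R (fun j => l.getD j 0) (l.length - n - 1 - i) = 0 := by
    refine h _ ?_
    unfold dl
    rw [List.mem_map]
    exact ⟨l.length - n - 1 - i, by rw [List.mem_range]; omega, rfl⟩
  have hsum : ap R (fun j => l.reverse.getD j 0) i =
      ∑ j ∈ Finset.range (n + 1), R.coeff (n - j) * l.getD (l.length - n - 1 - i + j) 0 := by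
    unfold ap
    rw [← hn, ← Finset.sum_range_reflect]
    refine Finset.sum_congr rfl fun j hj => ?_
    rw [Finset.mem_range] at hj
    have e1 : n + 1 - 1 - j = n - j := by omega
    rw [e1]
    have e2 : l.reverse.getD (i + (n - j)) 0 = l.getD (l.length - n - 1 - i + j) 0 := by
      rw [List.getD_eq_getElem?_getD, List.getD_eq_getElem?_getD, List.getElem?_reverse (by omega)]
      have e3 : l.length - 1 - (i + (n - j)) = l.length - n - 1 - i + j := by omega
      rw [e3]
    exact congrArg (fun u => R.coeff (n - j) * u) e2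
  rcases hR.2.2.2.1 with h2 | h2
  · have e : ap R (fun j => l.reverse.getD j 0) i =
        ap R (fun j => l.getD j 0) (l.length - n - 1 - i) := by
      rw [hsum]
      unfold ap
      refine Finset.sum_congr rfl fun j hj => ?_
      rw [Finset.mem_range] at hj
      have h1 : R.reverse.coeff j = R.coeff (n - j) := by
        rw [Polynomial.coeff_reverse, Polynomial.revAt_le (by omega)]
      rw [← h1, h2]
    rw [e, h0]
  · have e : ap R (fun j => l.reverse.getD j 0) i =
        -ap R (fun j => l.getD j 0) (l.length - n - 1 - i) := by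
      rw [hsum]
      unfold ap
      rw [← Finset.sum_neg_distrib]
      refine Finset.sum_congr rfl fun j hj => ?_
      rw [Finset.mem_range] at hj
      have h1 : R.reverse.coeff j = R.coeff (n - j) := by
        rw [Polynomial.coeff_reverse, Polynomial.revAt_le (by omega)]
      rw [← h1, h2, Polynomial.coeff_neg]
      ring
    rw [e, h0, neg_zero]

theorem ann_inc {N M l : ℕ} {R : Polynomial ℤ} (hR : RB N M R) {Y W : ℕ → List ℤ} (hY : FS N Y)
    (hl : ∀ k, (Y k).length = l) (h1 : 1 ≤ l) (hW : ∀ k, W (k + 1) = W k ++ Y k) (k c : ℕ) :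
    ∀ x ∈ dl R ((W (k + c)).drop (W k).length), x = 0 := by
  obtain ⟨l', hlN, hlen', hPB⟩ := hY
  have hll : l' = l := (hlen' 0).symm.trans (hl 0)
  subst hll
  have hb : ∀ t : ℕ, ∃ b : List ℤ, t < l' → b.length ≤ N ∧ ∀ j, (Y (k + j)).getD t 0 = pe b j := by
    intro t
    by_cases ht : t < l'
    · obtain ⟨a, ha1, ha2⟩ := hPB t ht
      obtain ⟨b, hb1, hb2⟩ := pe_shift a k
      refine ⟨b, fun _ => ⟨by rw [hb1]; exact ha1.1, fun j => ?_⟩⟩
      rw [← hb2 j, add_comm j k]
      exact ha2 (k + j)
    · exact ⟨[], fun h => absurd h ht⟩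
  choose b hb using hb
  have hX : ∀ c, W (k + c) = W k ++ (List.range c).flatMap (fun j => Y (k + j)) := by
    intro c
    induction c with
    | zero => simp
    | succ c ih =>
      rw [← add_assoc, hW, ih, List.range_succ, List.flatMap_append, List.append_assoc]
      simp
  have hXlen : ∀ c, ((List.range c).flatMap (fun j => Y (k + j))).length = l' * c := by
    intro c
    induction c with
    | zero => simp
    | succ c ih =>
      rw [List.range_succ, List.flatMap_append, List.length_append, ih]
      simp [hl, Nat.mul_succ]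
  have hXget : ∀ c j t, j < c → t < l' →
      ((List.range c).flatMap (fun j => Y (k + j))).getD (l' * j + t) 0 = pe (b t) j := by
    intro c
    induction c with
    | zero => intro j t hj; omega
    | succ c ih =>
      intro j t hj ht
      rw [List.range_succ, List.flatMap_append]
      rcases Nat.lt_or_ge j c with hjc | hjc
      · rw [List.getD_append]
        · exact ih j t hjc ht
        · rw [hXlen]
          calc l' * j + t < l' * j + l' := by omega
            _ = l' * (j + 1) := by ring
            _ ≤ l' * c := Nat.mul_le_mul_left _ hjc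
      · have e : j = c := by omega
        subst e
        rw [List.getD_append_right _ _ _ _ (by rw [hXlen]; omega), hXlen]
        have e1 : l' * j + t - l' * j = t := by omega
        rw [e1]
        simpa using (hb t ht).2 j
  rw [hX c, List.drop_left]
  intro x hx
  unfold dl at hx
  rw [List.mem_map] at hx
  obtain ⟨i, hi, rfl⟩ := hx
  rw [List.mem_range, hXlen] at hi
  have hk := kill hR h1 hlN (fun i => pe (b (i % l')) (i / l')) b (fun t ht => (hb t ht).1) (by
    intro t ht j
    show pe (b ((l' * j + t) % l')) ((l' * j + t) / l') = pe (b t) j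
    rw [Nat.mul_add_mod, Nat.mod_eq_of_lt ht, Nat.mul_add_div (by omega), Nat.div_eq_of_lt ht,
      add_zero]) i
  refine Eq.trans (ap_congr R _ _ i fun j hj => ?_) hk
  have hij : i + j < l' * c := by omega
  obtain ⟨q, t, ht, e⟩ : ∃ q t, t < l' ∧ i + j = l' * q + t :=
    ⟨(i + j) / l', (i + j) % l', Nat.mod_lt _ h1, (Nat.div_add_mod (i + j) l').symm⟩
  have hq : q < c := by
    by_contra hcon
    have h2 : l' * c ≤ l' * q := Nat.mul_le_mul_left _ (by omega)
    omega
  show ((List.range c).flatMap (fun j => Y (k + j))).getD (i + j) 0 =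
    pe (b ((i + j) % l')) ((i + j) / l')
  rw [e, hXget c q t hq ht, Nat.mul_add_mod, Nat.mod_eq_of_lt ht, Nat.mul_add_div (by omega),
    Nat.div_eq_of_lt ht, add_zero]

theorem ann_dec {N M l : ℕ} {R : Polynomial ℤ} (hR : RB N M R) {Y W : ℕ → List ℤ} (hY : FS N Y)
    (hl : ∀ k, (Y k).length = l) (h1 : 1 ≤ l) (hW : ∀ k, W (k + 1) = Y k ++ W k) (k c : ℕ) :
    ∀ x ∈ dl R ((W (k + c)).take ((W (k + c)).length - (W k).length)), x = 0 := by
  have h := ann_inc hR (FS.reverse hY) (fun k => (List.length_reverse).trans (hl k)) h1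
    (W := fun k => (W k).reverse) (fun k => by
      show (W (k + 1)).reverse = (W k).reverse ++ (Y k).reverse
      rw [hW k, List.reverse_append]) k c
  have h2 := dl_rev hR _ h
  have e : (((W (k + c)).reverse.drop (W k).reverse.length)).reverse =
      (W (k + c)).take ((W (k + c)).length - (W k).length) := by
    rw [List.drop_reverse, List.reverse_reverse, List.length_reverse]
  rw [← e]
  exact h2

end AW
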