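import Pool.Agent.Lib.MP_dd05d9_lc.AUc

/-!
* AUstep: `p = pp (card sigma) N >= card sigma`.  For `s` reachable of level `e + 1`: `VF s q r (2(e+1)+1) j = wl (p + (p * (j + (2e+2)) + r)) s q
  = (words k p).flatMap (fun y => VF (s y) (run q y) r (2e+2) j)` (wl_add).  For each `y` (length `p >= card sigma`), PASS: either `s y` is not
  coaccessible: `VF ... = []` (wl_dead), P.nil;  or `LC M (s y)` (and `Lev M (e+1) (s y)` by Lev.to): P (e+1) (F' N) by AUcyc;  or `Lev M e (s y)`:
  `VF (s y) q' r (2e+1)` is in P e (F N) by `h`, and `VF ... (2e+2) j = VF ... (2e+1) (j + 1)` (rfl up to `j + 1 + (2e+1) = j + (2e+2)`): P.shift with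
  `c = 1 <= F N + 1` (P.mono to `F N + 1`), then P.up.  All in P (e+1) (F' N + Fs (F N + 1) + 1) (P.mono); P.flatMap with `n = (N+k+1)^(p+1) >= k^p`
  (words_length).  Function: `fun N => (N+k+1)^(pp c N + 1) * (F' N + Fs (F N + 1) + 1 + 1)`, PM by PM.pow, PM.add, PM.comp, PM.addc, PM.mul.
* AU: induction on `e` from AU0 and AUstep.
-/

set_option autoImplicit false

namespace AW

variable {k : ℕ} {σ : Type} [Fintype σ] {M : DFA (Fin k) σ}

theorem AUstep_u (hU : ULH M) {e : ℕ} {F : ℕ → ℕ} (hF : PM F) (h : AUP M e F) :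
    ∃ F' : ℕ → ℕ, PM F' ∧ AUP M (e + 1) F' := by
  obtain ⟨F1, hF1, h1⟩ := AUcyc_u hU hF h
  obtain ⟨Fs, hFs, hs⟩ := P.shift e
  have hp := pp_PM (Fintype.card σ)
  have hn : PM (fun N => (N + k + 1) ^ (pp (Fintype.card σ) N + 1)) :=
    PM.pow (F := fun N => N + k) (PM.addc PM.id k) hp
  have hB : PM (fun N => F1 N + Fs (F N + 1) + 1) :=
    PM.addc (PM.add hF1 (PM.comp hFs (PM.addc hF 1))) 1
  refine ⟨fun N => (N + k + 1) ^ (pp (Fintype.card σ) N + 1) * (F1 N + Fs (F N + 1) + 1 + 1),
    PM.mul hn hB, ?_⟩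
  intro N t o ht ho s hr hL q hq r hr'
  set p := pp (Fintype.card σ) N with hpdef
  set B := F1 N + Fs (F N + 1) + 1 with hBdef
  have hlen : (words k p).length ≤ (N + k + 1) ^ (p + 1) := by
    rw [words_length]
    calc k ^ p ≤ (N + k + 1) ^ p := Nat.pow_le_pow_left (by omega) _
      _ ≤ _ := Nat.pow_le_pow_right (by omega) (Nat.le_succ _)
  have key : ∀ y ∈ words k p, P (e + 1) B
      (fun j => VF M t o N (M.evalFrom s y) (run k t q y) r (2 * e + 2) j) := by
    intro y hy
    have hyl : y.length = p := mem_words.1 hy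
    have hcard : Fintype.card σ ≤ y.length := by rw [hyl]; exact pp_ge _ _
    have hto : To M s (M.evalFrom s y) := ⟨y, rfl⟩
    rcases PASS hr hL hcard with h0 | h0 | h0
    · have : (fun j => VF M t o N (M.evalFrom s y) (run k t q y) r (2 * e + 2) j) = fun _ => [] := by
        funext j
        unfold VF
        exact wl_dead h0 _ _
      rw [this]
      exact P.nil _ _
    · refine P.mono ?_ (h1 N t o ht ho _ h0 (hL.to hto) (run k t q y) (run_le ht hq y) r hr')
      rw [hBdef]; omega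
    · have h2 := h N t o ht ho _ (hr.to hto) h0 (run k t q y) (run_le ht hq y) r hr'
      have h3 := hs (F N + 1) (VF M t o N (M.evalFrom s y) (run k t q y) r (2 * e + 1)) 1
        (P.mono (by omega) h2) (by omega)
      have h4 := P.up h3
      have heq : (fun j => VF M t o N (M.evalFrom s y) (run k t q y) r (2 * e + 2) j) =
          fun j => VF M t o N (M.evalFrom s y) (run k t q y) r (2 * e + 1) (j + 1) := by
        funext j
        unfold VF
        rw [show j + (2 * e + 2) = j + 1 + (2 * e + 1) from by ring]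
      rw [heq]
      refine P.mono ?_ h4
      rw [hBdef]; omega
  have h5 := P.flatMap (e := e + 1) (N := B) (words k p) hlen
    (fun y j => VF M t o N (M.evalFrom s y) (run k t q y) r (2 * e + 2) j) key
  have heq : VF M t o N s q r (2 * (e + 1) + 1) = fun j => (words k p).flatMap
      (fun y => VF M t o N (M.evalFrom s y) (run k t q y) r (2 * e + 2) j) := by
    funext j
    unfold VF
    rw [← wl_add]
    rw [show pp (Fintype.card σ) N * (j + (2 * (e + 1) + 1)) + r =
      p + (pp (Fintype.card σ) N * (j + (2 * e + 2)) + r) from by rw [hpdef]; ring]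
  rw [heq]
  refine P.mono ?_ h5
  exact Nat.mul_le_mul_left _ (Nat.le_succ _)

theorem AU_u (hU : ULH M) (e : ℕ) : ∃ F : ℕ → ℕ, PM F ∧ AUP M e F := by
  induction e with
  | zero => exact ⟨fun n => n, PM.id, AU0⟩
  | succ e ih =>
    obtain ⟨F, hF, h⟩ := ih
    exact AUstep_u hU hF h

theorem AUstep (hPG : PG M.accepts) {e : ℕ} {F : ℕ → ℕ} (hF : PM F) (h : AUP M e F) :
    ∃ F' : ℕ → ℕ, PM F' ∧ AUP M (e + 1) F' :=
  AUstep_u (ULH_of_PG hPG) hF h

theorem AU (hPG : PG M.accepts) (e : ℕ) : ∃ F : ℕ → ℕ, PM F ∧ AUP M e F :=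
  AU_u (ULH_of_PG hPG) e

end AW
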