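import Pool.Agent.Lib.MP_dd05d9_lc.RK

/-!
Every window of `card σ` consecutive lengths contains the length of an accepted word (infinite language), so the
lists `cat` are long.
-/

set_option autoImplicit false

namespace AW

theorem window {k : ℕ} {σ : Type} [Fintype σ] {M : DFA (Fin k) σ}
    (h : Set.Infinite {w : List (Fin k) | w ∈ M.accepts}) (n : ℕ) :
    ∃ w ∈ M.accepts, n ≤ w.length ∧ w.length < n + Fintype.card σ := by
  classical
  have h1 : ∃ m, ∃ w ∈ M.accepts, w.length = m ∧ n ≤ m := by
    by_contra hc
    refine h ((List.finite_length_lt (Fin k) n).subset ?_)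
    intro w hw
    by_contra hw'
    simp only [Set.mem_ofPred_eq, not_lt] at hw'
    exact hc ⟨w.length, w, hw, rfl, hw'⟩
  obtain ⟨w, hw, hl, hn⟩ := Nat.find_spec h1
  refine ⟨w, hw, hl ▸ hn, ?_⟩
  by_contra hc
  push Not at hc
  obtain ⟨q, a, b, c, hx, hab, hb, ha', hb', hc'⟩ :=
    M.evalFrom_split (x := w) (s := M.start) (t := M.evalFrom M.start w) (by omega) rfl
  have hb1 : 0 < b.length := List.length_pos_iff.2 hb
  have hacc : a ++ c ∈ M.accepts := by
    have h2 : M.evalFrom M.start (a ++ c) = M.evalFrom M.start w := by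
      rw [DFA.evalFrom_of_append, ha', hc']
    change M.evalFrom M.start (a ++ c) ∈ M.accept
    rw [h2]
    exact hw
  have hlen : w.length = a.length + b.length + c.length := by
    rw [hx, List.length_append, List.length_append]
  refine Nat.find_min h1 (m := (a ++ c).length) ?_ ⟨a ++ c, hacc, rfl, ?_⟩
  · rw [← hl, List.length_append]
    omega
  · rw [List.length_append]
    omega

theorem cat_len {k : ℕ} {σ : Type} [Fintype σ] {M : DFA (Fin k) σ}
    (h : Set.Infinite {w : List (Fin k) | w ∈ M.accepts}) (t o : List ℕ) (i : ℕ) :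
    i < (cat M t o (Fintype.card σ * (i + 1))).length := by
  classical
  choose g hg1 hg2 hg3 using window (M := M) h
  have hinj : Function.Injective (fun j : Fin (i + 1) => g (Fintype.card σ * j.val)) := by
    intro j j' hjj
    have hjj' : g (Fintype.card σ * j.val) = g (Fintype.card σ * j'.val) := hjj
    have a1 := hg2 (Fintype.card σ * j.val)
    have a2 := hg3 (Fintype.card σ * j.val)
    have b1 := hg2 (Fintype.card σ * j'.val)
    have b2 := hg3 (Fintype.card σ * j'.val)
    rw [hjj'] at a1 a2
    have e1 : Fintype.card σ * j'.val < Fintype.card σ * (j.val + 1) := by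
      rw [mul_add, mul_one]; omega
    have e2 : Fintype.card σ * j.val < Fintype.card σ * (j'.val + 1) := by
      rw [mul_add, mul_one]; omega
    have e3 := Nat.lt_of_mul_lt_mul_left e1
    have e4 := Nat.lt_of_mul_lt_mul_left e2
    exact Fin.ext (by omega)
  have hsub : Finset.univ.image (fun j : Fin (i + 1) => g (Fintype.card σ * j.val)) ⊆
      (catw M (Fintype.card σ * (i + 1))).toFinset := by
    intro w hw
    rw [Finset.mem_image] at hw
    obtain ⟨j, _, rfl⟩ := hw
    rw [List.mem_toFinset, mem_catw]
    refine ⟨lt_of_lt_of_le (hg3 _) ?_, hg1 _⟩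
    have := j.isLt
    calc Fintype.card σ * j.val + Fintype.card σ = Fintype.card σ * (j.val + 1) := by ring
      _ ≤ Fintype.card σ * (i + 1) := Nat.mul_le_mul_left _ this
  have hcard := Finset.card_le_card hsub
  rw [Finset.card_image_of_injective _ hinj, Finset.card_univ, Fintype.card_fin] at hcard
  rw [cat_eq, List.length_map]
  exact lt_of_lt_of_le (Nat.lt_succ_self i) (hcard.trans (List.toFinset_card_le _))

end AW
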