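import Pool.Agent.Lib.MP_dd05d9_lc.WB
import Pool.Agent.Lib.MP_dd05d9_lc.LEN

/-!
* step_ne: the accepted word of `window m` has length `m + r`, `r < card sigma <= p`; wl_ne: the list `wl (m + r) start 0` is not empty
  (`List.flatMap_eq_nil_iff`).
* lim: `f i := (cat M t o (card sigma * (i + 1))).getD i 0`.  cat is increasing for the prefix order (cat_add; `List.IsPrefix`), so for
  `i < (cat m).length` the entry `(cat m)[i]` does not depend on `m` (compare both with `cat (m + card sigma * (i+1))`, cat_add in both ways),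
  `i < (cat (card sigma * (i+1))).length` by cat_len.  IsPre (cat m) f: `List.ext_getElem`.
-/

set_option autoImplicit false

namespace AW

variable {k : ℕ} {σ : Type} [Fintype σ] {M : DFA (Fin k) σ} {t o : List ℕ}

theorem step_ne (hinf : {w : List (Fin k) | w ∈ M.accepts}.Infinite) (m : ℕ) {p : ℕ}
    (hp : Fintype.card σ ≤ p) : (List.range p).flatMap (fun r => wl M t o (m + r) M.start 0) ≠ [] := by
  obtain ⟨w, hw, h1, h2⟩ := window hinf m
  intro h
  rw [List.flatMap_eq_nil_iff] at h
  have h3 := h (w.length - m) (List.mem_range.2 (by omega))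
  rw [show m + (w.length - m) = w.length from by omega] at h3
  exact (wl_ne w.length M.start 0).2 ⟨w, rfl, hw⟩ h3

theorem LIM_pre (t o : List ℕ) (m n : ℕ) : ∃ l, cat M t o (m + n) = cat M t o m ++ l :=
  ⟨_, cat_add m n⟩

theorem LIM_get (t o : List ℕ) (m n i : ℕ) (h : i < (cat M t o m).length) :
    (cat M t o (m + n)).getD i 0 = (cat M t o m).getD i 0 := by
  obtain ⟨l, hl⟩ := LIM_pre (M := M) t o m n
  rw [hl, List.getD_append _ _ _ _ h]

theorem lim (hinf : {w : List (Fin k) | w ∈ M.accepts}.Infinite) (t o : List ℕ) :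
    ∃ f : ℕ → ℤ, ∀ m, IsPre (cat M t o m) f := by
  refine ⟨fun i => (cat M t o (Fintype.card σ * (i + 1))).getD i 0, ?_⟩
  intro m
  unfold IsPre
  refine List.ext_getElem (by simp) ?_
  intro i h1 h2
  rw [List.getElem_map, List.getElem_range]
  have h3 := LIM_get (M := M) t o m (Fintype.card σ * (i + 1)) i h1
  have h4 := LIM_get (M := M) t o (Fintype.card σ * (i + 1)) m i (cat_len hinf t o i)
  rw [show Fintype.card σ * (i + 1) + m = m + Fintype.card σ * (i + 1) from by ring, h3] at h4
  rw [← h4, List.getD_eq_getElem _ _ h1]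

end AW
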