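import Pool.Agent.Lib.MP_dd05d9_lc.AU
import Pool.Agent.Lib.MP_dd05d9_lc.LIM

/-!
aut: `e = card sigma`, `F0` from AU, `p = pp e N`, `c = 2 * e + 1`; `f` from lim.  `U j := cat M t o (p * (j + c))`,
`Y j := (List.range p).flatMap (fun r => wl M t o (p * (j + c) + r) M.start 0) = (List.range p).flatMap (fun r => VF M t o N M.start 0 r c j)`.
`M.start` is reachable, `Lev M e M.start` (Lev.top), `0 <= N`: each family is in P e (F0 N) by AUP, so `Y` in P e (p * F0 N) by P.flatMap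
(`r in List.range p` gives `r < p`).  `U (j+1) = U j ++ Y j` by cat_add.  `Y j <> []`: step_ne with `pp_ge`.  `SB _ (U 0)`: cat_size with `m = p * c`:
`p*c*(k+1)^(p*c) + N`.  IsPre by lim.  F N = sum of PM functions above the two bounds (pp_PM, PM.mul, PM.pow, PM.add, PM.mulc); P.mono, SB.mono.
-/

set_option autoImplicit false

namespace AW

theorem aut_u {k : ℕ} {σ : Type} [Fintype σ] (M : DFA (Fin k) σ) (hU : ULH M)
    (hinf : {w : List (Fin k) | w ∈ M.accepts}.Infinite) :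
    ∃ F : ℕ → ℕ, PM F ∧ ∀ (N : ℕ) (t o : List ℕ), SN N t → SN N o →
      ∃ f : ℕ → ℤ, Fam (Fintype.card σ) (F N) f ∧ ∀ m, IsPre (cat M t o m) f := by
  obtain ⟨F0, hF0, h0⟩ := AU_u hU (Fintype.card σ)
  have hp := pp_PM (Fintype.card σ)
  set e := Fintype.card σ with he
  have hpc : PM (fun N => pp e N * (2 * e + 1)) := PM.mulc hp (2 * e + 1) (by omega)
  have hpow : PM (fun N => (N + k + 1) ^ (pp e N * (2 * e + 1) + 1)) :=
    PM.pow (F := fun N => N + k) (PM.addc PM.id k) hpc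
  have hA : PM (fun N => pp e N * (2 * e + 1) * ((N + k + 1) ^ (pp e N * (2 * e + 1) + 1) + 1) + N) :=
    PM.add (PM.mul hpc hpow) PM.id
  have hB : PM (fun N => pp e N * (F0 N + 1)) := PM.mul hp hF0
  refine ⟨fun N => pp e N * (F0 N + 1) +
    (pp e N * (2 * e + 1) * ((N + k + 1) ^ (pp e N * (2 * e + 1) + 1) + 1) + N), PM.add hB hA, ?_⟩
  intro N t o ht ho
  obtain ⟨f, hf⟩ := lim hinf t o
  refine ⟨f, ?_, hf⟩
  set p := pp e N with hpdef
  refine ⟨fun j => cat M t o (p * (j + (2 * e + 1))),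
    fun j => (List.range p).flatMap (fun r => wl M t o (p * (j + (2 * e + 1)) + r) M.start 0),
    ?_, ?_, ?_, ?_, fun j => hf _⟩
  · have h1 := P.flatMap (e := e) (N := F0 N) (n := p) (List.range p) (by rw [List.length_range])
      (fun r j => VF M t o N M.start 0 r (2 * e + 1) j)
      (fun r hr => h0 N t o ht ho M.start ⟨[], rfl⟩ (Lev.top M.start) 0 (Nat.zero_le _) r
        (List.mem_range.1 hr))
    refine P.mono ?_ h1
    calc p * F0 N ≤ p * (F0 N + 1) := Nat.mul_le_mul_left _ (Nat.le_succ _)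
      _ ≤ _ := Nat.le_add_right _ _
  · refine SB.mono ?_ (cat_size ho (p * (0 + (2 * e + 1))))
    have h1 : (k + 1) ^ (p * (0 + (2 * e + 1))) ≤ (N + k + 1) ^ (p * (2 * e + 1) + 1) + 1 := by
      calc (k + 1) ^ (p * (0 + (2 * e + 1))) ≤ (N + k + 1) ^ (p * (0 + (2 * e + 1))) :=
            Nat.pow_le_pow_left (by omega) _
        _ ≤ (N + k + 1) ^ (p * (2 * e + 1) + 1) := Nat.pow_le_pow_right (by omega) (by simp)
        _ ≤ _ := Nat.le_succ _
    have h2 : p * (0 + (2 * e + 1)) * (k + 1) ^ (p * (0 + (2 * e + 1))) ≤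
        p * (2 * e + 1) * ((N + k + 1) ^ (p * (2 * e + 1) + 1) + 1) := by
      rw [Nat.zero_add]
      rw [Nat.zero_add] at h1
      exact Nat.mul_le_mul_left _ h1
    calc _ ≤ p * (2 * e + 1) * ((N + k + 1) ^ (p * (2 * e + 1) + 1) + 1) + N :=
          Nat.add_le_add_right h2 N
      _ ≤ _ := Nat.le_add_left _ _
  · intro j
    show cat M t o (p * (j + 1 + (2 * e + 1))) = _
    rw [← cat_add, show p * (j + 1 + (2 * e + 1)) = p * (j + (2 * e + 1)) + p from by ring]
  · intro j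
    exact step_ne hinf _ (pp_ge _ _)

theorem aut {k : ℕ} {σ : Type} [Fintype σ] (M : DFA (Fin k) σ) (hPG : PG M.accepts)
    (hinf : {w : List (Fin k) | w ∈ M.accepts}.Infinite) :
    ∃ F : ℕ → ℕ, PM F ∧ ∀ (N : ℕ) (t o : List ℕ), SN N t → SN N o →
      ∃ f : ℕ → ℤ, Fam (Fintype.card σ) (F N) f ∧ ∀ m, IsPre (cat M t o m) f :=
  aut_u M (ULH_of_PG hPG) hinf

end AW
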