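import Pool.Agent.Lib.MP_dd05d9_lc.Aut

/-! definitions for part B (automata with polynomial growth) -/

set_option autoImplicit false

namespace AW

section

variable {k : ℕ} {σ : Type} (M : DFA (Fin k) σ)

/-- reachable from the start -/
def Rch (s : σ) : Prop := ∃ x, M.evalFrom M.start x = s

/-- an accepting state is reachable -/
def Coa (s : σ) : Prop := ∃ x, M.evalFrom s x ∈ M.accept

/-- `t` is reachable from `s` -/
def To (s t : σ) : Prop := ∃ x, M.evalFrom s x = t

/-- `s` lies on a cycle -/
def Cyc (s : σ) : Prop := ∃ x, x ≠ [] ∧ M.evalFrom s x = s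

/-- live state on a cycle -/
def LC (s : σ) : Prop := Rch M s ∧ Coa M s ∧ Cyc M s

/-- levels: level 0 = no live cycle can be reached; level `e + 1` = whatever can be reached after leaving a live
cycle is of level `e` -/
def Lev : ℕ → σ → Prop
  | 0, s => ∀ u, To M s u → ¬ LC M u
  | e + 1, s => ∀ u, To M s u → LC M u → ∀ v, To M u v → ¬ To M v u → Lev e v

end

/-- all words of length `n` in lexicographic order -/
def words (k : ℕ) : ℕ → List (List (Fin k))
  | 0 => [[]]
  | n + 1 => (List.finRange k).flatMap (fun a => (words k n).map (fun x => a :: x))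

/-- run of the table automaton from the state `q` -/
def run (k : ℕ) (t : List ℕ) (q : ℕ) (x : List (Fin k)) : ℕ := x.foldl (fun q a => tst k t q a.val) q

/-- `n` copies of the word `x` -/
def rep {α : Type} (n : ℕ) (x : List α) : List α := (List.replicate n x).flatten

/-- the step length (`c` = number of states) -/
def pp (c N : ℕ) : ℕ := c.factorial * (N + 1).factorial

/-- the family of outputs of the words of length `pp * (j + c) + r` from the state `(s, q)` -/
noncomputable def VF {k : ℕ} {σ : Type} [Fintype σ] (M : DFA (Fin k) σ) (t o : List ℕ) (N : ℕ) (s : σ)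
    (q r c j : ℕ) : List ℤ :=
  wl M t o (pp (Fintype.card σ) N * (j + c) + r) s q

/-- the statement of AU for the level `e` with the size function `F` -/
def AUP {k : ℕ} {σ : Type} [Fintype σ] (M : DFA (Fin k) σ) (e : ℕ) (F : ℕ → ℕ) : Prop :=
  ∀ (N : ℕ) (t o : List ℕ), SN N t → SN N o → ∀ s, Rch M s → Lev M e s → ∀ q ≤ N,
    ∀ r < pp (Fintype.card σ) N, P e (F N) (VF M t o N s q r (2 * e + 1))

end AW
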