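import Pool.Agent.Lib.MP_dd05d9_lc.PMa
import Pool.Agent.Lib.MP_dd05d9_lc.BD

/-!
* pp_PM: `(N+1)!` is primitive recursive (`Nat.rec` / `Primrec.nat_rec` or `Primrec.nat_iterate`: iterate `(i, v) -> (i + 1, v * (i + 1))` on pairs), monotone
  (`Nat.factorial_le`), `N <= (N+1)! <= c! * (N+1)!` (`Nat.self_le_factorial`, `Nat.factorial_pos`); multiplication by a constant `c! >= 1`: PM.mulc
  (after `mul_comm`).
* pp_pos, pp_ge: `c <= c! <= pp c N`.
-/

set_option autoImplicit false

namespace AW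

theorem PPM_fact : Primrec (fun n : ℕ => n.factorial) := by
  have h1 : Primrec (fun n : ℕ => (Nat.rec (motive := fun _ => ℕ) 1 (fun i v => (i + 1) * v) n : ℕ)) := by
    refine Primrec.nat_rec₁ 1 ?_
    exact Primrec.nat_mul.comp (Primrec.succ.comp Primrec.fst) Primrec.snd
  refine h1.of_eq ?_
  intro n
  induction n with
  | zero => rfl
  | succ n ih =>
    rw [Nat.factorial_succ, ← ih]

theorem pp_PM (c : ℕ) : PM (fun N => pp c N) := by
  unfold pp
  refine ⟨?_, ?_, ?_⟩
  · exact Primrec.nat_mul.comp (Primrec.const _) (PPM_fact.comp Primrec.succ)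
  · intro a b hab
    exact Nat.mul_le_mul_left _ (Nat.factorial_le (Nat.succ_le_succ hab))
  · intro n
    calc n ≤ n + 1 := Nat.le_succ _
      _ ≤ (n + 1).factorial := Nat.self_le_factorial _
      _ ≤ c.factorial * (n + 1).factorial := Nat.le_mul_of_pos_left _ (Nat.factorial_pos c)

theorem pp_pos (c N : ℕ) : 0 < pp c N :=
  Nat.mul_pos (Nat.factorial_pos _) (Nat.factorial_pos _)

theorem pp_ge (c N : ℕ) : c ≤ pp c N :=
  (Nat.self_le_factorial c).trans (Nat.le_mul_of_pos_right _ (Nat.factorial_pos _))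

end AW
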