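import Pool.Agent.Lib.MP_dd05d9_lc.SZ

/-!
Induction on `e`.  `e = 0`: FS.shift, size `2^c * N <= 2^N * (N+1)`.
`e + 1`: the same pieces shifted: FS.shift; `Z (k + c)`: `Z (k+1+c) = Z (k+c) ++ Y (k+c)`, `Y(. + c)` is in the class by the
induction hypothesis, and `SB _ (Z c)` by P.size applied to the piece `Z` alone (`[Z]` is a list of pieces: P (e+1) (N+1) Z, `c <= N + 1`).
Take `F = ` sum of all the functions (P.mono).
-/

set_option autoImplicit false

namespace AW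

private theorem SH_fs (N : ℕ) (W : ℕ → List ℤ) (c : ℕ) (hW : FS N W) (hc : c ≤ N) :
    FS (2 ^ N * (N + 1)) (fun k => W (k + c)) := by
  refine FS.mono ?_ (FS.shift hW c)
  exact Nat.mul_le_mul (Nat.pow_le_pow_right (by norm_num) hc) (Nat.le_succ N)

private theorem SH_piece (e N : ℕ) (Z : ℕ → List ℤ) (hZ : Piece (P e N) N Z) : P (e + 1) (N + 1) Z := by
  refine ⟨[Z], ?_, ?_, ?_⟩
  · simp
  · intro Z' hZ'
    rw [List.mem_singleton] at hZ'
    subst hZ'
    rcases hZ with h | ⟨Y, h1, h2, h3⟩ | ⟨Y, h1, h2, h3⟩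
    · exact Or.inl (FS.mono (Nat.le_succ N) h)
    · exact Or.inr (Or.inl ⟨Y, P.mono (Nat.le_succ N) h1, SB.mono (Nat.le_succ N) h2, h3⟩)
    · exact Or.inr (Or.inr ⟨Y, P.mono (Nat.le_succ N) h1, SB.mono (Nat.le_succ N) h2, h3⟩)
  · intro k
    simp

theorem P.shift (e : ℕ) : ∃ F : ℕ → ℕ, PM F ∧ ∀ (N : ℕ) (W : ℕ → List ℤ) (c : ℕ),
    P e N W → c ≤ N → P e (F N) (fun k => W (k + c)) := by
  induction e with
  | zero =>
    exact ⟨fun n => 2 ^ n * (n + 1), PM.mul PM.pow2 PM.id, fun N W c hW hc => SH_fs N W c hW hc⟩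
  | succ e ih =>
    obtain ⟨Fe, hFe, he⟩ := ih
    obtain ⟨S, hS, hs⟩ := P.size (e + 1)
    have hF0 : PM (fun n => 2 ^ n * (n + 1)) := PM.mul PM.pow2 PM.id
    have hS1 : PM (fun n => S (n + 1)) := PM.comp hS (PM.addc PM.id 1)
    refine ⟨fun n => (2 ^ n * (n + 1)) + (Fe n + S (n + 1)), PM.add hF0 (PM.add hFe hS1), ?_⟩
    intro N W c hW hc
    obtain ⟨L, h1, h2, h3⟩ := hW
    have hle1 : 2 ^ N * (N + 1) ≤ (2 ^ N * (N + 1)) + (Fe N + S (N + 1)) := Nat.le_add_right _ _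
    have hle2 : Fe N ≤ (2 ^ N * (N + 1)) + (Fe N + S (N + 1)) := by omega
    have hle3 : S (N + 1) ≤ (2 ^ N * (N + 1)) + (Fe N + S (N + 1)) := by omega
    have hle0 : N ≤ (2 ^ N * (N + 1)) + (Fe N + S (N + 1)) := le_trans (hF0.2.2 N) hle1
    have hsz : ∀ Z, Piece (P e N) N Z →
        SB ((2 ^ N * (N + 1)) + (Fe N + S (N + 1))) (Z c) := by
      intro Z hZ
      exact SB.mono hle3 (hs (N + 1) Z c (SH_piece e N Z hZ) (by omega))
    refine ⟨L.map (fun Z => fun k => Z (k + c)), ?_, ?_, ?_⟩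
    · rw [List.length_map]
      exact h1.trans hle0
    · intro Z' hZ'
      rw [List.mem_map] at hZ'
      obtain ⟨Z, hZL, rfl⟩ := hZ'
      have hp := h2 Z hZL
      have hsb := hsz Z hp
      rcases hp with h | ⟨Y, y1, y2, y3⟩ | ⟨Y, y1, y2, y3⟩
      · exact Or.inl (FS.mono hle1 (SH_fs N Z c h hc))
      · refine Or.inr (Or.inl ⟨fun k => Y (k + c), P.mono hle2 (he N Y c y1 hc), ?_, ?_⟩)
        · simpa using hsb
        · intro k
          have h4 : k + 1 + c = (k + c) + 1 := by omega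
          show Z (k + 1 + c) = Z (k + c) ++ Y (k + c)
          rw [h4, y3]
      · refine Or.inr (Or.inr ⟨fun k => Y (k + c), P.mono hle2 (he N Y c y1 hc), ?_, ?_⟩)
        · simpa using hsb
        · intro k
          have h4 : k + 1 + c = (k + c) + 1 := by omega
          show Z (k + 1 + c) = Y (k + c) ++ Z (k + c)
          rw [h4, y3]
    · intro k
      show W (k + c) = _
      rw [h3, List.map_map]
      rfl

end AW
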