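import Pool.Agent.Lib.MP_dd05d9_lc.Pb1

/-!
* P.flatMap: P.prod for the list `L.map W`, `List.flatMap` = flatten of map.  (For `L.length <= n`: P.mono.)
* sandwich: `A 0 = [], A (j+1) = Y1 j ++ A j` and `B 0 = [], B (j+1) = B j ++ Y2 j` (Nat.rec); by induction `V j = A j ++ V 0 ++ B j`; `A` is in
  P (e+1) (N+1) by P.dec, `B` by P.inc, the constant family `V 0` by P.ofFS (FS.const h0): P (e+1) (N+2); P.append twice.
-/

set_option autoImplicit false

namespace AW

theorem P.flatMap {ι : Type} {e N n : ℕ} (L : List ι) (hn : L.length ≤ n) (W : ι → ℕ → List ℤ)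
    (h : ∀ i ∈ L, P e N (W i)) : P e (n * N) (fun j => L.flatMap (fun i => W i j)) := by
  have h1 := P.prod (e := e) (N := N) (L.map W) (by
    intro Z hZ
    obtain ⟨i, hi, rfl⟩ := List.mem_map.1 hZ
    exact h i hi)
  have h2 : (fun j => ((L.map W).map (fun Z => Z j)).flatten) = fun j => L.flatMap (fun i => W i j) := by
    funext j
    rw [List.map_map, List.flatMap_def]
    rfl
  rw [h2, List.length_map] at h1
  exact P.mono (Nat.mul_le_mul_right _ hn) h1

theorem sandwich {e N : ℕ} {V Y1 Y2 : ℕ → List ℤ} (h1 : P e N Y1) (h2 : P e N Y2) (h0 : SB N (V 0))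
    (h : ∀ j, V (j + 1) = Y1 j ++ V j ++ Y2 j) : P (e + 1) (3 * N + 4) V := by
  let A : ℕ → List ℤ := fun j => Nat.rec [] (fun i a => Y1 i ++ a) j
  let B : ℕ → List ℤ := fun j => Nat.rec [] (fun i b => b ++ Y2 i) j
  have hA0 : A 0 = [] := rfl
  have hB0 : B 0 = [] := rfl
  have hA : ∀ j, A (j + 1) = Y1 j ++ A j := fun j => rfl
  have hB : ∀ j, B (j + 1) = B j ++ Y2 j := fun j => rfl
  have hnil : SB N ([] : List ℤ) := ⟨Nat.zero_le _, fun x hx => absurd hx List.not_mem_nil⟩
  have hPA : P (e + 1) (N + 1) A := P.dec h1 (by rw [hA0]; exact hnil) hA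
  have hPB : P (e + 1) (N + 1) B := P.inc h2 (by rw [hB0]; exact hnil) hB
  have hPC : P (e + 1) (N + 1 + 1) (fun _ : ℕ => V 0) := P.ofFS (FS.const h0)
  have hV : V = fun j => A j ++ V 0 ++ B j := by
    funext j
    induction j with
    | zero => rw [hA0, hB0]; simp
    | succ j ih =>
      rw [h j, hA, hB]
      nth_rewrite 1 [ih]
      simp only [List.append_assoc]
  have hfin := P.append (P.append hPA hPC) hPB
  rw [hV]
  refine P.mono ?_ hfin
  omega

end AW
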