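import Pool.Agent.Lib.MP_dd05d9_lc.WB
import Pool.Agent.Lib.MP_dd05d9_lc.SW
import Pool.Agent.Lib.MP_dd05d9_lc.PPM
import Pool.Agent.Lib.MP_dd05d9_lc.SH

/-!
AUcyc: let `p = pp (card sigma) N` (positive), `s` in LC of level `e + 1`; `x` from LOOP (length `p`, loop at `s`, `q1 := run q x` satisfies
`run q1 x = q1`).  For every word `y <> x` of length `p`: `not To (s y) s` by SEP, `To s (s y)`, so `Lev M e (s y)` by the definition of
`Lev M (e+1) s` with `u = s` (To.refl, `LC M s`), `v = s y`; also `Rch M (s y)`; and `run q' y <= N` for `q' <= N` (run_le).  So by the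
hypothesis `AUP M e F`: for both `q' = q` and `q' = q1`: `P e (F N) (VF M t o N (s y) (run q' y) r (2*e+1))`.
words_split x: `words k p = l1 ++ x :: l2`, both of length at most `k^p <= (N + k + 1)^(p + 1) =: n`.  P.flatMap: the families
`Y1 q' j := l1.flatMap (fun y => VF (s y) (run q' y) r (2e+1) j)` and `Y2 q' j` (same with l2) are in P e (n * F N).
wl_add with `n := p`, `m := p * (j + (2e+1)) + r` (note `p * (j + 1 + (2e+1)) + r = p + (p * (j + (2e+1)) + r)`, ring/omega after
`Nat.mul_add`): for `V j := VF s q1 r (2e+1) j`:  `V (j+1) = Y1 q1 j ++ V j ++ Y2 q1 j`  (x leads to `(s, run q1 x) = (s, q1)`), and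
`VF s q r (2e+2) j = Y1 q j ++ V j ++ Y2 q j`.  `V 0` has size `(k+1)^(p*(2e+1)+r) + N <= (N+k+1)^(p*(2e+2)+1) + N` (wl_size, r < p).
sandwich: `V` in P (e+1) (3 M + 4) with `M` = the maximum (sum) of the two bounds; P.up for the Y's (Y1 q, Y2 q in P (e+1) (n * F N + 1)); P.append twice.
F' N = any PM function above the resulting bound, for instance `G N = (N+k+1)^(p*(2e+2)+1) * (F N + 1) + N` (PM.pow, PM.mulc, PM.mul, PM.add), F' = 10 * G + 10.
* AU0: `P 0 _ (fun _ => [])` = FS.nil, with wl_lev0 (`card sigma <= pp <= pp * (j + 1) + r`).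
-/

set_option autoImplicit false

namespace AW

variable {k : ℕ} {σ : Type} [Fintype σ] {M : DFA (Fin k) σ}

theorem AU0 : AUP M 0 (fun n => n) := by
  intro N t o ht ho s hr hL q hq r hr'
  have h : VF M t o N s q r (2 * 0 + 1) = fun _ => [] := by
    funext j
    unfold VF
    refine wl_lev0 hr hL ?_ q
    have h1 := pp_ge (Fintype.card σ) N
    calc Fintype.card σ ≤ pp (Fintype.card σ) N := h1
      _ = pp (Fintype.card σ) N * 1 := (Nat.mul_one _).symm
      _ ≤ pp (Fintype.card σ) N * (j + (2 * 0 + 1)) := Nat.mul_le_mul_left _ (by omega)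
      _ ≤ _ := Nat.le_add_right _ _
  rw [h]
  exact FS.nil N

/-- the decomposition after one long step, along the loop word `x` -/
theorem AUc_dec {N : ℕ} {t o : List ℕ} {s : σ} {x : List (Fin k)}
    (hxl : x.length = pp (Fintype.card σ) N) (hxs : M.evalFrom s x = s)
    {l1 l2 : List (List (Fin k))} (hw : words k x.length = l1 ++ x :: l2) (q r c j : ℕ) :
    VF M t o N s q r c (j + 1) =
      l1.flatMap (fun y => VF M t o N (M.evalFrom s y) (run k t q y) r c j) ++
        VF M t o N s (run k t q x) r c j ++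
      l2.flatMap (fun y => VF M t o N (M.evalFrom s y) (run k t q y) r c j) := by
  have h1 : pp (Fintype.card σ) N * (j + 1 + c) + r = x.length + (pp (Fintype.card σ) N * (j + c) + r) := by
    rw [hxl]; ring
  unfold VF
  rw [h1, wl_add, hw, List.flatMap_append, List.flatMap_cons, hxs, List.append_assoc]

theorem AUcyc_u (hU : ULH M) {e : ℕ} {F : ℕ → ℕ} (hF : PM F) (h : AUP M e F) :
    ∃ F' : ℕ → ℕ, PM F' ∧ ∀ (N : ℕ) (t o : List ℕ), SN N t → SN N o → ∀ s, LC M s → Lev M (e + 1) s →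
      ∀ q ≤ N, ∀ r < pp (Fintype.card σ) N, P (e + 1) (F' N) (VF M t o N s q r (2 * e + 2)) := by
  -- the number of words
  have hp := pp_PM (Fintype.card σ)
  have hG : PM (fun N => (N + k + 1) ^ (pp (Fintype.card σ) N * (2 * e + 2) + 1)) :=
    PM.pow (F := fun N => N + k) (PM.addc PM.id k) (PM.mulc hp (2 * e + 2) (by omega))
  have hH : PM (fun N => (N + k + 1) ^ (pp (Fintype.card σ) N * (2 * e + 2) + 1) * (F N + 1) + N) :=
    PM.add (PM.mul hG hF) PM.id
  refine ⟨fun N => ((N + k + 1) ^ (pp (Fintype.card σ) N * (2 * e + 2) + 1) * (F N + 1) + N) * 5 + 6,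
    PM.addc (PM.mulc hH 5 (by omega)) 6, ?_⟩
  intro N t o ht ho s hs hL q hq r hr
  obtain ⟨x, hxl, hxs, hxi⟩ := LOOP hs.2.2 N
  obtain ⟨l1, l2, hw, hl1, hl2, hy1, hy2⟩ := words_split x
  set p := pp (Fintype.card σ) N with hpdef
  have hp0 : 0 < p := pp_pos _ _
  set n := (N + k + 1) ^ (p * (2 * e + 2) + 1) with hn
  set B := n * (F N + 1) + N with hB
  have hkn : k ^ x.length ≤ n := by
    rw [hxl, hn]
    calc k ^ p ≤ (N + k + 1) ^ p := Nat.pow_le_pow_left (by omega) _
      _ ≤ _ := Nat.pow_le_pow_right (by omega) (by nlinarith)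
  -- the families of the words different from x
  have key : ∀ y : List (Fin k), y.length = x.length → y ≠ x → ∀ q' ≤ N,
      P e (F N) (VF M t o N (M.evalFrom s y) (run k t q' y) r (2 * e + 1)) := by
    intro y hyl hyx q' hq'
    have hsep := SEP_u hU hs.1 hs.2.1 hxs hyl (by rw [hxl]; exact hp0) hyx
    have hto : To M s (M.evalFrom s y) := ⟨y, rfl⟩
    exact h N t o ht ho _ (hs.1.to hto) (hL s (To.refl s) hs _ hto hsep) _ (run_le ht hq' y) r hr
  have fam : ∀ l : List (List (Fin k)), l.length ≤ k ^ x.length →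
      (∀ y ∈ l, y.length = x.length ∧ y ≠ x) → ∀ q' ≤ N,
      P e B (fun j => l.flatMap (fun y => VF M t o N (M.evalFrom s y) (run k t q' y) r (2 * e + 1) j)) := by
    intro l hl hy q' hq'
    have h1 := P.flatMap (e := e) (N := F N) (n := n) l (hl.trans hkn)
      (fun y j => VF M t o N (M.evalFrom s y) (run k t q' y) r (2 * e + 1) j)
      (fun y hyl => key y (hy y hyl).1 (hy y hyl).2 q' hq')
    refine P.mono ?_ h1
    rw [hB]
    nlinarith
  -- the loop family
  have hq1 : run k t q x ≤ N := run_le ht hq x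
  have hV0 : SB B (VF M t o N s (run k t q x) r (2 * e + 1) 0) := by
    unfold VF
    refine SB.mono ?_ (wl_size ho _ s _)
    have h1 : p * (0 + (2 * e + 1)) + r ≤ p * (2 * e + 2) + 1 := by nlinarith
    calc (k + 1) ^ (p * (0 + (2 * e + 1)) + r) + N ≤ n + N := by
          refine Nat.add_le_add_right ?_ N
          calc (k + 1) ^ (p * (0 + (2 * e + 1)) + r) ≤ (N + k + 1) ^ (p * (0 + (2 * e + 1)) + r) :=
                Nat.pow_le_pow_left (by omega) _
            _ ≤ _ := Nat.pow_le_pow_right (by omega) h1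
      _ ≤ B := by rw [hB]; nlinarith
  have hV := sandwich (e := e) (N := B) (V := VF M t o N s (run k t q x) r (2 * e + 1))
    (fam l1 hl1 hy1 (run k t q x) hq1) (fam l2 hl2 hy2 (run k t q x) hq1) hV0
    (fun j => by
      rw [AUc_dec hxl hxs hw]
      rw [hxi t ht q hq])
  have hY1 := P.up (fam l1 hl1 hy1 q hq)
  have hY2 := P.up (fam l2 hl2 hy2 q hq)
  have hfin := P.append (P.append hY1 hV) hY2
  have heq : VF M t o N s q r (2 * e + 2) = fun j =>
      (l1.flatMap (fun y => VF M t o N (M.evalFrom s y) (run k t q y) r (2 * e + 1) j) ++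
        VF M t o N s (run k t q x) r (2 * e + 1) j) ++
      l2.flatMap (fun y => VF M t o N (M.evalFrom s y) (run k t q y) r (2 * e + 1) j) := by
    funext j
    rw [← AUc_dec hxl hxs hw]
    unfold VF
    rw [show j + (2 * e + 2) = j + 1 + (2 * e + 1) from by ring]
  rw [heq]
  refine P.mono ?_ hfin
  show B + 1 + (3 * B + 4) + (B + 1) ≤ B * 5 + 6
  omega

theorem AUcyc (hPG : PG M.accepts) {e : ℕ} {F : ℕ → ℕ} (hF : PM F) (h : AUP M e F) :
    ∃ F' : ℕ → ℕ, PM F' ∧ ∀ (N : ℕ) (t o : List ℕ), SN N t → SN N o → ∀ s, LC M s → Lev M (e + 1) s →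
      ∀ q ≤ N, ∀ r < pp (Fintype.card σ) N, P (e + 1) (F' N) (VF M t o N s q r (2 * e + 2)) :=
  AUcyc_u (ULH_of_PG hPG) hF h

end AW
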