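import Pool.Agent.Lib.MP_dd05d9_lc.Defs

/-! definitions for the automata part: table automata, the word of a pair (DFA of the language, table automaton) -/

set_option autoImplicit false

namespace AW

/-- transition of a table automaton (as in S15477) -/
def tst (k : ℕ) (t : List ℕ) (q a : ℕ) : ℕ := t.getD (q * k + a) 0

open Classical in
/-- outputs of the words of length `m` accepted from the state `s`, in lexicographic order; `q` = state of
the table automaton -/
noncomputable def wl {k : ℕ} {σ : Type} (M : DFA (Fin k) σ) (t o : List ℕ) : ℕ → σ → ℕ → List ℤ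
  | 0, s, q => if s ∈ M.accept then [((o.getD q 0 : ℕ) : ℤ)] else []
  | m + 1, s, q => (List.finRange k).flatMap (fun a => wl M t o m (M.step s a) (tst k t q a.val))

/-- the initial segment of the automatic word which belongs to the words of length less than `m` -/
noncomputable def cat {k : ℕ} {σ : Type} (M : DFA (Fin k) σ) (t o : List ℕ) (m : ℕ) : List ℤ :=
  (List.range m).flatMap (fun j => wl M t o j M.start 0)

/-- size of a list of natural numbers -/
def SN (N : ℕ) (l : List ℕ) : Prop := l.length ≤ N ∧ ∀ x ∈ l, x ≤ N

/-- polynomial growth -/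
def PG {k : ℕ} (L : Language (Fin k)) : Prop :=
  ∃ c : ℕ, ∀ n : ℕ, Set.ncard {w : List (Fin k) | w ∈ L ∧ w.length = n} ≤ c * (n + 1) ^ c

end AW
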