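import Pool.Agent.Lib.MP_dd05d9_lc.CMa

/-!
Decoding.  `dec (g :: v :: t) = replicate g.toNat 0 ++ v :: dec t`.
* dec_cmp: `l = dec (cmp l).1 ++ replicate (cmp l).2.toNat 0`, by `List.reverseRecOn`: adding `x = 0` makes
  the trailing gap larger by one (the gap is `>= 0` by cmp_SB or a separate induction), adding `x <> 0`
  appends `[b, x]` to the list part, whose length is even; `dec (m ++ m') = dec m ++ dec m'` if `m.length` is even
  (induction by steps of two).
* dec_length: `m.length = 2 t -> t <= (dec m).length`.
* Cd: `h` is coded by `g`, quantitatively.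
* Cd_agree: take the witnesses `i` for `(h,g)` and `i'` for `(h',g')` with the same `J`; `i, i' <= F (M+J)`, so
  `pref h i = pref h' i`, `pref h i' = pref h' i'`.  If `i <= i'` then `pref h' i` is a prefix of `pref h' i'`, so by
  cmp_append `(cmp (pref h' i)).1` is a prefix of `(cmp (pref h' i')).1` up to a change... careful: with
  `l' = l ++ l2`: `cmp l' = gm (cmp l) (cmp l2)`, and `(gm g h).1 = g.1` or `g.1 ++ addF h.1 g.2`, so `(cmp l).1`
  IS a prefix of `(cmp l').1`.  Both `(cmp (pref h i)).1` (prefix of `g`) and it is a prefix of a prefix of `g'`; length at least `J`.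
* Cd_unique: given `i0`, take `J = 2 * (i0 + 1)`; witnesses `i, i'`.  The two codes are prefixes of the same `g`, so one is a
  prefix of the other, say `m` of `m'` (both of even length by cmp_length); `dec m` is a prefix of `dec m'`, so of
  both `pref h i` and `pref h' i'`; its length is `>= m.length / 2 >= i0 + 1`; so `h i0 = h' i0`.
-/

set_option autoImplicit false

namespace AW

/-- the first `i` values -/
def pref (h : ℕ → ℤ) (i : ℕ) : List ℤ := (List.range i).map h

def dec : List ℤ → List ℤ
  | g :: v :: t => List.replicate g.toNat 0 ++ v :: dec t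
  | _ => []

/-- `g` is the code of the infinite word `h`: the code of the first `i` values of `h` is a prefix of `g`, of length
at least `J`, for some `i <= F (M + J)` -/
def Cd (F : ℕ → ℕ) (M : ℕ) (h g : ℕ → ℤ) : Prop :=
  ∀ J, ∃ i ≤ F (M + J), J ≤ (cmp (pref h i)).1.length ∧ IsPre (cmp (pref h i)).1 g

private theorem cmb_even (l : List ℤ) : Even (cmp l).1.length := by
  rw [cmp_length]; exact ⟨_, by ring⟩

private theorem cmb_snoc (l : List ℤ) (x : ℤ) : cmp (l ++ [x]) = stp (cmp l) x := by
  unfold cmp
  rw [List.foldl_append]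
  rfl

private theorem cmb_nonneg (l : List ℤ) : 0 ≤ (cmp l).2 := by
  induction l using List.reverseRecOn with
  | nil => exact le_rfl
  | append_singleton l x ih =>
    rw [cmb_snoc]
    unfold stp
    split_ifs
    · show 0 ≤ (cmp l).2 + 1
      omega
    · exact le_rfl

private theorem dec_append_aux : ∀ (m m' : List ℤ), Even m.length → dec (m ++ m') = dec m ++ dec m'
  | [], _, _ => by simp [dec]
  | [x], _, h => by simp at h
  | g :: v :: t, m', h => by
    have h' : Even t.length := by
      have h2 : Even (t.length + 1 + 1) := by simpa using h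
      rcases h2 with ⟨r, hr⟩
      exact ⟨r - 1, by omega⟩
    have ih := dec_append_aux t m' h'
    show List.replicate g.toNat 0 ++ v :: dec (t ++ m') = (List.replicate g.toNat 0 ++ v :: dec t) ++ dec m'
    rw [ih]
    simp

private theorem dec_length_aux : ∀ (m : List ℤ), m.length / 2 ≤ (dec m).length
  | [] => by simp
  | [x] => by simp
  | g :: v :: t => by
    have ih := dec_length_aux t
    show (t.length + 1 + 1) / 2 ≤ (List.replicate g.toNat 0 ++ v :: dec t).length
    rw [List.length_append, List.length_cons, List.length_replicate]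
    omega

theorem dec_append (m m' : List ℤ) (h : Even m.length) : dec (m ++ m') = dec m ++ dec m' :=
  dec_append_aux m m' h

theorem dec_length (m : List ℤ) : m.length / 2 ≤ (dec m).length :=
  dec_length_aux m

theorem dec_cmp (l : List ℤ) : l = dec (cmp l).1 ++ List.replicate (cmp l).2.toNat 0 := by
  induction l using List.reverseRecOn with
  | nil => simp [cmp, dec]
  | append_singleton l x ih =>
    rw [cmb_snoc]
    have h0 := cmb_nonneg l
    unfold stp
    split_ifs with hx
    · show l ++ [x] = dec (cmp l).1 ++ List.replicate ((cmp l).2 + 1).toNat 0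
      have h1 : ((cmp l).2 + 1).toNat = (cmp l).2.toNat + 1 := by omega
      rw [h1, List.replicate_succ', ← List.append_assoc, ← ih, hx]
    · show l ++ [x] = dec ((cmp l).1 ++ [(cmp l).2, x]) ++ List.replicate ((0 : ℤ)).toNat 0
      rw [dec_append _ _ (cmb_even l)]
      have h1 : dec [(cmp l).2, x] = List.replicate (cmp l).2.toNat 0 ++ [x] := by simp [dec]
      rw [h1, ← List.append_assoc, ← ih]
      simp

theorem cmp_prefix (l l2 : List ℤ) : (cmp l).1 <+: (cmp (l ++ l2)).1 := by
  rw [cmp_append]
  unfold gm
  split_ifs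
  · exact List.prefix_rfl
  · exact List.prefix_append _ _

private theorem pref_prefix (h : ℕ → ℤ) {i j : ℕ} (hij : i ≤ j) : pref h i <+: pref h j := by
  unfold pref
  apply List.IsPrefix.map
  obtain ⟨d, rfl⟩ := Nat.exists_eq_add_of_le hij
  rw [List.range_add]
  exact List.prefix_append _ _

private theorem cmb_mono {l l' : List ℤ} (h : l <+: l') : (cmp l).1 <+: (cmp l').1 := by
  obtain ⟨t, rfl⟩ := h
  exact cmp_prefix l t

private theorem isPre_get {l : List ℤ} {f : ℕ → ℤ} (h : IsPre l f) {j : ℕ} (hj : j < l.length) :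
    l[j]? = some (f j) := by
  unfold IsPre at h
  generalize l.length = n at h hj
  subst h
  simp [hj]

private theorem prefix_get {l l' : List ℤ} (h : l <+: l') {j : ℕ} (hj : j < l.length) :
    l'[j]? = l[j]? := by
  obtain ⟨t, rfl⟩ := h
  rw [List.getElem?_append_left hj]

private theorem isPre_of_prefix {l l' : List ℤ} {f : ℕ → ℤ} (h : l <+: l') (h' : IsPre l' f) :
    IsPre l f := by
  unfold IsPre
  apply List.ext_getElem?
  intro j
  by_cases hj : j < l.length
  · rw [← prefix_get h hj, isPre_get h' (lt_of_lt_of_le hj h.length_le)]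
    simp [hj]
  · rw [List.getElem?_eq_none (not_lt.1 hj), List.getElem?_eq_none]
    simpa using hj

private theorem pref_congr {h h' : ℕ → ℤ} {i : ℕ} (e : ∀ j < i, h j = h' j) : pref h i = pref h' i := by
  unfold pref
  apply List.map_congr_left
  intro j hj
  exact e j (List.mem_range.1 hj)

theorem Cd_agree {F : ℕ → ℕ} {M J : ℕ} {h g h' g' : ℕ → ℤ} (c : Cd F M h g) (c' : Cd F M h' g')
    (e : ∀ i < F (M + J), h i = h' i) : ∀ j < J, g j = g' j := by
  obtain ⟨i, hi, hl, hp⟩ := c J
  obtain ⟨i', hi', hl', hp'⟩ := c' J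
  have e1 : pref h i = pref h' i := pref_congr fun j hj => e j (lt_of_lt_of_le hj hi)
  intro j hj
  rw [e1] at hl hp
  rcases le_total i i' with hii | hii
  · have hpre := cmb_mono (pref_prefix h' hii)
    have a := isPre_get hp (lt_of_lt_of_le hj hl)
    have b := isPre_get (isPre_of_prefix hpre hp') (lt_of_lt_of_le hj hl)
    rw [a] at b
    exact Option.some.inj b
  · have hpre := cmb_mono (pref_prefix h' hii)
    have a := isPre_get hp' (lt_of_lt_of_le hj hl')
    have b := isPre_get (isPre_of_prefix hpre hp) (lt_of_lt_of_le hj hl')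
    rw [a] at b
    exact (Option.some.inj b).symm

private theorem isPre_total {l l' : List ℤ} {g : ℕ → ℤ} (h : IsPre l g) (h' : IsPre l' g)
    (hl : l.length ≤ l'.length) : l <+: l' := by
  unfold IsPre at h h'
  rw [h, h']
  apply List.IsPrefix.map
  obtain ⟨d, hd⟩ := Nat.exists_eq_add_of_le hl
  rw [hd, List.range_add]
  exact List.prefix_append _ _

private theorem dec_prefix_pref (h : ℕ → ℤ) (i : ℕ) : dec (cmp (pref h i)).1 <+: pref h i := by
  conv_rhs => rw [dec_cmp (pref h i)]
  exact List.prefix_append _ _

private theorem dec_mono {m m' : List ℤ} (hm : Even m.length) (h : m <+: m') : dec m <+: dec m' := by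
  obtain ⟨t, rfl⟩ := h
  rw [dec_append _ _ hm]
  exact List.prefix_append _ _

private theorem pref_get {h : ℕ → ℤ} {i j : ℕ} {l : List ℤ} (hl : l <+: pref h i) (hj : j < l.length) :
    l[j]? = some (h j) := by
  have h1 : IsPre (pref h i) h := by
    unfold IsPre pref
    simp
  exact isPre_get (isPre_of_prefix hl h1) hj

theorem Cd_unique {F F' : ℕ → ℕ} {M M' : ℕ} {h h' g : ℕ → ℤ} (c : Cd F M h g) (c' : Cd F' M' h' g) :
    h = h' := by
  funext i0
  obtain ⟨i, -, hl, hp⟩ := c (2 * (i0 + 1))
  obtain ⟨i', -, hl', hp'⟩ := c' (2 * (i0 + 1))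
  have key : ∀ (u u' : ℕ → ℤ) (a a' : ℕ), 2 * (i0 + 1) ≤ (cmp (pref u a)).1.length →
      IsPre (cmp (pref u a)).1 g → IsPre (cmp (pref u' a')).1 g →
      (cmp (pref u a)).1.length ≤ (cmp (pref u' a')).1.length → u i0 = u' i0 := by
    intro u u' a a' h1 h2 h3 h4
    have hpre := isPre_total h2 h3 h4
    have hd := dec_mono (cmb_even _) hpre
    have hlen : i0 < (dec (cmp (pref u a)).1).length := by
      have := dec_length (cmp (pref u a)).1
      omega
    have r1 := pref_get (dec_prefix_pref u a) hlen
    have r2 := pref_get (hd.trans (dec_prefix_pref u' a')) hlen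
    rw [r1] at r2
    exact Option.some.inj r2
  rcases le_total (cmp (pref h i)).1.length (cmp (pref h' i')).1.length with hh | hh
  · exact key h h' i i' hl hp hp' hh
  · exact (key h' h i' i hl' hp' hp hh).symm

end AW
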