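import Pool.Agent.Lib.MP_dd05d9_lc.LEN

/-!
Computability: the lists `cat M t o m` are primitive recursive in `(t, o, m)`.
-/

set_option autoImplicit false

namespace AW

/-- one step of the breadth first enumeration of the words: pairs (state of `M`, state of the table automaton) -/
def nxt {k : ℕ} {σ : Type} (M : DFA (Fin k) σ) (t : List ℕ) (l : List (σ × ℕ)) : List (σ × ℕ) :=
  l.flatMap (fun x => (List.finRange k).map (fun a => (M.step x.1 a, tst k t x.2 a.val)))

open Classical in
/-- outputs of the accepting pairs -/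
noncomputable def outs {σ : Type} (A : Set σ) (o : List ℕ) (l : List (σ × ℕ)) : List ℕ :=
  l.flatMap (fun x => if x.1 ∈ A then [o.getD x.2 0] else [])

theorem nxt_append {k : ℕ} {σ : Type} (M : DFA (Fin k) σ) (t : List ℕ) (l l' : List (σ × ℕ)) :
    nxt M t (l ++ l') = nxt M t l ++ nxt M t l' := by
  unfold nxt
  rw [List.flatMap_append]

theorem nxt_iter_append {k : ℕ} {σ : Type} (M : DFA (Fin k) σ) (t : List ℕ) (m : ℕ)
    (l l' : List (σ × ℕ)) : (nxt M t)^[m] (l ++ l') = (nxt M t)^[m] l ++ (nxt M t)^[m] l' := by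
  induction m generalizing l l' with
  | zero => rfl
  | succ m ih => rw [Function.iterate_succ_apply, Function.iterate_succ_apply,
      Function.iterate_succ_apply, nxt_append, ih]

theorem outs_append {σ : Type} (A : Set σ) (o : List ℕ) (l l' : List (σ × ℕ)) :
    outs A o (l ++ l') = outs A o l ++ outs A o l' := by
  unfold outs
  rw [List.flatMap_append]

theorem nxt_iter_nil {k : ℕ} {σ : Type} (M : DFA (Fin k) σ) (t : List ℕ) (m : ℕ) :
    (nxt M t)^[m] [] = [] := by
  induction m with
  | zero => rfl
  | succ m ih => rw [Function.iterate_succ_apply]; exact ih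

theorem outs_iter_flatMap {k : ℕ} {σ : Type} (M : DFA (Fin k) σ) (t o : List ℕ) (m : ℕ)
    {β : Type} (l : List β) (g : β → σ × ℕ) :
    outs M.accept o ((nxt M t)^[m] (l.map g)) =
      l.flatMap (fun b => outs M.accept o ((nxt M t)^[m] [g b])) := by
  induction l with
  | nil =>
    rw [List.map_nil, nxt_iter_nil]
    rfl
  | cons b l ih =>
    have h : (b :: l).map g = [g b] ++ l.map g := rfl
    rw [h, nxt_iter_append, outs_append, ih, List.flatMap_cons]

theorem wl_outs {k : ℕ} {σ : Type} (M : DFA (Fin k) σ) (t o : List ℕ) (m : ℕ) (s : σ) (q : ℕ) :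
    wl M t o m s q = (outs M.accept o ((nxt M t)^[m] [(s, q)])).map (fun x : ℕ => (x : ℤ)) := by
  induction m generalizing s q with
  | zero =>
    rw [Function.iterate_zero_apply]
    unfold wl outs
    rw [List.flatMap_singleton]
    by_cases h : s ∈ M.accept
    · rw [if_pos h, if_pos h]
      rfl
    · rw [if_neg h, if_neg h]
      rfl
  | succ m ih =>
    have h : nxt M t [(s, q)] = (List.finRange k).map (fun a => (M.step s a, tst k t q a.val)) := by
      unfold nxt
      rw [List.flatMap_singleton]
    rw [Function.iterate_succ_apply, h, outs_iter_flatMap, List.map_flatMap]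
    unfold wl
    congr 1
    funext a
    exact ih _ _

/-- the list of outputs as a list of natural numbers -/
noncomputable def catN {k : ℕ} {σ : Type} (M : DFA (Fin k) σ) (t o : List ℕ) (m : ℕ) : List ℕ :=
  (List.range m).flatMap (fun j => outs M.accept o ((nxt M t)^[j] [(M.start, 0)]))

theorem catN_map {k : ℕ} {σ : Type} (M : DFA (Fin k) σ) (t o : List ℕ) (m : ℕ) :
    (catN M t o m).map (fun x : ℕ => (x : ℤ)) = cat M t o m := by
  unfold catN cat
  rw [List.map_flatMap]
  congr 1
  funext j
  exact (wl_outs M t o j M.start 0).symm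

theorem tst_primrec (k : ℕ) : Primrec (fun x : List ℕ × ℕ × ℕ => tst k x.1 x.2.1 x.2.2) := by
  unfold tst
  exact (Primrec.list_getD 0).comp Primrec.fst
    (Primrec.nat_add.comp (Primrec.nat_mul.comp (Primrec.fst.comp Primrec.snd) (Primrec.const k))
      (Primrec.snd.comp Primrec.snd))

theorem nxt_primrec {k : ℕ} {σ : Type} [Finite σ] [Primcodable σ] (M : DFA (Fin k) σ) :
    Primrec (fun x : List ℕ × List (σ × ℕ) => nxt M x.1 x.2) := by
  unfold nxt
  refine Primrec.list_flatMap (f := fun x : List ℕ × List (σ × ℕ) => x.2)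
    (g := fun x y => (List.finRange k).map (fun a => (M.step y.1 a, tst k x.1 y.2 a.val)))
    Primrec.snd ?_
  refine Primrec.list_map (f := fun x : (List ℕ × List (σ × ℕ)) × (σ × ℕ) => List.finRange k)
    (g := fun x a => (M.step x.2.1 a, tst k x.1.1 x.2.2 a.val)) (Primrec.const _) ?_
  refine Primrec.pair ?_ ?_
  · exact (Primrec.dom_finite (fun y : σ × Fin k => M.step y.1 y.2)).comp
      ((Primrec.fst.comp (Primrec.snd.comp Primrec.fst)).pair Primrec.snd)
  · exact (tst_primrec k).comp ((Primrec.fst.comp (Primrec.fst.comp Primrec.fst)).pair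
      ((Primrec.snd.comp (Primrec.snd.comp Primrec.fst)).pair
        (Primrec.fin_val.comp Primrec.snd)))

theorem outs_primrec {σ : Type} [Finite σ] [Primcodable σ] (A : Set σ) :
    Primrec (fun x : List ℕ × List (σ × ℕ) => outs A x.1 x.2) := by
  classical
  unfold outs
  refine Primrec.list_flatMap (f := fun x : List ℕ × List (σ × ℕ) => x.2)
    (g := fun x y => if y.1 ∈ A then [x.1.getD y.2 0] else []) Primrec.snd ?_
  have h1 : Primrec (fun x : (List ℕ × List (σ × ℕ)) × (σ × ℕ) => decide (x.2.1 ∈ A)) :=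
    (Primrec.dom_finite (fun s : σ => decide (s ∈ A))).comp (Primrec.fst.comp Primrec.snd)
  have h2 : Primrec (fun x : (List ℕ × List (σ × ℕ)) × (σ × ℕ) => [x.1.1.getD x.2.2 0]) :=
    Primrec.list_cons.comp ((Primrec.list_getD 0).comp (Primrec.fst.comp Primrec.fst)
      (Primrec.snd.comp Primrec.snd)) (Primrec.const [])
  refine (Primrec.cond h1 h2 (Primrec.const [])).of_eq ?_
  intro x
  by_cases h : x.2.1 ∈ A
  · simp [h]
  · simp [h]

theorem catN_primrec {k : ℕ} {σ : Type} [Finite σ] (M : DFA (Fin k) σ) :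
    Primrec (fun x : (List ℕ × List ℕ) × ℕ => catN M x.1.1 x.1.2 x.2) := by
  classical
  have : Fintype σ := Fintype.ofFinite σ
  let _ : Primcodable σ := Primcodable.ofEquiv (Fin (Fintype.card σ)) (Fintype.equivFin σ)
  unfold catN
  refine Primrec.list_flatMap (f := fun x : (List ℕ × List ℕ) × ℕ => List.range x.2)
    (g := fun x j => outs M.accept x.1.2 ((nxt M x.1.1)^[j] [(M.start, 0)]))
    (Primrec.list_range.comp Primrec.snd) ?_
  have h1 : Primrec (fun y : ((List ℕ × List ℕ) × ℕ) × ℕ =>
      (nxt M y.1.1.1)^[y.2] [(M.start, 0)]) := by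
    refine Primrec.nat_iterate (f := fun y : ((List ℕ × List ℕ) × ℕ) × ℕ => y.2)
      (g := fun _ => [(M.start, 0)]) (h := fun y l => nxt M y.1.1.1 l) Primrec.snd
      (Primrec.const _) ?_
    exact (nxt_primrec M).comp ((Primrec.fst.comp (Primrec.fst.comp (Primrec.fst.comp
      Primrec.fst))).pair Primrec.snd)
  exact (outs_primrec M.accept).comp ((Primrec.snd.comp (Primrec.fst.comp Primrec.fst)).pair h1)

/-- a size of the table -/
def szN (l : List ℕ) : ℕ := l.length + l.foldl (fun s x => s + x) 0

theorem foldl_add (l : List ℕ) (s : ℕ) : l.foldl (fun s x => s + x) s = s + l.sum := by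
  induction l generalizing s with
  | nil => rfl
  | cons x l ih => rw [List.foldl_cons, ih, List.sum_cons, add_assoc]

theorem SN_szN {N : ℕ} {l : List ℕ} (h : szN l ≤ N) : SN N l := by
  unfold szN at h
  rw [foldl_add] at h
  refine ⟨by omega, fun x hx => ?_⟩
  have := List.le_sum_of_mem hx
  omega

theorem szN_primrec : Primrec szN := by
  unfold szN
  refine Primrec.nat_add.comp Primrec.list_length ?_
  exact Primrec.list_foldl (f := fun l : List ℕ => l) (g := fun _ => 0)
    (h := fun _ x => x.1 + x.2) Primrec.id (Primrec.const 0)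
    (Primrec.nat_add.comp (Primrec.fst.comp Primrec.snd) (Primrec.snd.comp Primrec.snd))

end AW
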