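import Pool.Agent.Lib.MP_dd05d9_lc.UL

/-!
* rep_length, evalFrom_rep, rep_succ: induction on `n` (`rep (n+1) x = x ++ rep n x`).
* short_loop: `x` a nonempty loop at `s` of minimal length (`Nat.find` on the length or WellFounded.min); if `card sigma < |x|`:
  `DFA.evalFrom_split` (hlen : card sigma <= |x|) gives `x = a ++ b ++ c`, `|a| + |b| <= card sigma`, `b <> []`, and `a ++ c` is a loop at `s`; it is
  shorter and not empty (`|a| + |b| <= card sigma < |x|` so `c <> []`): contradiction.
* loop_mul: short_loop gives `x` of length `d`, `1 <= d <= card sigma`, `d` divides `(card sigma)!` (`Nat.dvd_factorial`), so with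
  `(card sigma)! = d * m` take `rep m x`.
* SEP: let `l = |x| = |y| > 0`, `z` a word from `M.evalFrom s y` back to `s`; `u = rep l (y ++ z)` and `v = rep |y ++ z| x` have the same
  length `l * |y ++ z|`, both are loops at `s`; UL: `u = v`; both `l` and `|y ++ z|` are positive, so the first `l` letters of `u` are `y`, those
  of `v` are `x`: `x = y`.
-/

set_option autoImplicit false

namespace AW

theorem rep_length {α : Type} (n : ℕ) (x : List α) : (rep n x).length = n * x.length := by
  unfold rep
  rw [List.length_flatten, List.map_replicate, List.sum_replicate, smul_eq_mul]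

theorem rep_succ {α : Type} (n : ℕ) (x : List α) : rep (n + 1) x = x ++ rep n x := by
  unfold rep
  rw [List.replicate_succ, List.flatten_cons]

variable {k : ℕ} {σ : Type} {M : DFA (Fin k) σ}

theorem evalFrom_rep {s : σ} {x : List (Fin k)} (hx : M.evalFrom s x = s) (n : ℕ) :
    M.evalFrom s (rep n x) = s := by
  induction n with
  | zero => rfl
  | succ n ih => rw [rep_succ, DFA.evalFrom_of_append, hx, ih]

theorem short_loop [Fintype σ] {s : σ} (h : Cyc M s) :
    ∃ x, x ≠ [] ∧ x.length ≤ Fintype.card σ ∧ M.evalFrom s x = s := by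
  classical
  have hex : ∃ n, ∃ x : List (Fin k), x ≠ [] ∧ M.evalFrom s x = s ∧ x.length = n := by
    obtain ⟨x, hx, hxs⟩ := h
    exact ⟨_, x, hx, hxs, rfl⟩
  obtain ⟨x, hx, hxs, hxn⟩ := Nat.find_spec hex
  refine ⟨x, hx, ?_, hxs⟩
  by_contra hlt
  push Not at hlt
  obtain ⟨q, a, b, c, habc, hab, hb, ha, hbq, hcq⟩ := M.evalFrom_split (hlen := hlt.le) hxs
  have hlen : x.length = a.length + b.length + c.length := by
    rw [habc, List.length_append, List.length_append]
  have hbl : 0 < b.length := List.length_pos_iff.2 hb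
  have hcl : 0 < c.length := by omega
  have hac : (a ++ c).length < x.length := by
    rw [List.length_append]; omega
  have hlt2 : (a ++ c).length < Nat.find hex := by rw [← hxn]; exact hac
  apply Nat.find_min hex hlt2
  refine ⟨a ++ c, ?_, ?_, rfl⟩
  · intro h0
    have := congrArg List.length h0
    rw [List.length_append, List.length_nil] at this
    omega
  · rw [DFA.evalFrom_of_append, ha, hcq]

theorem loop_mul [Fintype σ] {s : σ} (h : Cyc M s) :
    ∃ x, x.length = (Fintype.card σ).factorial ∧ M.evalFrom s x = s := by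
  obtain ⟨x, hx, hxl, hxs⟩ := short_loop h
  have hpos : 0 < x.length := List.length_pos_iff.2 hx
  obtain ⟨m, hm⟩ := Nat.dvd_factorial hpos hxl
  refine ⟨rep m x, ?_, evalFrom_rep hxs m⟩
  rw [rep_length, hm]; ring

theorem SEP_u (hU : ULH M) {s : σ} (h1 : Rch M s) (h2 : Coa M s) {x y : List (Fin k)}
    (hx : M.evalFrom s x = s) (hxy : y.length = x.length) (hp : 0 < x.length) (hne : y ≠ x) :
    ¬ To M (M.evalFrom s y) s := by
  rintro ⟨z, hz⟩
  have hyz : M.evalFrom s (y ++ z) = s := by rw [DFA.evalFrom_of_append, hz]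
  have hlen : (rep x.length (y ++ z)).length = (rep (y ++ z).length x).length := by
    rw [rep_length, rep_length]; ring
  have heq := hU s h1 h2 _ _ hlen (evalFrom_rep hyz _) (evalFrom_rep hx _)
  obtain ⟨m, hm⟩ : ∃ m, x.length = m + 1 := ⟨x.length - 1, by omega⟩
  obtain ⟨m', hm'⟩ : ∃ m', (y ++ z).length = m' + 1 := ⟨(y ++ z).length - 1, by
    rw [List.length_append]; omega⟩
  rw [hm, hm', rep_succ, rep_succ, List.append_assoc] at heq
  exact hne (List.append_inj heq hxy).1

theorem SEP (hPG : PG M.accepts) {s : σ} (h1 : Rch M s) (h2 : Coa M s) {x y : List (Fin k)}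
    (hx : M.evalFrom s x = s) (hxy : y.length = x.length) (hp : 0 < x.length) (hne : y ≠ x) :
    ¬ To M (M.evalFrom s y) s :=
  SEP_u (ULH_of_PG hPG) h1 h2 hx hxy hp hne

end AW
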