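import Pool.Agent.Lib.MP_dd05d9_lc.Pb1

/-!
* len_mono: induction on `e`: a fixed shape has constant length; `Z (k+1) = Z k ++ Y k` has larger or equal length; products add.
* di: induction on `e`: if `W e = []` then `W k = []` for all `k >= e`.  `e = 0`: constant length.  `e + 1`: all pieces `Z (e+1) = []`;
  FS: constant length 0; `Z (k+1) = Z k ++ Y k` : `Z (e+1) = []` gives `Y e = []`, so `Y k = []` for `k >= e` by the induction
  hypothesis, so `Z k = Z (e+1) = []` for `k >= e + 1`.  Together with len_mono: if `W e <> []` then `W k <> []` for all `k >= e`.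
-/

set_option autoImplicit false

namespace AW

private lemma DI_piece_len {Q : (ℕ → List ℤ) → Prop} {N : ℕ} {Z : ℕ → List ℤ}
    (hZ : Piece Q N Z) (k : ℕ) : (Z k).length ≤ (Z (k + 1)).length := by
  rcases hZ with ⟨l, -, hl, -⟩ | ⟨Y, -, -, h⟩ | ⟨Y, -, -, h⟩
  · rw [hl, hl]
  · rw [h, List.length_append]; omega
  · rw [h, List.length_append]; omega

private lemma DI_flat_len (k : ℕ) : ∀ L : List (ℕ → List ℤ),
    (∀ Z ∈ L, (Z k).length ≤ (Z (k + 1)).length) →
    ((L.map (fun Z => Z k)).flatten).length ≤ ((L.map (fun Z => Z (k + 1))).flatten).length := by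
  intro L
  induction L with
  | nil => intro _; simp
  | cons Z L ih =>
    intro h
    have h1 := h Z List.mem_cons_self
    have h2 := ih (fun Z' hZ' => h Z' (List.mem_cons_of_mem _ hZ'))
    rw [List.map_cons, List.map_cons, List.flatten_cons, List.flatten_cons, List.length_append,
      List.length_append]
    omega

theorem P.len_mono {e N : ℕ} {W : ℕ → List ℤ} (hW : P e N W) (k : ℕ) :
    (W k).length ≤ (W (k + 1)).length := by
  cases e with
  | zero =>
    obtain ⟨l, -, hl, -⟩ := hW
    rw [hl, hl]
  | succ e =>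
    obtain ⟨L, -, hL, hW⟩ := hW
    rw [hW, hW]
    exact DI_flat_len k L (fun Z hZ => DI_piece_len (hL Z hZ) k)

private lemma DI_len_ne {W : ℕ → List ℤ} (h : ∀ k, (W k).length ≤ (W (k + 1)).length) {e : ℕ}
    (he : W e ≠ []) (k : ℕ) (hk : e ≤ k) : W k ≠ [] := by
  induction k, hk using Nat.le_induction with
  | base => exact he
  | succ k _ ih =>
    intro h0
    have h1 := h k
    rw [h0, List.length_nil] at h1
    exact ih (List.length_eq_zero_iff.1 (by omega))

private lemma DI_FS {N : ℕ} {W : ℕ → List ℤ} (hW : FS N W) (e : ℕ) :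
    (∀ k, e ≤ k → W k = []) ∨ (∀ k, e ≤ k → W k ≠ []) := by
  obtain ⟨l, -, hl, -⟩ := hW
  rcases Nat.eq_zero_or_pos l with h0 | h0
  · left
    intro k _
    exact List.length_eq_zero_iff.1 (by rw [hl, h0])
  · right
    intro k _ h
    have := hl k
    rw [h, List.length_nil] at this
    omega

private lemma DI_piece {e N : ℕ}
    (ih : ∀ W : ℕ → List ℤ, P e N W → (∀ k, e ≤ k → W k = []) ∨ (∀ k, e ≤ k → W k ≠ []))
    {Z : ℕ → List ℤ} (hZ : Piece (P e N) N Z) :
    (∀ k, e + 1 ≤ k → Z k = []) ∨ (∀ k, e + 1 ≤ k → Z k ≠ []) := by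
  by_cases h0 : Z (e + 1) = []
  · left
    rcases hZ with h | ⟨Y, hY, -, h⟩ | ⟨Y, hY, -, h⟩
    · rcases DI_FS h (e + 1) with h1 | h1
      · exact h1
      · exact absurd h0 (h1 (e + 1) le_rfl)
    · have h1 : Y e = [] := by
        have := h e
        rw [h0] at this
        exact (List.append_eq_nil_iff.1 this.symm).2
      have h2 : ∀ k, e ≤ k → Y k = [] := by
        rcases ih Y hY with h2 | h2
        · exact h2
        · exact absurd h1 (h2 e le_rfl)
      intro k hk
      induction k, hk using Nat.le_induction with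
      | base => exact h0
      | succ k hk ih => rw [h, ih, h2 k (by omega), List.append_nil]
    · have h1 : Y e = [] := by
        have := h e
        rw [h0] at this
        exact (List.append_eq_nil_iff.1 this.symm).1
      have h2 : ∀ k, e ≤ k → Y k = [] := by
        rcases ih Y hY with h2 | h2
        · exact h2
        · exact absurd h1 (h2 e le_rfl)
      intro k hk
      induction k, hk using Nat.le_induction with
      | base => exact h0
      | succ k hk ih => rw [h, ih, h2 k (by omega), List.append_nil]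
  · right
    exact DI_len_ne (DI_piece_len hZ) h0

theorem P.di {e N : ℕ} {W : ℕ → List ℤ} (hW : P e N W) :
    (∀ k, e ≤ k → W k = []) ∨ (∀ k, e ≤ k → W k ≠ []) := by
  induction e generalizing W with
  | zero => exact DI_FS hW 0
  | succ e ih =>
    obtain ⟨L, -, hL, hW⟩ := hW
    by_cases hall : ∀ Z ∈ L, ∀ k, e + 1 ≤ k → Z k = []
    · left
      intro k hk
      rw [hW, List.flatten_eq_nil_iff]
      intro l hl
      obtain ⟨Z, hZ, rfl⟩ := List.mem_map.1 hl
      exact hall Z hZ k hk
    · right
      push Not at hall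
      obtain ⟨Z, hZ, k0, hk0, hne⟩ := hall
      have hd : ∀ k, e + 1 ≤ k → Z k ≠ [] := by
        rcases DI_piece (fun W hW => ih hW) (hL Z hZ) with h1 | h1
        · exact absurd (h1 k0 hk0) hne
        · exact h1
      intro k hk h0
      rw [hW, List.flatten_eq_nil_iff] at h0
      exact hd k hk (h0 (Z k) (List.mem_map.2 ⟨Z, hZ, rfl⟩))

end AW
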