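import Mathlib

/-!
MP_dd05d9_lc : equality of automatic words in two abstract numeration systems, both of polynomial
growth.  Definitions of part A (families of lists of integers of polynomial type).

All statements of part A have one size parameter `N` (a natural number which bounds everything:
lengths, coefficients, numbers of pieces), and closure lemmas are of the form
`exists F, PM F and forall N, ... P e N W -> P e (F N) (op W)`; `PM F` = primitive recursive,
monotone, at least the identity.
-/

set_option autoImplicit false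

namespace AW

/-- size functions -/
def PM (F : ℕ → ℕ) : Prop := Primrec F ∧ Monotone F ∧ ∀ n, n ≤ F n

/-- all entries bounded by `N` in absolute value, and length at most `N` -/
def SB (N : ℕ) (l : List ℤ) : Prop := l.length ≤ N ∧ ∀ x ∈ l, |x| ≤ (N : ℤ)

/-- the value at `k` of the integer valued polynomial with coefficients `a` in the binomial basis -/
def pe (a : List ℤ) (k : ℕ) : ℤ := ∑ i ∈ Finset.range a.length, a.getD i 0 * (k.choose i : ℤ)

/-- `p` is a polynomial function of size at most `N` -/
def PB (N : ℕ) (p : ℕ → ℤ) : Prop := ∃ a : List ℤ, SB N a ∧ ∀ k, p k = pe a k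

/-- fixed shape: a family of lists of constant length at most `N`, all entries are polynomials -/
def FS (N : ℕ) (W : ℕ → List ℤ) : Prop :=
  ∃ l ≤ N, (∀ k, (W k).length = l) ∧ ∀ i < l, PB N (fun k => (W k).getD i 0)

/-- one piece over a class `Q` of families: fixed shape, or growing at the right end by a family of
the class, or growing at the left end by a family of the class -/
def Piece (Q : (ℕ → List ℤ) → Prop) (N : ℕ) (Z : ℕ → List ℤ) : Prop :=
  FS N Z ∨ (∃ Y, Q Y ∧ SB N (Z 0) ∧ ∀ k, Z (k + 1) = Z k ++ Y k) ∨
    (∃ Y, Q Y ∧ SB N (Z 0) ∧ ∀ k, Z (k + 1) = Y k ++ Z k)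

/-- families of polynomial type: level `e`, size `N`.  Level 0 = fixed shape, level `e + 1` =
products of at most `N` pieces over level `e` -/
def P : ℕ → ℕ → (ℕ → List ℤ) → Prop
  | 0, N, W => FS N W
  | e + 1, N, W => ∃ L : List (ℕ → List ℤ), L.length ≤ N ∧ (∀ Z ∈ L, Piece (P e N) N Z) ∧
      ∀ k, W k = (L.map (fun Z => Z k)).flatten

/-- the finite list `l` is a prefix of the infinite word `f` -/
def IsPre (l : List ℤ) (f : ℕ → ℤ) : Prop := l = (List.range l.length).map f

/-- infinite words of polynomial type, level `e`, size `N` -/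
def Fam (e N : ℕ) (f : ℕ → ℤ) : Prop :=
  ∃ U Y : ℕ → List ℤ, P e N Y ∧ SB N (U 0) ∧ (∀ k, U (k + 1) = U k ++ Y k) ∧
    (∀ k, Y k ≠ []) ∧ ∀ k, IsPre (U k) f

/-! gap words -/

/-- add `b` to the first entry -/
def addF (l : List ℤ) (b : ℤ) : List ℤ :=
  match l with
  | [] => []
  | x :: t => (x + b) :: t

/-- one step of the compression: a zero increases the trailing gap, a nonzero entry `x` is recorded
together with the gap before it -/
def stp (g : List ℤ × ℤ) (x : ℤ) : List ℤ × ℤ :=
  if x = 0 then (g.1, g.2 + 1) else (g.1 ++ [g.2, x], 0)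

/-- compression of a list: marks (gap before, value) and the trailing gap -/
def cmp (l : List ℤ) : List ℤ × ℤ := l.foldl stp ([], 0)

/-- product of gap words -/
def gm (g h : List ℤ × ℤ) : List ℤ × ℤ :=
  if h.1 = [] then (g.1, g.2 + h.2) else (g.1 ++ addF h.1 g.2, h.2)

/-- families of gap words of polynomial type -/
def GP (e N : ℕ) (G : ℕ → List ℤ × ℤ) : Prop :=
  P e N (fun k => (G k).1) ∧ PB N (fun k => (G k).2) ∧
    ((∀ k, (G k).1 = []) ∨ (∀ k, (G k).1 ≠ []))

/-! linear operators -/

/-- the operator `R(E)` (E = shift) on sequences -/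
def ap (R : Polynomial ℤ) (h : ℕ → ℤ) (i : ℕ) : ℤ :=
  ∑ j ∈ Finset.range (R.natDegree + 1), R.coeff j * h (i + j)

/-- the operator `R(E)` on lists: the list becomes shorter by the degree of `R` -/
def dl (R : Polynomial ℤ) (l : List ℤ) : List ℤ :=
  (List.range (l.length - R.natDegree)).map (ap R (fun j => l.getD j 0))

/-- the last `n` entries -/
def sfx (n : ℕ) (l : List ℤ) : List ℤ := (l.reverse.take n).reverse

end AW
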