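import Pool.Agent.Lib.MP_dd05d9_lc.SH

/-!
`Ev Q F N W` : for every shift `c >= F N` the shifted family `W (. + c)` is in `Q (F c)`.
Proof of the three lemmas: `c <= F0 N`; let `c' >= F N` with `F = F0 + Fsh (+ ...)`; then `c' >= F0 N`, mono to size `c'`, and shift by
`d = c' - c <= c'` (P.shift, or FS.shift / PB.shift with size `2^d * c' <= 2^c' * c'`).  `fun k => W (k + c')` = `fun k => W (k + d + c)`.
Ev.mono: for `N <= N'` and `F <= F'` pointwise.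
-/

set_option autoImplicit false

namespace AW

/-- eventually: all large shifts of the family are in the class -/
def Ev {α : Type} (Q : ℕ → (ℕ → α) → Prop) (F : ℕ → ℕ) (N : ℕ) (W : ℕ → α) : Prop :=
  ∀ c, F N ≤ c → Q (F c) (fun k => W (k + c))

theorem Ev.mono {α : Type} {Q : ℕ → (ℕ → α) → Prop} (hQ : ∀ N M W, N ≤ M → Q N W → Q M W)
    {F F' : ℕ → ℕ} (hF : PM F) (hFF : ∀ n, F n ≤ F' n) {N N' : ℕ} (h : N ≤ N') {W : ℕ → α}
    (hW : Ev Q F N W) : Ev Q F' N' W := by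
  intro c hc
  exact hQ _ _ _ (hFF c) (hW c (((hF.2.1 h).trans (hFF N')).trans hc))

private theorem EV_fun {α : Type} (W : ℕ → α) {c c' : ℕ} (h : c ≤ c') :
    (fun k => W (k + c')) = fun k => (fun k => W (k + c)) (k + (c' - c)) := by
  funext k
  have : k + c' = k + (c' - c) + c := by omega
  show W (k + c') = W (k + (c' - c) + c)
  rw [this]

private theorem EV_le {N c c' : ℕ} {F0 : ℕ → ℕ}
    (h1 : F0 N + 2 ^ N * (N + 1) ≤ c') : 2 ^ (c' - c) * F0 N ≤ F0 c' + 2 ^ c' * (c' + 1) := by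
  have a : F0 N ≤ c' + 1 := by omega
  have b : 2 ^ (c' - c) ≤ 2 ^ c' := Nat.pow_le_pow_right (by norm_num) (Nat.sub_le _ _)
  exact (Nat.mul_le_mul b a).trans (Nat.le_add_left _ _)

theorem Ev_of_FS {F0 : ℕ → ℕ} (h0 : PM F0) : ∃ F : ℕ → ℕ, PM F ∧ ∀ (N c : ℕ) (W : ℕ → List ℤ),
    c ≤ F0 N → FS (F0 N) (fun k => W (k + c)) → Ev FS F N W := by
  refine ⟨fun n => F0 n + 2 ^ n * (n + 1), PM.add h0 (PM.mul PM.pow2 PM.id), ?_⟩
  intro N c W hc hW c' hc'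
  have hcc : c ≤ c' := by
    have : F0 N + 2 ^ N * (N + 1) ≤ c' := hc'
    omega
  rw [EV_fun W hcc]
  exact FS.mono (EV_le hc') (FS.shift hW (c' - c))

theorem Ev_of_PB {F0 : ℕ → ℕ} (h0 : PM F0) : ∃ F : ℕ → ℕ, PM F ∧ ∀ (N c : ℕ) (W : ℕ → ℤ),
    c ≤ F0 N → PB (F0 N) (fun k => W (k + c)) → Ev PB F N W := by
  refine ⟨fun n => F0 n + 2 ^ n * (n + 1), PM.add h0 (PM.mul PM.pow2 PM.id), ?_⟩
  intro N c W hc hW c' hc'
  have hcc : c ≤ c' := by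
    have : F0 N + 2 ^ N * (N + 1) ≤ c' := hc'
    omega
  rw [EV_fun W hcc]
  exact PB.mono (EV_le hc') (PB.shift hW (c' - c))

theorem Ev_of_P (e : ℕ) {F0 : ℕ → ℕ} (h0 : PM F0) : ∃ F : ℕ → ℕ, PM F ∧
    ∀ (N c : ℕ) (W : ℕ → List ℤ),
    c ≤ F0 N → P e (F0 N) (fun k => W (k + c)) → Ev (P e) F N W := by
  obtain ⟨Fs, hFs, hs⟩ := P.shift e
  refine ⟨fun n => F0 n + Fs n, PM.add h0 hFs, ?_⟩
  intro N c W hc hW c' hc'
  have h1 : F0 N ≤ c' := (Nat.le_add_right _ _).trans hc'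
  have hcc : c ≤ c' := hc.trans h1
  rw [EV_fun W hcc]
  exact P.mono (Nat.le_add_left _ _) (hs c' _ (c' - c) (P.mono h1 hW) (Nat.sub_le _ _))

end AW
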