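import Pool.Agent.Lib.MP_dd05d9_lc.FSa

/-!
* mono: induction on `e` (the pieces: FS.mono, SB.mono, the induction hypothesis).
* append: `e = 0`: FS.append; `e + 1`: append the two lists of pieces (after mono of the pieces to `N + M`).
* ofFS: `e = 0` mono; `e + 1`: the list of pieces `[W]`.
* up: `e = 0`: ofFS. `e+1`: pieces over `P e N` are pieces over `P (e+1) (N+1)` by the induction hypothesis; N grows to N+1.
* reverse: `e = 0`: FS.reverse; `e + 1`: reverse the list of pieces and every piece (`inc` and `dec` change places;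
  `(L.map ..).flatten.reverse = ...`: `List.reverse_flatten`).
* inc, dec: the list of pieces `[Z]` (note `P e N Y -> P e (N+1) Y`).
* prod: induction on the list, `append`.
-/

set_option autoImplicit false

namespace AW

private theorem Piece_mono {Q Q' : (ℕ → List ℤ) → Prop} (hQ : ∀ Y, Q Y → Q' Y) {N M : ℕ}
    (h : N ≤ M) {Z : ℕ → List ℤ} (hZ : Piece Q N Z) : Piece Q' M Z := by
  rcases hZ with h4 | ⟨Y, h5, h6, h7⟩ | ⟨Y, h5, h6, h7⟩
  · exact Or.inl (FS.mono h h4)
  · exact Or.inr (Or.inl ⟨Y, hQ _ h5, SB.mono h h6, h7⟩)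
  · exact Or.inr (Or.inr ⟨Y, hQ _ h5, SB.mono h h6, h7⟩)

theorem P.mono {e N M : ℕ} {W : ℕ → List ℤ} (h : N ≤ M) (hW : P e N W) : P e M W := by
  induction e generalizing N M W with
  | zero => exact FS.mono h hW
  | succ e ih =>
    obtain ⟨L, h1, h2, h3⟩ := hW
    exact ⟨L, h1.trans h, fun Z hZ => Piece_mono (fun Y hY => ih h hY) h (h2 Z hZ), h3⟩

theorem P.append {e N M : ℕ} {W V : ℕ → List ℤ} (hW : P e N W) (hV : P e M V) :
    P e (N + M) (fun k => W k ++ V k) := by
  cases e with
  | zero => exact FS.append hW hV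
  | succ e =>
    obtain ⟨L, a1, a2, a3⟩ := hW
    obtain ⟨L', b1, b2, b3⟩ := hV
    refine ⟨L ++ L', by rw [List.length_append]; omega, ?_, ?_⟩
    · intro Z hZ
      rcases List.mem_append.mp hZ with h | h
      · exact Piece_mono (fun Y hY => P.mono (Nat.le_add_right _ _) hY)
          (Nat.le_add_right _ _) (a2 Z h)
      · exact Piece_mono (fun Y hY => P.mono (Nat.le_add_left _ _) hY)
          (Nat.le_add_left _ _) (b2 Z h)
    · intro k
      show W k ++ V k = _
      rw [a3, b3, List.map_append, List.flatten_append]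

theorem P.ofFS {e N : ℕ} {W : ℕ → List ℤ} (hW : FS N W) : P e (N + 1) W := by
  cases e with
  | zero => exact FS.mono (Nat.le_succ N) hW
  | succ e =>
    refine ⟨[W], by simp, ?_, ?_⟩
    · intro Z hZ
      rw [List.mem_singleton] at hZ
      rw [hZ]
      exact Or.inl (FS.mono (Nat.le_succ N) hW)
    · intro k
      simp

theorem P.up {e N : ℕ} {W : ℕ → List ℤ} (hW : P e N W) : P (e + 1) (N + 1) W := by
  induction e generalizing N W with
  | zero => exact P.ofFS (e := 1) hW
  | succ e ih =>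
    obtain ⟨L, h1, h2, h3⟩ := hW
    exact ⟨L, h1.trans (Nat.le_succ N),
      fun Z hZ => Piece_mono (fun Y hY => ih hY) (Nat.le_succ N) (h2 Z hZ), h3⟩

theorem P.upn {e N : ℕ} {W : ℕ → List ℤ} (hW : P e N W) (d : ℕ) : P (e + d) (N + d) W := by
  induction d with
  | zero => exact hW
  | succ d ih => exact P.up ih

theorem P.reverse {e N : ℕ} {W : ℕ → List ℤ} (hW : P e N W) : P e N (fun k => (W k).reverse) := by
  induction e generalizing N W with
  | zero => exact FS.reverse hW
  | succ e ih =>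
    obtain ⟨L, h1, h2, h3⟩ := hW
    refine ⟨(L.map (fun Z k => (Z k).reverse)).reverse, by simpa using h1, ?_, ?_⟩
    · intro Z' hZ'
      rw [List.mem_reverse, List.mem_map] at hZ'
      obtain ⟨Z, hZ, rfl⟩ := hZ'
      have hrev : ∀ l : List ℤ, SB N l → SB N l.reverse := by
        intro l hl
        refine ⟨by rw [List.length_reverse]; exact hl.1, fun x hx => hl.2 x ?_⟩
        exact List.mem_reverse.mp hx
      rcases h2 Z hZ with h4 | ⟨Y, h5, h6, h7⟩ | ⟨Y, h5, h6, h7⟩
      · exact Or.inl (FS.reverse h4)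
      · refine Or.inr (Or.inr ⟨fun k => (Y k).reverse, ih h5, hrev _ h6, fun k => ?_⟩)
        show (Z (k + 1)).reverse = (Y k).reverse ++ (Z k).reverse
        rw [h7 k, List.reverse_append]
      · refine Or.inr (Or.inl ⟨fun k => (Y k).reverse, ih h5, hrev _ h6, fun k => ?_⟩)
        show (Z (k + 1)).reverse = (Z k).reverse ++ (Y k).reverse
        rw [h7 k, List.reverse_append]
    · intro k
      show (W k).reverse = _
      rw [h3 k, List.reverse_flatten, List.map_reverse, List.map_map, List.map_map]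
      rfl

theorem P.nil (e N : ℕ) : P e N (fun _ => []) := by
  cases e with
  | zero => exact FS.nil N
  | succ e => exact ⟨[], Nat.zero_le _, by simp, by simp⟩

theorem P.inc {e N : ℕ} {Y Z : ℕ → List ℤ} (hY : P e N Y) (h0 : SB N (Z 0))
    (h : ∀ k, Z (k + 1) = Z k ++ Y k) : P (e + 1) (N + 1) Z := by
  refine ⟨[Z], by simp, ?_, by simp⟩
  intro Z' hZ'
  rw [List.mem_singleton] at hZ'
  rw [hZ']
  exact Or.inr (Or.inl ⟨Y, P.mono (Nat.le_succ N) hY, SB.mono (Nat.le_succ N) h0, h⟩)

theorem P.dec {e N : ℕ} {Y Z : ℕ → List ℤ} (hY : P e N Y) (h0 : SB N (Z 0))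
    (h : ∀ k, Z (k + 1) = Y k ++ Z k) : P (e + 1) (N + 1) Z := by
  refine ⟨[Z], by simp, ?_, by simp⟩
  intro Z' hZ'
  rw [List.mem_singleton] at hZ'
  rw [hZ']
  exact Or.inr (Or.inr ⟨Y, P.mono (Nat.le_succ N) hY, SB.mono (Nat.le_succ N) h0, h⟩)

theorem P.prod {e N : ℕ} (L : List (ℕ → List ℤ)) (hL : ∀ Z ∈ L, P e N Z) :
    P e (L.length * N) (fun k => (L.map (fun Z => Z k)).flatten) := by
  induction L with
  | nil => exact P.nil e _
  | cons Z L ih =>
    have h1 := P.append (hL Z List.mem_cons_self) (ih fun Z' h => hL Z' (List.mem_cons_of_mem _ h))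
    have h2 : N + L.length * N ≤ (Z :: L).length * N := by
      rw [List.length_cons]
      exact le_of_eq (by ring)
    exact P.mono h2 h1

end AW
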