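import Pool.Agent.Lib.MP_dd05d9_lc.ANN
import Pool.Agent.Lib.MP_dd05d9_lc.Pb1

/-!
`f` in Fam 0 N: `U (k+1) = U k ++ Y k`, `Y` FS of constant length `l`, `1 <= l <= N`.  For `i >= |U 0|`: the window `i .. i + n` of `f` lies in
`(U c).drop |U 0|` for `c` large, so by ann_inc (k = 0) `ap R f i = 0` (an entry of `dl R ((U c).drop |U 0|)`; IsPre (U c) f).  `|U 0| <= N`.
-/

set_option autoImplicit false

namespace AW

theorem F0 {N M : ℕ} {R : Polynomial ℤ} (hR : RB N M R) {f : ℕ → ℤ} (hf : Fam 0 N f) :
    ∀ i, N ≤ i → ap R f i = 0 := by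
  intro i hi
  obtain ⟨U, Y, hY, hU0, hU, hne, hpre⟩ := hf
  have hY' : FS N Y := hY
  obtain ⟨l, hlN, hlen, hent⟩ := hY
  have h1 : 1 ≤ l := by
    rw [← hlen 0]
    exact List.length_pos_iff.2 (hne 0)
  have hUlen : ∀ c, (U c).length = (U 0).length + c * l := by
    intro c
    induction c with
    | zero => simp
    | succ c ih => rw [hU, List.length_append, ih, hlen]; ring
  set n := R.natDegree with hn
  set c := i + n + 1 with hc
  have hUc : i + n < (U c).length := by
    rw [hUlen]
    have : c ≤ c * l := Nat.le_mul_of_pos_right _ h1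
    omega
  have h0 := ann_inc hR hY' hlen h1 hU 0 c
  rw [Nat.zero_add] at h0
  have hU0i : (U 0).length ≤ i := hU0.1.trans hi
  set L := (U c).drop (U 0).length with hL
  have hLlen : L.length = (U c).length - (U 0).length := by rw [hL, List.length_drop]
  have hmem : ap R (fun j => L.getD j 0) (i - (U 0).length) ∈ dl R L := by
    unfold dl
    exact List.mem_map.2 ⟨i - (U 0).length, List.mem_range.2 (by omega), rfl⟩
  have hz := h0 _ hmem
  rw [← hz]
  unfold ap
  refine Finset.sum_congr rfl ?_
  intro j hj
  have hjn : j < n + 1 := Finset.mem_range.1 hj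
  congr 1
  show f (i + j) = L.getD (i - (U 0).length + j) 0
  have hidx : (U 0).length + (i - (U 0).length + j) = i + j := by omega
  have hlt : i - (U 0).length + j < L.length := by omega
  rw [List.getD_eq_getElem _ _ hlt]
  have h3 : (U c)[i + j]'(by omega) = f (i + j) := by
    have h4 := hpre c
    unfold IsPre at h4
    have h5 : (U c)[i + j]? = ((List.range (U c).length).map f)[i + j]? := by rw [← h4]
    rw [List.getElem?_eq_getElem (by omega), List.getElem?_eq_getElem (by simp; omega)] at h5
    have h6 := Option.some.inj h5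
    rw [h6, List.getElem_map, List.getElem_range]
  rw [← h3]
  simp only [hL, List.getElem_drop, hidx]

end AW
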