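import Pool.Agent.Lib.MP_dd05d9_lc.FMx
import Pool.Agent.Lib.MP_dd05d9_lc.F0

/-!
Induction on `e`.  `R` from RB_exists, `M = FR N`.
`e = 0`: F0 for both: beyond `N` both `ap R f` and `ap R f'` vanish; with `f = f'` on `[0, N + M + 1)` (ap_congr) `ap R f = ap R f'`, ap_ini.
`e + 1`: FM for both with `F1`.  Let `F2` be the function of level `e`.
 (0,0): as before with `F1 M + M + 1`.
 (0,code) (and symmetric): `Cd` with `J = 2 * (F1 M) + 2`: `i <= F1 (M + J)`, `(cmp (pref h' i)).1` has length `>= J`, so (cmp_length) at least `F1 M + 1` of the values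
   `h' 0, ..., h' (i-1)` are nonzero, so one at a place `>= F1 M`, `< F1 (M+J)`; `h = h'` there (agreement), contradiction with `h = 0` from `F1 M` on.
 (code,code): `g, g'` in Fam e (F1 M); `J = F2 (F1 M)`; Cd_agree: `g = g'` on `[0, J)`; so `g = g'`; Cd_unique: `ap R f = ap R f'`; ap_ini.
Function: `F N = F1 (M + 2 F1 M + 2 + F2 (F1 M)) + M + 1` with `M = FR N` (monotone in everything).
-/

set_option autoImplicit false

namespace AW

private theorem TA_count (h : ℕ → ℤ) (a : ℕ) : ∀ i : ℕ, (∀ j, a ≤ j → j < i → h j = 0) →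
    ((pref h i).filter (fun x => x ≠ 0)).length ≤ a := by
  intro i
  induction i with
  | zero => intro _; simp [pref]
  | succ i ih =>
    intro hh
    by_cases hia : i < a
    · calc ((pref h (i + 1)).filter (fun x => x ≠ 0)).length ≤ (pref h (i + 1)).length :=
            List.length_filter_le _ _
        _ = i + 1 := by simp [pref]
        _ ≤ a := hia
    · have h0 : h i = 0 := hh i (by omega) (by omega)
      have e1 : pref h (i + 1) = pref h i ++ [h i] := by
        simp [pref, List.range_succ]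
      rw [e1, List.filter_append, h0]
      simpa using ih (fun j h1 h2 => hh j h1 (by omega))

private theorem TA_mixed {F1 : ℕ → ℕ} {M : ℕ} {h h' g' : ℕ → ℤ}
    (hz : ∀ i, F1 M ≤ i → h i = 0) (c : Cd F1 M h' g')
    (e : ∀ i < F1 (M + (2 * F1 M + 2)), h i = h' i) : False := by
  obtain ⟨i, hi, hJ, _⟩ := c (2 * F1 M + 2)
  rw [cmp_length] at hJ
  have h1 := TA_count h' (F1 M) i (fun j h1 h2 => by
    rw [← e j (by omega)]
    exact hz j h1)
  omega

private theorem TA_fin {N M K : ℕ} {R : Polynomial ℤ} (hR : RB N M R) {f f' : ℕ → ℤ}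
    (hK : M + 1 ≤ K) (he : ∀ i < K, f i = f' i) (h : ap R f = ap R f') : f = f' :=
  ap_ini R hR.1 f f' (fun i hi => he i (by have := hR.2.1; omega)) h

private theorem TA_agree {N M K : ℕ} {R : Polynomial ℤ} (hR : RB N M R) {f f' : ℕ → ℤ}
    (he : ∀ i < K + M + 1, f i = f' i) : ∀ i < K, ap R f i = ap R f' i := by
  intro i hi
  apply ap_congr
  intro j hj
  have := hR.2.1
  exact he _ (by omega)

theorem TA (e : ℕ) : ∃ F : ℕ → ℕ, PM F ∧ ∀ (N : ℕ) (f f' : ℕ → ℤ), Fam e N f → Fam e N f' →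
    (∀ i < F N, f i = f' i) → f = f' := by
  obtain ⟨FR, hFR, hR⟩ := RB_exists
  induction e with
  | zero =>
    refine ⟨fun N => N + FR N + 1, PM.addc (PM.add PM.id hFR) 1, ?_⟩
    intro N f f' hf hf' he
    obtain ⟨R, hRN⟩ := hR N
    have h1 := F0 hRN hf
    have h2 := F0 hRN hf'
    refine TA_fin hRN (K := N + FR N + 1) (by omega) he ?_
    funext i
    by_cases hi : N ≤ i
    · rw [h1 i hi, h2 i hi]
    · exact TA_agree hRN (K := N) he i (by omega)
  | succ e ih =>
    obtain ⟨F2, hF2, H2⟩ := ih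
    obtain ⟨F1, hF1, H1⟩ := FM e
    have hinner : PM (fun M => M + (2 * F1 M + 2) + F2 (F1 M)) := by
      have a1 : PM (fun M => F1 M * 2 + 2) := PM.addc (PM.mulc hF1 2 (by norm_num)) 2
      have a2 : PM (fun M => F2 (F1 M)) := PM.comp hF2 hF1
      have a3 : PM (fun M => M + (F1 M * 2 + 2) + F2 (F1 M)) := PM.add (PM.add PM.id a1) a2
      have : (fun M => M + (2 * F1 M + 2) + F2 (F1 M)) = (fun M => M + (F1 M * 2 + 2) + F2 (F1 M)) := by
        funext M; ring
      rw [this]; exact a3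
    have hF : PM (fun N => F1 (FR N + (2 * F1 (FR N) + 2) + F2 (F1 (FR N))) + FR N + 1) := by
      have b1 : PM (fun M => F1 (M + (2 * F1 M + 2) + F2 (F1 M))) := PM.comp hF1 hinner
      have b2 : PM (fun M => F1 (M + (2 * F1 M + 2) + F2 (F1 M)) + M + 1) := PM.addc (PM.add b1 PM.id) 1
      exact PM.comp (F := fun M => F1 (M + (2 * F1 M + 2) + F2 (F1 M)) + M + 1) (G := FR) b2 hFR
    refine ⟨_, hF, ?_⟩
    intro N f f' hf hf' he
    obtain ⟨R, hRN⟩ := hR N
    have hNM : N ≤ FR N := hFR.2.2 N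
    generalize FR N = M at *
    have hm := hF1.2.1
    -- agreement of the images
    have hag : ∀ i < F1 (M + (2 * F1 M + 2) + F2 (F1 M)), ap R f i = ap R f' i :=
      TA_agree hRN he
    have hle1 : F1 (M + (2 * F1 M + 2)) ≤ F1 (M + (2 * F1 M + 2) + F2 (F1 M)) := hm (by omega)
    have hle2 : F1 (M + F2 (F1 M)) ≤ F1 (M + (2 * F1 M + 2) + F2 (F1 M)) := hm (by omega)
    have hle3 : F1 M ≤ F1 (M + (2 * F1 M + 2) + F2 (F1 M)) := hm (by omega)
    refine TA_fin hRN (K := F1 (M + (2 * F1 M + 2) + F2 (F1 M)) + M + 1) (by omega) he ?_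
    rcases H1 N M R f hNM hRN hf with hz | ⟨g, hg, hc⟩
    · rcases H1 N M R f' hNM hRN hf' with hz' | ⟨g', hg', hc'⟩
      · funext i
        by_cases hi : F1 M ≤ i
        · rw [hz i hi, hz' i hi]
        · exact hag i (by omega)
      · exact (TA_mixed hz hc' (fun i hi => hag i (by omega))).elim
    · rcases H1 N M R f' hNM hRN hf' with hz' | ⟨g', hg', hc'⟩
      · exact (TA_mixed hz' hc (fun i hi => (hag i (by omega)).symm)).elim
      · have hgg : g = g' := H2 (F1 M) g g' hg hg'
          (Cd_agree hc hc' (fun i hi => hag i (by omega)))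
        subst hgg
        exact Cd_unique hc hc'

end AW
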