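import Pool.Agent.Lib.MP_dd05d9_lc.CY

/-!
* tst_le, run_le: an entry `t.getD i 0` is an element of `t` or `0`, so at most `N`; induction on the word.
* run_append: `List.foldl_append`.
* run_rep: induction on `n` (rep_succ, run_append; `Function.iterate_succ_apply`).
* idem: for `a <= N` the `N + 2` numbers `g^[i] a`, `i < N + 2`, are at most `N` (`N + 1` values), so there are `i < j <= N + 1` with
  `g^[i] a = g^[j] a` (`Finset.exists_ne_map_eq_of_card_lt_of_maps_to`).  `d = j - i`, `1 <= d <= N + 1` divides `m = (N+1)!`, and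
  `m >= N + 1 > i`.  For `n >= i`: `g^[n + d] a = g^[n] a` (`Function.iterate_add_apply`), so `g^[n + d * c] a = g^[n] a`; apply to `n = m`, `d * c = m`.
* LOOP: loop_mul gives `x0` of length `(card sigma)!`; `x = rep (N+1)! x0`; length by rep_length (`pp` = product), loop by evalFrom_rep; the
  last statement is idem for `g = fun q => run k t q x0` (run_le, run_rep).
-/

set_option autoImplicit false

namespace AW

theorem tst_le {k N : ℕ} {t : List ℕ} (ht : SN N t) (q a : ℕ) : tst k t q a ≤ N := by
  unfold tst
  rw [List.getD_eq_getElem?_getD]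
  cases h : t[q * k + a]? with
  | none => simp
  | some v =>
    simp only [Option.getD_some]
    exact ht.2 v (List.mem_of_getElem? h)

theorem run_le {k N : ℕ} {t : List ℕ} (ht : SN N t) {q : ℕ} (hq : q ≤ N) (x : List (Fin k)) :
    run k t q x ≤ N := by
  induction x generalizing q with
  | nil => exact hq
  | cons a x ih =>
    show run k t (tst k t q a.val) x ≤ N
    exact ih (tst_le ht _ _)

theorem run_append {k : ℕ} (t : List ℕ) (q : ℕ) (x y : List (Fin k)) :
    run k t q (x ++ y) = run k t (run k t q x) y := by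
  unfold run
  rw [List.foldl_append]

theorem run_rep {k : ℕ} (t : List ℕ) (q n : ℕ) (x : List (Fin k)) :
    run k t q (rep n x) = (fun q => run k t q x)^[n] q := by
  induction n generalizing q with
  | zero => rfl
  | succ n ih => rw [rep_succ, run_append, ih, Function.iterate_succ_apply]

theorem ID_le {N : ℕ} (g : ℕ → ℕ) (hg : ∀ a ≤ N, g a ≤ N) (n : ℕ) : ∀ a ≤ N, g^[n] a ≤ N := by
  induction n with
  | zero => intro a ha; exact ha
  | succ n ih => intro a ha; rw [Function.iterate_succ_apply]; exact ih _ (hg a ha)

theorem idem {N : ℕ} (g : ℕ → ℕ) (hg : ∀ a ≤ N, g a ≤ N) :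
    ∀ a ≤ N, g^[(N + 1).factorial] (g^[(N + 1).factorial] a) = g^[(N + 1).factorial] a := by
  intro a ha
  obtain ⟨i, hi, j, hj, hij, he⟩ := Finset.exists_ne_map_eq_of_card_lt_of_maps_to
    (s := Finset.range (N + 2)) (t := Finset.range (N + 1)) (by simp)
    (f := fun n => g^[n] a) (by
      intro n _
      exact Finset.mem_coe.2 (Finset.mem_range.2 (Nat.lt_succ_of_le (ID_le g hg n a ha))))
  wlog hlt : i < j generalizing i j with H
  · exact H j hj i hi hij.symm he.symm (lt_of_le_of_ne (not_lt.1 hlt) hij.symm)
  have hjN := Finset.mem_range.1 hj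
  set m := (N + 1).factorial with hm
  have he' : g^[i] a = g^[j] a := he
  obtain ⟨c, hc⟩ := Nat.dvd_factorial (show 0 < j - i by omega) (show j - i ≤ N + 1 by omega)
  have hmi : i ≤ m := by
    have := Nat.self_le_factorial (N + 1)
    omega
  have step : ∀ n, i ≤ n → g^[n + (j - i)] a = g^[n] a := by
    intro n hn
    rw [show n + (j - i) = (n - i) + j from by omega, Function.iterate_add_apply, ← he',
      ← Function.iterate_add_apply, show n - i + i = n from by omega]
  have steps : ∀ c, g^[m + (j - i) * c] a = g^[m] a := by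
    intro c
    induction c with
    | zero => rfl
    | succ c ih =>
      rw [show m + (j - i) * (c + 1) = (m + (j - i) * c) + (j - i) from by ring,
        step _ (by omega), ih]
  rw [← Function.iterate_add_apply]
  have h1 := steps c
  rw [← hc] at h1
  exact h1

theorem LOOP {k : ℕ} {σ : Type} [Fintype σ] {M : DFA (Fin k) σ} {s : σ} (h : Cyc M s) (N : ℕ) :
    ∃ x : List (Fin k), x.length = pp (Fintype.card σ) N ∧ M.evalFrom s x = s ∧
      ∀ t, SN N t → ∀ q ≤ N, run k t (run k t q x) x = run k t q x := by
  obtain ⟨x0, hl, hs⟩ := loop_mul h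
  refine ⟨rep (N + 1).factorial x0, ?_, evalFrom_rep hs _, ?_⟩
  · rw [rep_length, hl]
    unfold pp
    ring
  · intro t ht q hq
    rw [run_rep, run_rep]
    exact idem (fun q => run k t q x0) (fun a ha => run_le ht ha x0) q hq

end AW
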