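import Pool.Agent.Lib.MP_dd05d9_lc.ID

/-!
The list `words k n` of all words of length `n`, and the decomposition of `wl` after `n` steps.
* mem_words, words_nodup, words_length: induction on `n` (`List.mem_flatMap`, `List.mem_finRange`, `List.nodup_flatMap` / `List.nodup_finRange`,
  `List.length_flatMap`).
* wl_add: induction on `n` (all `s q`): `n + 1 + m = (n + m) + 1`; `wl` unfolds by definition to a flatMap over the first letter; flatMap over
  `words k (n+1)` = flatMap over the first letter of the flatMap over `words k n` (`List.flatMap_assoc`, `List.flatMap_map` or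
  `List.flatMap_congr`).  `M.evalFrom s (a :: x) = M.evalFrom (M.step s a) x` and `run k t q (a :: x) = run k t (tst k t q a.val) x` are rfl.
* wl_split: `words k n = l1 ++ x :: l2` (`List.mem_iff_append` / `List.append_of_mem`), `x` not in `l1`, `l2` (nodup), then wl_add and flatMap_append.
  The lengths of `l1`, `l2` are at most `k^n` (words_length).
-/

set_option autoImplicit false

namespace AW

theorem mem_words {k n : ℕ} {x : List (Fin k)} : x ∈ words k n ↔ x.length = n := by
  induction n generalizing x with
  | zero =>
    unfold words
    rw [List.mem_singleton, List.length_eq_zero_iff]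
  | succ n ih =>
    unfold words
    rw [List.mem_flatMap]
    constructor
    · rintro ⟨a, _, h⟩
      rw [List.mem_map] at h
      obtain ⟨y, hy, rfl⟩ := h
      rw [List.length_cons, ih.1 hy]
    · intro h
      cases x with
      | nil => simp at h
      | cons a y =>
        refine ⟨a, List.mem_finRange a, ?_⟩
        rw [List.mem_map]
        refine ⟨y, ih.2 ?_, rfl⟩
        rw [List.length_cons] at h
        omega

theorem words_nodup (k n : ℕ) : (words k n).Nodup := by
  induction n with
  | zero =>
    unfold words
    exact List.nodup_singleton _
  | succ n ih =>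
    unfold words
    rw [List.nodup_flatMap]
    refine ⟨?_, ?_⟩
    · intro a _
      exact ih.map (fun x y hxy => (List.cons.inj hxy).2)
    · refine (List.nodup_finRange k).imp ?_
      intro a b hab
      rw [Function.onFun, List.disjoint_left]
      intro x hx hy
      rw [List.mem_map] at hx hy
      obtain ⟨u, _, rfl⟩ := hx
      obtain ⟨v, _, hv⟩ := hy
      exact hab (List.cons.inj hv).1.symm

theorem words_length (k n : ℕ) : (words k n).length = k ^ n := by
  induction n with
  | zero => rfl
  | succ n ih =>
    unfold words
    rw [List.length_flatMap]
    have h : (List.map (fun a => (List.map (fun x => a :: x) (words k n)).length) (List.finRange k)) =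
        List.replicate k (k ^ n) := by
      rw [List.eq_replicate_iff]
      refine ⟨by rw [List.length_map, List.length_finRange], ?_⟩
      intro b hb
      rw [List.mem_map] at hb
      obtain ⟨a, _, rfl⟩ := hb
      rw [List.length_map, ih]
    rw [h, List.sum_replicate, smul_eq_mul, pow_succ, mul_comm]

variable {k : ℕ} {σ : Type} {M : DFA (Fin k) σ} {t o : List ℕ}

theorem wl_add (n m : ℕ) (s : σ) (q : ℕ) :
    wl M t o (n + m) s q = (words k n).flatMap (fun x => wl M t o m (M.evalFrom s x) (run k t q x)) := by
  induction n generalizing s q with
  | zero =>
    unfold words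
    rw [List.flatMap_singleton, Nat.zero_add]
    rfl
  | succ n ih =>
    have h : n + 1 + m = (n + m) + 1 := by omega
    rw [h]
    change (List.finRange k).flatMap (fun a => wl M t o (n + m) (M.step s a) (tst k t q a.val)) =
      ((List.finRange k).flatMap (fun a => (words k n).map (fun x => a :: x))).flatMap
        (fun x => wl M t o m (M.evalFrom s x) (run k t q x))
    rw [List.flatMap_assoc]
    congr 1
    funext a
    rw [ih, List.flatMap_map]
    rfl

/-- the words of length `|x|` before and after `x` -/
theorem words_split (x : List (Fin k)) : ∃ l1 l2 : List (List (Fin k)), words k x.length = l1 ++ x :: l2 ∧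
    l1.length ≤ k ^ x.length ∧ l2.length ≤ k ^ x.length ∧
    (∀ y ∈ l1, y.length = x.length ∧ y ≠ x) ∧ (∀ y ∈ l2, y.length = x.length ∧ y ≠ x) := by
  have hx : x ∈ words k x.length := mem_words.2 rfl
  obtain ⟨l1, l2, h⟩ := List.append_of_mem hx
  have hlen := words_length k x.length
  have hnd := words_nodup k x.length
  rw [h, List.length_append, List.length_cons] at hlen
  rw [h, List.nodup_append, List.nodup_cons] at hnd
  refine ⟨l1, l2, h, by omega, by omega, ?_, ?_⟩
  · intro y hy
    refine ⟨mem_words.1 ?_, ?_⟩
    · rw [h]
      exact List.mem_append_left _ hy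
    · rintro rfl
      exact hnd.2.2 y hy y List.mem_cons_self rfl
  · intro y hy
    refine ⟨mem_words.1 ?_, ?_⟩
    · rw [h]
      exact List.mem_append_right _ (List.mem_cons_of_mem _ hy)
    · rintro rfl
      exact hnd.2.1.1 hy

end AW
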