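import Pool.Agent.Lib.MP_dd05d9_lc.XD
import Pool.Agent.Lib.MP_dd05d9_lc.WA
import Pool.Agent.Lib.MP_dd05d9_lc.ID
import Pool.Agent.Lib.MP_dd05d9_lc.CY

/-!
`not ULH M`: `s` reachable (by `z0`) and coaccessible, `x <> y` of the same length `l` with `s x = s = s y` (so `l > 0`).  Table states `<= N` (run_le).  `q0 := run 0 z0`.  Words over {x, y} act on the
table states `<= N` reachable from `q0`.  Let `q` be a table state reachable from `q0` by a product of x's and y's such that the set of states reachable from it by such products has minimal cardinality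
(`{q' | exists b : List Bool, run q (b.flatMap ..) = q'}` is a subset of `{0..N}`, finite).  Then every state reachable from `q` can come back to `q`.  So there are `r`, `r'` (products) with
`run q (x ++ r) = q` and `run q (y ++ r') = q`; put `X = (x ++ r) ++ (y ++ r')`, `Y = (y ++ r') ++ (x ++ r)`: same length, loops of `s` and of `q`, different because the first `l` letters are `x` and `y`.
Bad M t s q, RchP M t s q, and wl (m) s q is not empty for some m (Coa).
-/

set_option autoImplicit false

namespace AW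

private theorem XB1_blk {k : ℕ} {σ : Type} {M : DFA (Fin k) σ} {s : σ} {x y : List (Fin k)}
    (hx : M.evalFrom s x = s) (hy : M.evalFrom s y = s) (b : List Bool) :
    M.evalFrom s (b.flatMap (fun c => if c then x else y)) = s := by
  induction b with
  | nil => rfl
  | cons c b ih =>
    rw [List.flatMap_cons, DFA.evalFrom_of_append]
    cases c
    · simp only [Bool.false_eq_true, if_false]
      rw [hy, ih]
    · simp only [if_true]
      rw [hx, ih]

theorem exists_bad {k : ℕ} {σ : Type} {M : DFA (Fin k) σ} (h : ¬ ULH M) {N : ℕ} {t : List ℕ}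
    (ht : SN N t) : ∃ s q, q ≤ N ∧ RchP M t s q ∧ Bad M t s q := by
  classical
  unfold ULH at h
  push Not at h
  obtain ⟨s, hr, hco, x, y, hl, hx, hy, hne⟩ := h
  obtain ⟨z0, hz0⟩ := hr
  set g : List Bool → List (Fin k) := fun b => b.flatMap (fun c => if c then x else y) with hg
  have hgs : ∀ b, M.evalFrom s (g b) = s := fun b => XB1_blk hx hy b
  have hgapp : ∀ b b', g (b ++ b') = g b ++ g b' := fun b b' => List.flatMap_append
  set q0 := run k t 0 z0 with hq0
  have hq0N : q0 ≤ N := run_le ht (Nat.zero_le N) z0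
  let R : ℕ → Set ℕ := fun q => {q' | ∃ b : List Bool, run k t q (g b) = q'}
  have hRN : ∀ q, q ≤ N → R q ⊆ Set.Iic N := by
    rintro q hq q' ⟨b, rfl⟩
    exact run_le ht hq _
  have hRfin : ∀ q, q ≤ N → (R q).Finite := fun q hq => (Set.finite_Iic N).subset (hRN q hq)
  have hRtrans : ∀ q q', q' ∈ R q → R q' ⊆ R q := by
    rintro q q' ⟨b, rfl⟩ q'' ⟨b', rfl⟩
    refine ⟨b ++ b', ?_⟩
    rw [hgapp, run_append]
  have hRself : ∀ q, q ∈ R q := fun q => ⟨[], rfl⟩
  have hex : ∃ n, ∃ q ∈ R q0, (R q).ncard = n := ⟨_, q0, hRself q0, rfl⟩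
  obtain ⟨q, hq, hqn⟩ := Nat.find_spec hex
  have hmin : ∀ q' ∈ R q0, (R q).ncard ≤ (R q').ncard := by
    intro q' hq'
    rw [hqn]
    exact Nat.find_min' hex ⟨q', hq', rfl⟩
  have hqN : q ≤ N := hRN q0 hq0N hq
  have hback : ∀ q' ∈ R q, q ∈ R q' := by
    intro q' hq'
    have h1 := hRtrans q q' hq'
    have h2 := hmin q' (hRtrans q0 q hq hq')
    have h3 : R q' = R q := Set.eq_of_subset_of_ncard_le h1 h2 (hRfin q hqN)
    rw [h3]
    exact hRself q
  have hgt : g [true] = x := by simp [hg]
  have hgf : g [false] = y := by simp [hg]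
  obtain ⟨b1, hb1⟩ := hback (run k t q x) ⟨[true], by rw [hgt]⟩
  obtain ⟨b2, hb2⟩ := hback (run k t q y) ⟨[false], by rw [hgf]⟩
  have hqx : run k t q (x ++ g b1) = q := by rw [run_append, hb1]
  have hqy : run k t q (y ++ g b2) = q := by rw [run_append, hb2]
  have hsx : M.evalFrom s (x ++ g b1) = s := by rw [DFA.evalFrom_of_append, hx, hgs]
  have hsy : M.evalFrom s (y ++ g b2) = s := by rw [DFA.evalFrom_of_append, hy, hgs]
  obtain ⟨b0, hb0⟩ := hq
  refine ⟨s, q, hqN, ⟨z0 ++ g b0, ?_, ?_⟩, hco, (x ++ g b1) ++ (y ++ g b2), (y ++ g b2) ++ (x ++ g b1),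
    ?_, ?_, ?_, ?_, ?_, ?_⟩
  · rw [DFA.evalFrom_of_append, hz0, hgs]
  · rw [run_append, ← hq0, hb0]
  · simp only [List.length_append]
    omega
  · intro he
    rw [List.append_assoc, List.append_assoc] at he
    exact hne (List.append_inj he hl).1
  · rw [DFA.evalFrom_of_append, hsx, hsy]
  · rw [DFA.evalFrom_of_append, hsy, hsx]
  · rw [run_append, hqx, hqy]
  · rw [run_append, hqy, hqx]

end AW
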