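import Pool.Agent.Lib.MP_dd05d9_lc.PAS
import Pool.Agent.Lib.MP_dd05d9_lc.WA

/-!
* wl_ne: induction on `m` (all `s q`); `wl ... (m+1) s q <> []` iff some letter `a` has `wl ... m (step s a) .. <> []`
  (`List.flatMap_eq_nil_iff`), words `a :: x`.
* wl_dead: from wl_ne (contradiction with `not Coa`).
* wl_size: induction on `m`: at most `k^m` entries (sum over `k` letters), every entry is `(o.getD q 0 : Z)` for some `q`, so between 0 and `N`.
* wl_lev0: wl_ne and PASS0.
* cat_succ: `List.range_succ`.   cat_add: `cat (m + n) = cat m ++ (List.range n).flatMap (fun r => wl (m + r) start 0)`: `List.range_add`,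
  `List.flatMap_map`.
* cat_size: sum over `j < m` of wl_size: at most `m * (k+1)^m` entries.
-/

set_option autoImplicit false

namespace AW

variable {k : ℕ} {σ : Type} {M : DFA (Fin k) σ} {t o : List ℕ}

theorem wl_ne (m : ℕ) (s : σ) (q : ℕ) :
    wl M t o m s q ≠ [] ↔ ∃ x : List (Fin k), x.length = m ∧ M.evalFrom s x ∈ M.accept := by
  induction m generalizing s q with
  | zero =>
    unfold wl
    by_cases h : s ∈ M.accept
    · rw [if_pos h]
      exact ⟨fun _ => ⟨[], rfl, h⟩, fun _ => List.cons_ne_nil _ _⟩
    · rw [if_neg h]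
      constructor
      · intro h'
        exact absurd rfl h'
      · rintro ⟨x, hx, ha⟩
        rw [List.length_eq_zero_iff] at hx
        subst hx
        exact absurd ha h
  | succ m ih =>
    change (List.finRange k).flatMap (fun a => wl M t o m (M.step s a) (tst k t q a.val)) ≠ [] ↔ _
    rw [Ne, List.flatMap_eq_nil_iff]
    constructor
    · intro h
      push Not at h
      obtain ⟨a, _, ha⟩ := h
      obtain ⟨x, hx, hx'⟩ := (ih _ _).1 ha
      exact ⟨a :: x, by rw [List.length_cons, hx], hx'⟩
    · rintro ⟨x, hx, hx'⟩ h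
      cases x with
      | nil => simp at hx
      | cons a y =>
        rw [List.length_cons] at hx
        exact (ih (M.step s a) (tst k t q a.val)).2 ⟨y, by omega, hx'⟩ (h a (List.mem_finRange a))

theorem wl_dead {s : σ} (h : ¬ Coa M s) (m q : ℕ) : wl M t o m s q = [] := by
  by_contra hc
  obtain ⟨x, _, hx⟩ := (wl_ne m s q).1 hc
  exact h ⟨x, hx⟩

private theorem WB_flatMap_le {α β : Type} (l : List α) (g : α → List β) (B : ℕ)
    (h : ∀ a ∈ l, (g a).length ≤ B) : (l.flatMap g).length ≤ l.length * B := by
  induction l with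
  | nil => simp
  | cons a l ih =>
    rw [List.flatMap_cons, List.length_append, List.length_cons, Nat.succ_mul]
    have h1 := h a List.mem_cons_self
    have h2 := ih (fun b hb => h b (List.mem_cons_of_mem _ hb))
    omega

private theorem WB_len (m : ℕ) (s : σ) (q : ℕ) : (wl M t o m s q).length ≤ (k + 1) ^ m := by
  induction m generalizing s q with
  | zero =>
    unfold wl
    by_cases h : s ∈ M.accept
    · rw [if_pos h]
      simp
    · rw [if_neg h]
      simp
  | succ m ih =>
    change ((List.finRange k).flatMap (fun a => wl M t o m (M.step s a) (tst k t q a.val))).length ≤ _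
    refine (WB_flatMap_le _ _ ((k + 1) ^ m) (fun a _ => ih _ _)).trans ?_
    rw [List.length_finRange, pow_succ, mul_comm ((k + 1) ^ m)]
    exact Nat.mul_le_mul_right _ (Nat.le_succ k)

private theorem WB_mem {N : ℕ} (ho : SN N o) (m : ℕ) (s : σ) (q : ℕ) :
    ∀ x ∈ wl M t o m s q, |x| ≤ (N : ℤ) := by
  induction m generalizing s q with
  | zero =>
    unfold wl
    by_cases h : s ∈ M.accept
    · rw [if_pos h]
      intro x hx
      rw [List.mem_singleton] at hx
      subst hx
      have h1 : o.getD q 0 ≤ N := by
        rcases Nat.lt_or_ge q o.length with hq | hq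
        · rw [List.getD_eq_getElem _ _ hq]
          exact ho.2 _ (List.getElem_mem hq)
        · rw [List.getD_eq_default _ _ hq]
          exact Nat.zero_le _
      rw [abs_of_nonneg (Int.natCast_nonneg _)]
      exact_mod_cast h1
    · rw [if_neg h]
      intro x hx
      exact absurd hx List.not_mem_nil
  | succ m ih =>
    intro x hx
    change x ∈ (List.finRange k).flatMap (fun a => wl M t o m (M.step s a) (tst k t q a.val)) at hx
    rw [List.mem_flatMap] at hx
    obtain ⟨a, _, ha⟩ := hx
    exact ih _ _ x ha

theorem wl_size {N : ℕ} (ho : SN N o) (m : ℕ) (s : σ) (q : ℕ) :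
    SB ((k + 1) ^ m + N) (wl M t o m s q) := by
  refine ⟨(WB_len m s q).trans (Nat.le_add_right _ _), fun x hx => (WB_mem ho m s q x hx).trans ?_⟩
  exact_mod_cast Nat.le_add_left _ _

theorem wl_lev0 [Fintype σ] {s : σ} (hr : Rch M s) (h : Lev M 0 s) {m : ℕ} (hm : Fintype.card σ ≤ m)
    (q : ℕ) : wl M t o m s q = [] := by
  by_contra hc
  obtain ⟨x, hx, hx'⟩ := (wl_ne m s q).1 hc
  exact PASS0 hr h (y := x) (by rw [hx]; exact hm) hx'

theorem cat_succ (m : ℕ) : cat M t o (m + 1) = cat M t o m ++ wl M t o m M.start 0 := by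
  unfold cat
  rw [List.range_succ, List.flatMap_append, List.flatMap_singleton]

theorem cat_add (m n : ℕ) : cat M t o (m + n) =
    cat M t o m ++ (List.range n).flatMap (fun r => wl M t o (m + r) M.start 0) := by
  unfold cat
  rw [List.range_add, List.flatMap_append, List.flatMap_map]

theorem cat_size {N : ℕ} (ho : SN N o) (m : ℕ) : SB (m * ((k + 1) ^ m) + N) (cat M t o m) := by
  constructor
  · unfold cat
    refine (WB_flatMap_le _ _ ((k + 1) ^ m) ?_).trans ?_
    · intro j hj
      rw [List.mem_range] at hj
      exact (WB_len j M.start 0).trans (Nat.pow_le_pow_right (Nat.succ_pos k) hj.le)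
    · rw [List.length_range]
      exact Nat.le_add_right _ _
  · intro x hx
    unfold cat at hx
    rw [List.mem_flatMap] at hx
    obtain ⟨j, _, hj⟩ := hx
    refine (WB_mem ho j M.start 0 x hj).trans ?_
    exact_mod_cast Nat.le_add_left _ _

end AW
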