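import Pool.Agent.Lib.MP_dd05d9_lc.XD
import Pool.Agent.Lib.MP_dd05d9_lc.WA
import Pool.Agent.Lib.MP_dd05d9_lc.WB

/-!
* bad_dup: `x <> y` of length `p`, both in `words k p`: by nodup and membership `words k p = l1 ++ x :: l2` and `y` in `l1` or `l2`, so (up to exchanging x and y) `words k p = a ++ x :: b ++ y :: c`; wl_add: `wl (p + m) s q` =
  flatMap: contains `wl m s q` twice, disjointly.
* fac_wl: `(s, q)` reachable by `z`: `wl m s q` is an infix of `wl (|z| + m) start 0` (wl_add, `z` in words), which is an infix of `cat (|z| + m + 1)` (cat_succ), a prefix of `f`; the place of the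
  factor is `< (cat (|z| + m + 1)).length` if it is not empty; more precisely FacA a with a + |wl m s q| <= |cat (|z|+m+1)|.
* chain: `V i := wl (m + i * p) s q`: Dup (V i) (V (i+1)).
-/

set_option autoImplicit false

namespace AW

variable {k : ℕ} {σ : Type} {M : DFA (Fin k) σ} {t o : List ℕ}

private lemma XB2_dup {α β : Type} (f : α → List β) {L : List α} {x y : α} (hx : x ∈ L) (hy : y ∈ L)
    (hxy : x ≠ y) {l : List β} (fx : f x = l) (fy : f y = l) :
    ∃ a b c, L.flatMap f = a ++ (l ++ (b ++ (l ++ c))) := by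
  obtain ⟨l1, l2, rfl⟩ := List.append_of_mem hx
  have hy2 : y ∈ l1 ∨ y ∈ l2 := by
    rcases List.mem_append.1 hy with h | h
    · exact Or.inl h
    · rcases List.mem_cons.1 h with h | h
      · exact absurd h.symm hxy
      · exact Or.inr h
  rcases hy2 with h | h
  · obtain ⟨a, b, rfl⟩ := List.append_of_mem h
    refine ⟨a.flatMap f, b.flatMap f, l2.flatMap f, ?_⟩
    simp only [List.flatMap_append, List.flatMap_cons, fx, fy, List.append_assoc]
  · obtain ⟨b, c, rfl⟩ := List.append_of_mem h
    refine ⟨l1.flatMap f, b.flatMap f, c.flatMap f, ?_⟩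
    simp only [List.flatMap_append, List.flatMap_cons, fx, fy]

theorem bad_dup {s : σ} {q : ℕ} (h : Bad M t s q) : ∃ p, 1 ≤ p ∧ ∀ m, Dup (wl M t o m s q)
    (wl M t o (m + p) s q) := by
  obtain ⟨-, x, y, hl, hne, hx, hy, hqx, hqy⟩ := h
  refine ⟨x.length, ?_, fun m => ?_⟩
  · by_contra h0
    have h1 : x.length = 0 := by omega
    have h2 : y.length = 0 := by omega
    rw [List.length_eq_zero_iff] at h1 h2
    exact hne (by rw [h1, h2])
  · rw [Nat.add_comm m x.length, wl_add]
    exact XB2_dup _ (mem_words.2 rfl) (mem_words.2 hl.symm) hne (by rw [hx, hqx]) (by rw [hy, hqy])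

theorem wl_infix {s : σ} {q : ℕ} {z : List (Fin k)} (h1 : M.evalFrom M.start z = s)
    (h2 : run k t 0 z = q) (m : ℕ) : wl M t o m s q <:+: wl M t o (z.length + m) M.start 0 := by
  rw [wl_add]
  obtain ⟨l1, l2, hl⟩ := List.append_of_mem (mem_words.2 (rfl : z.length = z.length) :
    z ∈ words k z.length)
  rw [hl, List.flatMap_append, List.flatMap_cons, h1, h2, ← List.append_assoc]
  exact ⟨_, _, rfl⟩

private lemma XB2_fac {l L : List ℤ} {f : ℕ → ℤ} (hL : IsPre L f) (h : l <:+: L) : Fac l f := by
  obtain ⟨u, v, huv⟩ := h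
  refine ⟨u.length, fun i hi => ?_⟩
  have hlt : u.length + i < L.length := by
    rw [← huv, List.length_append, List.length_append]
    omega
  have e1 : L.getD (u.length + i) 0 = f (u.length + i) := by
    have h1 : L.getD (u.length + i) 0 = ((List.range L.length).map f).getD (u.length + i) 0 := by
      rw [← hL]
    rw [h1, List.getD_eq_getElem _ _ (by rw [List.length_map, List.length_range]; exact hlt),
      List.getElem_map, List.getElem_range]
  have e2 : L.getD (u.length + i) 0 = l.getD i 0 := by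
    rw [← huv, List.append_assoc, List.getD_append_right _ _ _ _ (by omega)]
    rw [Nat.add_sub_cancel_left, List.getD_append _ _ _ _ hi]
  rw [← e2, e1]

theorem fac_wl {s : σ} {q : ℕ} (h : RchP M t s q) {f : ℕ → ℤ} (hf : ∀ m, IsPre (cat M t o m) f) (m : ℕ) :
    Fac (wl M t o m s q) f := by
  obtain ⟨z, h1, h2⟩ := h
  have h3 : wl M t o m s q <:+: wl M t o (z.length + m) M.start 0 := wl_infix h1 h2 m
  have h4 : wl M t o (z.length + m) M.start 0 <:+: cat M t o (z.length + m + 1) := by
    rw [cat_succ]
    exact List.IsSuffix.isInfix ⟨_, rfl⟩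
  exact XB2_fac (hf (z.length + m + 1)) (h3.trans h4)

end AW
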