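import Pool.Agent.Lib.MP_dd05d9_lc.XB3
import Pool.Agent.Lib.MP_dd05d9_lc.XB2

/-!
For a product state `x = (s,q)`, `q <= N` define by recursion on `m` the list of pieces `pc m s q : List (List Z)`: if Bad: `[wl m s q]`; otherwise `m = 0`: `[wl 0 s q]` if `s` accepts, `[]` if not; `m + 1`: flatMap over the letters of `pc m (step s a) (tst q a)`.
* `(pc m s q).flatten = wl m s q`.
* every member is either `[v]`-like of length <= 1 or `wl j s' q'` with `j <= m`, (s',q') bad and reachable from (s,q).
* `(pc m s q).length <= sum_{i <= m} |wl Mt [] [] i (some (s,q)) 0|`: induction on `m`: Bad: the term i = 0 is 1 (accepting).  Not bad, m = 0: term i = 0 is 1 if s accepts.  m + 1: `wl Mt (i+1) (some (s,q)) = flatMap over a of wl Mt i (some (step..))`.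
* with count_ULH (Mt_ULH): `(pc m start 0).length <= (m+1) * c (m+1)^c`.
-/

set_option autoImplicit false

namespace AW

open Classical in
/-- the pieces of `wl m s q` -/
private noncomputable def XB4_pc {k : ℕ} {σ : Type} (M : DFA (Fin k) σ) (t o : List ℕ) :
    ℕ → σ → ℕ → List (List ℤ)
  | 0, s, q => if Bad M t s q then [wl M t o 0 s q] else
      if s ∈ M.accept then [wl M t o 0 s q] else []
  | m + 1, s, q => if Bad M t s q then [wl M t o (m + 1) s q] else
      (List.finRange k).flatMap (fun a => XB4_pc M t o m (M.step s a) (tst k t q a.val))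

private theorem XB4_ff {α β : Type} (l : List α) (f : α → List (List β)) :
    (l.flatMap f).flatten = l.flatMap (fun a => (f a).flatten) := by
  induction l with
  | nil => rfl
  | cons a l ih => rw [List.flatMap_cons, List.flatMap_cons, List.flatten_append, ih]

private theorem XB4_flatten {k : ℕ} {σ : Type} (M : DFA (Fin k) σ) (t o : List ℕ) (m : ℕ) :
    ∀ s q, (XB4_pc M t o m s q).flatten = wl M t o m s q := by
  induction m with
  | zero =>
    intro s q
    unfold XB4_pc
    by_cases h : Bad M t s q
    · rw [if_pos h]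
      simp
    · rw [if_neg h]
      by_cases h2 : s ∈ M.accept
      · rw [if_pos h2]
        simp
      · rw [if_neg h2]
        unfold wl
        rw [if_neg h2]
        rfl
  | succ m ih =>
    intro s q
    unfold XB4_pc
    by_cases h : Bad M t s q
    · rw [if_pos h]
      simp
    · rw [if_neg h]
      change _ = (List.finRange k).flatMap (fun a => wl M t o m (M.step s a) (tst k t q a.val))
      rw [XB4_ff]
      congr 1
      funext a
      exact ih _ _

private theorem XB4_tst {k N : ℕ} {t : List ℕ} (ht : SN N t) (q a : ℕ) : tst k t q a ≤ N := by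
  unfold tst
  rcases Nat.lt_or_ge (q * k + a) t.length with hq | hq
  · rw [List.getD_eq_getElem _ _ hq]
    exact ht.2 _ (List.getElem_mem hq)
  · rw [List.getD_eq_default _ _ hq]
    exact Nat.zero_le _

private theorem XB4_run_snoc {k : ℕ} (t : List ℕ) (z : List (Fin k)) (a : Fin k) :
    ∀ q, run k t q (z ++ [a]) = tst k t (run k t q z) a.val := by
  induction z with
  | nil => intro q; rfl
  | cons b z ih =>
    intro q
    exact ih _

private theorem XB4_mem {k : ℕ} {σ : Type} (M : DFA (Fin k) σ) {t : List ℕ} {N : ℕ} (ht : SN N t)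
    (o : List ℕ) (m : ℕ) : ∀ s q, q ≤ N → RchP M t s q → ∀ l ∈ XB4_pc M t o m s q,
      l.length ≤ 1 ∨ ∃ s q j, q ≤ N ∧ RchP M t s q ∧ Bad M t s q ∧ l = wl M t o j s q := by
  induction m with
  | zero =>
    intro s q hq hr l hl
    unfold XB4_pc at hl
    by_cases h : Bad M t s q
    · rw [if_pos h, List.mem_singleton] at hl
      exact Or.inr ⟨s, q, 0, hq, hr, h, hl⟩
    · rw [if_neg h] at hl
      by_cases h2 : s ∈ M.accept
      · rw [if_pos h2, List.mem_singleton] at hl
        left
        rw [hl]
        unfold wl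
        rw [if_pos h2]
        simp
      · rw [if_neg h2] at hl
        exact absurd hl List.not_mem_nil
  | succ m ih =>
    intro s q hq hr l hl
    unfold XB4_pc at hl
    by_cases h : Bad M t s q
    · rw [if_pos h, List.mem_singleton] at hl
      exact Or.inr ⟨s, q, m + 1, hq, hr, h, hl⟩
    · rw [if_neg h, List.mem_flatMap] at hl
      obtain ⟨a, _, ha⟩ := hl
      refine ih _ _ (XB4_tst ht _ _) ?_ l ha
      obtain ⟨z, hz1, hz2⟩ := hr
      refine ⟨z ++ [a], ?_, ?_⟩
      · rw [DFA.evalFrom_append_singleton, hz1]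
      · rw [XB4_run_snoc, hz2]

private theorem XB4_sum {α : Type} (l : List α) (f : α → ℕ) (n : ℕ) (g : ℕ → α → ℕ)
    (h : ∀ a ∈ l, f a ≤ ∑ i ∈ Finset.range n, g i a) :
    (l.map f).sum ≤ ∑ i ∈ Finset.range n, (l.map (g i)).sum := by
  induction l with
  | nil => simp
  | cons a l ih =>
    simp only [List.map_cons, List.sum_cons]
    rw [Finset.sum_add_distrib]
    exact Nat.add_le_add (h a List.mem_cons_self) (ih (fun b hb => h b (List.mem_cons_of_mem _ hb)))

private theorem XB4_wl_succ {k : ℕ} {τ : Type} (A : DFA (Fin k) τ) (i : ℕ) (x : τ) :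
    (wl A [] [] (i + 1) x 0).length =
      ((List.finRange k).map (fun a => (wl A [] [] i (A.step x a) 0).length)).sum := by
  change ((List.finRange k).flatMap (fun a => wl A [] [] i (A.step x a) (tst k [] 0 a.val))).length = _
  rw [List.length_flatMap]
  have h : ∀ a : Fin k, tst k [] 0 a.val = 0 := by
    intro a
    unfold tst
    simp
  simp only [h]

open Classical in
private theorem XB4_len {k : ℕ} {σ : Type} (M : DFA (Fin k) σ) {t : List ℕ} {N : ℕ} (ht : SN N t)
    (o : List ℕ) (m : ℕ) : ∀ (s : σ) (q : Fin (N + 1)), (XB4_pc M t o m s q.val).length ≤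
      ∑ i ∈ Finset.range (m + 1), (wl (Mt M t N) [] [] i (some (s, q)) 0).length := by
  induction m with
  | zero =>
    intro s q
    rw [Finset.sum_range_one]
    unfold XB4_pc
    have hacc : (Bad M t s q.val ∨ s ∈ M.accept) → (some (s, q)) ∈ (Mt M t N).accept :=
      fun h => ⟨s, q, rfl, h⟩
    unfold wl
    by_cases h : Bad M t s q.val
    · rw [if_pos h, if_pos (hacc (Or.inl h))]
      simp
    · rw [if_neg h]
      by_cases h2 : s ∈ M.accept
      · rw [if_pos h2, if_pos (hacc (Or.inr h2))]
        simp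
      · rw [if_neg h2]
        exact Nat.zero_le _
  | succ m ih =>
    intro s q
    unfold XB4_pc
    by_cases h : Bad M t s q.val
    · rw [if_pos h, Finset.sum_range_succ']
      have hacc : (some (s, q)) ∈ (Mt M t N).accept := ⟨s, q, rfl, Or.inl h⟩
      have h0 : (wl (Mt M t N) [] [] 0 (some (s, q)) 0).length = 1 := by
        unfold wl
        rw [if_pos hacc]
        rfl
      rw [h0, List.length_singleton]
      exact Nat.le_add_left _ _
    · rw [if_neg h, Finset.sum_range_succ', List.length_flatMap]
      refine le_trans ?_ (Nat.le_add_right _ _)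
      have hstep : ∀ a : Fin k, (Mt M t N).step (some (s, q)) a =
          some (M.step s a, ⟨tst k t q.val a.val, Nat.lt_succ_of_le (XB4_tst ht _ _)⟩) := by
        intro a
        have hmin : min (tst k t q.val a.val) N = tst k t q.val a.val := min_eq_left (XB4_tst ht _ _)
        change (if Bad M t s q.val then none else
          some (M.step s a, (⟨min (tst k t q.val a.val) N, by omega⟩ : Fin (N + 1)))) = _
        rw [if_neg h]
        simp only [hmin]
      have hw : ∀ i, (wl (Mt M t N) [] [] (i + 1) (some (s, q)) 0).length =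
          ((List.finRange k).map (fun a => (wl (Mt M t N) [] [] i
            (some (M.step s a, (⟨tst k t q.val a.val, Nat.lt_succ_of_le (XB4_tst ht _ _)⟩ :
              Fin (N + 1)))) 0).length)).sum := by
        intro i
        rw [XB4_wl_succ]
        simp only [hstep]
      rw [Finset.sum_congr rfl (fun i _ => hw i)]
      exact XB4_sum _ _ _ (fun i a => (wl (Mt M t N) [] [] i
            (some (M.step s a, (⟨tst k t q.val a.val, Nat.lt_succ_of_le (XB4_tst ht _ _)⟩ :
              Fin (N + 1)))) 0).length) (fun a _ => ih _ ⟨tst k t q.val a.val, _⟩)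

theorem pieces {k : ℕ} {σ : Type} [Fintype σ] (M : DFA (Fin k) σ) {t : List ℕ} {N : ℕ} (ht : SN N t)
    (o : List ℕ) : ∃ c : ℕ, ∀ m, ∃ L : List (List ℤ), L.flatten = wl M t o m M.start 0 ∧
      L.length ≤ c * (m + 1) ^ c ∧ ∀ l ∈ L, l.length ≤ 1 ∨ ∃ s q j, q ≤ N ∧ RchP M t s q ∧ Bad M t s q ∧
        l = wl M t o j s q := by
  obtain ⟨c, hc⟩ := count_ULH (Mt_ULH M ht)
  refine ⟨c + 1, fun m => ⟨XB4_pc M t o m M.start 0, XB4_flatten M t o m _ _, ?_,
    XB4_mem M ht o m _ _ (Nat.zero_le _) ⟨[], rfl, rfl⟩⟩⟩
  have h1 := XB4_len M ht o m M.start 0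
  have h2 : ∑ i ∈ Finset.range (m + 1), (wl (Mt M t N) [] [] i (some (M.start, 0)) 0).length ≤
      ∑ _i ∈ Finset.range (m + 1), c * (m + 1) ^ c := by
    refine Finset.sum_le_sum (fun i hi => ?_)
    rw [Finset.mem_range] at hi
    refine (hc i).trans (Nat.mul_le_mul_left _ (Nat.pow_le_pow_left (by omega) _))
  rw [Finset.sum_const, Finset.card_range, smul_eq_mul] at h2
  calc (XB4_pc M t o m M.start 0).length ≤ _ := h1
    _ ≤ _ := h2
    _ = c * (m + 1) ^ (c + 1) := by ring
    _ ≤ (c + 1) * (m + 1) ^ (c + 1) := Nat.mul_le_mul_right _ (Nat.le_succ c)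

end AW
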