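import Pool.Agent.Lib.MP_dd05d9_lc.XQa
import Pool.Agent.Lib.MP_dd05d9_lc.Poly2

/-!
`Zr ((X^L - 1)^K) W`: for a residue `c < L` put `h j = W.getD (c + L * j) 0` for `c + L * j < |W|`.  `ap ((X^L-1)^K)` at `i = c + L j` is the `K`-th difference of `h` at `j`
(ap_mul K times; `ap (X^L - 1) w i = w (i + L) - w i`), as long as `c + L (j + K) < |W|`.  So all `K`-th differences inside the window vanish.  Then `h j = sum_{i<K} d_i C(j,i)` on the whole
window (`d_i` = i-th difference at 0; induction: two sequences with the same first `K` values and vanishing `K`-th differences agree on the window), a polynomial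
over Q of degree `< K` in `j`.  If it takes the value `v` at `K + 1` (even `K` and `K >= 1`) different places it is constant `v` (`Polynomial.card_roots'`, or
by induction on `K`: discrete Rolle is not available; use `Polynomial.eq_of_degree_sub_lt_of_eval_finset_eq` / `eq_zero_of_natDegree_lt_card_of_eval_eq_zero'`).  The polynomial: `Q = sum_i C (d_i / i!) * descPochhammer Q i`
or `Polynomial.C (d_i : Q) * binomial polynomial`; `(j.choose i : Q) = eval j (descPochhammer Q i) / i!` (`descPochhammer_eval_eq_descFactorial`, `Nat.descFactorial_eq_factorial_mul_choose`).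
-/

set_option autoImplicit false

namespace AW

private theorem XQc_natDegree {L : ℕ} (hl : 1 ≤ L) :
    (Polynomial.X ^ L - 1 : Polynomial ℤ).natDegree = L := by
  have h := Polynomial.natDegree_X_pow_sub_C (R := ℤ) (n := L) (r := 1)
  rwa [map_one] at h

private theorem XQc_coeff {L : ℕ} (j : ℕ) :
    (Polynomial.X ^ L - 1 : Polynomial ℤ).coeff j =
      (if j = L then 1 else 0) - (if j = 0 then 1 else 0) := by
  rw [Polynomial.coeff_sub, Polynomial.coeff_X_pow, Polynomial.coeff_one]

private theorem XQc_ap {L : ℕ} (hL : 1 ≤ L) (g : ℕ → ℤ) (i : ℕ) :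
    ap (Polynomial.X ^ L - 1) g i = g (i + L) - g i := by
  rw [ap_ext _ g i L (XQc_natDegree hL).le]
  simp only [XQc_coeff, sub_mul, Finset.sum_sub_distrib, ite_mul, one_mul, zero_mul]
  rw [Finset.sum_ite_eq' (Finset.range (L + 1)) L, Finset.sum_ite_eq' (Finset.range (L + 1)) 0]
  simp

private theorem XQc_pow {L : ℕ} (hL : 1 ≤ L) (n : ℕ) (g : ℕ → ℤ) (c j : ℕ) :
    ap ((Polynomial.X ^ L - 1) ^ n) g (L * j + c) =
      (fwdDiff 1)^[n] (fun j => g (L * j + c)) j := by
  induction n generalizing g j with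
  | zero =>
    rw [pow_zero, ap_ext 1 g _ 0 (by simp)]
    simp
  | succ n ih =>
    rw [pow_succ, ap_mul, ih, Function.iterate_succ_apply]
    refine congrArg (fun u => (fwdDiff 1)^[n] u j) ?_
    funext m
    show ap (Polynomial.X ^ L - 1) g (L * m + c) = g (L * (m + 1) + c) - g (L * m + c)
    rw [XQc_ap hL]
    have e1 : L * m + c + L = L * (m + 1) + c := by ring
    rw [e1]

/-- vanishing `K`-th differences on `[0, n]`: Newton expansion of length `K` -/
private theorem XQc_newton (h : ℕ → ℤ) (K n : ℕ)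
    (hz : ∀ i, i + K ≤ n → (fwdDiff 1)^[K] h i = 0) :
    h n = ∑ k ∈ Finset.range K, (n.choose k : ℤ) * (fwdDiff 1)^[k] h 0 := by
  have h1 := shift_eq_sum_fwdDiff_iter (1 : ℕ) h n 0
  simp only [smul_eq_mul, mul_one, zero_add, nsmul_eq_mul] at h1
  have hk : ∀ k, K ≤ k → k ≤ n → (fwdDiff 1)^[k] h 0 = 0 := by
    intro k hk1 hk2
    obtain ⟨m, rfl⟩ := Nat.exists_eq_add_of_le hk1
    have e : (fwdDiff 1)^[K + m] h = (fwdDiff 1)^[m] ((fwdDiff 1)^[K] h) := by
      rw [add_comm, Function.iterate_add_apply]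
    rw [e, fwdDiff_iter_eq_sum_shift]
    refine Finset.sum_eq_zero fun i hi => ?_
    rw [Finset.mem_range] at hi
    have e2 : (0 : ℕ) + i • 1 = i := by simp
    rw [e2, hz i (by omega), smul_zero]
  have h2 : ∑ k ∈ Finset.range (n + 1), (n.choose k : ℤ) * (fwdDiff 1)^[k] h 0 =
      ∑ k ∈ Finset.range (n + 1 + K), (n.choose k : ℤ) * (fwdDiff 1)^[k] h 0 := by
    refine Finset.sum_subset (Finset.range_mono (by omega)) fun k _ hk2 => ?_
    rw [Finset.mem_range, not_lt] at hk2
    rw [Nat.choose_eq_zero_of_lt (by omega), Nat.cast_zero, zero_mul]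
  have h3 : ∑ k ∈ Finset.range K, (n.choose k : ℤ) * (fwdDiff 1)^[k] h 0 =
      ∑ k ∈ Finset.range (n + 1 + K), (n.choose k : ℤ) * (fwdDiff 1)^[k] h 0 := by
    refine Finset.sum_subset (Finset.range_mono (by omega)) fun k _ hk2 => ?_
    rw [Finset.mem_range, not_lt] at hk2
    by_cases hkn : k ≤ n
    · rw [hk k hk2 hkn, mul_zero]
    · rw [Nat.choose_eq_zero_of_lt (by omega), Nat.cast_zero, zero_mul]
  rw [h3, ← h2]
  exact h1

private theorem XQc_poly (d : ℕ → ℤ) (K : ℕ) :
    ∃ Q : Polynomial ℚ, Q.natDegree ≤ K ∧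
      ∀ n : ℕ, Q.eval (n : ℚ) = ((∑ k ∈ Finset.range K, (n.choose k : ℤ) * d k : ℤ) : ℚ) := by
  refine ⟨∑ k ∈ Finset.range K, Polynomial.C ((d k : ℚ) / (k.factorial : ℚ)) * descPochhammer ℚ k,
    ?_, fun n => ?_⟩
  · refine Polynomial.natDegree_sum_le_of_forall_le _ _ fun k hk => ?_
    rw [Finset.mem_range] at hk
    refine (Polynomial.natDegree_C_mul_le _ _).trans ?_
    rw [descPochhammer_natDegree]
    exact hk.le
  · rw [Polynomial.eval_finset_sum, Int.cast_sum]
    refine Finset.sum_congr rfl fun k _ => ?_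
    rw [Polynomial.eval_mul, Polynomial.eval_C, descPochhammer_eval_eq_descFactorial,
      Nat.descFactorial_eq_factorial_mul_choose]
    have hf : ((k.factorial : ℕ) : ℚ) ≠ 0 := by exact_mod_cast Nat.factorial_ne_zero k
    push_cast
    field_simp

theorem const_class {L K : ℕ} (hL : 1 ≤ L) {W : List ℤ} (hW : Zr ((Polynomial.X ^ L - 1) ^ K) W) {c : ℕ}
    {v : ℤ} (S : Finset ℕ) (hS : K + 1 ≤ S.card)
    (h : ∀ a ∈ S, a < W.length ∧ a % L = c ∧ W.getD a 0 = v) :
    ∀ a < W.length, a % L = c → W.getD a 0 = v := by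
  intro a ha hac
  set w : ℕ → ℤ := fun j => W.getD j 0 with hw
  set g : ℕ → ℤ := fun j => w (L * j + c) with hg
  have hdeg : ((Polynomial.X ^ L - 1 : Polynomial ℤ) ^ K).natDegree = L * K := by
    rw [Polynomial.natDegree_pow, XQc_natDegree hL, mul_comm]
  have hz : ∀ i, L * (i + K) + c < W.length → (fwdDiff 1)^[K] g i = 0 := by
    intro i hi
    rw [hg, ← XQc_pow hL K w c i]
    refine hW _ ?_
    unfold dl
    rw [List.mem_map]
    refine ⟨L * i + c, ?_, rfl⟩
    rw [List.mem_range, hdeg]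
    have e : L * (i + K) = L * i + L * K := by ring
    omega
  have hnew : ∀ n, L * n + c < W.length →
      g n = ∑ k ∈ Finset.range K, (n.choose k : ℤ) * (fwdDiff 1)^[k] g 0 := by
    intro n hn
    refine XQc_newton g K n fun i hi => hz i ?_
    have e : L * (i + K) ≤ L * n := Nat.mul_le_mul_left _ hi
    omega
  obtain ⟨Q, hQ1, hQ2⟩ := XQc_poly (fun k => (fwdDiff 1)^[k] g 0) K
  have hdecomp : ∀ b, b % L = c → b = L * (b / L) + c := by
    intro b hb
    have h1 := Nat.div_add_mod b L
    rw [hb] at h1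
    exact h1.symm
  have hval : ∀ b, b < W.length → b % L = c → Q.eval ((b / L : ℕ) : ℚ) = ((W.getD b 0 : ℤ) : ℚ) := by
    intro b hb hbc
    have e := hdecomp b hbc
    have h1 : g (b / L) = W.getD b 0 := by
      show W.getD (L * (b / L) + c) 0 = W.getD b 0
      rw [← e]
    rw [hQ2, ← hnew (b / L) (by rw [← e]; exact hb), h1]
  have hQ0 : Q - Polynomial.C (v : ℚ) = 0 := by
    have hinj : Set.InjOn (fun b : ℕ => ((b / L : ℕ) : ℚ)) (S : Set ℕ) := by
      intro b hb b' hb' hbb
      have e1 := hdecomp b (h b hb).2.1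
      have e2 := hdecomp b' (h b' hb').2.1
      have e3 : ((b / L : ℕ) : ℚ) = ((b' / L : ℕ) : ℚ) := hbb
      have e4 : b / L = b' / L := by exact_mod_cast e3
      rw [e1, e2, e4]
    refine Polynomial.eq_zero_of_natDegree_lt_card_of_eval_eq_zero' _
      (S.image (fun b : ℕ => ((b / L : ℕ) : ℚ))) ?_ ?_
    · intro r hr
      rw [Finset.mem_image] at hr
      obtain ⟨b, hb, rfl⟩ := hr
      obtain ⟨b1, b2, b3⟩ := h b hb
      rw [Polynomial.eval_sub, Polynomial.eval_C, hval b b1 b2, b3, sub_self]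
    · rw [Finset.card_image_of_injOn hinj]
      have h1 : (Q - Polynomial.C (v : ℚ)).natDegree ≤ K := by
        refine (Polynomial.natDegree_sub_le _ _).trans ?_
        rw [Polynomial.natDegree_C]
        omega
      omega
  have hQv : Q = Polynomial.C (v : ℚ) := sub_eq_zero.mp hQ0
  have h2 := hval a ha hac
  rw [hQv, Polynomial.eval_C] at h2
  exact_mod_cast h2.symm

end AW
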