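import Pool.Agent.Lib.MP_dd05d9_lc.XD
import Pool.Agent.Lib.MP_dd05d9_lc.XQc

/-!
`R | (X^L - 1)^K`, so `ap ((X^L-1)^K) f i = 0` for `i >= B` (ap_mul_zero).  For a residue: `j -> f (c + L j)` has vanishing K-th differences for `c + L j >= B`, so it is a polynomial in `j` from there on; bounded (values in a finite set), so constant:
use const_class: on the window `[B, B + L * (many)]` some value is taken at least `K + 1` times in the class (pigeonhole: at most `2 G + 1` values), so the class is constant on every long window, hence constant.  So `f (i + L) = f i` for `i >= B`.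
-/

set_option autoImplicit false

namespace AW

theorem upp {f : ℕ → ℤ} {G : ℕ} (hG : ∀ i, |f i| ≤ (G : ℤ)) {N M B : ℕ} {R : Polynomial ℤ}
    (hR : RBp N M R) (h : ∀ i, B ≤ i → ap R f i = 0) :
    ∃ a p : ℕ, 1 ≤ p ∧ ∀ i, a ≤ i → f (i + p) = f i := by
  obtain ⟨_, L, K, hL, Q, hQ⟩ := hR
  have hz : ∀ i, B ≤ i → ap ((Polynomial.X ^ L - 1) ^ K) f i = 0 := by
    intro i hi
    rw [hQ, mul_comm R Q]
    exact ap_mul_zero Q R f B h i hi
  refine ⟨B, L, hL, ?_⟩
  intro i hi
  set n : ℕ := (2 * G + 1) * K + 1 with hn
  set W : List ℤ := (List.range (L * n + 1)).map (fun t => f (t + i)) with hW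
  have hlen : W.length = L * n + 1 := by rw [hW, List.length_map, List.length_range]
  have hget : ∀ a, a < L * n + 1 → W.getD a 0 = f (a + i) := by
    intro a ha
    rw [List.getD_eq_getElem _ _ (by rw [hlen]; exact ha)]
    simp [hW]
  have hZ : Zr ((Polynomial.X ^ L - 1) ^ K) W := by
    intro x hx
    rw [hW] at hx
    have e := dl_range ((Polynomial.X ^ L - 1) ^ K) (fun t => f (t + i)) (L * n + 1)
    rw [e, List.mem_map] at hx
    obtain ⟨s, _, rfl⟩ := hx
    rw [ap_shift]
    exact hz _ (by omega)
  have hmaps : ∀ j ∈ Finset.range (n + 1), f (L * j + i) ∈ Finset.Icc (-(G : ℤ)) G := by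
    intro j _
    rw [Finset.mem_Icc]
    exact abs_le.1 (hG _)
  have hcard : (Finset.Icc (-(G : ℤ)) G).card = 2 * G + 1 := by
    rw [Int.card_Icc]
    omega
  obtain ⟨v, _, hv⟩ := Finset.exists_lt_card_fiber_of_mul_lt_card_of_maps_to hmaps
    (n := K) (by rw [hcard, Finset.card_range]; omega)
  have hinj : Function.Injective (fun j : ℕ => L * j) := fun x y hxy =>
    Nat.eq_of_mul_eq_mul_left (by omega) hxy
  have key := const_class hL hZ (c := 0) (v := v)
    (((Finset.range (n + 1)).filter (fun j => f (L * j + i) = v)).image (fun j => L * j))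
    (by rw [Finset.card_image_of_injective _ hinj]; omega)
    (by
      intro a ha
      rw [Finset.mem_image] at ha
      obtain ⟨j, hj, rfl⟩ := ha
      rw [Finset.mem_filter, Finset.mem_range] at hj
      have h1 : L * j < L * n + 1 := by
        have : L * j ≤ L * n := Nat.mul_le_mul_left L (by omega)
        omega
      refine ⟨by rw [hlen]; exact h1, Nat.mul_mod_right L j, ?_⟩
      show W.getD (L * j) 0 = v
      rw [hget _ h1]
      exact hj.2)
  have k0 := key 0 (by omega) (Nat.zero_mod L)
  have hLn : L < L * n + 1 := by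
    have : L * 1 ≤ L * n := Nat.mul_le_mul_left L (by omega)
    omega
  have k1 := key L (by omega) (Nat.mod_self L)
  rw [hget 0 (by omega)] at k0
  rw [hget L hLn] at k1
  rw [Nat.zero_add] at k0
  rw [Nat.add_comm i L, k1, k0]

end AW
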