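import Pool.Agent.Lib.MP_dd05d9_lc.GI
import Pool.Agent.Lib.MP_dd05d9_lc.CMb

/-!
`(G (k+1)).1 = (G k).1 ++ addF (A k).1 (G k).2` and `(G (k+1)).2 = (A k).2` for all `k` (as `(A k).1 <> []`).  The lists `(G k).1` are
increasing prefixes with lengths growing by at least 1: `k <= |(G k).1|`.  `g j := (G (j + 1)).1.getD j 0`; IsPre (G k).1 g for all k.
Fam: let `c` be a large shift; `U k := (G (k + c + 1)).1`, `Y k := addF (A (k + c + 1)).1 (A (k + c)).2`: `U (k+1) = U k ++ Y k`, `Y k <> []`, `Y` in `P e (F (N))` for suitable `c`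
by P.addF applied to `W k = (A (k+1)).1` (P.shift), `b k = (A k).2`; `SB` of `U 0 = (G (c+1)).1` by gm_iter and GP.size.
-/

set_option autoImplicit false

namespace AW

private theorem FMc_step {g h : List ℤ × ℤ} (hh : h.1 ≠ []) :
    (gm g h).1 = g.1 ++ addF h.1 g.2 ∧ (gm g h).2 = h.2 := by
  simp [gm, hh]

private theorem FMc_pre {V : ℕ → List ℤ} (hV : ∀ k, V k <+: V (k + 1)) (hl : ∀ k, k ≤ (V k).length)
    (k : ℕ) : IsPre (V k) (fun j => (V (j + 1)).getD j 0) := by
  have hmono : ∀ k m, k ≤ m → V k <+: V m := by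
    intro k m hkm
    induction m, hkm using Nat.le_induction with
    | base => exact List.prefix_rfl
    | succ m _ ih => exact ih.trans (hV m)
  have key : ∀ (k m j : ℕ), k ≤ m → j < (V k).length → (V k).getD j 0 = (V m).getD j 0 := by
    intro k m j hkm hj
    obtain ⟨t, ht⟩ := hmono k m hkm
    rw [← ht, List.getD_append _ _ _ _ hj]
  unfold IsPre
  apply List.ext_getElem
  · simp
  · intro j h1 h2
    simp only [List.getElem_map, List.getElem_range]
    have h3 : (V k)[j] = (V k).getD j 0 := by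
      rw [List.getD_eq_getElem _ _ h1]
    rw [h3]
    rcases le_total k (j + 1) with h | h
    · exact key k (j + 1) j h h1
    · exact (key (j + 1) k j h (lt_of_lt_of_le (Nat.lt_succ_self j) (hl (j + 1)))).symm

theorem FMc (e : ℕ) : ∃ F : ℕ → ℕ, PM F ∧ ∀ (N : ℕ) (G A : ℕ → List ℤ × ℤ), GP e N A →
    (∀ k, (A k).1 ≠ []) → SB N (G 0).1 → |(G 0).2| ≤ (N : ℤ) → (∀ k, G (k + 1) = gm (G k) (A k)) →
    ∃ g : ℕ → ℤ, Fam e (F N) g ∧ ∀ k, IsPre (G k).1 g ∧ k ≤ (G k).1.length := by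
  obtain ⟨Fa, pa, Ha⟩ := P.addF e
  obtain ⟨Fs, ps, Hs⟩ := P.shift e
  obtain ⟨Fz, pz, Hz⟩ := GP.size e
  -- M N = Fs (N + 1), c N = Fa (M N), B N = Fz (N + c N + 1)
  have pM : PM (fun N => Fs (N + 1)) := PM.comp ps (PM.addc PM.id 1)
  have pc : PM (fun N => Fa (Fs (N + 1))) := PM.comp pa pM
  have pB : PM (fun N => Fz (N + (Fa (Fs (N + 1)) + 1))) :=
    PM.comp pz (PM.add PM.id (PM.addc pc 1))
  have pF : PM (fun N => Fa (Fa (Fs (N + 1))) +
      (N + Fz (N + (Fa (Fs (N + 1)) + 1)) * (Fa (Fs (N + 1)) + 1))) :=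
    PM.add (PM.comp pa pc) (PM.add PM.id (PM.mul pB pc))
  refine ⟨_, pF, ?_⟩
  intro N G A hA hne h0 h1 hG
  have hG1 : ∀ k, (G (k + 1)).1 = (G k).1 ++ addF (A k).1 (G k).2 := fun k => by
    rw [hG k]; exact (FMc_step (hne k)).1
  have hG2 : ∀ k, (G (k + 1)).2 = (A k).2 := fun k => by
    rw [hG k]; exact (FMc_step (hne k)).2
  have hlen : ∀ k, k ≤ (G k).1.length := by
    intro k
    induction k with
    | zero => exact Nat.zero_le _
    | succ k ih =>
      rw [hG1 k, List.length_append, addF_length]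
      have : 0 < (A k).1.length := List.length_pos_iff.mpr (hne k)
      omega
  have hpre := FMc_pre (V := fun k => (G k).1) (fun k => ⟨_, (hG1 k).symm⟩) hlen
  refine ⟨fun j => (G (j + 1)).1.getD j 0, ?_, fun k => ⟨hpre k, hlen k⟩⟩
  set M := Fs (N + 1) with hM
  set c := Fa M with hc
  have hNM : N ≤ M := (Nat.le_succ N).trans (ps.2.2 _)
  have hW : P e M (fun k => (A (k + 1)).1) :=
    Hs (N + 1) (fun k => (A k).1) 1 (P.mono (Nat.le_succ N) hA.1) (by omega)
  have hb : PB M (fun k => (A k).2) := PB.mono hNM hA.2.1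
  have hY := Ha M (fun k => (A (k + 1)).1) (fun k => (A k).2) hW hb c le_rfl
  refine ⟨fun k => (G (k + c + 1)).1, fun k => addF (A (k + c + 1)).1 (A (k + c)).2, ?_, ?_, ?_, ?_,
    fun k => hpre (k + c + 1)⟩
  · exact P.mono (Nat.le_add_right _ _) hY
  · have hsz : ∀ k < c + 1, SB (Fz (N + (c + 1))) (A k).1 ∧ |(A k).2| ≤ (Fz (N + (c + 1)) : ℤ) := by
      intro k hk
      exact Hz (N + (c + 1)) k A (GP.mono (Nat.le_add_right _ _) hA) (by omega)
    have h3 := (gm_iter h0 h1 (c + 1) hsz (Or.inl hG)).1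
    have h4 : N + (c + 1) * Fz (N + (c + 1)) ≤
        Fa (Fa M) + (N + Fz (N + (c + 1)) * (c + 1)) := by
      rw [Nat.mul_comm]; omega
    have h5 : (0 : ℕ) + c + 1 = c + 1 := by omega
    simp only [h5]
    exact SB.mono h4 h3
  · intro k
    have h5 : k + 1 + c + 1 = (k + c + 1) + 1 := by omega
    simp only [h5]
    rw [hG1 (k + c + 1), hG2 (k + c)]
  · intro k
    have := hne (k + c + 1)
    simp only [ne_eq, addF_eq_nil]
    exact this

end AW
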