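import Pool.Agent.Lib.MP_dd05d9_lc.HH
import Pool.Agent.Lib.MP_dd05d9_lc.FMc

/-!
`f` in Fam (e+1) N: `U, Y`; `Y` in `P (e+1) N`, `U` in `P (e+2) (N+1)` (P.inc).  `n = R.natDegree <= M`.
`G k := cmp (dl R (U k))`, adv_inc: `G (k+1) = gm (G k) (A k)`, ADVi (with HH e): `A` is `Ev (GP e) F1 M`.  Let `c = F1 M`; `A (. + c)` in GP e (F1 c).
`dl R (U k) = pref (ap R f) (|U k| - n)` (dl_range, IsPre).  Lengths: `|U k| >= k`.
CASE 1: `(A (k+c)).1 = []` for all k.  Then `(G k).1 = (G c).1` for `k >= c`.  For `i >= |U c|` take `k` with `i < |U k| - n`: `pref h (|U k| - n) = pref h (|U c| - n) ++ rest`, `h i` is an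
  entry of `rest` and by cmp_append: `(gm (G c) (cmp rest)).1 = (G c).1` forces `(cmp rest).1 = []` (otherwise longer), so `h i = 0` (cmp_fst_eq_nil).
  First alternative with `|U c| <= F M` (P.size for `U`, size M + 1 + c).
CASE 2: `(A (k+c)).1 <> []` for all k: FMc for `G (. + c)`, `A (. + c)` (size: `F1 c` + size of `G c` by P.size, dl_SB, cmp_SB): `g`, Fam e, and `(G (k+c)).1` is a prefix of `g` with
  length `>= k`.  Cd F M (ap R f) g: for `J` take `k = c + J`: `i = |U k| - n <= |U k| <= F (M+J)` by P.size (`U` in `P (e+2)` of size `M + 1 + c + J`).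
-/

set_option autoImplicit false

namespace AW

private def FMx_cnt (h : ℕ → ℤ) (m : ℕ) : ℕ := ((pref h m).filter (fun x => x ≠ 0)).length

private theorem FMx_cnt_succ (h : ℕ → ℤ) (m : ℕ) :
    FMx_cnt h (m + 1) = FMx_cnt h m + (if h m = 0 then 0 else 1) := by
  unfold FMx_cnt
  have e1 : pref h (m + 1) = pref h m ++ [h m] := by
    simp [pref, List.range_succ]
  rw [e1, List.filter_append, List.length_append]
  by_cases h0 : h m = 0
  · simp [h0]
  · simp [h0]

private theorem FMx_cnt_mono (h : ℕ → ℤ) : Monotone (FMx_cnt h) :=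
  monotone_nat_of_le_succ (fun m => by rw [FMx_cnt_succ]; omega)

private theorem FMx_dl (R : Polynomial ℤ) (f : ℕ → ℤ) (l : List ℤ) (hl : IsPre l f) :
    dl R l = pref (ap R f) (l.length - R.natDegree) := by
  unfold IsPre at hl
  have h1 := dl_range R f l.length
  rw [← hl] at h1
  exact h1

theorem FM (e : ℕ) : ∃ F : ℕ → ℕ, PM F ∧ ∀ (N M : ℕ) (R : Polynomial ℤ) (f : ℕ → ℤ), N ≤ M →
    RB N M R → Fam (e + 1) N f →
    (∀ i, F M ≤ i → ap R f i = 0) ∨ ∃ g : ℕ → ℤ, Fam e (F M) g ∧ Cd F M (ap R f) g := by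
  obtain ⟨F0, hF0, H0⟩ := HH e
  obtain ⟨F1, hF1, H1⟩ := ADVi e hF0
  obtain ⟨F3, hF3, H3⟩ := FMc e
  obtain ⟨FS, hFS, HS⟩ := P.size (e + 2)
  have hcM : PM (fun x => x + 1 + F1 x) := PM.add (PM.addc PM.id 1) hF1
  have hA : PM (fun x => FS (x + 1 + F1 x)) := PM.comp (F := FS) (G := fun x => x + 1 + F1 x) hFS hcM
  have hq : PM (fun x : ℕ => x * (x + 1)) := PM.mul (F := fun x => x) (G := fun x => x) PM.id PM.id
  have hB1 : PM (fun x => FS (x + 1 + F1 x) * (x * (x + 1) + 1)) :=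
    PM.mul (F := fun x => FS (x + 1 + F1 x)) (G := fun x => x * (x + 1)) hA hq
  have hB2 : PM (fun x => FS (x + 1 + F1 x) * (x * (x + 1) + 1) * 2) :=
    PM.mulc (F := fun x => FS (x + 1 + F1 x) * (x * (x + 1) + 1)) hB1 2 (by norm_num)
  have hFF : PM (fun x => F1 (F1 x)) := PM.comp hF1 hF1
  have hB : PM (fun x => FS (x + 1 + F1 x) * (x * (x + 1) + 1) * 2 + F1 (F1 x)) :=
    PM.add (F := fun x => FS (x + 1 + F1 x) * (x * (x + 1) + 1) * 2) (G := fun x => F1 (F1 x)) hB2 hFF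
  have hC : PM (fun x => F3 (FS (x + 1 + F1 x) * (x * (x + 1) + 1) * 2 + F1 (F1 x))) :=
    PM.comp (F := F3) (G := fun x => FS (x + 1 + F1 x) * (x * (x + 1) + 1) * 2 + F1 (F1 x)) hF3 hB
  have hF : PM (fun x => FS (x + 1 + F1 x) +
      F3 (FS (x + 1 + F1 x) * (x * (x + 1) + 1) * 2 + F1 (F1 x))) := PM.add hA hC
  refine ⟨_, hF, ?_⟩
  intro N M R f hNM hR hf
  obtain ⟨U, Y, hY, hU0, hU, hYne, hpre⟩ := hf
  have hn : R.natDegree ≤ M := hR.2.1
  set A : ℕ → List ℤ × ℤ := fun k =>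
    gm (cmp (dl R (sfx R.natDegree (U k) ++ (Y k).take R.natDegree))) (cmp (dl R (Y k))) with hAdef
  have hadv : ∀ k, cmp (dl R (U (k + 1))) = gm (cmp (dl R (U k))) (A k) := fun k => adv_inc R hU k
  have hEv : Ev (GP e) F1 M A :=
    H1 N M R hNM hR (fun Y' hY' => H0 N M R Y' hNM hR hY') U Y hY hU0 hU
  have hGP : GP e (F1 (F1 M)) (fun k => A (k + F1 M)) := hEv (F1 M) le_rfl
  have hUP : P (e + 2) (N + 1) U := P.inc hY hU0 hU
  have hsize : ∀ J, SB (FS (M + 1 + F1 M + J)) (U (F1 M + J)) := fun J =>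
    HS (M + 1 + F1 M + J) U (F1 M + J) (P.mono (by omega) hUP) (by omega)
  have hlen : ∀ k, k ≤ (U k).length := by
    intro k
    induction k with
    | zero => omega
    | succ k ih =>
      rw [hU k, List.length_append]
      have : 0 < (Y k).length := List.length_pos_iff.mpr (hYne k)
      omega
  have hdl : ∀ k, dl R (U k) = pref (ap R f) ((U k).length - R.natDegree) := fun k =>
    FMx_dl R f (U k) (hpre k)
  obtain ⟨_, _, hcase⟩ := hGP
  have hGP : GP e (F1 (F1 M)) (fun k => A (k + F1 M)) := hEv (F1 M) le_rfl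
  have hSc : SB (FS (M + 1 + F1 M)) (U (F1 M)) := by simpa using hsize 0
  rcases hcase with h1 | h2
  · left
    intro i hi
    have hi' : (U (F1 M)).length ≤ i := by
      have := hSc.1
      have h0 : FS (M + 1 + F1 M) ≤ FS (M + 1 + F1 M) +
        F3 (FS (M + 1 + F1 M) * (M * (M + 1) + 1) * 2 + F1 (F1 M)) := Nat.le_add_right _ _
      exact this.trans (h0.trans hi)
    have hconst : ∀ k, (cmp (dl R (U (k + F1 M)))).1 = (cmp (dl R (U (F1 M)))).1 := by
      intro k
      induction k with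
      | zero => simp
      | succ k ih =>
        have h3 : k + 1 + F1 M = (k + F1 M) + 1 := by omega
        rw [h3, hadv, gm, if_pos (h1 k)]
        exact ih
    by_contra hne
    have hk := hconst (i + R.natDegree + 1)
    rw [hdl, hdl] at hk
    have hk2 := congrArg List.length hk
    rw [cmp_length, cmp_length] at hk2
    have hc1 : FMx_cnt (ap R f) ((U (F1 M)).length - R.natDegree) ≤ FMx_cnt (ap R f) i :=
      FMx_cnt_mono _ (by omega)
    have hc2 : FMx_cnt (ap R f) (i + 1) = FMx_cnt (ap R f) i + 1 := by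
      rw [FMx_cnt_succ, if_neg hne]
    have hc3 : FMx_cnt (ap R f) (i + 1) ≤
        FMx_cnt (ap R f) ((U (i + R.natDegree + 1 + F1 M)).length - R.natDegree) := by
      apply FMx_cnt_mono
      have := hlen (i + R.natDegree + 1 + F1 M)
      omega
    unfold FMx_cnt at hc1 hc2 hc3
    omega
  · right
    have hd := dl_SB R hSc hn hR.2.2.1
    obtain ⟨hs1, hs2, hs3⟩ := cmp_SB hd
    have hBM : FS (M + 1 + F1 M) * ((M + 1) * M + 1) = FS (M + 1 + F1 M) * (M * (M + 1) + 1) := by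
      rw [Nat.mul_comm (M + 1) M]
    rw [hBM] at hs1 hs3
    have hle : FS (M + 1 + F1 M) * (M * (M + 1) + 1) ≤
        FS (M + 1 + F1 M) * (M * (M + 1) + 1) * 2 + F1 (F1 M) := by omega
    have hG1 : SB (FS (M + 1 + F1 M) * (M * (M + 1) + 1) * 2 + F1 (F1 M)) (cmp (dl R (U (0 + F1 M)))).1 := by
      rw [Nat.zero_add]
      exact SB.mono (by omega) hs1
    have hG2 : |(cmp (dl R (U (0 + F1 M)))).2| ≤
        ((FS (M + 1 + F1 M) * (M * (M + 1) + 1) * 2 + F1 (F1 M) : ℕ) : ℤ) := by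
      rw [Nat.zero_add, abs_of_nonneg hs2]
      exact hs3.trans (by exact_mod_cast hle)
    obtain ⟨g, hg, hgpre⟩ := H3 (FS (M + 1 + F1 M) * (M * (M + 1) + 1) * 2 + F1 (F1 M))
      (fun k => cmp (dl R (U (k + F1 M)))) (fun k => A (k + F1 M))
      (GP.mono (by omega) hGP) h2 hG1 hG2
      (fun k => by
        have h3 : k + 1 + F1 M = (k + F1 M) + 1 := by omega
        show cmp (dl R (U (k + 1 + F1 M))) = _
        rw [h3]; exact hadv _)
    refine ⟨g, ?_, ?_⟩
    · obtain ⟨U', Y', a1, a2, a3, a4, a5⟩ := hg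
      exact ⟨U', Y', P.mono (by omega) a1, SB.mono (by omega) a2, a3, a4, a5⟩
    · intro J
      refine ⟨(U (J + F1 M)).length - R.natDegree, ?_, ?_, ?_⟩
      · have h5 : (U (F1 M + J)).length ≤ FS (M + 1 + F1 M + J) := (hsize J).1
        rw [Nat.add_comm (F1 M) J] at h5
        have h6 : FS (M + 1 + F1 M + J) ≤ FS (M + J + 1 + F1 (M + J)) := by
          apply hFS.2.1
          have := hF1.2.1 (Nat.le_add_right M J)
          omega
        have h7 : FS (M + J + 1 + F1 (M + J)) ≤ FS (M + J + 1 + F1 (M + J)) +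
          F3 (FS (M + J + 1 + F1 (M + J)) * ((M + J) * (M + J + 1) + 1) * 2 + F1 (F1 (M + J))) :=
          Nat.le_add_right _ _
        exact (Nat.sub_le _ _).trans (h5.trans (h6.trans h7))
      · rw [← hdl]; exact (hgpre J).2
      · rw [← hdl]; exact (hgpre J).1

end AW
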