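import Pool.Agent.Lib.MP_dd05d9_lc.XG1

/-!
* gap_fam: induction on `e`: `e = 0`: `|W k| <= N`: C = N + 1.  `e + 1`: pieces by gap_piece; the product of `j <= N` pieces: for `G` let `C1` be the maximum (sum) of the constants of the pieces;
  `C = N * C1 + 1`: `T` an infix of the flatten: infix_flat.
* gap_word: `f` in Fam e N: `U` is in `P (e+1) (N+1)` (P.inc); a factor `T` of `f` at the place `a` is an infix of `U k` as soon as `|U k| >= a + |T|` (lengths grow by at least one in each step).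
-/

set_option autoImplicit false

namespace AW

private theorem xg2_list {R : Polynomial ℤ} (G : ℕ) (L : List (ℕ → List ℤ))
    (h : ∀ Z ∈ L, GapP R Z) : ∃ C : ℕ, ∀ Z ∈ L, ∀ k, ∀ T : List ℤ, T <:+: Z k → C ≤ T.length →
      ∃ S, S <:+: T ∧ G ≤ S.length ∧ Zr R S := by
  induction L with
  | nil => exact ⟨0, fun Z hZ => by simp at hZ⟩
  | cons Z0 L ih =>
    obtain ⟨C1, h1⟩ := ih (fun Z hZ => h Z (List.mem_cons_of_mem _ hZ))
    obtain ⟨C2, h2⟩ := h Z0 List.mem_cons_self G
    refine ⟨C1 + C2, fun Z hZ k T hT hC => ?_⟩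
    rcases List.mem_cons.1 hZ with rfl | hZ
    · exact h2 k T hT (by omega)
    · exact h1 Z hZ k T hT (by omega)

theorem gap_fam (e : ℕ) : ∃ K : ℕ → ℕ, ∀ N N' M R, K N ≤ N' → RB N' M R →
    ∀ W : ℕ → List ℤ, P e N W → GapP R W := by
  induction e with
  | zero =>
    refine ⟨fun _ => 0, fun N N' M R _ _ W hW G => ?_⟩
    obtain ⟨l, hl, hlen, _⟩ := hW
    refine ⟨N + 1, fun k T hT hC => ?_⟩
    have h1 := hT.length_le
    rw [hlen k] at h1
    omega
  | succ e ih =>
    obtain ⟨K0, hK0⟩ := ih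
    obtain ⟨K, hK⟩ := gap_piece e hK0
    refine ⟨K, fun N N' M R hN hR W hW G => ?_⟩
    obtain ⟨L, hL, hP, hWk⟩ := hW
    obtain ⟨C1, hC1⟩ := xg2_list (R := R) G L (fun Z hZ => hK N N' M R hN hR Z (hP Z hZ))
    refine ⟨L.length * C1 + 1, fun k T hT hC => ?_⟩
    rw [hWk k] at hT
    obtain ⟨l, hl, S, hST, hSl, hCS⟩ := infix_flat (C := C1) hT (by rw [List.length_map]; omega)
    obtain ⟨Z, hZ, rfl⟩ := List.mem_map.1 hl
    obtain ⟨S', hS', hG, hz⟩ := hC1 Z hZ k S hSl hCS
    exact ⟨S', hS'.trans hST, hG, hz⟩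

theorem gap_word (e N : ℕ) : ∃ K : ℕ, ∀ (N' M : ℕ) (R : Polynomial ℤ), K ≤ N' → RB N' M R →
    ∀ f, Fam e N f → ∀ G : ℕ, ∃ C : ℕ, ∀ T : List ℤ, Fac T f → C ≤ T.length →
      ∃ S, S <:+: T ∧ G ≤ S.length ∧ Zr R S := by
  obtain ⟨K, hK⟩ := gap_fam (e + 1)
  refine ⟨K (N + 1), fun N' M R hN hR f hf G => ?_⟩
  obtain ⟨U, Y, hY, h0, hU, hne, hpre⟩ := hf
  have hUP : P (e + 1) (N + 1) U := P.inc hY h0 hU
  obtain ⟨C, hC⟩ := hK (N + 1) N' M R hN hR U hUP G
  refine ⟨C, fun T hT hCT => ?_⟩
  obtain ⟨a, ha⟩ := hT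
  have hlen : ∀ k, k ≤ (U k).length := by
    intro k
    induction k with
    | zero => exact Nat.zero_le _
    | succ k ih =>
      rw [hU, List.length_append]
      have := List.length_pos_iff.2 (hne k)
      omega
  have hk := hlen (a + T.length)
  refine hC (a + T.length) T ?_ hCT
  have hTe : T = ((U (a + T.length)).drop a).take T.length := by
    apply List.ext_getElem
    · rw [List.length_take, List.length_drop]
      omega
    · intro i h1 h2
      have h3 := ha i h1
      rw [List.getD_eq_getElem _ _ h1] at h3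
      rw [h3, List.getElem_take, List.getElem_drop]
      have h4 := hpre (a + T.length)
      have h5 : ∀ j (hj : j < (U (a + T.length)).length), (U (a + T.length))[j] = f j := by
        intro j hj
        have h6 : (U (a + T.length)).getD j 0 =
            ((List.range (U (a + T.length)).length).map f).getD j 0 := by
          rw [← h4]
        rw [List.getD_eq_getElem _ _ hj, List.getD_eq_getElem _ _ (by simpa using hj)] at h6
        rw [h6]
        simp
      rw [h5]
  have h7 : ((U (a + T.length)).drop a).take T.length <:+: U (a + T.length) :=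
    (List.take_prefix _ _).isInfix.trans (List.drop_suffix _ _).isInfix
  rw [← hTe] at h7
  exact h7

end AW
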