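import Pool.Agent.Lib.MP_dd05d9_lc.BD

/-!
Uniqueness of loops in an automaton whose language has polynomial growth.
* code_inj: induction on `b`; `b = c :: b1`, `b' = c' :: b1'` (equal lengths): the first blocks have the same length, so
  `List.append_inj`: block c = block c' and the rests agree; `c = c'` since `x <> y`.
* exp_beats: for fixed `c A l`: `c * (A + j l + 1)^c <= c * (A + l + 1)^c * (j + 1)^c`, and `(j+1)^c / 2^j -> 0`
  (`tendsto_pow_const_div_const_pow_of_one_lt` or `tendsto_pow_const_mul_const_pow_of_abs_lt_one`, shifted by one), so `c (A+l+1)^c * (j+1)^c < 2^j`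
  for some `j`.
* UL: assume `x <> y` (length `l`).  `z0`: `M.start -> s`, `z1`: `s -> accept`.  For `b : List Bool` of length `j` the word
  `z0 ++ b.flatMap (fun c => if c then x else y) ++ z1` is accepted and of length `|z0| + j * l + |z1|`; the map is injective in `b` (code_inj
  and List.append cancel).  So `2^j <= ncard {w in L | |w| = |z0| + j l + |z1|} <= c * (A + j l + 1)^c` with `A = |z0| + |z1|`: contradiction with exp_beats.
  (Number of lists of Bool of length `j`: use `b : Fin j -> Bool`, `List.ofFn b`, `Fintype.card_fun`; or List.Vector Bool j; the set of words of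
  one length is finite: `List.finite_length_eq`.  `Set.ncard_le_ncard` with `Set.ncard_image_of_injective`, `Set.ncard_univ`.)
-/

set_option autoImplicit false

namespace AW

theorem code_inj {α : Type} {x y : List α} (hl : x.length = y.length) (hne : x ≠ y) :
    ∀ b b' : List Bool, b.length = b'.length →
      b.flatMap (fun c => if c then x else y) = b'.flatMap (fun c => if c then x else y) → b = b' := by
  intro b
  induction b with
  | nil =>
    intro b' hb _
    exact (List.length_eq_zero_iff.1 hb.symm).symm
  | cons c b1 ih =>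
    intro b' hb h
    cases b' with
    | nil => simp at hb
    | cons c' b2 =>
      rw [List.flatMap_cons, List.flatMap_cons] at h
      have hlen : (if c then x else y).length = (if c' then x else y).length := by
        cases c <;> cases c' <;> simp [hl]
      obtain ⟨h1, h2⟩ := List.append_inj h hlen
      have hc : c = c' := by
        cases c <;> cases c'
        · rfl
        · exact absurd (by simpa using h1.symm) hne
        · exact absurd (by simpa using h1) hne
        · rfl
      rw [hc, ih b2 (by simpa using hb) h2]

theorem exp_beats (c A l : ℕ) : ∃ j : ℕ, c * (A + j * l + 1) ^ c < 2 ^ j := by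
  have h := tendsto_pow_const_div_const_pow_of_one_lt c (r := (2 : ℝ)) (by norm_num)
  have h1 : (0 : ℝ) < 1 / (((c : ℝ) * (A + l + 1 : ℝ) ^ c + 1) * 2) := by positivity
  have h2 := (h.eventually (gt_mem_nhds h1))
  obtain ⟨n, hn, hn1⟩ := (h2.and (Filter.eventually_ge_atTop 1)).exists
  obtain ⟨j, rfl⟩ : ∃ j, n = j + 1 := ⟨n - 1, by omega⟩
  refine ⟨j, ?_⟩
  have hpow : (0 : ℝ) < 2 ^ (j + 1) := by positivity
  rw [div_lt_div_iff₀ hpow (by positivity)] at hn
  have h3 : (A + j * l + 1 : ℕ) ≤ (A + l + 1) * (j + 1) := by nlinarith
  have h4 : c * (A + j * l + 1) ^ c ≤ c * ((A + l + 1) * (j + 1)) ^ c :=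
    Nat.mul_le_mul_left _ (Nat.pow_le_pow_left h3 _)
  have h5 : ((c * ((A + l + 1) * (j + 1)) ^ c : ℕ) : ℝ) < ((2 ^ j : ℕ) : ℝ) := by
    push_cast
    rw [mul_pow]
    push_cast at hn
    have h6 : (0 : ℝ) < ((j : ℝ) + 1) ^ c := by positivity
    have h7 : (c : ℝ) * (A + l + 1 : ℝ) ^ c * ((j : ℝ) + 1) ^ c < 2 ^ j := by
      have h8 : (2 : ℝ) ^ (j + 1) = 2 ^ j * 2 := pow_succ _ _
      rw [h8] at hn
      nlinarith
    calc (c : ℝ) * ((A + l + 1 : ℝ) ^ c * ((j : ℝ) + 1) ^ c) = (c : ℝ) * (A + l + 1 : ℝ) ^ c * ((j : ℝ) + 1) ^ c := by ring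
      _ < _ := h7
  exact lt_of_le_of_lt h4 (by exact_mod_cast h5)

theorem UL_len {α : Type} {x y : List α} (hl : x.length = y.length) (b : List Bool) :
    (b.flatMap (fun c => if c then x else y)).length = b.length * x.length := by
  induction b with
  | nil => simp
  | cons c b ih =>
    rw [List.flatMap_cons, List.length_append, ih, List.length_cons]
    have : (if c then x else y).length = x.length := by cases c <;> simp [hl]
    rw [this]; ring

theorem UL {k : ℕ} {σ : Type} {M : DFA (Fin k) σ} (hPG : PG M.accepts) {s : σ} (h1 : Rch M s)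
    (h2 : Coa M s) {x y : List (Fin k)} (hl : x.length = y.length) (hx : M.evalFrom s x = s)
    (hy : M.evalFrom s y = s) : x = y := by
  by_contra hne
  obtain ⟨c, hc⟩ := hPG
  obtain ⟨z0, hz0⟩ := h1
  obtain ⟨z1, hz1⟩ := h2
  obtain ⟨j, hj⟩ := exp_beats c (z0.length + z1.length) x.length
  have hloop : ∀ b : List Bool, M.evalFrom s (b.flatMap (fun c => if c then x else y)) = s := by
    intro b
    induction b with
    | nil => rfl
    | cons c b ih =>
      rw [List.flatMap_cons, DFA.evalFrom_of_append]
      have : M.evalFrom s (if c then x else y) = s := by cases c <;> simp [hx, hy]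
      rw [this, ih]
  let Φ : (Fin j → Bool) → List (Fin k) := fun b =>
    z0 ++ ((List.ofFn b).flatMap (fun c => if c then x else y) ++ z1)
  have hΦ : Function.Injective Φ := by
    intro b b' h
    have h3 : (List.ofFn b).flatMap (fun c => if c then x else y) ++ z1 =
        (List.ofFn b').flatMap (fun c => if c then x else y) ++ z1 := List.append_cancel_left h
    have h4 := List.append_cancel_right h3
    have h5 := code_inj hl hne _ _ (by simp) h4
    exact List.ofFn_injective h5
  have hsub : Set.range Φ ⊆ {w : List (Fin k) | w ∈ M.accepts ∧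
      w.length = z0.length + z1.length + j * x.length} := by
    rintro w ⟨b, rfl⟩
    refine ⟨?_, ?_⟩
    · show M.evalFrom M.start (z0 ++ ((List.ofFn b).flatMap (fun c => if c then x else y) ++ z1)) ∈ M.accept
      rw [DFA.evalFrom_of_append, DFA.evalFrom_of_append, hz0, hloop]
      exact hz1
    · show (z0 ++ ((List.ofFn b).flatMap (fun c => if c then x else y) ++ z1)).length = _
      rw [List.length_append, List.length_append, UL_len hl, List.length_ofFn]
      ring
  have hfin : {w : List (Fin k) | w ∈ M.accepts ∧
      w.length = z0.length + z1.length + j * x.length}.Finite :=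
    (List.finite_length_eq (Fin k) (z0.length + z1.length + j * x.length)).subset (fun w hw => hw.2)
  have hcard : (Set.range Φ).ncard = 2 ^ j := by
    rw [← Set.image_univ, Set.ncard_image_of_injective _ hΦ, Set.ncard_univ, Nat.card_eq_fintype_card]
    simp
  have h6 := Set.ncard_le_ncard hsub hfin
  rw [hcard] at h6
  exact absurd (h6.trans (hc _)) (not_le.2 hj)

/-- uniqueness of the loops of a given length at live states (for a trimmed automaton: polynomial growth) -/
def ULH {k : ℕ} {σ : Type} (M : DFA (Fin k) σ) : Prop :=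
  ∀ s : σ, Rch M s → Coa M s → ∀ x y : List (Fin k), x.length = y.length → M.evalFrom s x = s →
    M.evalFrom s y = s → x = y

theorem ULH_of_PG {k : ℕ} {σ : Type} {M : DFA (Fin k) σ} (hPG : PG M.accepts) : ULH M :=
  fun _ h1 h2 _ _ hl hx hy => UL hPG h1 h2 hl hx hy

end AW
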