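import Pool.Agent.Lib.MP_dd05d9_lc.RXm
import Pool.Agent.Lib.MP_dd05d9_lc.Aut
import Pool.Agent.Lib.MP_dd05d9_lc.UL

/-!
Definitions for the second wave (one system of polynomial growth, the other arbitrary).
-/

set_option autoImplicit false

namespace AW

/-- the list `l` is a factor of the infinite word `f` at the place `a` -/
def FacA (a : ℕ) (l : List ℤ) (f : ℕ → ℤ) : Prop := ∀ i < l.length, l.getD i 0 = f (a + i)

/-- the list `l` is a factor of the infinite word `f` -/
def Fac (l : List ℤ) (f : ℕ → ℤ) : Prop := ∃ a, FacA a l f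

/-- `l'` contains two disjoint copies of `l` -/
def Dup (l l' : List ℤ) : Prop := ∃ a b c, l' = a ++ (l ++ (b ++ (l ++ c)))

/-- `R(E)` kills the list `l` -/
def Zr (R : Polynomial ℤ) (l : List ℤ) : Prop := ∀ x ∈ dl R l, x = 0

/-- `RB`, and `R` divides a power of some `X^L - 1` -/
def RBp (N M : ℕ) (R : Polynomial ℤ) : Prop :=
  RB N M R ∧ ∃ L K : ℕ, 1 ≤ L ∧ R ∣ (Polynomial.X ^ L - 1) ^ K

/-- `(s, q)` is a bad state of the product with the table automaton: coaccessible, with two different loops of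
the same length -/
def Bad {k : ℕ} {σ : Type} (M : DFA (Fin k) σ) (t : List ℕ) (s : σ) (q : ℕ) : Prop :=
  Coa M s ∧ ∃ x y : List (Fin k), x.length = y.length ∧ x ≠ y ∧ M.evalFrom s x = s ∧
    M.evalFrom s y = s ∧ run k t q x = q ∧ run k t q y = q

/-- `(s, q)` is reachable from the start -/
def RchP {k : ℕ} {σ : Type} (M : DFA (Fin k) σ) (t : List ℕ) (s : σ) (q : ℕ) : Prop :=
  ∃ z : List (Fin k), M.evalFrom M.start z = s ∧ run k t 0 z = q

end AW
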