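import Pool.Agent.Lib.MP_dd05d9_lc.XQc
import Pool.Agent.Lib.MP_dd05d9_lc.XD

/-!
`V (i+1)` contains two disjoint copies of `V i`, `V 0 <> []`, all `V i` killed by `R`, `R | (X^L - 1)^K` (so killed by `(X^L-1)^K`: `dl (S * R) l` is zero if `dl R l` is: dl_mul, via
ap_mul and dl_getD).  `|V i| >= 2^i` (dup_length).  Choose `j` with `|V j| >= L`.  copies: for every `r` there is a finset `S` of `2^r` places `a` with `a + |V j| <= |V (j+r)|` and
`(V (j+r)).getD (a+t) 0 = (V j).getD t 0` for `t < |V j|` (induction on `r`; the two copies of `V (j+r)` in `V (j+r+1)` are disjoint and `V j` is not empty, so the two shifted finsets are disjoint).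
Choose `r` with `2^r >= L * (K + 1)`; for `r' >= r`: by pigeonhole (`Finset.exists_le_card_fiber_of_mul_le_card_of_maps_to`, fibres of `a % L`) at least `K + 1` copies at the same residue `c`.
For every `t < L` (`<= |V j|`) the places `a + t` of these copies are in one class and have the value `(V j).getD t 0`: const_class: the whole class of `(c + t) % L` in `V (j+r')` has this value.
So every entry of `V (j+r')` is an entry of `V j`.  For `i < j + r`: `V i` is an infix of `V (j+r)` (dup_infix, transitivity), so its entries are also entries of `V j`.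
`G` = sum of the absolute values of the entries of `V j`.
-/

set_option autoImplicit false

namespace AW

theorem dl_dvd {R S : Polynomial ℤ} (h : R ∣ S) (hS : S ≠ 0) {l : List ℤ} (hl : Zr R l) : Zr S l := by
  obtain ⟨T, rfl⟩ := h
  have hR0 : R ≠ 0 := left_ne_zero_of_mul hS
  have hT0 : T ≠ 0 := right_ne_zero_of_mul hS
  have hdeg : (R * T).natDegree = R.natDegree + T.natDegree := Polynomial.natDegree_mul hR0 hT0
  intro x hx
  unfold dl at hx
  rw [List.mem_map] at hx
  obtain ⟨i, hi, rfl⟩ := hx
  rw [List.mem_range, hdeg] at hi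
  rw [mul_comm, ap_mul]
  unfold ap
  refine Finset.sum_eq_zero fun j hj => ?_
  rw [Finset.mem_range] at hj
  have h1 : ap R (fun j => l.getD j 0) (i + j) = 0 := by
    refine hl _ ?_
    unfold dl
    rw [List.mem_map]
    exact ⟨i + j, by rw [List.mem_range]; omega, rfl⟩
  have h2 : (∑ j_1 ∈ Finset.range (R.natDegree + 1), R.coeff j_1 * (fun j => l.getD j 0) (i + j + j_1)) =
      0 := h1
  exact mul_eq_zero_of_right _ h2

theorem copies {V : ℕ → List ℤ} (h : ∀ i, Dup (V i) (V (i + 1))) (h0 : ∀ i, V i ≠ []) (j r : ℕ) :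
    ∃ S : Finset ℕ, S.card = 2 ^ r ∧ ∀ a ∈ S, a + (V j).length ≤ (V (j + r)).length ∧
      ∀ t < (V j).length, (V (j + r)).getD (a + t) 0 = (V j).getD t 0 := by
  induction r with
  | zero =>
    refine ⟨{0}, by simp, fun a ha => ?_⟩
    rw [Finset.mem_singleton] at ha
    subst ha
    exact ⟨by simp, fun t _ => by simp⟩
  | succ r ih =>
    obtain ⟨S, hS1, hS2⟩ := ih
    obtain ⟨a, b, c, hV⟩ := h (j + r)
    have hlen : 1 ≤ (V j).length := List.length_pos_of_ne_nil (h0 j)
    set l := V (j + r) with hl
    have hV' : V (j + (r + 1)) = a ++ (l ++ (b ++ (l ++ c))) := hV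
    refine ⟨S.image (fun s => s + a.length) ∪ S.image (fun s => s + (a.length + l.length + b.length)),
      ?_, ?_⟩
    · rw [Finset.card_union_of_disjoint, Finset.card_image_of_injective _ (add_left_injective _),
        Finset.card_image_of_injective _ (add_left_injective _), hS1, pow_succ]
      · ring
      · rw [Finset.disjoint_left]
        intro x hx1 hx2
        rw [Finset.mem_image] at hx1 hx2
        obtain ⟨s1, hs1, e1⟩ := hx1
        obtain ⟨s2, hs2, e2⟩ := hx2
        have h1 := (hS2 s1 hs1).1
        omega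
    · intro x hx
      rw [Finset.mem_union, Finset.mem_image, Finset.mem_image] at hx
      have hlenV : (V (j + (r + 1))).length =
          a.length + (l.length + (b.length + (l.length + c.length))) := by
        rw [hV']
        simp
      rcases hx with ⟨s, hs, rfl⟩ | ⟨s, hs, rfl⟩
      · obtain ⟨h1, h2⟩ := hS2 s hs
        refine ⟨by omega, fun t ht => ?_⟩
        rw [hV', List.getD_append_right _ _ _ _ (by omega)]
        have e : s + a.length + t - a.length = s + t := by omega
        rw [e, List.getD_append _ _ _ _ (by omega)]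
        exact h2 t ht
      · obtain ⟨h1, h2⟩ := hS2 s hs
        refine ⟨by omega, fun t ht => ?_⟩
        rw [hV', List.getD_append_right _ _ _ _ (by omega),
          List.getD_append_right _ _ _ _ (by omega), List.getD_append_right _ _ _ _ (by omega)]
        have e : s + (a.length + l.length + b.length) + t - a.length - l.length - b.length =
            s + t := by omega
        rw [e, List.getD_append _ _ _ _ (by omega)]
        exact h2 t ht

private theorem XQd_bound (l : List ℤ) : ∃ G : ℕ, ∀ x ∈ l, |x| ≤ (G : ℤ) := by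
  induction l with
  | nil => exact ⟨0, by simp⟩
  | cons a l ih =>
    obtain ⟨G, hG⟩ := ih
    refine ⟨G + a.natAbs, fun x hx => ?_⟩
    rcases List.mem_cons.mp hx with rfl | hx
    · push_cast
      rw [Int.abs_eq_natAbs]
      omega
    · have := hG x hx
      push_cast
      have h1 : 0 ≤ |a| := abs_nonneg a
      linarith

theorem bdd_chain {V : ℕ → List ℤ} (h : ∀ i, Dup (V i) (V (i + 1))) (h0 : V 0 ≠ []) {N M : ℕ}
    {R : Polynomial ℤ} (hR : RBp N M R) (hz : ∀ i, Zr R (V i)) :
    ∃ G : ℕ, ∀ i, ∀ x ∈ V i, |x| ≤ (G : ℤ) := by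
  obtain ⟨-, L, K, hL, hdvd⟩ := hR
  have hDne : (Polynomial.X ^ L - 1 : Polynomial ℤ) ≠ 0 := by
    have h1 := (Polynomial.monic_X_pow_sub_C (R := ℤ) (n := L) 1 (by omega)).ne_zero
    rwa [map_one] at h1
  have hzz : ∀ i, Zr ((Polynomial.X ^ L - 1) ^ K) (V i) := fun i =>
    dl_dvd hdvd (pow_ne_zero K hDne) (hz i)
  have hlen : ∀ i, 2 ^ i ≤ (V i).length := by
    intro i
    induction i with
    | zero =>
      rw [pow_zero]
      exact List.length_pos_of_ne_nil h0
    | succ i ih =>
      have h1 := dup_length (h i)
      rw [pow_succ]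
      omega
  have hne : ∀ i, V i ≠ [] := by
    intro i hi
    have h1 := hlen i
    rw [hi] at h1
    have h2 : 0 < 2 ^ i := Nat.pow_pos (by norm_num)
    simp at h1
  have hLj : L ≤ (V L).length := (Nat.lt_two_pow_self).le.trans (hlen L)
  obtain ⟨G, hG⟩ := XQd_bound (V L)
  have hmem : ∀ r, L * (K + 1) ≤ r → ∀ x ∈ V (L + r), x ∈ V L := by
    intro r hr x hx
    obtain ⟨S, hS1, hS2⟩ := copies h hne L r
    obtain ⟨a, ha, rfl⟩ := List.mem_iff_getElem.mp hx
    have hcard : L * (K + 1) ≤ S.card := by
      rw [hS1]
      exact hr.trans (Nat.lt_two_pow_self).le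
    obtain ⟨c, hc1, hc2⟩ := Finset.exists_le_card_fiber_of_mul_le_card_of_maps_to
      (s := S) (t := Finset.range L) (f := fun a => a % L) (n := K + 1)
      (fun s _ => Finset.mem_range.mpr (Nat.mod_lt _ (by omega)))
      (Finset.nonempty_range_iff.mpr (by omega)) (by rw [Finset.card_range]; exact hcard)
    rw [Finset.mem_range] at hc1
    set t : ℕ := (a % L + (L - c)) % L with ht
    have htL : t < L := Nat.mod_lt _ (by omega)
    have htc : (c + t) % L = a % L := by
      rw [ht, Nat.add_mod_mod]
      have e : c + (a % L + (L - c)) = a % L + L := by omega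
      rw [e, Nat.add_mod_right, Nat.mod_mod]
    have hcl := const_class (W := V (L + r)) hL (hzz (L + r)) (c := a % L) (v := (V L).getD t 0)
      ((S.filter (fun a => a % L = c)).image (fun s => s + t))
      (by rw [Finset.card_image_of_injective _ (add_left_injective _)]; exact hc2) (by
        intro b hb
        rw [Finset.mem_image] at hb
        obtain ⟨s, hs, rfl⟩ := hb
        rw [Finset.mem_filter] at hs
        obtain ⟨h1, h2⟩ := hS2 s hs.1
        refine ⟨by omega, ?_, h2 t (by omega)⟩
        rw [← htc, Nat.add_mod, hs.2]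
        rw [Nat.add_mod c t L, Nat.mod_eq_of_lt hc1]) a ha rfl
    rw [List.getD_eq_getElem _ _ ha] at hcl
    rw [hcl, List.getD_eq_getElem _ _ (by omega)]
    exact List.getElem_mem _
  have hinf : ∀ i n, V i <:+: V (i + n) := by
    intro i n
    induction n with
    | zero => exact List.infix_rfl
    | succ n ih => exact ih.trans (dup_infix (h (i + n)))
  refine ⟨G, fun i x hx => hG x ?_⟩
  have h1 : x ∈ V (i + (L + L * (K + 1))) := (hinf i _).subset hx
  have e : i + (L + L * (K + 1)) = L + (i + L * (K + 1)) := by ring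
  rw [e] at h1
  exact hmem _ (by omega) x h1

end AW
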