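import Pool.Agent.Lib.MP_dd05d9_lc.XD

/-!
`R = prod_{l in Icc 1 N} (X^l - 1)^N` (as in RXm.RB_exists; if that proof gives the polynomial explicitly reuse it, otherwise repeat the product).
`X^l - 1` divides `X^(N!) - 1` (`l` divides `N!`; `sub_one_dvd`-type lemma: `Polynomial.X_pow_sub_one_dvd...` or `sub_dvd_pow_sub_pow`), so `R` divides
`(X^(N!) - 1)^(N*N)` (`Finset.prod_dvd_prod_of_dvd`, card of Icc 1 N = N).
RBp for every larger N' is not needed, only existence for every N and M as large as one wants (RB.mono).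
-/

set_option autoImplicit false

namespace AW

private theorem coeff_D {l : ℕ} (j : ℕ) :
    (Polynomial.X ^ l - 1 : Polynomial ℤ).coeff j =
      (if j = l then 1 else 0) - (if j = 0 then 1 else 0) := by
  rw [Polynomial.coeff_sub, Polynomial.coeff_X_pow, Polynomial.coeff_one]

private theorem natDegree_D {l : ℕ} (hl : 1 ≤ l) :
    (Polynomial.X ^ l - 1 : Polynomial ℤ).natDegree = l := by
  have h := Polynomial.natDegree_X_pow_sub_C (R := ℤ) (n := l) (r := 1)
  rwa [map_one] at h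

private theorem monic_D {l : ℕ} (hl : 1 ≤ l) : (Polynomial.X ^ l - 1 : Polynomial ℤ).Monic := by
  have h := Polynomial.monic_X_pow_sub_C (R := ℤ) (n := l) 1 (by omega)
  rwa [map_one] at h

private theorem reverse_D {l : ℕ} (hl : 1 ≤ l) :
    (Polynomial.X ^ l - 1 : Polynomial ℤ).reverse = -(Polynomial.X ^ l - 1) := by
  ext j
  rw [Polynomial.coeff_reverse, natDegree_D hl, Polynomial.coeff_neg, coeff_D, coeff_D]
  rcases Nat.lt_or_ge l j with h | h
  · rw [Polynomial.revAt_eq_self_of_lt h]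
    have h1 : j ≠ l := by omega
    have h2 : j ≠ 0 := by omega
    simp [h1, h2]
  · rw [Polynomial.revAt_le h]
    by_cases h1 : j = 0
    · have h2 : (0 : ℕ) ≠ l := by omega
      have h3 : l ≠ 0 := by omega
      subst h1
      simp [h2, h3]
    · by_cases h2 : j = l
      · subst h2
        have h3 : (0 : ℕ) ≠ j := by omega
        simp [h3, h1]
      · have h3 : l - j ≠ l := by omega
        have h4 : l - j ≠ 0 := by omega
        simp [h1, h2, h3, h4]

private theorem rev_mul {p q : Polynomial ℤ} (hp : p.reverse = p ∨ p.reverse = -p)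
    (hq : q.reverse = q ∨ q.reverse = -q) : (p * q).reverse = p * q ∨ (p * q).reverse = -(p * q) := by
  rw [Polynomial.reverse_mul_of_domain]
  rcases hp with hp | hp <;> rcases hq with hq | hq <;> rw [hp, hq]
  · exact Or.inl rfl
  · exact Or.inr (by ring)
  · exact Or.inr (by ring)
  · exact Or.inl (by ring)

private theorem rev_pow {l : ℕ} (hl : 1 ≤ l) (n : ℕ) :
    ((Polynomial.X ^ l - 1 : Polynomial ℤ) ^ n).reverse = (Polynomial.X ^ l - 1) ^ n ∨
      ((Polynomial.X ^ l - 1 : Polynomial ℤ) ^ n).reverse = -(Polynomial.X ^ l - 1) ^ n := by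
  induction n with
  | zero =>
    rw [pow_zero]
    have h := Polynomial.reverse_C (1 : ℤ)
    rw [map_one] at h
    exact Or.inl h
  | succ n ihn =>
    rw [pow_succ]
    exact rev_mul ihn (Or.inr (reverse_D hl))

private theorem coeff_D_mul {l : ℕ} {p : Polynomial ℤ} {B : ℤ} (hp : ∀ j, |p.coeff j| ≤ B) (j : ℕ) :
    |((Polynomial.X ^ l - 1) * p).coeff j| ≤ 2 * B := by
  rw [sub_mul, one_mul, Polynomial.coeff_sub, Polynomial.coeff_X_pow_mul']
  have hB : 0 ≤ B := (abs_nonneg _).trans (hp 0)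
  have h1 : |(if l ≤ j then p.coeff (j - l) else 0)| ≤ B := by
    split_ifs
    · exact hp _
    · simpa using hB
  calc _ ≤ |(if l ≤ j then p.coeff (j - l) else 0)| + |p.coeff j| := abs_sub _ _
    _ ≤ 2 * B := by linarith [hp j]

private theorem coeff_D_pow_mul {l : ℕ} (n : ℕ) {p : Polynomial ℤ} {B : ℤ}
    (hp : ∀ j, |p.coeff j| ≤ B) (j : ℕ) :
    |((Polynomial.X ^ l - 1) ^ n * p).coeff j| ≤ 2 ^ n * B := by
  induction n generalizing j with
  | zero => simpa using hp j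
  | succ n ih =>
    have h := coeff_D_mul (l := l) ih j
    have e : (Polynomial.X ^ l - 1 : Polynomial ℤ) ^ (n + 1) * p =
        (Polynomial.X ^ l - 1) * ((Polynomial.X ^ l - 1) ^ n * p) := by ring
    rw [e]
    exact h.trans (le_of_eq (by ring))

private theorem prod_props (N : ℕ) (s : Finset ℕ) (hs : ∀ l ∈ s, 1 ≤ l ∧ l ≤ N) :
    (∏ l ∈ s, (Polynomial.X ^ l - 1 : Polynomial ℤ) ^ N).Monic ∧
    (∏ l ∈ s, (Polynomial.X ^ l - 1 : Polynomial ℤ) ^ N).natDegree ≤ s.card * (N * N) ∧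
    (∀ j, |(∏ l ∈ s, (Polynomial.X ^ l - 1 : Polynomial ℤ) ^ N).coeff j| ≤ 2 ^ (s.card * N)) ∧
    ((∏ l ∈ s, (Polynomial.X ^ l - 1 : Polynomial ℤ) ^ N).reverse =
        (∏ l ∈ s, (Polynomial.X ^ l - 1 : Polynomial ℤ) ^ N) ∨
      (∏ l ∈ s, (Polynomial.X ^ l - 1 : Polynomial ℤ) ^ N).reverse =
        -(∏ l ∈ s, (Polynomial.X ^ l - 1 : Polynomial ℤ) ^ N)) := by
  classical
  induction s using Finset.induction_on with
  | empty =>
    refine ⟨by simp, by simp, fun j => ?_, Or.inl ?_⟩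
    · rw [Finset.prod_empty, Polynomial.coeff_one]
      split_ifs <;> simp
    · rw [Finset.prod_empty]
      have h := Polynomial.reverse_C (1 : ℤ)
      rwa [map_one] at h
  | insert l s hl ih =>
    obtain ⟨a1, a2, a3, a4⟩ := ih (fun x hx => hs x (Finset.mem_insert_of_mem hx))
    obtain ⟨b1, b2⟩ := hs l (Finset.mem_insert_self l s)
    rw [Finset.prod_insert hl, Finset.card_insert_of_notMem hl]
    refine ⟨((monic_D b1).pow N).mul a1, ?_, ?_, ?_⟩
    · refine Polynomial.natDegree_mul_le.trans ?_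
      have h1 : ((Polynomial.X ^ l - 1 : Polynomial ℤ) ^ N).natDegree ≤ N * N := by
        refine Polynomial.natDegree_pow_le.trans ?_
        rw [natDegree_D b1]
        exact Nat.mul_le_mul_left N b2
      calc _ ≤ N * N + s.card * (N * N) := Nat.add_le_add h1 a2
        _ = (s.card + 1) * (N * N) := by ring
    · intro j
      exact (coeff_D_pow_mul N a3 j).trans (le_of_eq (by rw [← pow_add]; ring_nf))
    · exact rev_mul (rev_pow b1 N) a4

theorem RBp.mono {N M M' : ℕ} {R : Polynomial ℤ} (h : M ≤ M') (hR : RBp N M R) : RBp N M' R :=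
  ⟨RB.mono h hR.1, hR.2⟩

theorem RBp_exists (N M0 : ℕ) : ∃ M R, M0 ≤ M ∧ N ≤ M ∧ RBp N M R := by
  obtain ⟨a1, a2, a3, a4⟩ := prod_props N (Finset.Icc 1 N) (fun l hl => Finset.mem_Icc.mp hl)
  have hc : (Finset.Icc 1 N).card = N := by simp
  rw [hc] at a2 a3
  have hp : 0 < 2 ^ (N * N) := Nat.pow_pos (by norm_num)
  obtain ⟨P, hP⟩ : ∃ P : ℕ, P = 2 ^ (N * N) := ⟨_, rfl⟩
  refine ⟨N * (N * N) + P + M0 + N, ∏ l ∈ Finset.Icc 1 N, (Polynomial.X ^ l - 1) ^ N,
    by omega, by omega, ⟨a1, by omega, fun j => ?_, a4, ?_⟩, ?_⟩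
  · refine (a3 j).trans ?_
    have h : 2 ^ (N * N) ≤ N * (N * N) + P + M0 + N := by rw [← hP]; omega
    exact_mod_cast h
  · intro l h1 h2
    exact Finset.dvd_prod_of_mem (fun l => (Polynomial.X ^ l - 1 : Polynomial ℤ) ^ N)
      (Finset.mem_Icc.mpr ⟨h1, h2⟩)
  · refine ⟨N.factorial, N * N, Nat.factorial_pos N, ?_⟩
    have h1 : ∀ l ∈ Finset.Icc 1 N, (Polynomial.X ^ l - 1 : Polynomial ℤ) ^ N ∣
        (Polynomial.X ^ N.factorial - 1) ^ N := by
      intro l hl
      rw [Finset.mem_Icc] at hl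
      obtain ⟨m, hm⟩ := Nat.dvd_factorial (by omega : 0 < l) hl.2
      refine pow_dvd_pow_of_dvd ?_ N
      have h2 := sub_dvd_pow_sub_pow ((Polynomial.X : Polynomial ℤ) ^ l) 1 m
      rw [one_pow, ← pow_mul, ← hm] at h2
      exact h2
    have h3 := Finset.prod_dvd_prod_of_dvd (fun l => (Polynomial.X ^ l - 1 : Polynomial ℤ) ^ N)
      (fun _ => (Polynomial.X ^ N.factorial - 1 : Polynomial ℤ) ^ N) h1
    rw [Finset.prod_const, hc, ← pow_mul] at h3
    exact h3

theorem RB.anti {N N' M : ℕ} {R : Polynomial ℤ} (h : N' ≤ N) (hR : RB N M R) : RB N' M R :=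
  ⟨hR.1, hR.2.1, hR.2.2.1, hR.2.2.2.1, fun l h1 h2 =>
    (pow_dvd_pow _ h).trans (hR.2.2.2.2 l h1 (h2.trans h))⟩

theorem RBp.anti {N N' M : ℕ} {R : Polynomial ℤ} (h : N' ≤ N) (hR : RBp N M R) : RBp N' M R :=
  ⟨RB.anti h hR.1, hR.2⟩

end AW
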