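import Pool.Agent.Lib.MP_dd05d9_lc.XQb
import Pool.Agent.Lib.MP_dd05d9_lc.XQd
import Pool.Agent.Lib.MP_dd05d9_lc.XG2
import Pool.Agent.Lib.MP_dd05d9_lc.FMx
import Pool.Agent.Lib.MP_dd05d9_lc.F0
import Pool.Agent.Lib.MP_dd05d9_lc.XR

/-!
Induction on `e`: duplicating chains of factors of a word of polynomial type are killed by `R`.
-/

set_option autoImplicit false

namespace AW

theorem cut (R : Polynomial ℤ) {l T : List ℤ} (h : T <:+: dl R l) (hT : T ≠ []) :
    ∃ S, S <:+: l ∧ dl R S = T := by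
  obtain ⟨x, y, hxy⟩ := h
  have hpos : 0 < T.length := List.length_pos_iff.2 hT
  have hlen : x.length + T.length + y.length = l.length - R.natDegree := by
    have := congrArg List.length hxy
    rw [dl_length] at this
    simp only [List.length_append] at this
    omega
  refine ⟨(l.drop x.length).take (T.length + R.natDegree), ?_, ?_⟩
  · exact ((List.take_prefix _ _).isInfix).trans (List.drop_suffix _ _).isInfix
  · have hl1 : ((l.drop x.length).take (T.length + R.natDegree)).length =
        T.length + R.natDegree := by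
      rw [List.length_take, List.length_drop]
      omega
    apply List.ext_getElem
    · rw [dl_length, hl1]
      omega
    · intro i h1 h2
      have h3 : i < ((l.drop x.length).take (T.length + R.natDegree)).length - R.natDegree := by
        rw [hl1]
        omega
      have e1 := dl_getD R ((l.drop x.length).take (T.length + R.natDegree)) i h3
      rw [List.getD_eq_getElem _ _ h1] at e1
      rw [e1]
      have h4 : x.length + i < l.length - R.natDegree := by omega
      have e2 := dl_getD R l (x.length + i) h4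
      have e3 : (dl R l).getD (x.length + i) 0 = T[i] := by
        rw [← hxy, List.append_assoc, List.getD_append_right _ _ _ _ (by omega),
          List.getD_append _ _ _ _ (by omega), List.getD_eq_getElem _ _ (by omega)]
        congr 1
        omega
      rw [← e3, e2, add_comm x.length i, ← ap_shift]
      refine ap_congr _ _ _ _ fun j hj => ?_
      rw [List.getD_eq_getElem?_getD, List.getD_eq_getElem?_getD,
        List.getElem?_take_of_lt (by omega), List.getElem?_drop]
      congr 2
      omega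

private theorem XQ_count_le {a B : ℕ} {l : List ℤ} {h : ℕ → ℤ} (hl : FacA a l h)
    (hB : ∀ i, B ≤ i → h i = 0) : (l.filter (fun x => x ≠ 0)).length ≤ B := by
  have h1 : (l.drop B).filter (fun x => x ≠ 0) = [] := by
    rw [List.filter_eq_nil_iff]
    intro x hx
    obtain ⟨i, hi, hix⟩ := List.mem_iff_getElem.1 hx
    rw [List.length_drop] at hi
    have h2 := hl (B + i) (by omega)
    rw [hB _ (by omega)] at h2
    rw [List.getElem_drop] at hix
    rw [List.getD_eq_getElem _ _ (by omega)] at h2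
    have : x = 0 := by rw [← hix]; exact h2
    simp [this]
  have h3 : l.filter (fun x => x ≠ 0) = (l.take B).filter (fun x => x ≠ 0) := by
    conv_lhs => rw [← List.take_append_drop B l]
    rw [List.filter_append, h1, List.append_nil]
  rw [h3]
  refine (List.length_filter_le _ _).trans ?_
  rw [List.length_take]
  exact min_le_left _ _

private theorem XQ_pos {V : ℕ → List ℤ} (h : ∀ i, Dup (V i) (V (i + 1))) (h0 : ∃ x ∈ V 0, x ≠ 0)
    (r : ℕ) : 2 ^ r ≤ ((V r).filter (fun x => x ≠ 0)).length := by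
  have h1 := dup_chain_count h (fun x => x ≠ 0) r
  have h2 : 1 ≤ ((V 0).filter (fun x => x ≠ 0)).length := by
    obtain ⟨x, hx, hx0⟩ := h0
    apply List.length_pos_iff.2
    intro hnil
    rw [List.filter_eq_nil_iff] at hnil
    have := hnil x hx
    simp [hx0] at this
  calc 2 ^ r = 2 ^ r * 1 := (mul_one _).symm
    _ ≤ 2 ^ r * ((V 0).filter (fun x => x ≠ 0)).length := Nat.mul_le_mul_left _ h2
    _ ≤ _ := h1

private theorem XQ_ex {l : List ℤ} (h : 1 ≤ (l.filter (fun x => x ≠ 0)).length) :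
    ∃ x ∈ l, x ≠ 0 := by
  obtain ⟨x, hx⟩ := List.exists_mem_of_length_pos (Nat.lt_of_lt_of_le Nat.zero_lt_one h)
  rw [List.mem_filter] at hx
  exact ⟨x, hx.1, by simpa using hx.2⟩

private theorem XQ_zero {B : ℕ} {D : ℕ → List ℤ} {h : ℕ → ℤ} (hD : ∀ i, Fac (D i) h)
    (hd : ∀ i, Dup (D i) (D (i + 1))) (h0 : ∃ x ∈ D 0, x ≠ 0) (hB : ∀ i, B ≤ i → h i = 0) :
    False := by
  have h1 := XQ_pos hd h0 B
  obtain ⟨a, ha⟩ := hD B
  have h2 := XQ_count_le ha hB
  have h3 : B < 2 ^ B := Nat.lt_two_pow_self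
  omega

theorem QE (e : ℕ) : ∀ N : ℕ, ∃ K : ℕ, ∀ (N' M : ℕ) (R : Polynomial ℤ), K ≤ N' → RB N' M R →
    ∀ f, Fam e N f → ∀ V : ℕ → List ℤ, (∀ i, Fac (V i) f) → (∀ i, Dup (V i) (V (i + 1))) →
    V 0 ≠ [] → ∀ i, Zr R (V i) := by
  induction e with
  | zero =>
    intro N
    refine ⟨N, fun N' M R hK hR f hf V hV hd hne i0 => ?_⟩
    by_contra hcon
    have hx : ∃ x ∈ dl R (V i0), x ≠ 0 := by
      unfold Zr at hcon
      push Not at hcon
      exact hcon
    refine XQ_zero (B := N) (D := fun i => dl R (V (i0 + i))) (h := ap R f) ?_ ?_ ?_ ?_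
    · intro i
      obtain ⟨a, ha⟩ := hV (i0 + i)
      exact ⟨a, fac_dl ha⟩
    · intro i
      exact dup_dl R (hd (i0 + i))
    · exact hx
    · exact F0 (RB.anti hK hR) hf
  | succ e ih =>
    intro N
    obtain ⟨F, -, hF⟩ := FM e
    obtain ⟨K1, hK1⟩ := gap_word (e + 1) N
    refine ⟨max K1 N, fun N' M R hK hR f hf V hV hd hne i0 => ?_⟩
    by_contra hcon
    have hx : ∃ x ∈ dl R (V i0), x ≠ 0 := by
      unfold Zr at hcon
      push Not at hcon
      exact hcon
    have hKN : N ≤ N' := (le_max_right _ _).trans hK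
    have hRM : RB N (max M N) R := RB.anti hKN (hR.mono (le_max_left _ _))
    have hDF : ∀ i, Fac (dl R (V (i0 + i))) (ap R f) := fun i => by
      obtain ⟨a, ha⟩ := hV (i0 + i)
      exact ⟨a, fac_dl ha⟩
    have hDd : ∀ i, Dup (dl R (V (i0 + i))) (dl R (V (i0 + (i + 1)))) := fun i =>
      dup_dl R (hd (i0 + i))
    have hDp : ∀ r, 2 ^ r ≤ ((dl R (V (i0 + r))).filter (fun x => x ≠ 0)).length := fun r =>
      XQ_pos (V := fun i => dl R (V (i0 + i))) hDd hx r
    have hDx : ∀ r, ∃ x ∈ dl R (V (i0 + r)), x ≠ 0 := fun r =>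
      XQ_ex (le_trans Nat.one_le_two_pow (hDp r))
    rcases hF N (max M N) R f (le_max_right _ _) hRM hf with h0 | ⟨g, hg, hcd⟩
    · exact XQ_zero (B := F (max M N)) (D := fun i => dl R (V (i0 + i))) (h := ap R f) hDF hDd hx h0
    · obtain ⟨K2, hK2⟩ := ih (F (max M N))
      obtain ⟨M2, R2, -, -, hR2⟩ := RBp_exists K2 0
      have hVF : ∀ i, Fac (ic (dl R (V (i0 + i)))) g := fun i => by
        obtain ⟨a, ha⟩ := hDF i
        exact ic_fac (hDx i) ha hcd
      have hVd : ∀ i, Dup (ic (dl R (V (i0 + i)))) (ic (dl R (V (i0 + (i + 1))))) := fun i =>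
        ic_dup (hDx i) (hDd i)
      have hV0 : ic (dl R (V (i0 + 0))) ≠ [] := ic_ne (hDx 0)
      have hz : ∀ i, Zr R2 (ic (dl R (V (i0 + i)))) :=
        hK2 K2 M2 R2 le_rfl hR2.1 g hg (fun i => ic (dl R (V (i0 + i)))) hVF hVd hV0
      obtain ⟨G, hG⟩ := bdd_chain (V := fun i => ic (dl R (V (i0 + i)))) hVd hV0 hR2 hz
      obtain ⟨C, hC⟩ := hK1 N' M R ((le_max_left _ _).trans hK) hR f hf (G + 1 + R.natDegree)
      obtain ⟨T, hT1, hT2, hT3⟩ := ic_gap (hG C)
      have hTl : C < T.length := lt_of_lt_of_le Nat.lt_two_pow_self ((hDp C).trans hT2)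
      have hTne : T ≠ [] := by
        rintro rfl
        simp at hTl
      obtain ⟨S', hS'1, hS'2⟩ := cut R hT1 hTne
      have hS'l : C ≤ S'.length := by
        have := congrArg List.length hS'2
        rw [dl_length] at this
        omega
      obtain ⟨S, hS1, hS2, hS3⟩ := hC S' (fac_infix hS'1 (hV (i0 + C))) hS'l
      have h5 : dl R S <:+: T := hS'2 ▸ dl_infix R hS1
      obtain ⟨x, hx1, hx2⟩ := hT3 (dl R S) h5 (by rw [dl_length]; omega)
      exact hx2 (hS3 x hx1)

end AW
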