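import Pool.Agent.Lib.MP_dd05d9_lc.Poly1

/-!
`y` : N -> N with `(y k : Z) = pe a k`, `y k >= 1` for all k (or monotone and not 0); `u (k+1) = u k + y k`.
There are `C, D` with `D >= 1` and for all `k`: `k * y (k+3) <= C * (1 + u k)` and `u k <= C * (k+1)^D`.
PROOF.  Let `d` be the degree of the polynomial function `y` (last index with `a_d <> 0`; exists as y is not 0): `y k = c k^d + lower`, `c > 0`.  Elementary: there are constants with `c1 (k+1)^d <= y k <= c2 (k+1)^d` for all `k`
(the quotient `y k / (k+1)^d` has a positive limit and is positive for every `k`; Tendsto via `Polynomial.isEquivalent_atTop_lead` or by hand with `C(k,i) / k^d`).  Then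
`u k >= sum_{j<k} c1 (j+1)^d >= c1 (k/2) (k/2)^d`, i.e. `u k >= c3 k^(d+1)`; `k y (k+3) <= c2 k (k+4)^d <= c4 k^(d+1) + c4`; and `u k <= u 0 + k c2 k^d`.  `D = d + 1`.
(Work over the reals, take ceilings at the end.)
-/

set_option autoImplicit false

namespace AW

private theorem XL2_choose_mono {k i j : ℕ} (hij : i ≤ j) (hj : j ≤ k / 2) :
    k.choose i ≤ k.choose j := by
  induction j, hij using Nat.le_induction with
  | base => exact le_rfl
  | succ j hij ih => exact (ih (by omega)).trans (Nat.choose_le_succ_of_lt_half_left (by omega))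

/-- bounds for a positive polynomial sequence -/
private theorem XL2_bounds {N : ℕ} {y : ℕ → ℕ} (hy : PB N (fun k => (y k : ℤ)))
    (h1 : ∀ k, 1 ≤ y k) :
    ∃ m A K : ℕ, (∀ k, y k ≤ A * (k + 1) ^ m) ∧ ∀ k, K ≤ k → k.choose m ≤ 2 * y k := by
  obtain ⟨a, ⟨hal, hab⟩, hp⟩ := hy
  have hb : ∀ i, |a.getD i 0| ≤ (N : ℤ) := by
    intro i
    by_cases hi : i < a.length
    · rw [List.getD_eq_getElem _ _ hi]
      exact hab _ (List.getElem_mem hi)
    · rw [List.getD_eq_default _ _ (not_lt.1 hi)]
      simp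
  have hlt : ∀ i, a.getD i 0 ≠ 0 → i < N := by
    intro i hi
    by_contra h
    apply hi
    exact List.getD_eq_default _ _ (by omega)
  have hz : ∃ i, a.getD i 0 ≠ 0 := by
    by_contra hz
    push Not at hz
    have e := hp 0
    have e0 : pe a 0 = 0 := by
      unfold pe
      apply Finset.sum_eq_zero
      intro i _
      rw [hz i, zero_mul]
    rw [e0] at e
    have := h1 0
    simp only at e
    omega
  obtain ⟨i0, hi0⟩ := hz
  obtain ⟨m, hm, hmax⟩ : ∃ m, a.getD m 0 ≠ 0 ∧ ∀ i, m < i → a.getD i 0 = 0 := by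
    refine ⟨Nat.findGreatest (fun i => a.getD i 0 ≠ 0) N, ?_, ?_⟩
    · exact Nat.findGreatest_spec (P := fun i => a.getD i 0 ≠ 0) (hlt i0 hi0).le hi0
    · intro i hi
      by_contra h
      have := Nat.le_findGreatest (P := fun i => a.getD i 0 ≠ 0) (hlt i h).le h
      omega
  have hmN := hlt m hm
  have e : ∀ k, (y k : ℤ) = ∑ i ∈ Finset.range m, a.getD i 0 * (k.choose i : ℤ) +
      a.getD m 0 * (k.choose m : ℤ) := by
    intro k
    have hpk := hp k
    simp only at hpk
    rw [hpk, pe_ext a N k hal, ← Finset.sum_range_succ (fun i => a.getD i 0 * (k.choose i : ℤ)) m]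
    symm
    apply Finset.sum_subset
    · intro i hi
      rw [Finset.mem_range] at hi ⊢
      omega
    · intro i _ hi
      rw [Finset.mem_range] at hi
      rw [hmax i (by omega), zero_mul]
  refine ⟨m, (m + 1) * N, 2 * m + 2 * (m * N) * m + m, ?_, ?_⟩
  · intro k
    have h2 : (y k : ℤ) ≤ (((m + 1) * N * (k + 1) ^ m : ℕ) : ℤ) := by
      rw [e k, ← Finset.sum_range_succ (fun i => a.getD i 0 * (k.choose i : ℤ)) m]
      calc ∑ i ∈ Finset.range (m + 1), a.getD i 0 * (k.choose i : ℤ)
          ≤ ∑ i ∈ Finset.range (m + 1), (N : ℤ) * ((k : ℤ) + 1) ^ m := by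
            apply Finset.sum_le_sum
            intro i hi
            rw [Finset.mem_range] at hi
            have h3 : (k.choose i : ℤ) ≤ ((k : ℤ) + 1) ^ m := by
              have h4 : k.choose i ≤ (k + 1) ^ m :=
                ((Nat.choose_le_pow k i).trans (Nat.pow_le_pow_left (Nat.le_succ k) i)).trans
                  (Nat.pow_le_pow_right (Nat.succ_pos k) (by omega))
              exact_mod_cast h4
            have h5 : (0 : ℤ) ≤ (k.choose i : ℤ) := by positivity
            calc a.getD i 0 * (k.choose i : ℤ) ≤ (N : ℤ) * (k.choose i : ℤ) :=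
                  mul_le_mul_of_nonneg_right ((le_abs_self _).trans (hb i)) h5
              _ ≤ (N : ℤ) * ((k : ℤ) + 1) ^ m := mul_le_mul_of_nonneg_left h3 (by positivity)
        _ = (((m + 1) * N * (k + 1) ^ m : ℕ) : ℤ) := by
            rw [Finset.sum_const, Finset.card_range, nsmul_eq_mul]
            push_cast
            ring
    exact_mod_cast h2
  · intro k hk
    have hpos : (1 : ℤ) ≤ (y k : ℤ) := by exact_mod_cast h1 k
    have hsum : 2 * |∑ i ∈ Finset.range m, a.getD i 0 * (k.choose i : ℤ)| ≤ (k.choose m : ℤ) := by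
      rcases Nat.eq_zero_or_pos m with h0 | hmpos
      · subst h0
        simp
      · obtain ⟨j, rfl⟩ : ∃ j, m = j + 1 := ⟨m - 1, by omega⟩
        have hhalf : j ≤ k / 2 := by
          have := Nat.zero_le (2 * ((j + 1) * N) * (j + 1))
          omega
        have hc := Nat.choose_succ_right_eq k j
        have hmain : 2 * ((j + 1) * N) * k.choose j ≤ k.choose (j + 1) := by
          have h4 : (j + 1) * (2 * ((j + 1) * N) * k.choose j) ≤ (j + 1) * k.choose (j + 1) := by
            have h5 : 2 * ((j + 1) * N) * (j + 1) ≤ k - j := by omega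
            calc (j + 1) * (2 * ((j + 1) * N) * k.choose j)
                = k.choose j * (2 * ((j + 1) * N) * (j + 1)) := by ring
              _ ≤ k.choose j * (k - j) := Nat.mul_le_mul_left _ h5
              _ = (j + 1) * k.choose (j + 1) := by rw [← hc]; ring
          exact Nat.le_of_mul_le_mul_left h4 (Nat.succ_pos j)
        have hs2 : |∑ i ∈ Finset.range (j + 1), a.getD i 0 * (k.choose i : ℤ)| ≤
            (((j + 1) * N * k.choose j : ℕ) : ℤ) := by
          calc |∑ i ∈ Finset.range (j + 1), a.getD i 0 * (k.choose i : ℤ)|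
              ≤ ∑ i ∈ Finset.range (j + 1), |a.getD i 0 * (k.choose i : ℤ)| :=
                Finset.abs_sum_le_sum_abs _ _
            _ ≤ ∑ i ∈ Finset.range (j + 1), (N : ℤ) * (k.choose j : ℤ) := by
                apply Finset.sum_le_sum
                intro i hi
                rw [Finset.mem_range] at hi
                rw [abs_mul, Nat.abs_cast]
                apply mul_le_mul (hb i) _ (by positivity) (by positivity)
                exact_mod_cast XL2_choose_mono (by omega : i ≤ j) hhalf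
            _ = (((j + 1) * N * k.choose j : ℕ) : ℤ) := by
                rw [Finset.sum_const, Finset.card_range, nsmul_eq_mul]
                push_cast
                ring
        have h8 : ((2 * ((j + 1) * N) * k.choose j : ℕ) : ℤ) ≤ (k.choose (j + 1) : ℤ) := by
          exact_mod_cast hmain
        push_cast at hs2 h8 ⊢
        linarith
    have hCm : (0 : ℤ) ≤ (k.choose m : ℤ) := by positivity
    obtain ⟨l1, l2⟩ := abs_le.1 (le_refl |∑ i ∈ Finset.range m, a.getD i 0 * (k.choose i : ℤ)|)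
    have ek := e k
    have ham : 1 ≤ a.getD m 0 := by
      by_contra hneg
      have h6 : a.getD m 0 ≤ -1 := by omega
      have h7 : a.getD m 0 * (k.choose m : ℤ) ≤ -1 * (k.choose m : ℤ) :=
        mul_le_mul_of_nonneg_right h6 hCm
      linarith
    have h7 : 1 * (k.choose m : ℤ) ≤ a.getD m 0 * (k.choose m : ℤ) :=
      mul_le_mul_of_nonneg_right ham hCm
    have h9 : (k.choose m : ℤ) ≤ ((2 * y k : ℕ) : ℤ) := by
      push_cast
      linarith
    exact_mod_cast h9

theorem growth {N : ℕ} {y u : ℕ → ℕ} (hy : PB N (fun k => (y k : ℤ))) (h1 : ∀ k, 1 ≤ y k)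
    (hu : ∀ k, u (k + 1) = u k + y k) :
    ∃ C D : ℕ, 1 ≤ D ∧ ∀ k, k * y (k + 3) ≤ C * (1 + u k) ∧ u k ≤ C * (k + 1) ^ D := by
  obtain ⟨m, A, K, hA, hK⟩ := XL2_bounds hy h1
  -- lower bound of u
  have hlow : ∀ k, (k.choose (m + 1)) ≤ 2 * u k + K.choose (m + 1) := by
    intro k
    induction k with
    | zero => simp
    | succ k ih =>
      rcases Nat.lt_or_ge k K with hk | hk
      · exact (Nat.choose_le_choose (m + 1) hk).trans (Nat.le_add_left _ _)
      · have h9 : (k + 1).choose (m + 1) = k.choose m + k.choose (m + 1) := Nat.choose_succ_succ k m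
        rw [h9, hu k]
        have := hK k hk
        omega
  -- upper bound of u
  have hup : ∀ k, u k ≤ u 0 + k * (A * (k + 1) ^ m) := by
    intro k
    induction k with
    | zero => simp
    | succ k ih =>
      rw [hu k]
      have h2 : A * (k + 1) ^ m ≤ A * (k + 1 + 1) ^ m :=
        Nat.mul_le_mul_left _ (Nat.pow_le_pow_left (Nat.le_succ _) _)
      have h3 : k * (A * (k + 1) ^ m) ≤ k * (A * (k + 1 + 1) ^ m) := Nat.mul_le_mul_left _ h2
      have h4 := hA k
      calc u k + y k ≤ u 0 + k * (A * (k + 1) ^ m) + A * (k + 1) ^ m := by omega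
        _ ≤ u 0 + k * (A * (k + 1 + 1) ^ m) + A * (k + 1 + 1) ^ m := by omega
        _ = u 0 + (k + 1) * (A * (k + 1 + 1) ^ m) := by ring
  set C1 := (2 * m + 8) ^ (m + 1) + 2 ^ (m + 1) * (m + 1).factorial with hC1
  have hpow : ∀ k, (k + 4) ^ (m + 1) ≤ C1 * (1 + k.choose (m + 1)) := by
    intro k
    rcases Nat.lt_or_ge k (2 * m + 4) with hk | hk
    · calc (k + 4) ^ (m + 1) ≤ (2 * m + 8) ^ (m + 1) := Nat.pow_le_pow_left (by omega) _
        _ ≤ C1 := Nat.le_add_right _ _
        _ ≤ C1 * (1 + k.choose (m + 1)) := Nat.le_mul_of_pos_right _ (by omega)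
    · have h2 : (k + 1 - (m + 1)) ^ (m + 1) ≤ (m + 1).factorial * k.choose (m + 1) := by
        have := Nat.pow_sub_le_descFactorial k (m + 1)
        rw [Nat.descFactorial_eq_factorial_mul_choose] at this
        exact this
      calc (k + 4) ^ (m + 1) ≤ (2 * (k + 1 - (m + 1))) ^ (m + 1) :=
            Nat.pow_le_pow_left (by omega) _
        _ = 2 ^ (m + 1) * (k + 1 - (m + 1)) ^ (m + 1) := by rw [mul_pow]
        _ ≤ 2 ^ (m + 1) * ((m + 1).factorial * k.choose (m + 1)) := Nat.mul_le_mul_left _ h2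
        _ = 2 ^ (m + 1) * (m + 1).factorial * k.choose (m + 1) := by ring
        _ ≤ C1 * (1 + k.choose (m + 1)) := Nat.mul_le_mul (Nat.le_add_left _ _) (by omega)
  refine ⟨A * (C1 * (2 + K.choose (m + 1))) + (u 0 + A), m + 1, by omega, ?_⟩
  intro k
  constructor
  · have h2 : k * y (k + 3) ≤ A * (k + 4) ^ (m + 1) := by
      calc k * y (k + 3) ≤ (k + 4) * (A * (k + 3 + 1) ^ m) := Nat.mul_le_mul (by omega) (hA _)
        _ = A * (k + 4) ^ (m + 1) := by ring
    have h3 : 1 + k.choose (m + 1) ≤ (2 + K.choose (m + 1)) * (1 + u k) := by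
      have := hlow k
      nlinarith [Nat.zero_le (K.choose (m + 1) * u k)]
    calc k * y (k + 3) ≤ A * (k + 4) ^ (m + 1) := h2
      _ ≤ A * (C1 * (1 + k.choose (m + 1))) := Nat.mul_le_mul_left _ (hpow k)
      _ ≤ A * (C1 * ((2 + K.choose (m + 1)) * (1 + u k))) :=
          Nat.mul_le_mul_left _ (Nat.mul_le_mul_left _ h3)
      _ = A * (C1 * (2 + K.choose (m + 1))) * (1 + u k) := by ring
      _ ≤ (A * (C1 * (2 + K.choose (m + 1))) + (u 0 + A)) * (1 + u k) :=
          Nat.mul_le_mul_right _ (Nat.le_add_right _ _)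
  · have h2 : 1 ≤ (k + 1) ^ (m + 1) := Nat.one_le_pow _ _ (Nat.succ_pos _)
    calc u k ≤ u 0 + k * (A * (k + 1) ^ m) := hup k
      _ ≤ u 0 * (k + 1) ^ (m + 1) + (k + 1) * (A * (k + 1) ^ m) :=
          Nat.add_le_add (Nat.le_mul_of_pos_right _ h2) (Nat.mul_le_mul_right _ (Nat.le_succ _))
      _ = (u 0 + A) * (k + 1) ^ (m + 1) := by ring
      _ ≤ (A * (C1 * (2 + K.choose (m + 1))) + (u 0 + A)) * (k + 1) ^ (m + 1) :=
          Nat.mul_le_mul_right _ (Nat.le_add_left _ _)

end AW
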