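import Pool.Agent.Lib.MP_dd05d9_lc.XD
import Pool.Agent.Lib.MP_dd05d9_lc.DLa

/-!
* dl_infix: `l' = a ++ l ++ c`: dl_append twice: `dl R l'` contains `dl R l` as an infix.
* dup_dl: `l' = a ++ (l ++ (b ++ (l ++ c)))`: dl_append four times: `dl R l' = .. ++ (dl l ++ (.. ++ (dl l ++ ..)))` (reassociate).
* zr_infix: from dl_infix.
* fac_infix: shift the place by the length of the part before.
* fac_dl: `dl_getD`, `ap_congr`, `ap_shift`: the entries of `dl R l` are `ap R f (a + i)`, `i < |l| - n`.
* fac_zr: `Zr R l`, FacA a l f: `ap R f (a+i) = 0` for `i < |l| - n` (only the case n <= |l| is interesting).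
* dup_infix, dup_length.
-/

set_option autoImplicit false

namespace AW

theorem dl_infix (R : Polynomial ℤ) {l l' : List ℤ} (h : l <:+: l') : dl R l <:+: dl R l' := by
  obtain ⟨s, t, rfl⟩ := h
  rw [dl_append R (s ++ l) t, dl_append R s l]
  refine ⟨dl R s ++ dl R (sfx R.natDegree s ++ l.take R.natDegree),
    dl R (sfx R.natDegree (s ++ l) ++ t.take R.natDegree) ++ dl R t, ?_⟩
  simp only [List.append_assoc]

theorem dup_dl (R : Polynomial ℤ) {l l' : List ℤ} (h : Dup l l') : Dup (dl R l) (dl R l') := by
  obtain ⟨a, b, c, rfl⟩ := h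
  rw [dl_append R a, dl_append R l (b ++ (l ++ c)), dl_append R b, dl_append R l c]
  refine ⟨dl R a ++ dl R (sfx R.natDegree a ++ (l ++ (b ++ (l ++ c))).take R.natDegree),
    dl R (sfx R.natDegree l ++ (b ++ (l ++ c)).take R.natDegree) ++ (dl R b ++
      dl R (sfx R.natDegree b ++ (l ++ c).take R.natDegree)),
    dl R (sfx R.natDegree l ++ c.take R.natDegree) ++ dl R c, ?_⟩
  simp only [List.append_assoc]

theorem zr_infix {R : Polynomial ℤ} {l l' : List ℤ} (h : l <:+: l') (hz : Zr R l') : Zr R l :=
  fun x hx => hz x ((dl_infix R h).subset hx)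

private theorem XQa_getD (s l t : List ℤ) (i : ℕ) (hi : i < l.length) :
    (s ++ l ++ t).getD (s.length + i) 0 = l.getD i 0 := by
  rw [List.getD_eq_getElem _ _ (by simp only [List.length_append]; omega),
    List.getD_eq_getElem _ _ hi]
  rw [List.getElem_append_left (by simp only [List.length_append]; omega)]
  rw [List.getElem_append_right (by omega)]
  congr 1
  omega

theorem fac_infix {l l' : List ℤ} {f : ℕ → ℤ} (h : l <:+: l') (hf : Fac l' f) : Fac l f := by
  obtain ⟨s, t, rfl⟩ := h
  obtain ⟨a, ha⟩ := hf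
  refine ⟨a + s.length, fun i hi => ?_⟩
  rw [← XQa_getD s l t i hi, ha (s.length + i) (by simp only [List.length_append]; omega)]
  congr 1
  omega

theorem fac_dl {R : Polynomial ℤ} {l : List ℤ} {f : ℕ → ℤ} {a : ℕ} (h : FacA a l f) :
    FacA a (dl R l) (ap R f) := by
  intro i hi
  rw [dl_length] at hi
  rw [dl_getD R l i hi]
  have h1 := ap_shift R f a i
  rw [add_comm a i, ← h1]
  refine ap_congr R _ _ i fun j hj => ?_
  rw [h (i + j) (by omega)]
  congr 1
  omega

theorem dup_infix {l l' : List ℤ} (h : Dup l l') : l <:+: l' := by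
  obtain ⟨a, b, c, rfl⟩ := h
  exact ⟨a, b ++ (l ++ c), by simp only [List.append_assoc]⟩

theorem dup_length {l l' : List ℤ} (h : Dup l l') : 2 * l.length ≤ l'.length := by
  obtain ⟨a, b, c, rfl⟩ := h
  simp only [List.length_append]
  omega

theorem dup_count {l l' : List ℤ} (h : Dup l l') (p : ℤ → Bool) :
    2 * (l.filter p).length ≤ (l'.filter p).length := by
  obtain ⟨a, b, c, rfl⟩ := h
  simp only [List.filter_append, List.length_append]
  omega

/-- a list which occurs twice and has a nonzero entry: the nonzero entries become more and more -/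
theorem dup_chain_count {V : ℕ → List ℤ} (h : ∀ i, Dup (V i) (V (i + 1))) (p : ℤ → Bool) (r : ℕ) :
    2 ^ r * ((V 0).filter p).length ≤ ((V r).filter p).length := by
  induction r with
  | zero => simp
  | succ r ih =>
    have h1 := dup_count (h r) p
    calc 2 ^ (r + 1) * ((V 0).filter p).length = 2 * (2 ^ r * ((V 0).filter p).length) := by ring
      _ ≤ 2 * ((V r).filter p).length := Nat.mul_le_mul_left _ ih
      _ ≤ _ := h1

end AW
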