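import Pool.Agent.Lib.MP_dd05d9_lc.XL1
import Pool.Agent.Lib.MP_dd05d9_lc.XL2
import Pool.Agent.Lib.MP_dd05d9_lc.XG2
import Pool.Agent.Lib.MP_dd05d9_lc.FMx
import Pool.Agent.Lib.MP_dd05d9_lc.XQa
import Pool.Agent.Lib.MP_dd05d9_lc.F0

/-!
`f` in Fam e N, `R` with RB N' M R, `N' >= K` (K as in P.ld / gap lemma).  Claim: either `ap R f i = 0` for all large `i`, or there are `C, D >= 1` with: for every `a, l`: if `ap R f i = 0` for all `a <= i < a + l`
then `l^D <= C * (a + l + 1)^(D-1)`... PROOF (use this exact form).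
`U, Y` for `f`.  For `e = 0` F0.  `e = e' + 1`: as in FM: `G k = cmp (dl R (U k))`, `A k` (adv_inc, ADVi with HH e'): for `k >= c`: either `(A k).1 = []` for all `k >= c` (then first alternative, as in FM) or `(A k).1 <> []` for all
`k >= c`: so `(G (k+1)).1` is longer than `(G k).1`: there is a nonzero value `ap R f i` with `|U k| - n <= i < |U (k+1)| - n`.
Lengths: `y k = |Y k| >= 1`, `u k = |U k|`, polynomial by P.len_poly (`Y` in P (e'+1) N).  growth: `C0, D`.
If `y` is bounded then (P.len_poly, monotone: constant from some point on; then by P.ld `Y` is eventually FS of size `F c`, and `N' >= F c` gives vanishing by F0 applied to the word `f` shifted...).  To avoid this case distinction: we need only: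
for `k >= c` there is a nonzero place `i` in `[u k - n, u (k+1) - n)`.
Let `ap R f` vanish on `[a, a + l)`, WLOG `a >= u (c+1)` (otherwise `l` is bounded by the first nonzero place beyond: constant; enlarge C).  Let `k >= c` be maximal with `u k - n <= a`, i.e. `u k <= a + n < u (k+1)`.  The nonzero place in `[u (k+1) - n, u (k+2) - n)` is
`>= a`, so `a + l <= u (k+2) - n`, `l <= u (k+2) - n - a <= y k + y (k+1) + ... ` (as `a + n >= u k`): `l <= y k + y (k+1) <= 2 y (k+3)` (y monotone: P.len_mono).  `k * l <= 2 C0 (1 + u k) <= 2 C0 (1 + a + n)`; and `a + n < u (k+1) <= C0 (k+2)^D`.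
So `l^D * (a + n) <= C0 * l^D (k+2)^D <= C0 * (3 k l)^D <= C0 (6 C0 (1 + a + n))^D` (k >= 1), hence `l^D <= C (a + 1)^(D-1)` after division [ `(1+a+n)^D / (a+n) <= C' (a+1)^(D-1)` ].  `D` may be increased to `D >= 1`; for `l = 0` trivial if `D >= 1`.
-/

set_option autoImplicit false

namespace AW

private def XZ_cnt (h : ℕ → ℤ) (m : ℕ) : ℕ := ((pref h m).filter (fun x => x ≠ 0)).length

private theorem XZ_cnt_succ (h : ℕ → ℤ) (m : ℕ) :
    XZ_cnt h (m + 1) = XZ_cnt h m + (if h m = 0 then 0 else 1) := by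
  unfold XZ_cnt
  have e1 : pref h (m + 1) = pref h m ++ [h m] := by
    simp [pref, List.range_succ]
  rw [e1, List.filter_append, List.length_append]
  by_cases h0 : h m = 0
  · simp [h0]
  · simp [h0]

private theorem XZ_cnt_mono (h : ℕ → ℤ) : Monotone (XZ_cnt h) :=
  monotone_nat_of_le_succ (fun m => by rw [XZ_cnt_succ]; omega)

/-- if the number of nonzero entries grows there is a nonzero entry in between -/
private theorem XZ_ex (h : ℕ → ℤ) (m m' : ℕ) (hc : XZ_cnt h m < XZ_cnt h m') :
    ∃ i, m ≤ i ∧ i < m' ∧ h i ≠ 0 := by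
  by_contra hne
  have h1 : ∀ j, m + j ≤ m' → XZ_cnt h (m + j) = XZ_cnt h m := by
    intro j
    induction j with
    | zero => intro _; rfl
    | succ j ih =>
      intro hj
      have h2 : h (m + j) = 0 := by
        by_contra h3
        exact hne ⟨m + j, by omega, by omega, h3⟩
      rw [← Nat.add_assoc, XZ_cnt_succ, if_pos h2, ih (by omega), Nat.add_zero]
  have hmm : m ≤ m' := by
    by_contra h4
    have := XZ_cnt_mono h (show m' ≤ m by omega)
    omega
  have h5 := h1 (m' - m) (by omega)
  rw [show m + (m' - m) = m' by omega] at h5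
  omega

private theorem XZ_dl (R : Polynomial ℤ) (f : ℕ → ℤ) (l : List ℤ) (hl : IsPre l f) :
    dl R l = pref (ap R f) (l.length - R.natDegree) := by
  unfold IsPre at hl
  have h1 := dl_range R f l.length
  rw [← hl] at h1
  exact h1

private theorem XZ_anti {N N' M : ℕ} {R : Polynomial ℤ} (h : N ≤ N') (hR : RB N' M R) : RB N M R := by
  obtain ⟨h1, h2, h3, h4, h5⟩ := hR
  exact ⟨h1, h2, h3, h4, fun l hl1 hl2 =>
    (pow_dvd_pow _ h).trans (h5 l hl1 (hl2.trans h))⟩

private theorem XZ_mono {N M M' : ℕ} {R : Polynomial ℤ} (h : M ≤ M') (hR : RB N M R) : RB N M' R := by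
  obtain ⟨h1, h2, h3, h4, h5⟩ := hR
  exact ⟨h1, h2.trans h, fun j => (h3 j).trans (by exact_mod_cast h), h4, h5⟩

/-- the arithmetic -/
private theorem XZ_arith {C0 D k l n a : ℕ} (hD : 1 ≤ D) (hk : 1 ≤ k)
    (h1 : k * l ≤ 2 * (C0 * (1 + a + n))) (h2 : 1 + a + n ≤ C0 * (k + 1 + 1) ^ D) :
    l ^ D ≤ C0 * (6 * C0) ^ D * (n + 1) ^ (D - 1) * (a + 1) ^ (D - 1) := by
  have h3 : (k + 1 + 1) ^ D ≤ (3 * k) ^ D := Nat.pow_le_pow_left (by omega) D
  have h4 : (1 + a + n) * l ^ D ≤ C0 * (3 * (k * l)) ^ D := by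
    calc (1 + a + n) * l ^ D ≤ (C0 * (k + 1 + 1) ^ D) * l ^ D := Nat.mul_le_mul_right _ h2
      _ ≤ (C0 * (3 * k) ^ D) * l ^ D := Nat.mul_le_mul_right _ (Nat.mul_le_mul_left _ h3)
      _ = C0 * (3 * (k * l)) ^ D := by rw [mul_assoc, ← mul_pow, mul_assoc 3]
  have h5 : (3 * (k * l)) ^ D ≤ (6 * C0 * (1 + a + n)) ^ D :=
    Nat.pow_le_pow_left (by nlinarith) D
  have h6 : (1 + a + n) * l ^ D ≤ (1 + a + n) * (C0 * (6 * C0) ^ D * (1 + a + n) ^ (D - 1)) := by
    calc (1 + a + n) * l ^ D ≤ C0 * (6 * C0 * (1 + a + n)) ^ D :=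
        h4.trans (Nat.mul_le_mul_left _ h5)
      _ = (1 + a + n) * (C0 * (6 * C0) ^ D * (1 + a + n) ^ (D - 1)) := by
        obtain ⟨D', rfl⟩ : ∃ D', D = D' + 1 := ⟨D - 1, by omega⟩
        rw [mul_pow, Nat.add_sub_cancel, pow_succ (1 + a + n) D']
        ring
  have h7 : l ^ D ≤ C0 * (6 * C0) ^ D * (1 + a + n) ^ (D - 1) :=
    Nat.le_of_mul_le_mul_left h6 (by omega)
  have h8 : (1 + a + n) ^ (D - 1) ≤ ((n + 1) * (a + 1)) ^ (D - 1) :=
    Nat.pow_le_pow_left (by nlinarith) _
  calc l ^ D ≤ C0 * (6 * C0) ^ D * (1 + a + n) ^ (D - 1) := h7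
    _ ≤ C0 * (6 * C0) ^ D * ((n + 1) * (a + 1)) ^ (D - 1) := Nat.mul_le_mul_left _ h8
    _ = C0 * (6 * C0) ^ D * (n + 1) ^ (D - 1) * (a + 1) ^ (D - 1) := by
      rw [mul_pow (n + 1) (a + 1), ← mul_assoc]

theorem zero_runs (e N : ℕ) (N' M : ℕ) (R : Polynomial ℤ) (hN : N ≤ N') (hR : RB N' M R)
    (f : ℕ → ℤ) (hf : Fam e N f) : (∃ B, ∀ i, B ≤ i → ap R f i = 0) ∨
    ∃ C D : ℕ, 1 ≤ D ∧ ∀ a l : ℕ, (∀ i, a ≤ i → i < a + l → ap R f i = 0) →
      l ^ D ≤ C * (a + 1) ^ (D - 1) := by
  cases e with
  | zero => exact Or.inl ⟨N, F0 (XZ_anti hN hR) hf⟩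
  | succ e =>
    obtain ⟨F0, hF0, H0⟩ := HH e
    obtain ⟨F1, hF1, H1⟩ := ADVi e hF0
    obtain ⟨M0, hM0, hNM⟩ : ∃ M0, M ≤ M0 ∧ N ≤ M0 := ⟨max M N, le_max_left _ _, le_max_right _ _⟩
    have hR0 : RB N M0 R := XZ_mono hM0 (XZ_anti hN hR)
    obtain ⟨U, Y, hY, hU0, hU, hYne, hpre⟩ := hf
    set A : ℕ → List ℤ × ℤ := fun k =>
      gm (cmp (dl R (sfx R.natDegree (U k) ++ (Y k).take R.natDegree))) (cmp (dl R (Y k))) with hAdef
    have hadv : ∀ k, cmp (dl R (U (k + 1))) = gm (cmp (dl R (U k))) (A k) := fun k => adv_inc R hU k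
    have hEv : Ev (GP e) F1 M0 A :=
      H1 N M0 R hNM hR0 (fun Y' hY' => H0 N M0 R Y' hNM hR0 hY') U Y hY hU0 hU
    have hGP : GP e (F1 (F1 M0)) (fun k => A (k + F1 M0)) := hEv (F1 M0) le_rfl
    have hpos : ∀ k, 1 ≤ (Y k).length := fun k => List.length_pos_iff.mpr (hYne k)
    have hulen : ∀ k, (U (k + 1)).length = (U k).length + (Y k).length := by
      intro k
      rw [hU k, List.length_append]
    have hlen : ∀ k, k ≤ (U k).length := by
      intro k
      induction k with
      | zero => omega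
      | succ k ih =>
        have := hpos k
        have := hulen k
        omega
    have humono : Monotone (fun k => (U k).length) :=
      monotone_nat_of_le_succ (fun k => by
        have := hulen k
        show (U k).length ≤ (U (k + 1)).length
        omega)
    have hymono : Monotone (fun k => (Y k).length) :=
      monotone_nat_of_le_succ (fun k => P.len_mono hY k)
    have hdl : ∀ k, dl R (U k) = pref (ap R f) ((U k).length - R.natDegree) := fun k =>
      XZ_dl R f (U k) (hpre k)
    obtain ⟨_, _, hcase⟩ := hGP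
    rcases hcase with h1 | h2
    · left
      refine ⟨(U (F1 M0)).length, fun i hi => ?_⟩
      have hconst : ∀ k, (cmp (dl R (U (k + F1 M0)))).1 = (cmp (dl R (U (F1 M0)))).1 := by
        intro k
        induction k with
        | zero => simp
        | succ k ih =>
          have h3 : k + 1 + F1 M0 = (k + F1 M0) + 1 := by omega
          rw [h3, hadv, gm, if_pos (h1 k)]
          exact ih
      by_contra hne
      have hk := hconst (i + R.natDegree + 1)
      rw [hdl, hdl] at hk
      have hk2 := congrArg List.length hk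
      rw [cmp_length, cmp_length] at hk2
      have hc1 : XZ_cnt (ap R f) ((U (F1 M0)).length - R.natDegree) ≤ XZ_cnt (ap R f) i :=
        XZ_cnt_mono _ (by omega)
      have hc2 : XZ_cnt (ap R f) (i + 1) = XZ_cnt (ap R f) i + 1 := by
        rw [XZ_cnt_succ, if_neg hne]
      have hc3 : XZ_cnt (ap R f) (i + 1) ≤
          XZ_cnt (ap R f) ((U (i + R.natDegree + 1 + F1 M0)).length - R.natDegree) := by
        apply XZ_cnt_mono
        have := hlen (i + R.natDegree + 1 + F1 M0)
        omega
      unfold XZ_cnt at hc1 hc2 hc3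
      omega
    · right
      -- a nonzero place in every block
      have hplace : ∀ k, F1 M0 ≤ k → ∃ i, (U k).length - R.natDegree ≤ i ∧
          i < (U (k + 1)).length - R.natDegree ∧ ap R f i ≠ 0 := by
        intro k hk
        apply XZ_ex
        have h3 : (A (k - F1 M0 + F1 M0)).1 ≠ [] := h2 (k - F1 M0)
        have h3' : (A k).1 ≠ [] := by
          have h4 : k - F1 M0 + F1 M0 = k := by omega
          rw [h4] at h3
          exact h3
        have h5 : (cmp (dl R (U (k + 1)))).1 = (cmp (dl R (U k))).1 ++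
            addF (A k).1 (cmp (dl R (U k))).2 := by
          rw [hadv k, gm, if_neg h3']
        have h6 := congrArg List.length h5
        rw [List.length_append, addF_length, hdl, hdl, cmp_length, cmp_length] at h6
        have h7 : 0 < (A k).1.length := List.length_pos_iff.mpr h3'
        unfold XZ_cnt
        omega
      obtain ⟨N1, hN1⟩ := P.len_poly hY
      obtain ⟨C0, D, hD, hgr⟩ := growth (y := fun k => (Y k).length) (u := fun k => (U k).length)
        hN1 hpos hulen
      refine ⟨C0 * (6 * C0) ^ D * (R.natDegree + 1) ^ (D - 1) +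
        ((U (F1 M0 + 1 + 1)).length) ^ D, D, hD, fun a l hz => ?_⟩
      -- the next nonzero place
      have hnext : ∀ k, F1 M0 ≤ k → a + R.natDegree < (U k).length →
          a + l + R.natDegree < (U (k + 1)).length := by
        intro k hk hak
        obtain ⟨i, hi1, hi2, hi3⟩ := hplace k hk
        by_contra hcon
        exact hi3 (hz i (by omega) (by omega))
      have hone : 1 ≤ (a + 1) ^ (D - 1) := Nat.one_le_pow _ _ (by omega)
      rcases Nat.lt_or_ge (a + R.natDegree) (U (F1 M0 + 1)).length with hA | hB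
      · have h3 := hnext (F1 M0 + 1) (by omega) hA
        have h4 : l ^ D ≤ ((U (F1 M0 + 1 + 1)).length) ^ D := Nat.pow_le_pow_left (by omega) D
        rw [Nat.add_mul]
        calc l ^ D ≤ ((U (F1 M0 + 1 + 1)).length) ^ D := h4
          _ = ((U (F1 M0 + 1 + 1)).length) ^ D * 1 := (Nat.mul_one _).symm
          _ ≤ ((U (F1 M0 + 1 + 1)).length) ^ D * (a + 1) ^ (D - 1) := Nat.mul_le_mul_left _ hone
          _ ≤ _ := Nat.le_add_left _ _
      · -- the maximal block
        obtain ⟨k, hk1, hk2, hk3⟩ : ∃ k, F1 M0 + 1 ≤ k ∧ (U k).length ≤ a + R.natDegree ∧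
            a + R.natDegree < (U (k + 1)).length := by
          classical
          have hex : ∃ m, a + R.natDegree < (U m).length :=
            ⟨a + R.natDegree + 1, by have := hlen (a + R.natDegree + 1); omega⟩
          have hf1 := Nat.find_spec hex
          have hpos' : F1 M0 + 1 < Nat.find hex := by
            by_contra hcon
            have := humono (show Nat.find hex ≤ F1 M0 + 1 by omega)
            dsimp only at this
            omega
          have hf2 := Nat.find_min hex (m := Nat.find hex - 1) (by omega)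
          refine ⟨Nat.find hex - 1, by omega, by omega, ?_⟩
          rw [Nat.sub_add_cancel (by omega)]
          exact hf1
        have h3 := hnext (k + 1) (by omega) hk3
        have h4 := hulen k
        have h5 := hulen (k + 1)
        have h6 : (Y k).length ≤ (Y (k + 3)).length := hymono (by omega)
        have h7 : (Y (k + 1)).length ≤ (Y (k + 3)).length := hymono (by omega)
        have hl : l ≤ 2 * (Y (k + 3)).length := by omega
        obtain ⟨g1, _⟩ := hgr k
        obtain ⟨_, g2⟩ := hgr (k + 1)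
        have h8 : k * l ≤ 2 * (C0 * (1 + a + R.natDegree)) := by
          calc k * l ≤ k * (2 * (Y (k + 3)).length) := Nat.mul_le_mul_left _ hl
            _ = 2 * (k * (Y (k + 3)).length) := by ring
            _ ≤ 2 * (C0 * (1 + (U k).length)) := Nat.mul_le_mul_left _ g1
            _ ≤ 2 * (C0 * (1 + a + R.natDegree)) :=
              Nat.mul_le_mul_left _ (Nat.mul_le_mul_left _ (by omega))
        have h9 := XZ_arith hD (show 1 ≤ k by omega) h8 (by omega)
        rw [Nat.add_mul]
        exact h9.trans (Nat.le_add_right _ _)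

end AW
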