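import Pool.Agent.Lib.MP_dd05d9_lc.XF1
import Pool.Agent.Lib.MP_dd05d9_lc.XF2
import Pool.Agent.Lib.MP_dd05d9_lc.XQ
import Pool.Agent.Lib.MP_dd05d9_lc.XZ
import Pool.Agent.Lib.MP_dd05d9_lc.XB1
import Pool.Agent.Lib.MP_dd05d9_lc.XB4
import Pool.Agent.Lib.MP_dd05d9_lc.XR

/-!
`f` in Fam e N0, and `f` is the word of `(M, t, o)` with `not ULH M`.  Choose `R` with RBp N' M' R for `N' >= K` (QE for (e, N0)), `N' >= N0`.
Every bad reachable (s,q), every `m`: Zr R (wl m s q): if `wl m s q = []` trivial [dl of the empty list]; otherwise `V i := wl (m + i p) s q` (bad_dup), factors (fac_wl), QE with `i = 0`.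
zero_runs: if `ap R f` vanishes eventually: upp (f bounded: all values are entries of `cat`, `|.| <= N` by cat_size; every `i` is `< |cat m|` for some m [cat_len or IsPre and growth]).
Otherwise `C, D`.  exists_bad: (s0,q0) reachable by `z`, bad, `p`; for some `m0` `wl m0 s0 q0 <> []` (Coa, wl_ne); `b m := |wl m start 0|`; `b (|z| + m0 + i p) >= |wl (m0 + i p) s0 q0| >= 2^i` (wl_infix, dup_length).
arith_contra (h2): `m` with `c (m+1)^c < b m`: pieces: by infix_flat-like pigeonhole: the longest piece has length `l0` with `b m <= L.length * l0 <= c (m+1)^c l0`, so `l0 >= 2`, so it is a `wl j s q` with (s,q) bad: `Zr R`, it is a factor of `f` at a place `a <= |cat (m+1)| = sum_{j<=m} b j`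
(infix of `wl m start 0`, which is at the end of cat (m+1)).  With `l = l0 - n` zero values of `ap R f` from `a` on: `l^D <= C (a+1)^(D-1)`.  Since arith_contra wants `b m <= c' (m+1)^c' * l`: if `l0 <= 2 n + 1` then `b m <= c (m+1)^c (2n+1)`, excluded by taking `c'` larger;
otherwise `l0 <= 2 l`.  So use `c' = c * (2 n + 2) * 2 + c + ...`.
-/

set_option autoImplicit false

namespace AW

private theorem XF_mem {k : ℕ} {σ : Type} {M : DFA (Fin k) σ} {t o : List ℕ} {N : ℕ}
    (ho : SN N o) (m : ℕ) (s : σ) (q : ℕ) : ∀ x ∈ wl M t o m s q, |x| ≤ (N : ℤ) := by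
  induction m generalizing s q with
  | zero =>
    unfold wl
    by_cases h : s ∈ M.accept
    · rw [if_pos h]
      intro x hx
      rw [List.mem_singleton] at hx
      subst hx
      have h1 : o.getD q 0 ≤ N := by
        rcases Nat.lt_or_ge q o.length with hq | hq
        · rw [List.getD_eq_getElem _ _ hq]
          exact ho.2 _ (List.getElem_mem hq)
        · rw [List.getD_eq_default _ _ hq]
          exact Nat.zero_le _
      rw [abs_of_nonneg (Int.natCast_nonneg _)]
      exact_mod_cast h1
    · rw [if_neg h]
      intro x hx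
      exact absurd hx List.not_mem_nil
  | succ m ih =>
    intro x hx
    change x ∈ (List.finRange k).flatMap (fun a => wl M t o m (M.step s a) (tst k t q a.val)) at hx
    rw [List.mem_flatMap] at hx
    obtain ⟨a, _, ha⟩ := hx
    exact ih _ _ x ha

private theorem XF_cat_mem {k : ℕ} {σ : Type} {M : DFA (Fin k) σ} {t o : List ℕ} {N : ℕ}
    (ho : SN N o) (m : ℕ) : ∀ x ∈ cat M t o m, |x| ≤ (N : ℤ) := by
  intro x hx
  unfold cat at hx
  rw [List.mem_flatMap] at hx
  obtain ⟨j, _, hj⟩ := hx
  exact XF_mem ho j M.start 0 x hj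

private theorem XF_cat_length {k : ℕ} {σ : Type} (M : DFA (Fin k) σ) (t o : List ℕ) (m : ℕ) :
    (cat M t o m).length = ∑ j ∈ Finset.range m, (wl M t o j M.start 0).length := by
  induction m with
  | zero => rfl
  | succ m ih => rw [cat_succ, List.length_append, ih, Finset.sum_range_succ]

private theorem XF_getD {l : List ℤ} {f : ℕ → ℤ} (h : IsPre l f) {j : ℕ} (hj : j < l.length) :
    l.getD j 0 = f j := by
  have h1 : l.getD j 0 = ((List.range l.length).map f).getD j 0 :=
    congrArg (fun x : List ℤ => x.getD j 0) h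
  rw [h1, List.getD_eq_getElem _ _ (by rw [List.length_map, List.length_range]; exact hj),
    List.getElem_map, List.getElem_range]

private theorem XF_fac {k : ℕ} {σ : Type} {M : DFA (Fin k) σ} {t o : List ℕ} {f : ℕ → ℤ}
    (hf : ∀ m, IsPre (cat M t o m) f) {m : ℕ} {l : List ℤ} (h : l <:+: wl M t o m M.start 0) :
    ∃ a, FacA a l f ∧ a ≤ ∑ j ∈ Finset.range (m + 1), (wl M t o j M.start 0).length := by
  obtain ⟨x, y, hxy⟩ := h
  refine ⟨(cat M t o m).length + x.length, ?_, ?_⟩
  · intro i hi
    have h1 : cat M t o (m + 1) = cat M t o m ++ (x ++ (l ++ y)) := by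
      rw [cat_succ, ← hxy, List.append_assoc]
    have hlen : (cat M t o (m + 1)).length =
        (cat M t o m).length + (x.length + (l.length + y.length)) := by
      rw [h1, List.length_append, List.length_append, List.length_append]
    rw [← XF_getD (hf (m + 1)) (by omega), h1, List.getD_append_right _ _ _ _ (by omega),
      List.getD_append_right _ _ _ _ (by omega), List.getD_append _ _ _ _ (by omega)]
    congr 1
    omega
  · rw [← XF_cat_length, cat_succ, ← hxy, List.length_append, List.length_append,
      List.length_append]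
    omega

private theorem XF_pigeon (L : List (List ℤ)) (hL : L ≠ []) :
    ∃ l ∈ L, L.flatten.length ≤ L.length * l.length := by
  induction L with
  | nil => exact absurd rfl hL
  | cons l L ih =>
    by_cases h0 : L = []
    · subst h0
      exact ⟨l, List.mem_cons_self, by simp⟩
    · obtain ⟨l', hl', h⟩ := ih h0
      rw [List.flatten_cons, List.length_append, List.length_cons]
      rcases Nat.le_total l.length l'.length with h1 | h1
      · refine ⟨l', List.mem_cons_of_mem _ hl', ?_⟩
        rw [Nat.succ_mul]
        omega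
      · refine ⟨l, List.mem_cons_self, ?_⟩
        have h2 := Nat.mul_le_mul_left L.length h1
        rw [Nat.succ_mul]
        omega

private theorem XF_infix_flatten {L : List (List ℤ)} {l : List ℤ} (h : l ∈ L) :
    l <:+: L.flatten := by
  obtain ⟨L1, L2, rfl⟩ := List.append_of_mem h
  refine ⟨L1.flatten, L2.flatten, ?_⟩
  rw [List.flatten_append, List.flatten_cons, List.append_assoc]

theorem COB {k : ℕ} {σ : Type} [Fintype σ] {M : DFA (Fin k) σ} (hM : ¬ ULH M)
    (hinf : {w : List (Fin k) | w ∈ M.accepts}.Infinite) {N : ℕ} {t o : List ℕ}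
    (ht : SN N t) (ho : SN N o) {f : ℕ → ℤ} (hf : ∀ m, IsPre (cat M t o m) f) {e N0 : ℕ}
    (hF : Fam e N0 f) : ∃ a p : ℕ, 1 ≤ p ∧ ∀ i, a ≤ i → f (i + p) = f i := by
  obtain ⟨K, hK⟩ := QE e N0
  obtain ⟨M', R, _, _, hR⟩ := RBp_exists (K + N0) 0
  have hkill : ∀ (s : σ) (q m : ℕ), RchP M t s q → Bad M t s q → Zr R (wl M t o m s q) := by
    intro s q m hr hb
    by_cases h0 : wl M t o m s q = []
    · rw [h0]
      intro x hx
      unfold dl at hx
      rw [List.length_nil, Nat.zero_sub, List.range_zero, List.map_nil] at hx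
      exact absurd hx List.not_mem_nil
    · obtain ⟨p, _, hp⟩ := bad_dup (o := o) hb
      have h1 := hK (K + N0) M' R (Nat.le_add_right _ _) hR.1 f hF
        (fun i => wl M t o (m + i * p) s q) (fun i => fac_wl hr hf _) (fun i => by
          have h2 := hp (m + i * p)
          have h3 : m + (i + 1) * p = m + i * p + p := by ring
          show Dup (wl M t o (m + i * p) s q) (wl M t o (m + (i + 1) * p) s q)
          rw [h3]
          exact h2) (by
          show wl M t o (m + 0 * p) s q ≠ []
          rw [Nat.zero_mul, Nat.add_zero]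
          exact h0) 0
      have h4 : wl M t o (m + 0 * p) s q = wl M t o m s q := by rw [Nat.zero_mul, Nat.add_zero]
      rw [← h4]
      exact h1
  rcases zero_runs e N0 (K + N0) M' R (Nat.le_add_left _ _) hR.1 f hF with
    ⟨B, hB⟩ | ⟨C, D, hD, hz⟩
  · refine upp (G := N) (fun i => ?_) hR hB
    have hi := cat_len hinf t o i
    have h1 : f i ∈ cat M t o (Fintype.card σ * (i + 1)) := by
      rw [← XF_getD (hf (Fintype.card σ * (i + 1))) hi, List.getD_eq_getElem _ _ hi]
      exact List.getElem_mem hi
    exact XF_cat_mem ho _ _ h1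
  · exfalso
    obtain ⟨s0, q0, _, ⟨z, hz1, hz2⟩, hbad⟩ := exists_bad hM ht
    obtain ⟨p, _, hp⟩ := bad_dup (o := o) hbad
    obtain ⟨x0, hx0⟩ := hbad.1
    have hne : wl M t o x0.length s0 q0 ≠ [] := (wl_ne _ _ _).2 ⟨x0, rfl, hx0⟩
    have hgrow : ∀ i, 2 ^ i ≤ (wl M t o (x0.length + i * p) s0 q0).length := by
      intro i
      induction i with
      | zero =>
        rw [Nat.zero_mul, Nat.add_zero, pow_zero]
        exact List.length_pos_iff.2 hne
      | succ i ih =>
        have h1 := dup_length (hp (x0.length + i * p))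
        have h2 : x0.length + (i + 1) * p = x0.length + i * p + p := by ring
        rw [h2, pow_succ]
        omega
    obtain ⟨c, hc⟩ := pieces M ht o
    refine arith_contra (b := fun m => (wl M t o m M.start 0).length)
      (r := z.length + x0.length) (p := p) (c := c * (2 * R.natDegree + 3)) (C := C) (D := D) hD
      (fun i => ?_) (fun m hm => ?_)
    · refine (hgrow i).trans ?_
      have h1 := (wl_infix (o := o) hz1 hz2 (x0.length + i * p)).length_le
      rw [← Nat.add_assoc] at h1
      exact h1
    · obtain ⟨L, hL1, hL2, hL3⟩ := hc m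
      have hm' : c * (2 * R.natDegree + 3) * (m + 1) ^ (c * (2 * R.natDegree + 3)) <
          (wl M t o m M.start 0).length := hm
      have hLne : L ≠ [] := by
        rintro rfl
        rw [← hL1] at hm'
        exact absurd hm' (Nat.not_lt_zero _)
      obtain ⟨l, hl, hl2⟩ := XF_pigeon L hLne
      rw [hL1] at hl2
      set n := R.natDegree with hn
      set c' := c * (2 * n + 3) with hc'
      have hcc : c ≤ c' := by
        rw [hc']
        exact Nat.le_mul_of_pos_right _ (by omega)
      have hpow : (m + 1) ^ c ≤ (m + 1) ^ c' := Nat.pow_le_pow_right (Nat.succ_pos m) hcc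
      have hb : (wl M t o m M.start 0).length ≤ c * (m + 1) ^ c * l.length :=
        hl2.trans (Nat.mul_le_mul_right _ hL2)
      have hlong : 2 * n + 1 < l.length := by
        by_contra hcon
        rw [not_lt] at hcon
        have h1 : (wl M t o m M.start 0).length ≤ c' * (m + 1) ^ c' := by
          calc (wl M t o m M.start 0).length ≤ c * (m + 1) ^ c * l.length := hb
            _ ≤ c * (m + 1) ^ c * (2 * n + 3) := Nat.mul_le_mul_left _ (by omega)
            _ = c' * (m + 1) ^ c := by rw [hc']; ring
            _ ≤ c' * (m + 1) ^ c' := Nat.mul_le_mul_left _ hpow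
        omega
      have hZ : Zr R l := by
        rcases hL3 l hl with h1 | ⟨s, q, j, _, hr, hbd, hlj⟩
        · omega
        · rw [hlj]
          exact hkill s q j hr hbd
      have hinfx : l <:+: wl M t o m M.start 0 := by
        rw [← hL1]
        exact XF_infix_flatten hl
      obtain ⟨a, ha1, ha2⟩ := XF_fac hf hinfx
      refine ⟨a, l.length - n, ?_, ha2, ?_⟩
      · calc (wl M t o m M.start 0).length ≤ c * (m + 1) ^ c * l.length := hb
          _ ≤ c * (m + 1) ^ c * ((2 * n + 3) * (l.length - n)) := by
              apply Nat.mul_le_mul_left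
              have h1 : 2 * (l.length - n) ≤ (2 * n + 3) * (l.length - n) :=
                Nat.mul_le_mul_right _ (by omega)
              omega
          _ = c' * (m + 1) ^ c * (l.length - n) := by rw [hc']; ring
          _ ≤ c' * (m + 1) ^ c' * (l.length - n) :=
              Nat.mul_le_mul_right _ (Nat.mul_le_mul_left _ hpow)
      · apply hz
        intro i hi1 hi2
        have h1 := fac_dl (R := R) ha1
        have hlen : (dl R l).length = l.length - n := dl_length R l
        have h2 := h1 (i - a) (by omega)
        have h3 : a + (i - a) = i := by omega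
        rw [h3] at h2
        rw [← h2, List.getD_eq_getElem _ _ (by omega)]
        exact hZ _ (List.getElem_mem _)

end AW
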