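import Pool.Agent.Lib.MP_dd05d9_lc.RE1
import Pool.Agent.Lib.MP_dd05d9_lc.TA
import Pool.Agent.Lib.MP_dd05d9_lc.AUT
import Pool.Agent.Lib.MP_dd05d9_lc.XF

/-!
Second wave, final assembly: one of the two languages has polynomial growth, the other is arbitrary.
-/

set_option autoImplicit false

namespace AW

/-- the word of a pair of tables is unique -/
theorem word_unique {k : ℕ} {σ : Type} [Fintype σ] {M : DFA (Fin k) σ}
    (hinf : {w : List (Fin k) | w ∈ M.accepts}.Infinite) {t o : List ℕ} {f g : ℕ → ℤ}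
    (hf : ∀ m, IsPre (cat M t o m) f) (hg : ∀ m, IsPre (cat M t o m) g) : f = g := by
  funext i
  have hl := cat_len hinf t o i
  rw [← (hf _).getD hl, (hg _).getD hl]

/-- a word which is automatic in a system of polynomial growth and in a system of exponential growth is
ultimately periodic -/
theorem cob_pg {k1 k2 : ℕ} {σ1 σ2 : Type} [Fintype σ1] [Fintype σ2] (M1 : DFA (Fin k1) σ1)
    (M2 : DFA (Fin k2) σ2) (hU : ULH M1) (hM : ¬ ULH M2)
    (h1 : {w : List (Fin k1) | w ∈ M1.accepts}.Infinite)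
    (h2 : {w : List (Fin k2) | w ∈ M2.accepts}.Infinite)
    (t1 o1 t2 o2 : List ℕ) (f : ℕ → ℤ) (hf1 : ∀ m, IsPre (cat M1 t1 o1 m) f)
    (hf2 : ∀ m, IsPre (cat M2 t2 o2 m) f) : ∃ a p, ∀ i, a ≤ i → f (i + (p + 1)) = f i := by
  obtain ⟨F, _, hF⟩ := aut_u M1 hU h1
  obtain ⟨f', hfam, hf'⟩ := hF (szN t1 + szN o1) t1 o1 (SN_szN (Nat.le_add_right _ _))
    (SN_szN (Nat.le_add_left _ _))
  have he : f' = f := word_unique h1 hf' hf1
  subst he
  obtain ⟨a, p, hp, h⟩ := COB hM h2 (N := szN t2 + szN o2) (SN_szN (Nat.le_add_right _ _))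
    (SN_szN (Nat.le_add_left _ _)) hf2 hfam
  refine ⟨a, p - 1, fun i hi => ?_⟩
  have hp1 : p - 1 + 1 = p := by omega
  rw [hp1]
  exact h i hi

/-- the predicate of the problem -/
def PRD {k1 k2 : ℕ} (L1 : Language (Fin k1)) (L2 : Language (Fin k2)) (p : Inp) : Prop :=
  ∀ w1 ∈ L1, ∀ w2 ∈ L2,
    Set.ncard {v : List (Fin k1) | v ∈ L1 ∧
        (v.length < w1.length ∨ (v.length = w1.length ∧ List.Lex (· < ·) v w1))} =
      Set.ncard {v : List (Fin k2) | v ∈ L2 ∧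
        (v.length < w2.length ∨ (v.length = w2.length ∧ List.Lex (· < ·) v w2))} →
    p.1.2.getD (List.foldl (fun q a => p.1.1.getD (q * k1 + a.val) 0) 0 w1) 0 =
      p.2.2.getD (List.foldl (fun q a => p.2.1.getD (q * k2 + a.val) 0) 0 w2) 0

theorem PRD_swap {k1 k2 : ℕ} {L1 : Language (Fin k1)} {L2 : Language (Fin k2)}
    (h : ComputablePred (PRD L1 L2)) : ComputablePred (PRD L2 L1) := by
  obtain ⟨inst, hd⟩ := h
  have e : ∀ p : Inp, PRD L1 L2 p.swap ↔ PRD L2 L1 p := by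
    intro p
    unfold PRD
    exact ⟨fun h w2 h2 w1 h1 e => (h w1 h1 w2 h2 e.symm).symm,
      fun h w1 h1 w2 h2 e => (h w2 h2 w1 h1 e.symm).symm⟩
  refine ⟨fun p => decidable_of_iff _ (e p), ?_⟩
  have hs : Computable (fun p : Inp => p.swap) :=
    (Primrec.snd.pair Primrec.fst).to_comp
  refine (hd.comp hs).of_eq ?_
  intro p
  simp only [decide_eq_decide]
  exact e p

theorem fin2 {k1 k2 : ℕ} {σ1 σ2 : Type} [Fintype σ1] [Fintype σ2]
    (M1 : DFA (Fin k1) σ1) (M2 : DFA (Fin k2) σ2)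
    (h1 : {w : List (Fin k1) | w ∈ M1.accepts}.Infinite)
    (h2 : {w : List (Fin k2) | w ∈ M2.accepts}.Infinite) (hPG : PG M1.accepts) :
    ComputablePred (PRD M1.accepts M2.accepts) := by
  by_cases hU : ULH M2
  · exact fin_core TA M1 M2 h1 h2 (aut M1 hPG h1) (aut_u M2 hU h2)
  · exact re_core M1 M2 h1 h2 (cob_pg M1 M2 (ULH_of_PG hPG) hU h1 h2)

/-- one of the two languages has polynomial growth -/
theorem fin_or {k1 k2 : ℕ} {σ1 σ2 : Type} [Fintype σ1] [Fintype σ2]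
    (M1 : DFA (Fin k1) σ1) (M2 : DFA (Fin k2) σ2)
    (h1 : {w : List (Fin k1) | w ∈ M1.accepts}.Infinite)
    (h2 : {w : List (Fin k2) | w ∈ M2.accepts}.Infinite)
    (hPG : PG M1.accepts ∨ PG M2.accepts) :
    ComputablePred (PRD M1.accepts M2.accepts) := by
  rcases hPG with h | h
  · exact fin2 M1 M2 h1 h2 h
  · exact PRD_swap (fin2 M2 M1 h2 h1 h)

end AW
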