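import Pool.Agent.Lib.MP_dd05d9_lc.CP
import Pool.Agent.Lib.MP_dd05d9_lc.PMa
import Pool.Agent.Lib.MP_dd05d9_lc.Pb1

/-!
Assembly: from the main theorem of part A (`TA`) and the theorem on automata (`aut`) to `ComputablePred`.
Both are hypotheses here.
-/

set_option autoImplicit false

namespace AW

theorem Fam.mono {e N M : ℕ} {f : ℕ → ℤ} (h : N ≤ M) (hf : Fam e N f) : Fam e M f := by
  obtain ⟨U, Y, h1, h2, h3⟩ := hf
  exact ⟨U, Y, P.mono h h1, SB.mono h h2, h3⟩

theorem Fam.upn {e N : ℕ} {f : ℕ → ℤ} (hf : Fam e N f) (d : ℕ) : Fam (e + d) (N + d) f := by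
  obtain ⟨U, Y, h1, h2, h3⟩ := hf
  exact ⟨U, Y, P.upn h1 d, SB.mono (Nat.le_add_right _ _) h2, h3⟩

theorem IsPre.getD {l : List ℤ} {f : ℕ → ℤ} (h : IsPre l f) {i : ℕ} (hi : i < l.length) :
    l.getD i 0 = f i := by
  unfold IsPre at h
  rw [h, List.getD_eq_getElem _ _ (by simpa using hi)]
  simp

/-- the two words are equal iff the predicate of S15477 holds -/
theorem pred_iff {k1 k2 : ℕ} {σ1 σ2 : Type} [Fintype σ1] [Fintype σ2] (M1 : DFA (Fin k1) σ1)
    (M2 : DFA (Fin k2) σ2) (h1 : Set.Infinite {w : List (Fin k1) | w ∈ M1.accepts})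
    (h2 : Set.Infinite {w : List (Fin k2) | w ∈ M2.accepts}) (t1 o1 t2 o2 : List ℕ)
    (f1 f2 : ℕ → ℤ) (hf1 : ∀ m, IsPre (cat M1 t1 o1 m) f1) (hf2 : ∀ m, IsPre (cat M2 t2 o2 m) f2) :
    (∀ w1 ∈ M1.accepts, ∀ w2 ∈ M2.accepts,
      Set.ncard {v : List (Fin k1) | v ∈ M1.accepts ∧
          (v.length < w1.length ∨ (v.length = w1.length ∧ List.Lex (· < ·) v w1))} =
        Set.ncard {v : List (Fin k2) | v ∈ M2.accepts ∧
          (v.length < w2.length ∨ (v.length = w2.length ∧ List.Lex (· < ·) v w2))} →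
      o1.getD (List.foldl (fun q a => t1.getD (q * k1 + a.val) 0) 0 w1) 0 =
        o2.getD (List.foldl (fun q a => t2.getD (q * k2 + a.val) 0) 0 w2) 0) ↔ f1 = f2 := by
  constructor
  · intro h
    funext i
    have l1 := cat_len h1 t1 o1 i
    have l2 := cat_len h2 t2 o2 i
    obtain ⟨w1, hw1, hm1, r1⟩ := exists_rank M1 t1 o1 _ i l1
    obtain ⟨w2, hw2, hm2, r2⟩ := exists_rank M2 t2 o2 _ i l2
    have e := h w1 hw1 w2 hw2 (r1.trans r2.symm)
    have g1 := (rank_cat M1 t1 o1 _ w1 hw1 hm1).2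
    have g2 := (rank_cat M2 t2 o2 _ w2 hw2 hm2).2
    rw [r1, (hf1 _).getD l1] at g1
    rw [r2, (hf2 _).getD l2] at g2
    rw [g1, g2]
    exact congrArg (fun x : ℕ => (x : ℤ)) e
  · intro h w1 hw1 w2 hw2 hr
    obtain ⟨a1, b1⟩ := rank_cat M1 t1 o1 (w1.length + 1) w1 hw1 (Nat.lt_succ_self _)
    obtain ⟨a2, b2⟩ := rank_cat M2 t2 o2 (w2.length + 1) w2 hw2 (Nat.lt_succ_self _)
    rw [(hf1 _).getD a1] at b1
    rw [(hf2 _).getD a2] at b2
    rw [← hr, ← h, b1] at b2
    exact_mod_cast b2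

/-- the theorem on automata for `M` -/
def AutSt {k : ℕ} {σ : Type} [Fintype σ] (M : DFA (Fin k) σ) : Prop :=
  ∃ F : ℕ → ℕ, PM F ∧ ∀ (N : ℕ) (t o : List ℕ), SN N t → SN N o →
    ∃ f : ℕ → ℤ, Fam (Fintype.card σ) (F N) f ∧ ∀ m, IsPre (cat M t o m) f

/-- the main theorem of part A at level `e` -/
def TASt (e : ℕ) : Prop :=
  ∃ F : ℕ → ℕ, PM F ∧ ∀ (N : ℕ) (f f' : ℕ → ℤ), Fam e N f → Fam e N f' →
    (∀ i < F N, f i = f' i) → f = f'

theorem range_map_eq {a b : ℕ → ℕ} {K : ℕ} :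
    ((List.range K).map a = (List.range K).map b) ↔ ∀ i < K, a i = b i := by
  rw [List.map_inj_left]
  simp only [List.mem_range]

/-- what is computed: equality of the two lists on the first `K` places -/
theorem list_primrec {k : ℕ} {σ : Type} [Fintype σ] (M : DFA (Fin k) σ)
    {K : (List ℕ × List ℕ) × (List ℕ × List ℕ) → ℕ} (hK : Primrec K)
    {u : (List ℕ × List ℕ) × (List ℕ × List ℕ) → List ℕ × List ℕ} (hu : Primrec u) :
    Primrec (fun p : (List ℕ × List ℕ) × (List ℕ × List ℕ) => (List.range (K p)).map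
      (fun i => (catN M (u p).1 (u p).2 (Fintype.card σ * (K p + 1))).getD i 0)) := by
  refine Primrec.list_map (f := fun p : (List ℕ × List ℕ) × (List ℕ × List ℕ) => List.range (K p))
    (g := fun p i => (catN M (u p).1 (u p).2 (Fintype.card σ * (K p + 1))).getD i 0)
    (Primrec.list_range.comp hK) ?_
  have h1 : Primrec (fun p : (List ℕ × List ℕ) × (List ℕ × List ℕ) =>
      catN M (u p).1 (u p).2 (Fintype.card σ * (K p + 1))) :=
    (catN_primrec M).comp (hu.pair (Primrec.nat_mul.comp (Primrec.const _) (Primrec.succ.comp hK)))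
  exact (Primrec.list_getD 0).comp (h1.comp Primrec.fst) Primrec.snd

theorem getD_catN {k : ℕ} {σ : Type} (M : DFA (Fin k) σ) (t o : List ℕ) (m i : ℕ) :
    (((catN M t o m).getD i 0 : ℕ) : ℤ) = (cat M t o m).getD i 0 := by
  rw [← catN_map]
  rcases Nat.lt_or_ge i (catN M t o m).length with h | h
  · rw [List.getD_eq_getElem _ _ h, List.getD_eq_getElem _ _ (by rw [List.length_map]; exact h),
      List.getElem_map]
  · rw [List.getD_eq_default _ _ h, List.getD_eq_default _ _ (by rw [List.length_map]; exact h)]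
    rfl

theorem fin_core (hTA : ∀ e, TASt e) {k1 k2 : ℕ} {σ1 σ2 : Type} [Fintype σ1] [Fintype σ2]
    (M1 : DFA (Fin k1) σ1) (M2 : DFA (Fin k2) σ2)
    (h1 : Set.Infinite {w : List (Fin k1) | w ∈ M1.accepts})
    (h2 : Set.Infinite {w : List (Fin k2) | w ∈ M2.accepts})
    (a1 : AutSt M1) (a2 : AutSt M2) :
    ComputablePred (fun (p : (List ℕ × List ℕ) × (List ℕ × List ℕ)) =>
      ∀ w1 ∈ M1.accepts, ∀ w2 ∈ M2.accepts,
        Set.ncard {v : List (Fin k1) | v ∈ M1.accepts ∧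
            (v.length < w1.length ∨ (v.length = w1.length ∧ List.Lex (· < ·) v w1))} =
          Set.ncard {v : List (Fin k2) | v ∈ M2.accepts ∧
            (v.length < w2.length ∨ (v.length = w2.length ∧ List.Lex (· < ·) v w2))} →
        p.1.2.getD (List.foldl (fun q a => p.1.1.getD (q * k1 + a.val) 0) 0 w1) 0 =
          p.2.2.getD (List.foldl (fun q a => p.2.1.getD (q * k2 + a.val) 0) 0 w2) 0) := by
  classical
  obtain ⟨F1, hF1, A1⟩ := a1
  obtain ⟨F2, hF2, A2⟩ := a2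
  obtain ⟨FT, hFT, T⟩ := hTA (Fintype.card σ1 + Fintype.card σ2)
  have hG : PM (fun n => Nat.max (F1 n + Fintype.card σ2) (F2 n + Fintype.card σ1)) :=
    PM.max (hF1.addc _) (hF2.addc _)
  have hH : PM (fun n => FT (Nat.max (F1 n + Fintype.card σ2) (F2 n + Fintype.card σ1))) :=
    PM.comp hFT hG
  -- the size of the input
  let S : (List ℕ × List ℕ) × (List ℕ × List ℕ) → ℕ :=
    fun p => szN p.1.1 + szN p.1.2 + (szN p.2.1 + szN p.2.2)
  have hS : Primrec S := Primrec.nat_add.comp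
    (Primrec.nat_add.comp (szN_primrec.comp (Primrec.fst.comp Primrec.fst))
      (szN_primrec.comp (Primrec.snd.comp Primrec.fst)))
    (Primrec.nat_add.comp (szN_primrec.comp (Primrec.fst.comp Primrec.snd))
      (szN_primrec.comp (Primrec.snd.comp Primrec.snd)))
  let K : (List ℕ × List ℕ) × (List ℕ × List ℕ) → ℕ :=
    fun p => FT (Nat.max (F1 (S p) + Fintype.card σ2) (F2 (S p) + Fintype.card σ1))
  have hK : Primrec K := hH.1.comp hS
  have L1 := list_primrec M1 hK (u := fun p => p.1) Primrec.fst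
  have L2 := list_primrec M2 hK (u := fun p => p.2) Primrec.snd
  have hP : PrimrecPred (fun p : (List ℕ × List ℕ) × (List ℕ × List ℕ) =>
      (List.range (K p)).map
        (fun i => (catN M1 p.1.1 p.1.2 (Fintype.card σ1 * (K p + 1))).getD i 0) =
      (List.range (K p)).map
        (fun i => (catN M2 p.2.1 p.2.2 (Fintype.card σ2 * (K p + 1))).getD i 0)) :=
    Primrec.eq.comp L1 L2
  obtain ⟨inst, hd⟩ := PrimrecPred.of_eq hP (q := fun (p : (List ℕ × List ℕ) × (List ℕ × List ℕ)) =>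
      ∀ w1 ∈ M1.accepts, ∀ w2 ∈ M2.accepts,
        Set.ncard {v : List (Fin k1) | v ∈ M1.accepts ∧
            (v.length < w1.length ∨ (v.length = w1.length ∧ List.Lex (· < ·) v w1))} =
          Set.ncard {v : List (Fin k2) | v ∈ M2.accepts ∧
            (v.length < w2.length ∨ (v.length = w2.length ∧ List.Lex (· < ·) v w2))} →
        p.1.2.getD (List.foldl (fun q a => p.1.1.getD (q * k1 + a.val) 0) 0 w1) 0 =
          p.2.2.getD (List.foldl (fun q a => p.2.1.getD (q * k2 + a.val) 0) 0 w2) 0) (by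
    intro p
    obtain ⟨f1, g1, q1⟩ := A1 (S p) p.1.1 p.1.2
      (SN_szN (by change szN p.1.1 ≤ szN p.1.1 + szN p.1.2 + (szN p.2.1 + szN p.2.2); omega))
      (SN_szN (by change szN p.1.2 ≤ szN p.1.1 + szN p.1.2 + (szN p.2.1 + szN p.2.2); omega))
    obtain ⟨f2, g2, q2⟩ := A2 (S p) p.2.1 p.2.2
      (SN_szN (by change szN p.2.1 ≤ szN p.1.1 + szN p.1.2 + (szN p.2.1 + szN p.2.2); omega))
      (SN_szN (by change szN p.2.2 ≤ szN p.1.1 + szN p.1.2 + (szN p.2.1 + szN p.2.2); omega))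
    rw [pred_iff M1 M2 h1 h2 p.1.1 p.1.2 p.2.1 p.2.2 f1 f2 q1 q2, range_map_eq]
    have g1' : Fam (Fintype.card σ1 + Fintype.card σ2)
        (Nat.max (F1 (S p) + Fintype.card σ2) (F2 (S p) + Fintype.card σ1)) f1 :=
      (g1.upn (Fintype.card σ2)).mono (Nat.le_max_left _ _)
    have g2' : Fam (Fintype.card σ1 + Fintype.card σ2)
        (Nat.max (F1 (S p) + Fintype.card σ2) (F2 (S p) + Fintype.card σ1)) f2 := by
      have := g2.upn (Fintype.card σ1)
      rw [add_comm (Fintype.card σ2) (Fintype.card σ1)] at this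
      exact this.mono (Nat.le_max_right _ _)
    have len1 : ∀ i < K p, i < (cat M1 p.1.1 p.1.2 (Fintype.card σ1 * (K p + 1))).length :=
      fun i hi => lt_of_le_of_lt hi.le (cat_len h1 p.1.1 p.1.2 (K p))
    have len2 : ∀ i < K p, i < (cat M2 p.2.1 p.2.2 (Fintype.card σ2 * (K p + 1))).length :=
      fun i hi => lt_of_le_of_lt hi.le (cat_len h2 p.2.1 p.2.2 (K p))
    constructor
    · intro h
      refine T _ f1 f2 g1' g2' ?_
      intro i hi
      have e1 := getD_catN M1 p.1.1 p.1.2 (Fintype.card σ1 * (K p + 1)) i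
      have e2 := getD_catN M2 p.2.1 p.2.2 (Fintype.card σ2 * (K p + 1)) i
      rw [(q1 _).getD (len1 i hi)] at e1
      rw [(q2 _).getD (len2 i hi)] at e2
      rw [← e1, ← e2, h i hi]
    · intro h i hi
      have e1 := getD_catN M1 p.1.1 p.1.2 (Fintype.card σ1 * (K p + 1)) i
      have e2 := getD_catN M2 p.2.1 p.2.2 (Fintype.card σ2 * (K p + 1)) i
      rw [(q1 _).getD (len1 i hi)] at e1
      rw [(q2 _).getD (len2 i hi), ← h, ← e1] at e2
      exact_mod_cast e2.symm)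
  exact ⟨inst, hd.to_comp⟩

end AW
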