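import Pool.Agent.Lib.MP_dd05d9_lc.GI

/-!
`G (k+1) = gm (A k) (G k)`, `A` in GP e N.
Case `(A k).1 = []` for all k: if `(G 0).1 = []`: `(G k).1 = []` for all k and `(G (k+1)).2 = (A k).2 + (G k).2` (PB.sum).  Otherwise `(G k).1 <> []`:
  `(G (k+1)).1 = addF (G k).1 (A k).2`, so `(G k).1 = addF (G 0).1 (s k)`, `s (k+1) = s k + (A k).2`, `s 0 = 0`: fixed shape; `(G k).2` constant.
Case `(A k).1 <> []` for all k: from time 1 on `(G k).1 <> []`; put `T k := addF (G k).1 (A k).2` (`k >= 1`); `(G (k+1)).1 = (A k).1 ++ T k`, so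
  `T (k+1) = addF (A k).1 (A (k+1)).2 ++ T k` (addF_append): P.addF, P.dec after a shift; then `(G (k+1)).1 = (A k).1 ++ T k`: P.append (P.up).
  `(G k).2 = (G 1).2` constant for `k >= 1`.   Sizes: gm_iter.   Finish with Ev_of_GP.
dec0: as the first case with `A k = ([], l)`.
-/

set_option autoImplicit false

namespace AW

private theorem GD_addF_SB {N M : ℕ} {l : List ℤ} {b : ℤ} (h : SB N l) (hb : |b| ≤ (M : ℤ)) :
    SB (N + M) (addF l b) := by
  refine ⟨by rw [addF_length]; exact h.1.trans (Nat.le_add_right _ _), ?_⟩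
  have hM : (0 : ℤ) ≤ M := by positivity
  intro x hx
  push_cast
  cases l with
  | nil => simp [addF] at hx
  | cons y t =>
    simp only [addF, List.mem_cons] at hx
    rcases hx with hx | hx
    · rw [hx]
      have := h.2 y (by simp)
      exact (abs_add_le _ _).trans (by linarith)
    · have := h.2 x (by simp [hx])
      linarith

/-- the first case -/
private theorem GD_case1 (e : ℕ) {N M : ℕ} {G : ℕ → List ℤ × ℤ} {a : ℕ → ℤ} (ha : PB M a)
    (h0 : SB N (G 0).1) (h1 : |(G 0).2| ≤ (N : ℤ)) (hG : ∀ k, G (k + 1) = gm ([], a k) (G k)) :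
    GP e (2 * N + M + 5) G := by
  by_cases h : (G 0).1 = []
  · have hn : ∀ k, (G k).1 = [] := by
      intro k
      induction k with
      | zero => exact h
      | succ k ih => rw [hG k]; simp [gm, ih]
    have hs : ∀ k, (G (k + 1)).2 = (G k).2 + a k := by
      intro k
      rw [hG k]
      simp [gm, hn k, add_comm]
    refine ⟨?_, ?_, Or.inl hn⟩
    · have : (fun k => (G k).1) = fun _ => [] := funext hn
      rw [this]
      exact P.nil _ _
    · have hNM : |(G 0).2| ≤ ((N + M : ℕ) : ℤ) := by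
        push_cast
        have : (0 : ℤ) ≤ M := by positivity
        linarith
      exact PB.mono (by omega) (PB.sum (s := fun k => (G k).2) (PB.mono (Nat.le_add_left M N) ha)
        hNM hs)
  · obtain ⟨x, t, hxt⟩ : ∃ x t, (G 0).1 = x :: t := List.exists_cons_of_ne_nil h
    have key : ∀ k, (G k).1 = [x + ∑ i ∈ Finset.range k, a i] ++ t ∧ (G k).2 = (G 0).2 := by
      intro k
      induction k with
      | zero => simp [hxt]
      | succ k ih =>
        rw [hG k]
        refine ⟨?_, ?_⟩
        · simp only [gm, ih.1]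
          simp [addF, Finset.sum_range_succ, add_assoc]
        · simp [gm, ih.1, ih.2]
    have hx : |x| ≤ (N : ℤ) := h0.2 x (by simp [hxt])
    have ht : SB N t := ⟨by have := h0.1; rw [hxt] at this; simp at this; omega,
      fun y hy => h0.2 y (by simp [hxt, hy])⟩
    have hsum : PB (M + 1) (fun k => ∑ i ∈ Finset.range k, a i) := by
      refine PB.sum ha ?_ ?_
      · simp
      · intro k; exact Finset.sum_range_succ a k
    refine ⟨?_, ?_, Or.inr fun k => ?_⟩
    · have : (fun k => (G k).1) = fun k => [x + ∑ i ∈ Finset.range k, a i] ++ t :=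
        funext fun k => (key k).1
      rw [this]
      exact P.mono (by omega) (P.ofFS (e := e)
        (FS.append (FS.single (PB.add (PB.const hx) hsum)) (FS.const ht)))
    · have : (fun k => (G k).2) = fun _ => (G 0).2 := funext fun k => (key k).2
      rw [this]
      exact PB.mono (by omega) (PB.const h1)
    · rw [(key k).1]; simp

/-- the second case -/
private theorem GD_step {A G : ℕ → List ℤ × ℤ} (hne : ∀ k, (A k).1 ≠ [])
    (hG : ∀ k, G (k + 1) = gm (A k) (G k)) :
    (∀ k, (G (k + 1)).1 ≠ []) ∧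
    (∀ k, (G (k + 2)).1 = (A (k + 1)).1 ++ addF (G (k + 1)).1 (A (k + 1)).2) ∧
    (∀ k, (G (k + 2)).2 = (G (k + 1)).2) ∧
    (∀ k, addF (G (k + 2)).1 (A (k + 2)).2 =
      addF (A (k + 1)).1 (A (k + 2)).2 ++ addF (G (k + 1)).1 (A (k + 1)).2) := by
  have h1 : ∀ k, (G (k + 1)).1 ≠ [] := by
    intro k
    rw [hG k]
    by_cases h : (G k).1 = []
    · simp [gm, h, hne k]
    · simp [gm, h]
      intro h2
      exact absurd h2 (hne k)
  have h2 : ∀ k, (G (k + 2)).1 = (A (k + 1)).1 ++ addF (G (k + 1)).1 (A (k + 1)).2 := by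
    intro k
    rw [hG (k + 1)]
    simp [gm, h1 k]
  refine ⟨h1, h2, ?_, ?_⟩
  · intro k
    rw [hG (k + 1)]
    simp [gm, h1 k]
  · intro k
    rw [h2 k, addF_append _ _ _ (hne (k + 1))]

theorem GP.dec (e : ℕ) : ∃ F : ℕ → ℕ, PM F ∧ ∀ (N : ℕ) (G A : ℕ → List ℤ × ℤ), GP e N A →
    SB N (G 0).1 → |(G 0).2| ≤ (N : ℤ) → (∀ k, G (k + 1) = gm (A k) (G k)) →
    Ev (GP (e + 1)) F N G := by
  obtain ⟨Fa, pa, Ha⟩ := P.addF e
  obtain ⟨Fs, ps, Hs⟩ := P.shift e
  obtain ⟨Fz, pz, Hz⟩ := GP.size e
  have pc : PM (fun N => Fa (N + N) + 1) := PM.addc (PM.comp pa (PM.add PM.id PM.id)) 1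
  have pNc : PM (fun N => N + (Fa (N + N) + 1)) := PM.add PM.id pc
  have pS : PM (fun N => N + Fz (N + (Fa (N + N) + 1)) * (Fa (N + N) + 1 + 1)) :=
    PM.add PM.id (PM.mul (PM.comp pz pNc) pc)
  have pF0 : PM (fun N => Fa (Fa (N + N) + 1) +
      ((N + Fz (N + (Fa (N + N) + 1)) * (Fa (N + N) + 1 + 1)) +
       (N + Fz (N + (Fa (N + N) + 1)) * (Fa (N + N) + 1 + 1))) + Fs (N + (Fa (N + N) + 1)) +
       (Fa (N + N) + 1) + N * 3 + 10) :=
    PM.addc (PM.add (PM.add (PM.add (PM.add (PM.comp pa pc) (PM.add pS pS)) (PM.comp ps pNc)) pc)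
      (PM.mulc PM.id 3 (by norm_num))) 10
  obtain ⟨F, pF, HF⟩ := Ev_of_GP (e + 1) pF0
  refine ⟨F, pF, ?_⟩
  intro N G A hA h0 h1 hG
  rcases hA.2.2 with hA1 | hne
  · -- first case
    refine HF N 0 G (Nat.zero_le _) ?_
    have hG' : ∀ k, G (k + 1) = gm ([], (A k).2) (G k) := by
      intro k
      rw [hG k]
      congr 1
      exact Prod.ext (hA1 k) rfl
    have := GP.up (GD_case1 e hA.2.1 h0 h1 hG')
    refine GP.mono ?_ this
    show 2 * N + N + 5 + 1 ≤ _
    omega
  · -- second case
    obtain ⟨g1, g2, g3, g4⟩ := GD_step hne hG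
    set c := Fa (N + N) + 1 with hc
    set Z := Fz (N + c) with hZ
    refine HF N (c + 1) G ?_ ?_
    · show c + 1 ≤ _
      omega
    · have hsz : ∀ k < c + 1, SB Z (A k).1 ∧ |(A k).2| ≤ (Z : ℤ) := by
        intro k hk
        exact Hz (N + c) k A (GP.mono (Nat.le_add_right _ _) hA) (by omega)
      have hc1 := gm_iter h0 h1 c (fun k hk => hsz k (by omega)) (Or.inr hG)
      have hc2 := gm_iter h0 h1 (c + 1) hsz (Or.inr hG)
      have hcA := (hsz c (by omega)).2
      have hY : P e (Fa c) (fun k => addF (A (k + c)).1 (A (k + c + 1)).2) := by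
        have := Ha (N + N) (fun k => (A k).1) (fun k => (A (k + 1)).2)
          (P.mono (Nat.le_add_right _ _) hA.1)
          (PB.mono (by omega) (PB.succ hA.2.1)) c (by omega)
        exact this
      have hT0 : SB ((N + c * Z) + Z) (addF (G c).1 (A c).2) := GD_addF_SB hc1.1 hcA
      have hT : P (e + 1) (Fa c + ((N + c * Z) + Z) + 1) (fun k => addF (G (k + c)).1 (A (k + c)).2) := by
        refine P.dec (P.mono (Nat.le_add_right _ _) hY) ?_ ?_
        · have h5 : (0 : ℕ) + c = c := by omega
          simp only [h5]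
          exact SB.mono (Nat.le_add_left _ _) hT0
        · intro k
          have := g4 (k + Fa (N + N))
          have e1 : k + Fa (N + N) + 1 = k + c := by omega
          have e2 : k + Fa (N + N) + 2 = k + c + 1 := by omega
          have e3 : k + 1 + c = k + c + 1 := by omega
          rw [e1, e2] at this
          simp only [e3]
          exact this
      have hA' : P (e + 1) (Fs (N + c) + 1) (fun k => (A (k + c)).1) :=
        P.up (Hs (N + c) (fun k => (A k).1) c (P.mono (Nat.le_add_right _ _) hA.1)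
          (Nat.le_add_left _ _))
      have hmul : Z * (c + 1) = c * Z + Z := by ring
      refine ⟨?_, ?_, Or.inr fun k => ?_⟩
      · have h6 : (fun k => (G (k + (c + 1))).1) =
            fun k => (A (k + c)).1 ++ addF (G (k + c)).1 (A (k + c)).2 := by
          funext k
          have := g2 (k + Fa (N + N))
          have e1 : k + Fa (N + N) + 1 = k + c := by omega
          have e2 : k + Fa (N + N) + 2 = k + (c + 1) := by omega
          rw [e1, e2] at this
          exact this
        rw [h6]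
        refine P.mono ?_ (P.append hA' hT)
        show Fs (N + c) + 1 + (Fa c + ((N + c * Z) + Z) + 1) ≤
          Fa c + ((N + Z * (c + 1)) + (N + Z * (c + 1))) + Fs (N + c) + c + N * 3 + 10
        rw [hmul]
        omega
      · have h7 : ∀ k, (G (k + (c + 1))).2 = (G (c + 1)).2 := by
          intro k
          induction k with
          | zero => simp
          | succ k ih =>
            rw [← ih]
            have := g3 (k + c)
            have e1 : k + 1 + (c + 1) = k + c + 2 := by omega
            have e2 : k + (c + 1) = k + c + 1 := by omega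
            rw [e1, e2]
            exact this
        have h8 : (fun k => (G (k + (c + 1))).2) = fun _ => (G (c + 1)).2 := funext h7
        rw [h8]
        refine PB.mono ?_ (PB.const hc2.2)
        show N + (c + 1) * Z + 1 ≤
          Fa c + ((N + Z * (c + 1)) + (N + Z * (c + 1))) + Fs (N + c) + c + N * 3 + 10
        rw [Nat.mul_comm (c + 1) Z]
        omega
      · exact g1 (k + c)

theorem GP.dec0 (e : ℕ) : ∃ F : ℕ → ℕ, PM F ∧ ∀ (N l : ℕ) (G : ℕ → List ℤ × ℤ), l ≤ N →
    SB N (G 0).1 → |(G 0).2| ≤ (N : ℤ) → (∀ k, G (k + 1) = gm ([], (l : ℤ)) (G k)) →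
    GP e (F N) G := by
  refine ⟨fun N => N * 3 + 6, PM.addc (PM.mulc PM.id 3 (by norm_num)) 6, ?_⟩
  intro N l G hl h0 h1 hG
  have hb : PB (N + 1) (fun _ => (l : ℤ)) := by
    refine PB.const ?_
    rw [abs_of_nonneg (by positivity)]
    exact_mod_cast hl
  have := GD_case1 e hb h0 h1 hG
  refine GP.mono ?_ this
  show 2 * N + (N + 1) + 5 ≤ N * 3 + 6
  omega

end AW
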