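import Pool.Agent.Lib.MP_dd05d9_lc.GMul

/-!
`G (k+1) = gm (G k) (A k)`, `A` in GP e N.
Case `(A k).1 = []` for all k: `(G k).1 = (G 0).1` and `(G (k+1)).2 = (G k).2 + (A k).2`: constant list, PB.sum.
Case `(A k).1 <> []` for all k: `(G (k+1)).1 = (G k).1 ++ addF (A k).1 (G k).2`, `(G (k+1)).2 = (A k).2`.  After a shift by 1 the trailing part
`(G (k+1)).2 = (A k).2` is polynomial, `Y k := addF (A (k+1)).1 (A k).2` is (eventually) in `P e` by P.addF, and `Z k := (G (k+1)).1` satisfies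
`Z (k+1) = Z k ++ Y k`: P.inc after a further shift.  Nonempty from time 1 on.
Size of `(G c).1`, `|(G c).2|`: gm_SB and induction on `c`: `N + c * B` where `B` bounds the sizes of `A k`, `k < c` (GP.size).
Finish with Ev_of_GP.
inc0: `(G k).1 = (G 0).1`, `(G k).2 = (G 0).2 + l * k` (constant list, P.ofFS, PB.sum), no shift.
-/

set_option autoImplicit false

namespace AW

theorem gm_iter {N B : ℕ} {G A : ℕ → List ℤ × ℤ} (h0 : SB N (G 0).1) (h1 : |(G 0).2| ≤ (N : ℤ)) (c : ℕ)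
    (hA : ∀ k < c, SB B (A k).1 ∧ |(A k).2| ≤ (B : ℤ))
    (hG : (∀ k, G (k + 1) = gm (G k) (A k)) ∨ (∀ k, G (k + 1) = gm (A k) (G k))) :
    SB (N + c * B) (G c).1 ∧ |(G c).2| ≤ ((N + c * B : ℕ) : ℤ) := by
  induction c with
  | zero =>
    simp only [Nat.zero_mul, Nat.add_zero]
    exact ⟨h0, h1⟩
  | succ c ih =>
    obtain ⟨i1, i2⟩ := ih (fun k hk => hA k (Nat.lt_succ_of_lt hk))
    obtain ⟨a1, a2⟩ := hA c (Nat.lt_succ_self c)
    rcases hG with hG | hG
    · have h := gm_SB i1 i2 a1 a2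
      rw [← hG c] at h
      have e : N + c * B + B = N + (c + 1) * B := by ring
      rw [e] at h
      exact h
    · have h := gm_SB a1 a2 i1 i2
      rw [← hG c] at h
      have e : B + (N + c * B) = N + (c + 1) * B := by ring
      rw [e] at h
      exact h

theorem gi_nil (g h : List ℤ × ℤ) (hh : h.1 = []) : gm g h = (g.1, g.2 + h.2) := by
  simp [gm, hh]

theorem gi_cons (g h : List ℤ × ℤ) (hh : h.1 ≠ []) : gm g h = (g.1 ++ addF h.1 g.2, h.2) := by
  simp [gm, hh]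

theorem gi_const {e N : ℕ} {G : ℕ → List ℤ × ℤ} (h0 : SB N (G 0).1) (h1 : |(G 0).2| ≤ (N : ℤ))
    (hG1 : ∀ k, (G k).1 = (G 0).1) (hG2 : PB (N + 2) (fun k => (G k).2)) : GP e (N + 2) G := by
  have hc := GP.const (e := e) h0 h1
  refine ⟨?_, hG2, ?_⟩
  · have h2 : (fun k => (G k).1) = fun _ : ℕ => (G 0).1 := funext hG1
    rw [h2]
    exact hc.1
  · by_cases h : (G 0).1 = []
    · exact Or.inl fun k => (hG1 k).trans h
    · exact Or.inr fun k => by
        rw [hG1 k]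
        exact h

theorem GP.inc (e : ℕ) : ∃ F : ℕ → ℕ, PM F ∧ ∀ (N : ℕ) (G A : ℕ → List ℤ × ℤ), GP e N A →
    SB N (G 0).1 → |(G 0).2| ≤ (N : ℤ) → (∀ k, G (k + 1) = gm (G k) (A k)) →
    Ev (GP (e + 1)) F N G := by
  obtain ⟨F1, hF1, H1⟩ := P.addF e
  obtain ⟨Fs, hFs, Hs⟩ := P.shift e
  obtain ⟨F2, hF2, H2⟩ := GP.size e
  have hC : PM (fun n => F1 (Fs (n + 1))) := PM.comp hF1 (PM.comp hFs (PM.addc PM.id 1))
  have hB : PM (fun n => F2 (n + F1 (Fs (n + 1)) + 1)) :=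
    PM.comp hF2 (PM.addc (PM.add PM.id hC) 1)
  have hT1 : PM (fun n => F1 (F1 (Fs (n + 1)))) := PM.comp hF1 hC
  have hT2 : PM (fun n => F2 (n + F1 (Fs (n + 1)) + 1) * (F1 (Fs (n + 1)) + 1)) := PM.mul hB hC
  have hT3 : PM (fun n => 2 ^ (F1 (Fs (n + 1))) * (n + 1)) := PM.mul (PM.comp PM.pow2 hC) PM.id
  have hF0 : PM (fun n => F1 (F1 (Fs (n + 1))) +
      F2 (n + F1 (Fs (n + 1)) + 1) * (F1 (Fs (n + 1)) + 1) +
      2 ^ (F1 (Fs (n + 1))) * (n + 1) + (n + F1 (Fs (n + 1))) + 5) :=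
    PM.addc (PM.add (PM.add (PM.add hT1 hT2) hT3) (PM.add PM.id hC)) 5
  obtain ⟨F, hF, HF⟩ := Ev_of_GP (e + 1) hF0
  refine ⟨F, hF, fun N G A hA h0 h1 hG => ?_⟩
  obtain ⟨hA1, hA2, hA3⟩ := hA
  rcases hA3 with hn | hn
  · -- no marks
    refine HF N 0 G (Nat.zero_le _) ?_
    have hG1 : ∀ k, (G k).1 = (G 0).1 := by
      intro k
      induction k with
      | zero => rfl
      | succ k ih =>
        rw [hG k, gi_nil _ _ (hn k)]
        exact ih
    have hG2 : ∀ k, (G (k + 1)).2 = (G k).2 + (A k).2 := fun k => by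
      rw [hG k, gi_nil _ _ (hn k)]
    have h2 : PB (N + 2) (fun k => (G k).2) :=
      PB.mono (by omega) (PB.sum hA2 h1 hG2)
    have h3 := gi_const (e := e + 1) h0 h1 hG1 h2
    refine GP.mono ?_ h3
    omega
  · -- marks
    obtain ⟨c, hc⟩ : ∃ c, c = F1 (Fs (N + 1)) := ⟨_, rfl⟩
    have hW : P e (Fs (N + 1)) (fun k => (A (k + 1)).1) :=
      Hs (N + 1) (fun k => (A k).1) 1 (P.mono (Nat.le_succ N) hA1) (by omega)
    have hb : PB (Fs (N + 1)) (fun k => (A k).2) :=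
      PB.mono ((Nat.le_succ N).trans (hFs.2.2 (N + 1))) hA2
    have hY := H1 _ _ _ hW hb c (by rw [hc])
    have hG2 : ∀ k, (G (k + 1)).2 = (A k).2 := fun k => by
      rw [hG k, gi_cons _ _ (hn k)]
    have hG1 : ∀ k, (G (k + 1)).1 = (G k).1 ++ addF (A k).1 (G k).2 := fun k => by
      rw [hG k, gi_cons _ _ (hn k)]
    have hsz := gm_iter (B := F2 (N + c + 1)) h0 h1 (c + 1) (fun k hk =>
      H2 (N + c + 1) k A (GP.mono (by omega) ⟨hA1, hA2, Or.inr hn⟩) (by omega)) (Or.inl hG)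
    obtain ⟨M, hM⟩ : ∃ M, M = F1 c + (N + (c + 1) * F2 (N + c + 1)) := ⟨_, rfl⟩
    have hZ : P (e + 1) (M + 1) (fun k => (G (k + (c + 1))).1) := by
      refine P.inc (Y := fun k => addF (A (k + c + 1)).1 (A (k + c)).2)
        (P.mono (by omega) hY) ?_ ?_
      · have h2 : SB (N + (c + 1) * F2 (N + c + 1)) (G (0 + (c + 1))).1 := by
          rw [Nat.zero_add]
          exact hsz.1
        exact ⟨h2.1.trans (by omega), fun x hx => (h2.2 x hx).trans (by
          exact_mod_cast (by omega : N + (c + 1) * F2 (N + c + 1) ≤ M))⟩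
      · intro k
        have e1 : k + 1 + (c + 1) = (k + (c + 1)) + 1 := by omega
        have e2 : k + (c + 1) = (k + c) + 1 := by omega
        show (G (k + 1 + (c + 1))).1 = (G (k + (c + 1))).1 ++ addF (A (k + c + 1)).1 (A (k + c)).2
        rw [e1, hG1, e2, hG2]
    refine HF N (c + 1) G ?_ ?_
    · rw [← hc]
      omega
    · have hsum : M + 1 ≤ F1 c + F2 (N + c + 1) * (c + 1) + 2 ^ c * (N + 1) + (N + c) + 5 := by
        have e3 : (c + 1) * F2 (N + c + 1) = F2 (N + c + 1) * (c + 1) := Nat.mul_comm _ _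
        omega
      refine GP.mono (N := F1 c + F2 (N + c + 1) * (c + 1) + 2 ^ c * (N + 1) + (N + c) + 5) ?_
        ⟨P.mono hsum hZ, ?_, Or.inr ?_⟩
      · rw [← hc]
      · have h4 : (fun k => (G (k + (c + 1))).2) = fun k => (A (k + c)).2 := by
          funext k
          have e2 : k + (c + 1) = (k + c) + 1 := by omega
          rw [e2, hG2]
        rw [h4]
        refine PB.mono ?_ (PB.shift hA2 c)
        have h5 : 2 ^ c * N ≤ 2 ^ c * (N + 1) := Nat.mul_le_mul_left _ (Nat.le_succ N)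
        omega
      · intro k
        have e2 : k + (c + 1) = (k + c) + 1 := by omega
        show (G (k + (c + 1))).1 ≠ []
        rw [e2, hG1]
        intro h6
        have h7 := (List.append_eq_nil_iff.1 h6).2
        exact hn _ ((addF_eq_nil _ _).1 h7)

/-- pure gaps: no growth of the level -/
theorem GP.inc0 (e : ℕ) : ∃ F : ℕ → ℕ, PM F ∧ ∀ (N l : ℕ) (G : ℕ → List ℤ × ℤ), l ≤ N →
    SB N (G 0).1 → |(G 0).2| ≤ (N : ℤ) → (∀ k, G (k + 1) = gm (G k) ([], (l : ℤ))) →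
    GP e (F N) G := by
  refine ⟨fun n => n + 2, PM.addc PM.id 2, fun N l G hl h0 h1 hG => ?_⟩
  have hG' : ∀ k, G (k + 1) = ((G k).1, (G k).2 + (l : ℤ)) := fun k => by
    rw [hG k, gi_nil _ _ rfl]
  have hG1 : ∀ k, (G k).1 = (G 0).1 := by
    intro k
    induction k with
    | zero => rfl
    | succ k ih =>
      rw [hG' k]
      exact ih
  have hcl : PB (N + 1) (fun _ => (l : ℤ)) := PB.const (by
    rw [abs_of_nonneg (Int.natCast_nonneg l)]
    exact_mod_cast hl)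
  have h2 : PB (N + 1 + 1) (fun k => (G k).2) := by
    refine PB.sum (s := fun k => (G k).2) hcl ?_ ?_
    · refine h1.trans ?_
      push_cast
      omega
    · intro k
      show (G (k + 1)).2 = (G k).2 + (l : ℤ)
      rw [hG' k]
  exact gi_const h0 h1 hG1 h2

end AW
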