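import Pool.Agent.Lib.MP_dd05d9_lc.AF
import Pool.Agent.Lib.MP_dd05d9_lc.Poly2

/-!
* mono, up: P.mono, P.up, PB.mono.
* shift: P.shift, PB.shift (`c <= N`: size `2^N * N`).
* Ev_of_GP as Ev_of_P.
* cmp_FS: `W` FS of size `N`, length `l <= N`.  By PB_nv every entry is identically zero or never zero for `k >= F0 N`.  Shift by
  `c0 = F0 N`: now for every `i < l` the entry `i` is always 0 or never 0.  By induction on `l` (with W = W' ++ [entry], i.e. on `take i`):
  `cmp (take (i+1) W) = gm (cmp (take i W)) (cmp [w_i])`: `(cmp (take i (W k))).1` is FS of size `2 i (size)`, `.2` is the CONSTANT number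
  of trailing zeros (or directly: for a list of given zero pattern the marks are at constant positions).
  The list part is always empty or never empty.
* const: `SB N g.1`, `|g.2| <= N`: the constant family.  size: P.size, PB.bound.
-/

set_option autoImplicit false

namespace AW

theorem GP.mono {e N M : ℕ} {G : ℕ → List ℤ × ℤ} (h : N ≤ M) (hG : GP e N G) : GP e M G :=
  ⟨P.mono h hG.1, PB.mono h hG.2.1, hG.2.2⟩

theorem GP.up {e N : ℕ} {G : ℕ → List ℤ × ℤ} (hG : GP e N G) : GP (e + 1) (N + 1) G :=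
  ⟨P.up hG.1, PB.mono (Nat.le_succ _) hG.2.1, hG.2.2⟩

theorem GP.shift (e : ℕ) : ∃ F : ℕ → ℕ, PM F ∧ ∀ (N c : ℕ) (G : ℕ → List ℤ × ℤ),
    GP e N G → c ≤ N → GP e (F N) (fun k => G (k + c)) := by
  obtain ⟨F, hF, h⟩ := P.shift e
  refine ⟨fun N => F N + 2 ^ N * (N + 1), PM.add hF (PM.mul PM.pow2 PM.id), ?_⟩
  intro N c G hG hc
  refine ⟨P.mono (Nat.le_add_right _ _) (h N _ c hG.1 hc), ?_, ?_⟩
  · refine PB.mono ?_ (PB.shift hG.2.1 c)
    calc 2 ^ c * N ≤ 2 ^ N * (N + 1) :=
          Nat.mul_le_mul (Nat.pow_le_pow_right (by norm_num) hc) (Nat.le_succ _)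
      _ ≤ _ := Nat.le_add_left _ _
  · rcases hG.2.2 with h1 | h1
    · exact Or.inl (fun k => h1 _)
    · exact Or.inr (fun k => h1 _)

theorem Ev_of_GP (e : ℕ) {F0 : ℕ → ℕ} (h0 : PM F0) : ∃ F : ℕ → ℕ, PM F ∧
    ∀ (N c : ℕ) (G : ℕ → List ℤ × ℤ),
    c ≤ F0 N → GP e (F0 N) (fun k => G (k + c)) → Ev (GP e) F N G := by
  obtain ⟨F, hF, h⟩ := GP.shift e
  refine ⟨fun N => F0 N + F N, PM.add h0 hF, ?_⟩
  intro N c G hc hG c' hc'
  have h1 : F0 N ≤ c' := (Nat.le_add_right _ _).trans hc'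
  have h2 := h c' (c' - c) (fun k => G (k + c)) (GP.mono h1 hG) (Nat.sub_le _ _)
  have heq : (fun k => G (k + (c' - c) + c)) = fun k => G (k + c') := by
    funext k
    rw [show k + (c' - c) + c = k + c' from by omega]
  have h3 : GP e (F c') (fun k => G (k + c')) := by
    rw [← heq]; exact h2
  exact GP.mono (Nat.le_add_left _ _) h3

theorem GP.size (e : ℕ) : ∃ F : ℕ → ℕ, PM F ∧ ∀ (N k : ℕ) (G : ℕ → List ℤ × ℤ), GP e N G → k ≤ N →
    SB (F N) (G k).1 ∧ |(G k).2| ≤ (F N : ℤ) := by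
  obtain ⟨F, hF, h⟩ := P.size e
  refine ⟨fun N => F N + N * (2 ^ N * (N + 1) + 1), PM.add hF (PM.mul PM.id (PM.mul PM.pow2 PM.id)), ?_⟩
  intro N k G hG hk
  refine ⟨SB.mono (Nat.le_add_right _ _) (h N _ k hG.1 hk), ?_⟩
  refine (PB.bound hG.2.1 k).trans ?_
  have h1 : 2 ^ k ≤ 2 ^ N := Nat.pow_le_pow_right (by norm_num) hk
  have h2 : N * N * 2 ^ k ≤ F N + N * (2 ^ N * (N + 1) + 1) := by
    calc N * N * 2 ^ k ≤ N * N * 2 ^ N := Nat.mul_le_mul_left _ h1
      _ = N * (2 ^ N * N) := by ring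
      _ ≤ N * (2 ^ N * (N + 1) + 1) := Nat.mul_le_mul_left _
          ((Nat.mul_le_mul_left _ (Nat.le_succ _)).trans (Nat.le_succ _))
      _ ≤ _ := Nat.le_add_left _ _
  exact_mod_cast h2

theorem GP.const {e N : ℕ} {g : List ℤ × ℤ} (h1 : SB N g.1) (h2 : |g.2| ≤ (N : ℤ)) :
    GP e (N + 2) (fun _ => g) := by
  refine ⟨P.ofFS (FS.const h1), PB.mono (Nat.le_succ _) (PB.const h2), ?_⟩
  by_cases h : g.1 = []
  · exact Or.inl (fun _ => h)
  · exact Or.inr (fun _ => h)

/-- compression of lists whose entries are always or never zero -/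
theorem GPa_core {N : ℕ} (w : ℕ → ℕ → ℤ) (l : ℕ) (hl : l ≤ N) (hw : ∀ i < l, PB N (w i))
    (hz : ∀ i < l, (∀ k, w i k = 0) ∨ (∀ k, w i k ≠ 0)) :
    ∃ g : ℕ, g ≤ l ∧ (∀ k, (cmp ((List.range l).map (fun i => w i k))).2 = (g : ℤ)) ∧
      FS (l * (2 * N + 3)) (fun k => (cmp ((List.range l).map (fun i => w i k))).1) ∧
      ((∀ k, (cmp ((List.range l).map (fun i => w i k))).1 = []) ∨
        (∀ k, (cmp ((List.range l).map (fun i => w i k))).1 ≠ [])) := by
  induction l with
  | zero =>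
    refine ⟨0, le_rfl, fun k => rfl, ?_, Or.inl (fun k => rfl)⟩
    exact FS.nil _
  | succ l ih =>
    obtain ⟨g, hg, h2, h1, h3⟩ := ih (by omega) (fun i hi => hw i (by omega)) (fun i hi => hz i (by omega))
    have hstep : ∀ k, cmp ((List.range (l + 1)).map (fun i => w i k)) =
        stp (cmp ((List.range l).map (fun i => w i k))) (w l k) := by
      intro k
      rw [List.range_succ, List.map_append, List.map_singleton]
      unfold cmp
      rw [List.foldl_append]
      rfl
    rcases hz l (Nat.lt_succ_self l) with h0 | h0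
    · have hs : ∀ k, cmp ((List.range (l + 1)).map (fun i => w i k)) =
          ((cmp ((List.range l).map (fun i => w i k))).1, (cmp ((List.range l).map (fun i => w i k))).2 + 1) := by
        intro k
        rw [hstep, h0 k]
        unfold stp
        rw [if_pos rfl]
      refine ⟨g + 1, by omega, ?_, ?_, ?_⟩
      · intro k; rw [hs, h2]; push_cast; ring
      · simp only [hs]
        refine FS.mono (Nat.mul_le_mul_right _ (Nat.le_succ _)) h1
      · simp only [hs]
        exact h3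
    · have hs : ∀ k, cmp ((List.range (l + 1)).map (fun i => w i k)) =
          ((cmp ((List.range l).map (fun i => w i k))).1 ++ [(g : ℤ), w l k], 0) := by
        intro k
        rw [hstep]
        unfold stp
        rw [if_neg (h0 k), h2]
      refine ⟨0, by omega, ?_, ?_, ?_⟩
      · intro k; rw [hs]; rfl
      · simp only [hs]
        have hg' : PB (l + 1) (fun _ : ℕ => (g : ℤ)) := PB.const (by
          rw [abs_of_nonneg (Int.natCast_nonneg _)]; exact_mod_cast hg)
        have hA := FS.append (FS.single hg') (FS.single (hw l (Nat.lt_succ_self l)))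
        have hB := FS.append h1 hA
        refine FS.mono ?_ hB
        have : (l + 1) * (2 * N + 3) = l * (2 * N + 3) + (2 * N + 3) := by ring
        omega
      · right
        intro k
        rw [hs]
        simp

theorem cmp_FS (e : ℕ) : ∃ F : ℕ → ℕ, PM F ∧ ∀ (N : ℕ) (W : ℕ → List ℤ), FS N W →
    Ev (GP e) F N (fun k => cmp (W k)) := by
  obtain ⟨F0, h0, H0⟩ := PB_nv
  have hN' : PM (fun N => 2 ^ (F0 N) * (N + 1)) := PM.mul (PM.comp PM.pow2 h0) PM.id
  have hF1 : PM (fun N => 2 ^ (F0 N) * (N + 1) * ((2 ^ (F0 N) * (N + 1) * 2 + 2) + 1) + F0 N + 1) :=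
    PM.addc (PM.add (PM.mul hN' (PM.addc (PM.mulc hN' 2 (by norm_num)) 2)) h0) 1
  obtain ⟨F, hF, H⟩ := Ev_of_GP e hF1
  refine ⟨F, hF, ?_⟩
  intro N W hW
  obtain ⟨l, hl, hlen, hent⟩ := hW
  set c0 := F0 N with hc0
  set N' := 2 ^ c0 * (N + 1) with hN'def
  have hpow : 1 ≤ 2 ^ c0 := Nat.one_le_two_pow
  have hNN' : N + 1 ≤ N' := Nat.le_mul_of_pos_left _ (by omega)
  refine H N c0 (fun k => cmp (W k)) ?_ ?_
  · show c0 ≤ N' * ((N' * 2 + 2) + 1) + c0 + 1
    omega
  · show GP e (N' * ((N' * 2 + 2) + 1) + c0 + 1) (fun k => cmp (W (k + c0)))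
    obtain ⟨g, hg, h2, h1, h3⟩ := GPa_core (N := N') (fun i k => (W (k + c0)).getD i 0) l (by omega)
      (fun i hi => by
        have hs := PB.shift (hent i hi) c0
        exact PB.mono (Nat.mul_le_mul_left _ (Nat.le_succ _)) hs)
      (fun i hi => by
        rcases H0 N _ (hent i hi) with h | h
        · right; intro k; exact h (k + c0) (by omega)
        · left; intro k; exact h (k + c0))
    have hVW : ∀ k, (List.range l).map (fun i => (W (k + c0)).getD i 0) = W (k + c0) := by
      intro k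
      refine List.ext_getElem (by simp [hlen]) ?_
      intro i hi1 hi2
      rw [List.getElem_map, List.getElem_range, List.getD_eq_getElem _ _ hi2]
    simp only [hVW] at h1 h2 h3
    refine ⟨?_, ?_, h3⟩
    · refine P.mono ?_ (P.ofFS h1)
      have : l * (2 * N' + 3) ≤ N' * ((N' * 2 + 2) + 1) :=
        Nat.mul_le_mul (by omega) (by omega)
      omega
    · have h4 : (fun k => (cmp (W (k + c0))).2) = fun _ => (g : ℤ) := by
        funext k; exact h2 k
      show PB _ (fun k => (cmp (W (k + c0))).2)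
      rw [h4]
      refine PB.mono (N := l + 1) ?_ (PB.const (by
        rw [abs_of_nonneg (Int.natCast_nonneg _)]; exact_mod_cast hg))
      have : l ≤ N' * ((N' * 2 + 2) + 1) := by
        calc l ≤ N' := by omega
          _ ≤ _ := Nat.le_mul_of_pos_right _ (by omega)
      omega

end AW
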