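import Pool.Agent.Lib.MP_dd05d9_lc.ANN
import Pool.Agent.Lib.MP_dd05d9_lc.FSdl
import Pool.Agent.Lib.MP_dd05d9_lc.GD

/-!
`Z` is a piece over `P 0 N = FS N`; `RB N M R`, `N <= M`; `n = R.natDegree <= M`.
* FS: FS.mono to M, FS.dl, cmp_FS.
* inc: `Z (k+1) = Z k ++ Y k`, `Y` FS of length `l <= N`.  If `l = 0`: `Z` is constant: constant family (dl_SB, cmp_SB, GP.const).
  If `l >= 1`: for `k >= n`: `|Z k| >= n`, `dl_append_left`: `dl R (Z (k+1)) = dl R (Z k) ++ dl R (sfx n (Z k) ++ Y k)`, and `sfx n (Z k) ++ Y k` is a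
  suffix of `(Z (k+1)).drop |Z (k-n)|` (because `|Z k| - |Z (k-n)| = n l >= n`), so by ann_inc its `dl` is zero (entries of `dl` of a suffix are
  entries of `dl` of the whole list), of length `l`.  So with `G k = cmp (dl R (Z k))`: `G (k+1) = gm (G k) ([], l)` for `k >= n`
  (cmp_append, cmp_all_zero).  Shift by `n` and GP.inc0 (e = 0); sizes of `G n`: P.size for the piece, dl_SB, cmp_SB.
* dec: the same with dl_append_right, ann_dec, GP.dec0.
Finish with Ev_of_GP.
-/

set_option autoImplicit false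

namespace AW

private theorem H0_sfx (n : ℕ) (l : List ℤ) : sfx n l = l.drop (l.length - n) := by
  unfold sfx
  rw [List.reverse_take, List.reverse_reverse, List.length_reverse]

private theorem H0_suffix (n m : ℕ) (l : List ℤ) (h : m + n ≤ l.length) :
    ∃ A, l.drop m = A ++ sfx n l := by
  refine ⟨(l.drop m).take (l.length - n - m), ?_⟩
  have h1 : sfx n l = (l.drop m).drop (l.length - n - m) := by
    rw [H0_sfx, List.drop_drop]
    congr 1
    omega
  rw [h1, List.take_append_drop]

private theorem H0_len_inc {Z Y : ℕ → List ℤ} {l : ℕ} (hl : ∀ k, (Y k).length = l)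
    (hk : ∀ k, Z (k + 1) = Z k ++ Y k) (k : ℕ) : (Z k).length = (Z 0).length + k * l := by
  induction k with
  | zero => simp
  | succ k ih =>
    rw [hk, List.length_append, ih, hl]
    ring

private theorem H0_len_dec {Z Y : ℕ → List ℤ} {l : ℕ} (hl : ∀ k, (Y k).length = l)
    (hk : ∀ k, Z (k + 1) = Y k ++ Z k) (k : ℕ) : (Z k).length = (Z 0).length + k * l := by
  induction k with
  | zero => simp
  | succ k ih =>
    rw [hk, List.length_append, ih, hl]
    ring

private theorem H0_inc {N M l : ℕ} {R : Polynomial ℤ} (hR : RB N M R) {Y Z : ℕ → List ℤ}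
    (hY : FS N Y) (hl : ∀ k, (Y k).length = l) (h1 : 1 ≤ l) (hk : ∀ k, Z (k + 1) = Z k ++ Y k)
    (k : ℕ) (hn : R.natDegree ≤ k) :
    cmp (dl R (Z (k + 1))) = gm (cmp (dl R (Z k))) ([], (l : ℤ)) := by
  have hlen := H0_len_inc hl hk
  have hZk : (Z (k - R.natDegree)).length + R.natDegree ≤ (Z k).length := by
    rw [hlen k, hlen (k - R.natDegree)]
    have h2 : k = (k - R.natDegree) + R.natDegree := by omega
    have h3 : k * l = (k - R.natDegree) * l + R.natDegree * l := by
      rw [← add_mul]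
      congr 1
    have h4 : R.natDegree ≤ R.natDegree * l := Nat.le_mul_of_pos_right _ h1
    omega
  have hnZ : R.natDegree ≤ (Z k).length := by omega
  rw [hk, dl_append_left R (Z k) (Y k) hnZ, cmp_append]
  have hzero : ∀ x ∈ dl R (sfx R.natDegree (Z k) ++ Y k), x = 0 := by
    have hann := ann_inc hR hY hl h1 hk (k - R.natDegree) (R.natDegree + 1)
    have h2 : k - R.natDegree + (R.natDegree + 1) = k + 1 := by omega
    rw [h2, hk, List.drop_append_of_le_length (by omega)] at hann
    obtain ⟨A, hA⟩ := H0_suffix R.natDegree (Z (k - R.natDegree)).length (Z k) hZk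
    rw [hA, List.append_assoc] at hann
    intro x hx
    apply hann x
    rw [dl_append R A]
    exact List.mem_append_right _ (List.mem_append_right _ hx)
  rw [cmp_all_zero _ hzero]
  have h5 : (dl R (sfx R.natDegree (Z k) ++ Y k)).length = l := by
    rw [dl_length, List.length_append, sfx_length, hl, min_eq_left hnZ]
    omega
  rw [h5]

private theorem H0_dec {N M l : ℕ} {R : Polynomial ℤ} (hR : RB N M R) {Y Z : ℕ → List ℤ}
    (hY : FS N Y) (hl : ∀ k, (Y k).length = l) (h1 : 1 ≤ l) (hk : ∀ k, Z (k + 1) = Y k ++ Z k)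
    (k : ℕ) (hn : R.natDegree ≤ k) :
    cmp (dl R (Z (k + 1))) = gm ([], (l : ℤ)) (cmp (dl R (Z k))) := by
  have hlen := H0_len_dec hl hk
  have hZk : (Z (k - R.natDegree)).length + R.natDegree ≤ (Z k).length := by
    rw [hlen k, hlen (k - R.natDegree)]
    have h2 : k = (k - R.natDegree) + R.natDegree := by omega
    have h3 : k * l = (k - R.natDegree) * l + R.natDegree * l := by
      rw [← add_mul]
      congr 1
    have h4 : R.natDegree ≤ R.natDegree * l := Nat.le_mul_of_pos_right _ h1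
    omega
  have hnZ : R.natDegree ≤ (Z k).length := by omega
  rw [hk, dl_append_right R (Y k) (Z k) hnZ, cmp_append]
  have hzero : ∀ x ∈ dl R (Y k ++ (Z k).take R.natDegree), x = 0 := by
    have hann := ann_dec hR hY hl h1 hk (k - R.natDegree) (R.natDegree + 1)
    have h2 : k - R.natDegree + (R.natDegree + 1) = k + 1 := by omega
    rw [h2] at hann
    have h6 : (Z (k + 1)).take ((Z (k + 1)).length - (Z (k - R.natDegree)).length) =
        (Y k ++ (Z k).take R.natDegree) ++
          ((Z k).drop R.natDegree).take ((Z (k + 1)).length - (Z (k - R.natDegree)).length -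
            (l + R.natDegree)) := by
      have hl1 : (Z (k + 1)).length = l + (Z k).length := by
        rw [hk, List.length_append, hl]
      obtain ⟨m, hm⟩ : ∃ m, (Z (k + 1)).length - (Z (k - R.natDegree)).length =
          l + (R.natDegree + m) := ⟨(Z k).length - (Z (k - R.natDegree)).length - R.natDegree, by omega⟩
      rw [hm, hk]
      have h7 : l + (R.natDegree + m) = (Y k).length + (R.natDegree + m) := by rw [hl]
      have h8 : l + (R.natDegree + m) - (l + R.natDegree) = m := by omega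
      rw [h8, h7, List.take_length_add_append, List.take_add, List.append_assoc]
    rw [h6] at hann
    intro x hx
    apply hann x
    rw [dl_append R (Y k ++ (Z k).take R.natDegree)]
    exact List.mem_append_left _ hx
  rw [cmp_all_zero _ hzero]
  have h5 : (dl R (Y k ++ (Z k).take R.natDegree)).length = l := by
    rw [dl_length, List.length_append, List.length_take, hl, min_eq_left hnZ]
    omega
  rw [h5]

theorem H0 : ∃ F : ℕ → ℕ, PM F ∧ ∀ (N M : ℕ) (R : Polynomial ℤ) (Z : ℕ → List ℤ), N ≤ M →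
    RB N M R → Piece (P 0 N) N Z → Ev (GP 0) F M (fun k => cmp (dl R (Z k))) := by
  obtain ⟨F1, hF1, hdl⟩ := FS.dl
  obtain ⟨F2, hF2, hcmp⟩ := cmp_FS 0
  obtain ⟨Fs, hFs, hsize⟩ := P.size 1
  obtain ⟨Fi, hFi, hinc⟩ := GP.inc0 0
  obtain ⟨Fd, hFd, hdec⟩ := GP.dec0 0
  have hB : PM (fun n => Fs (n + 1) * (n * (n + 1) + 1)) :=
    PM.mul (PM.comp hFs (PM.addc PM.id 1)) (PM.mul PM.id PM.id)
  have hFa : PM (fun n => Fs (n + 1) * (n * (n + 1) + 1) * 2 + n) :=
    PM.add (PM.mulc hB 2 (by norm_num)) PM.id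
  set Fa : ℕ → ℕ := fun n => Fs (n + 1) * (n * (n + 1) + 1) * 2 + n with hFadef
  have hF0 : PM (fun n => Fi (Fa n) + (Fd (Fa n) + (Fa n + 2))) :=
    PM.add (PM.comp hFi hFa) (PM.add (PM.comp hFd hFa) (PM.addc hFa 2))
  obtain ⟨F3, hF3, hev⟩ := Ev_of_GP 0 hF0
  refine ⟨fun n => F2 (F1 n) + F3 n, PM.add (PM.comp hF2 hF1) hF3, ?_⟩
  intro N M R Z hNM hR hZ
  have hmono : ∀ (N M : ℕ) (W : ℕ → List ℤ × ℤ), N ≤ M → GP 0 N W → GP 0 M W :=
    fun _ _ _ h hW => GP.mono h hW
  have hcore : ∀ c, c ≤ M → GP 0 (Fi (Fa M) + (Fd (Fa M) + (Fa M + 2)))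
      (fun k => cmp (dl R (Z (k + c)))) →
      Ev (GP 0) (fun n => F2 (F1 n) + F3 n) M (fun k => cmp (dl R (Z k))) := by
    intro c hc hG
    have hMa : M ≤ Fa M := hFa.2.2 M
    refine Ev.mono hmono hF3 (fun n => Nat.le_add_left _ _) le_rfl
      (hev M c (fun k => cmp (dl R (Z k))) ?_ hG)
    show c ≤ Fi (Fa M) + (Fd (Fa M) + (Fa M + 2))
    omega
  have hsz : ∀ k, k ≤ M → SB (Fa M) (cmp (dl R (Z k))).1 ∧
      |(cmp (dl R (Z k))).2| ≤ (Fa M : ℤ) := by
    intro k hk
    have h1 : SB (Fs (M + 1)) (Z k) :=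
      hsize (M + 1) Z k (P.mono (by omega) (piece_P hZ)) (by omega)
    have h2 := dl_SB R h1 hR.2.1 hR.2.2.1
    obtain ⟨h3, h4, h5⟩ := cmp_SB h2
    have h6 : 2 * (Fs (M + 1) * ((M + 1) * M + 1)) ≤ Fa M := by
      simp only [hFadef]
      have : Fs (M + 1) * (M * (M + 1) + 1) * 2 = 2 * (Fs (M + 1) * ((M + 1) * M + 1)) := by ring
      omega
    refine ⟨h3.mono h6, ?_⟩
    rw [abs_of_nonneg h4]
    refine h5.trans ?_
    have h7 : Fs (M + 1) * ((M + 1) * M + 1) ≤ Fa M := by omega
    exact_mod_cast h7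
  have hconst : (∀ k, Z k = Z 0) →
      Ev (GP 0) (fun n => F2 (F1 n) + F3 n) M (fun k => cmp (dl R (Z k))) := by
    intro hc
    apply hcore 0 (Nat.zero_le _)
    have h1 : (fun k => cmp (dl R (Z (k + 0)))) = fun _ => cmp (dl R (Z 0)) := by
      funext k
      rw [hc (k + 0)]
    rw [h1]
    obtain ⟨h2, h3⟩ := hsz 0 (Nat.zero_le _)
    exact GP.mono (by omega) (GP.const (e := 0) h2 h3)
  have hnM : R.natDegree ≤ M := hR.2.1
  rcases hZ with hZ | ⟨Y, hY, h0, hk⟩ | ⟨Y, hY, h0, hk⟩
  · have h1 := hcmp (F1 M) _ (hdl M Z R (FS.mono hNM hZ) hR.2.1 hR.2.2.1)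
    intro c hc
    have hc' : F2 (F1 M) + F3 M ≤ c := hc
    have h2 := h1 c (by omega)
    refine GP.mono ?_ h2
    show F2 c ≤ F2 (F1 c) + F3 c
    have h3 : F2 c ≤ F2 (F1 c) := hF2.2.1 (hF1.2.2 c)
    omega
  · have hY' : FS N Y := hY
    obtain ⟨l, hlN, hl, -⟩ := hY'
    rcases Nat.eq_zero_or_pos l with hl0 | hl1
    · apply hconst
      intro k
      induction k with
      | zero => rfl
      | succ k ih =>
        have hnil : Y k = [] := List.eq_nil_of_length_eq_zero (by rw [hl, hl0])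
        rw [hk, hnil, List.append_nil, ih]
    · apply hcore R.natDegree hnM
      obtain ⟨h2, h3⟩ := hsz R.natDegree hnM
      have h4 := hinc (Fa M) l (fun k => cmp (dl R (Z (k + R.natDegree))))
        (hlN.trans (hNM.trans (hFa.2.2 M))) (by simpa using h2) (by simpa using h3) (fun k => by
          have h5 := H0_inc hR hY hl hl1 hk (k + R.natDegree) (Nat.le_add_left _ _)
          have h6 : k + 1 + R.natDegree = k + R.natDegree + 1 := by omega
          show cmp (dl R (Z (k + 1 + R.natDegree))) = _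
          rw [h6, h5])
      exact GP.mono (by omega) h4
  · have hY' : FS N Y := hY
    obtain ⟨l, hlN, hl, -⟩ := hY'
    rcases Nat.eq_zero_or_pos l with hl0 | hl1
    · apply hconst
      intro k
      induction k with
      | zero => rfl
      | succ k ih =>
        have hnil : Y k = [] := List.eq_nil_of_length_eq_zero (by rw [hl, hl0])
        rw [hk, hnil, List.nil_append, ih]
    · apply hcore R.natDegree hnM
      obtain ⟨h2, h3⟩ := hsz R.natDegree hnM
      have h4 := hdec (Fa M) l (fun k => cmp (dl R (Z (k + R.natDegree))))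
        (hlN.trans (hNM.trans (hFa.2.2 M))) (by simpa using h2) (by simpa using h3) (fun k => by
          have h5 := H0_dec hR hY hl hl1 hk (k + R.natDegree) (Nat.le_add_left _ _)
          have h6 : k + 1 + R.natDegree = k + R.natDegree + 1 := by omega
          show cmp (dl R (Z (k + 1 + R.natDegree))) = _
          rw [h6, h5])
      exact GP.mono (by omega) h4

end AW
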