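import Pool.Agent.Lib.MP_dd05d9_lc.LD

/-!
`h`: the statement for pieces.  `W k = Z1 k ++ ... ++ Zj k` never empty.  Shift everything by `e + 1`: `Zi' k = Zi (k + e + 1)`, these are again pieces
over `P e N'` with `N' = F N` (FS.shift; `Y (. + e + 1)` by P.shift; `SB` of `Zi (e+1)` by P.size).  By P.di (piece_P, level e+1) every `Zi'` is now
always empty or never empty [P.di for `Zi`, from time `e + 1` on].  List induction: drop the pieces which are always empty (the product does not change) until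
the first which is never empty, `Z' `; (there is one because W is not empty).  `W' k = Z' k ++ rest k`, head `W'` = head `Z'`, tail `W'` = tail `Z'` ++ rest:
`h` for `Z'`, `rest` in `P (e+1) N'` (sublist of pieces), P.shift, P.append; Ev_of_PB, Ev_of_P.
-/

set_option autoImplicit false

namespace AW

private theorem HDq_list {Q : (ℕ → List ℤ) → Prop} {M : ℕ} (L : List (ℕ → List ℤ))
    (hL : ∀ Z ∈ L, Piece Q M Z ∧ ((∀ k, Z k = []) ∨ (∀ k, Z k ≠ [])))
    (hne : ∃ k, (L.map (fun Z => Z k)).flatten ≠ []) :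
    ∃ (Z : ℕ → List ℤ) (R : List (ℕ → List ℤ)), Piece Q M Z ∧ (∀ k, Z k ≠ []) ∧
      R.length ≤ L.length ∧ (∀ X ∈ R, Piece Q M X) ∧
      ∀ k, (L.map (fun Z => Z k)).flatten = Z k ++ (R.map (fun X => X k)).flatten := by
  induction L with
  | nil =>
    obtain ⟨k, hk⟩ := hne
    exact absurd rfl hk
  | cons Z L ih =>
    rcases (hL Z List.mem_cons_self).2 with h | h
    · have hprod : ∀ k, ((Z :: L).map (fun Z => Z k)).flatten = (L.map (fun Z => Z k)).flatten := by
        intro k
        rw [List.map_cons, List.flatten_cons, h k, List.nil_append]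
      obtain ⟨k, hk⟩ := hne
      rw [hprod k] at hk
      obtain ⟨Z', R, h1, h2, h3, h4, h5⟩ := ih (fun X hX => hL X (List.mem_cons_of_mem _ hX)) ⟨k, hk⟩
      refine ⟨Z', R, h1, h2, h3.trans ?_, h4, fun k => ?_⟩
      · rw [List.length_cons]
        exact Nat.le_succ _
      · rw [hprod k, h5 k]
    · refine ⟨Z, L, (hL Z List.mem_cons_self).1, h, ?_, fun X hX =>
        (hL X (List.mem_cons_of_mem _ hX)).1, fun k => ?_⟩
      · rw [List.length_cons]
        exact Nat.le_succ _
      · rw [List.map_cons, List.flatten_cons]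

theorem HDq (e : ℕ) {F0 : ℕ → ℕ} (h0 : PM F0) (h : ∀ (N : ℕ) (Z : ℕ → List ℤ),
    Piece (P e N) N Z → (∀ k, Z k ≠ []) →
    Ev PB F0 N (fun k => (Z k).headD 0) ∧ Ev (P (e + 1)) F0 N (fun k => (Z k).tail)) :
    ∃ F : ℕ → ℕ, PM F ∧ ∀ (N : ℕ) (W : ℕ → List ℤ), P (e + 1) N W → (∀ k, W k ≠ []) →
    Ev PB F N (fun k => (W k).headD 0) ∧ Ev (P (e + 1)) F N (fun k => (W k).tail) := by
  obtain ⟨Fs, hFs, Hs⟩ := P.size (e + 1)
  obtain ⟨Fa, hFa, Ha⟩ := P.shift e
  obtain ⟨Fb, hFb, Hb⟩ := P.shift (e + 1)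
  -- size of the shifted pieces
  let D : ℕ → ℕ := fun N => 2 ^ (e + 1) * N + Fa (N + e + 1) + Fs (N + e + 1) + N
  have hD : PM D := by
    have h1 : PM (fun N => 2 ^ (e + 1) * N) := by
      have h4 : (fun N => 2 ^ (e + 1) * N) = (fun n : ℕ => n * 2 ^ (e + 1)) :=
        funext fun n => Nat.mul_comm _ _
      rw [h4]
      exact PM.mulc PM.id (2 ^ (e + 1)) Nat.one_le_two_pow
    have h2 : PM (fun N => Fa (N + e + 1)) := hFa.comp ((PM.id.addc e).addc 1)
    have h3 : PM (fun N => Fs (N + e + 1)) := hFs.comp ((PM.id.addc e).addc 1)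
    exact ((h1.add h2).add h3).add PM.id
  let c1 : ℕ → ℕ := fun N => F0 (D N)
  have hc1 : PM c1 := h0.comp hD
  let A : ℕ → ℕ := fun N => F0 (c1 N)
  have hA : PM A := h0.comp hc1
  let B : ℕ → ℕ := fun N => Fb (D N + c1 N)
  have hB : PM B := hFb.comp (hD.add hc1)
  let G : ℕ → ℕ := fun N => (c1 N + (e + 1)) + (A N + B N)
  have hG : PM G := (hc1.addc (e + 1)).add (hA.add hB)
  obtain ⟨F1, hF1, H1⟩ := Ev_of_PB hG
  obtain ⟨F2, hF2, H2⟩ := Ev_of_P (e + 1) hG
  refine ⟨fun n => F1 n + F2 n, hF1.add hF2, ?_⟩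
  intro N W hW hne
  have g1 : c1 N + (e + 1) ≤ G N := Nat.le_add_right _ _
  have g2 : A N + B N ≤ G N := Nat.le_add_left _ _
  have hND : N ≤ D N := Nat.le_add_left _ _
  have key : PB (G N) (fun k => (W (k + (c1 N + (e + 1)))).headD 0) ∧
      P (e + 1) (G N) (fun k => (W (k + (c1 N + (e + 1)))).tail) := by
    obtain ⟨L, hLlen, hLp, hWL⟩ := hW
    -- the shifted pieces
    have hpc : ∀ Z ∈ L.map (fun Z : ℕ → List ℤ => fun k => Z (k + (e + 1))),
        Piece (P e (D N)) (D N) Z ∧ ((∀ k, Z k = []) ∨ (∀ k, Z k ≠ [])) := by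
      intro Z' hZ'
      obtain ⟨Z, hZ, rfl⟩ := List.mem_map.1 hZ'
      have hP : P (e + 1) (N + 1) Z := piece_P (hLp Z hZ)
      constructor
      · rcases hLp Z hZ with hfs | ⟨Y, hY, hs, hrec⟩ | ⟨Y, hY, hs, hrec⟩
        · left
          have h1 := FS.shift hfs (e + 1)
          refine FS.mono ?_ h1
          show 2 ^ (e + 1) * N ≤ 2 ^ (e + 1) * N + Fa (N + e + 1) + Fs (N + e + 1) + N
          omega
        · right; left
          refine ⟨fun k => Y (k + (e + 1)), ?_, ?_, ?_⟩
          · have h1 := Ha (N + e + 1) Y (e + 1) (P.mono (by omega) hY) (by omega)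
            refine P.mono ?_ h1
            show Fa (N + e + 1) ≤ 2 ^ (e + 1) * N + Fa (N + e + 1) + Fs (N + e + 1) + N
            omega
          · have h1 := Hs (N + e + 1) Z (0 + (e + 1)) (P.mono (by omega) hP) (by omega)
            refine SB.mono ?_ h1
            show Fs (N + e + 1) ≤ 2 ^ (e + 1) * N + Fa (N + e + 1) + Fs (N + e + 1) + N
            omega
          · intro k
            show Z (k + 1 + (e + 1)) = Z (k + (e + 1)) ++ Y (k + (e + 1))
            rw [show k + 1 + (e + 1) = (k + (e + 1)) + 1 by ring, hrec]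
        · right; right
          refine ⟨fun k => Y (k + (e + 1)), ?_, ?_, ?_⟩
          · have h1 := Ha (N + e + 1) Y (e + 1) (P.mono (by omega) hY) (by omega)
            refine P.mono ?_ h1
            show Fa (N + e + 1) ≤ 2 ^ (e + 1) * N + Fa (N + e + 1) + Fs (N + e + 1) + N
            omega
          · have h1 := Hs (N + e + 1) Z (0 + (e + 1)) (P.mono (by omega) hP) (by omega)
            refine SB.mono ?_ h1
            show Fs (N + e + 1) ≤ 2 ^ (e + 1) * N + Fa (N + e + 1) + Fs (N + e + 1) + N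
            omega
          · intro k
            show Z (k + 1 + (e + 1)) = Y (k + (e + 1)) ++ Z (k + (e + 1))
            rw [show k + 1 + (e + 1) = (k + (e + 1)) + 1 by ring, hrec]
      · rcases hP.di with h1 | h1
        · left; intro k; exact h1 _ (Nat.le_add_left _ _)
        · right; intro k; exact h1 _ (Nat.le_add_left _ _)
    have hW' : ∀ k, W (k + (e + 1)) =
        ((L.map (fun Z : ℕ → List ℤ => fun k => Z (k + (e + 1)))).map (fun Z => Z k)).flatten := by
      intro k
      rw [hWL, List.map_map]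
      rfl
    obtain ⟨Z, R, hZp, hZne, hRl, hRp, hprod⟩ := HDq_list _ hpc ⟨0, by
      rw [← hW' 0]; exact hne _⟩
    have hRP : P (e + 1) (D N) (fun k => (R.map (fun X => X k)).flatten) := by
      refine ⟨R, ?_, hRp, fun k => rfl⟩
      rw [List.length_map] at hRl
      exact hRl.trans (hLlen.trans hND)
    have hWZ : ∀ k, W (k + (c1 N + (e + 1))) =
        Z (k + c1 N) ++ (R.map (fun X => X (k + c1 N))).flatten := by
      intro k
      rw [← Nat.add_assoc k (c1 N) (e + 1), hW', hprod]
    obtain ⟨i1, i2⟩ := h (D N) Z hZp hZne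
    have j1 := i1 (c1 N) le_rfl
    have j2 := i2 (c1 N) le_rfl
    constructor
    · have h1 : PB (G N) (fun k => (Z (k + c1 N)).headD 0) := by
        refine PB.mono ?_ j1
        show A N ≤ G N
        exact (Nat.le_add_right _ _).trans g2
      have h2 : (fun k => (W (k + (c1 N + (e + 1)))).headD 0) =
          (fun k => (Z (k + c1 N)).headD 0) := by
        funext k
        rw [hWZ k]
        cases hz : Z (k + c1 N) with
        | nil => exact absurd hz (hZne _)
        | cons a t => rfl
      rw [h2]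
      exact h1
    · have h1 : P (e + 1) (B N) (fun k => (R.map (fun X => X (k + c1 N))).flatten) :=
        Hb (D N + c1 N) (fun k => (R.map (fun X => X k)).flatten) (c1 N)
          (P.mono (Nat.le_add_right _ _) hRP) (Nat.le_add_left _ _)
      have h3 := P.mono g2 (P.append j2 h1)
      have h2 : (fun k => (W (k + (c1 N + (e + 1)))).tail) =
          (fun k => (Z (k + c1 N)).tail ++ (R.map (fun X => X (k + c1 N))).flatten) := by
        funext k
        rw [hWZ k, List.tail_append_of_ne_nil (hZne _)]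
      rw [h2]
      exact h3
  constructor
  · exact Ev.mono (Q := PB) (fun N M W h hW => PB.mono h hW) hF1 (fun n => Nat.le_add_right _ _)
      le_rfl (H1 N (c1 N + (e + 1)) (fun k => (W k).headD 0) g1 key.1)
  · exact Ev.mono (Q := P (e + 1)) (fun N M W h hW => P.mono h hW) hF2
      (fun n => Nat.le_add_left _ _) le_rfl
      (H2 N (c1 N + (e + 1)) (fun k => (W k).tail) g1 key.2)

end AW
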