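import Pool.Agent.Lib.MP_dd05d9_lc.HDp
import Pool.Agent.Lib.MP_dd05d9_lc.HDq

/-! induction on `e` with HDp, HDq.  `e = 0`: FS family: head = entry 0, tail = drop 1; Ev_of_PB, Ev_of_P with `c = 0` (take the sum of
the two functions, Ev.mono). -/

set_option autoImplicit false

namespace AW

theorem P.hd0 : ∃ F : ℕ → ℕ, PM F ∧ ∀ (N : ℕ) (W : ℕ → List ℤ), P 0 N W →
    (∀ k, W k ≠ []) → Ev PB F N (fun k => (W k).headD 0) ∧ Ev (P 0) F N (fun k => (W k).tail) := by
  obtain ⟨F1, hF1, H1⟩ := Ev_of_PB PM.id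
  obtain ⟨F2, hF2, H2⟩ := Ev_of_P 0 PM.id
  have hF : PM (fun n => F1 n + F2 n) := PM.add hF1 hF2
  refine ⟨fun n => F1 n + F2 n, hF, fun N W hW hne => ?_⟩
  have hW' : FS N W := hW
  obtain ⟨l, hl, h1, h2⟩ := hW
  have hlpos : 0 < l := by
    rw [← h1 0]
    exact List.length_pos_of_ne_nil (hne 0)
  constructor
  · have hp : PB N (fun k => (W (k + 0)).headD 0) := by
      have e : (fun k => (W (k + 0)).headD 0) = fun k => (W k).getD 0 0 := by
        funext k
        show (W k).headD 0 = (W k).getD 0 0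
        cases W k <;> rfl
      rw [e]
      exact h2 0 hlpos
    exact Ev.mono (Q := PB) (fun _ _ _ h hq => PB.mono h hq) hF1 (fun n => Nat.le_add_right _ _) le_rfl
      (H1 N 0 (fun k => (W k).headD 0) (Nat.zero_le _) hp)
  · have hp : P 0 N (fun k => (W (k + 0)).tail) := by
      have e : (fun k => (W (k + 0)).tail) = fun k => (W k).drop 1 := by
        funext k
        show (W k).tail = (W k).drop 1
        rw [List.drop_one]
      rw [e]
      exact FS.drop 1 hW'
    exact Ev.mono (Q := P 0) (fun _ _ _ h hq => P.mono h hq) hF2 (fun n => Nat.le_add_left _ _) le_rfl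
      (H2 N 0 (fun k => (W k).tail) (Nat.zero_le _) hp)

theorem P.hd (e : ℕ) : ∃ F : ℕ → ℕ, PM F ∧ ∀ (N : ℕ) (W : ℕ → List ℤ), P e N W →
    (∀ k, W k ≠ []) → Ev PB F N (fun k => (W k).headD 0) ∧ Ev (P e) F N (fun k => (W k).tail) := by
  induction e with
  | zero => exact P.hd0
  | succ e ih =>
    obtain ⟨F0, h0, H0'⟩ := ih
    obtain ⟨F1, h1, H1⟩ := HDp e h0 H0'
    exact HDq e h1 H1

end AW
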