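import Pool.Agent.Lib.MP_dd05d9_lc.LD

/-!
`ih`: the statement P.hd at level `e` with function `F0`.  `Z` a piece over `P e N`, `Z k <> []` for all `k`.
 FS: head = entry 0 (`List.getD` = `headD`), tail = drop 1 (FS.drop), P.ofFS; Ev_of_PB / Ev_of_P with c = 0.
 inc `Z (k+1) = Z k ++ Y k`, `Z 0 <> []`: head constant (`|head| <= N`), `tail (Z (k+1)) = tail (Z k) ++ Y k`: P.inc, SB of the tail of `Z 0`.
 dec `Z (k+1) = Y k ++ Z k`: by P.di for `Y`: if `Y k = []` for `k >= e`: `Z k = Z e` for `k >= e`: a constant list, size by P.size; head and tail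
   constant.  Otherwise `Y k <> []` for `k >= e`: shift by `e` (P.shift, size N + e), `ih` for `Y (. + e)`: for a shift `c` (total): `Y (k+c) = x k :: V k`, `x` polynomial, `V` in `P e`;
   then `Z (k+c+1) = x k :: (V k ++ Z (k+c))`: head of the family `Z (. + c + 1)` is `x`, tail is `V k ++ Z (k+c)`: `V` by P.up in `P (e+1)`, `Z (. + c)` by P.shift
   (piece_P), P.append.
-/

set_option autoImplicit false

namespace AW

theorem HDp (e : ℕ) {F0 : ℕ → ℕ} (h0 : PM F0) (ih : ∀ (N : ℕ) (W : ℕ → List ℤ), P e N W →
    (∀ k, W k ≠ []) → Ev PB F0 N (fun k => (W k).headD 0) ∧ Ev (P e) F0 N (fun k => (W k).tail)) :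
    ∃ F : ℕ → ℕ, PM F ∧ ∀ (N : ℕ) (Z : ℕ → List ℤ), Piece (P e N) N Z → (∀ k, Z k ≠ []) →
    Ev PB F N (fun k => (Z k).headD 0) ∧ Ev (P (e + 1)) F N (fun k => (Z k).tail) := by
  obtain ⟨Fs, hFs, Hs⟩ := P.size (e + 1)
  obtain ⟨Fa, hFa, Ha⟩ := P.shift e
  obtain ⟨Fb, hFb, Hb⟩ := P.shift (e + 1)
  -- the sizes
  let c1 : ℕ → ℕ := fun N => F0 (Fa (N + e))
  have hc1 : PM c1 := h0.comp (hFa.comp (PM.id.addc e))
  let A : ℕ → ℕ := fun N => F0 (c1 N)
  have hA : PM A := h0.comp hc1
  let B : ℕ → ℕ := fun N => Fb (N + 1 + (c1 N + e))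
  have hB : PM B := hFb.comp ((PM.id.addc 1).add (hc1.addc e))
  let G : ℕ → ℕ := fun N => (N + 1) + (Fs (N + 1 + e) + 1) + (c1 N + e + 1) + (A N + 1 + B N)
  have hG : PM G := by
    have h1 : PM (fun N => Fs (N + 1 + e) + 1) := (hFs.comp ((PM.id.addc 1).addc e)).addc 1
    exact (((PM.id.addc 1).add h1).add ((hc1.addc e).addc 1)).add ((hA.addc 1).add hB)
  obtain ⟨F1, hF1, H1⟩ := Ev_of_PB hG
  obtain ⟨F2, hF2, H2⟩ := Ev_of_P (e + 1) hG
  refine ⟨fun n => F1 n + F2 n, hF1.add hF2, ?_⟩
  intro N Z hZ hne
  -- it is enough to find shifts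
  have key : ∃ c c' : ℕ, c ≤ G N ∧ c' ≤ G N ∧ PB (G N) (fun k => (Z (k + c)).headD 0) ∧
      P (e + 1) (G N) (fun k => (Z (k + c')).tail) := by
    have hP : P (e + 1) (N + 1) Z := piece_P hZ
    have g1 : N + 1 ≤ G N := by
      show N + 1 ≤ (N + 1) + (Fs (N + 1 + e) + 1) + (c1 N + e + 1) + (A N + 1 + B N)
      omega
    have g2 : Fs (N + 1 + e) + 1 ≤ G N := by
      show Fs (N + 1 + e) + 1 ≤ (N + 1) + (Fs (N + 1 + e) + 1) + (c1 N + e + 1) + (A N + 1 + B N)
      omega
    have g3 : c1 N + e + 1 ≤ G N := by
      show c1 N + e + 1 ≤ (N + 1) + (Fs (N + 1 + e) + 1) + (c1 N + e + 1) + (A N + 1 + B N)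
      omega
    have g4 : A N + 1 + B N ≤ G N := by
      show A N + 1 + B N ≤ (N + 1) + (Fs (N + 1 + e) + 1) + (c1 N + e + 1) + (A N + 1 + B N)
      omega
    have g0 : 0 ≤ G N := Nat.zero_le _
    rcases hZ with hfs | ⟨Y, hY, hs, hrec⟩ | ⟨Y, hY, hs, hrec⟩
    · -- fixed shape
      refine ⟨0, 0, g0, g0, ?_, ?_⟩
      · obtain ⟨l, hl, hlen, hpb⟩ := hfs
        have hl0 : 0 < l := by
          rw [← hlen 0]
          exact List.length_pos_of_ne_nil (hne 0)
        have h2 := PB.mono (le_trans (Nat.le_succ N) g1) (hpb 0 hl0)
        have h3 : (fun k => (Z (k + 0)).headD 0) = (fun k => (Z k).getD 0 0) := by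
          funext k
          show (Z k).headD 0 = (Z k).getD 0 0
          cases h : Z k with
          | nil => rfl
          | cons a t => rfl
        rw [h3]
        exact h2
      · have h1 : FS N (fun k => (Z k).drop 1) := FS.drop 1 hfs
        have h2 : P (e + 1) (G N) (fun k => (Z k).drop 1) := P.mono g1 (P.ofFS h1)
        have h3 : (fun k => (Z (k + 0)).tail) = (fun k => (Z k).drop 1) := by
          funext k
          show (Z k).tail = (Z k).drop 1
          rw [List.drop_one]
        rw [h3]
        exact h2
    · -- increasing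
      have hcons : ∀ k, (Z k).headD 0 = (Z 0).headD 0 := by
        intro k
        induction k with
        | zero => rfl
        | succ k ihk =>
          rw [hrec k, ← ihk]
          cases h : Z k with
          | nil => exact absurd h (hne k)
          | cons a t => rfl
      refine ⟨0, 0, g0, g0, ?_, ?_⟩
      · have hb : |(Z 0).headD 0| ≤ (N : ℤ) := by
          cases h : Z 0 with
          | nil => exact absurd h (hne 0)
          | cons a t =>
            apply hs.2
            rw [h]
            exact List.mem_cons_self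
        have h1 := PB.mono g1 (PB.const hb)
        have h3 : (fun k => (Z (k + 0)).headD 0) = (fun _ => (Z 0).headD 0) :=
          funext fun k => hcons k
        rw [h3]
        exact h1
      · have h1 : P (e + 1) (N + 1) (fun k => (Z k).tail) := by
          refine P.inc (Y := Y) hY ?_ ?_
          · refine ⟨?_, ?_⟩
            · rw [List.length_tail]
              exact (Nat.sub_le _ _).trans hs.1
            · intro x hx
              exact hs.2 x (List.mem_of_mem_tail hx)
          · intro k
            show (Z (k + 1)).tail = (Z k).tail ++ Y k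
            rw [hrec k, List.tail_append_of_ne_nil (hne k)]
        exact P.mono g1 h1
    · -- decreasing
      rcases hY.di with hdi | hdi
      · -- constant from time e on
        have hconst : ∀ k, Z (k + e) = Z e := by
          intro k
          induction k with
          | zero => rw [Nat.zero_add]
          | succ k ihk =>
            have h1 : k + 1 + e = (k + e) + 1 := by ring
            rw [h1, hrec (k + e), hdi (k + e) (Nat.le_add_left _ _), List.nil_append, ihk]
        have hsb : SB (Fs (N + 1 + e)) (Z e) :=
          Hs (N + 1 + e) Z e (P.mono (Nat.le_add_right _ _) hP) (Nat.le_add_left _ _)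
        have ge : e ≤ G N := by
          have : e ≤ c1 N + e + 1 := by omega
          exact this.trans g3
        refine ⟨e, e, ge, ge, ?_, ?_⟩
        · have hb : |(Z e).headD 0| ≤ ((Fs (N + 1 + e) : ℕ) : ℤ) := by
            cases h : Z e with
            | nil => exact absurd h (hne e)
            | cons a t =>
              apply hsb.2
              rw [h]
              exact List.mem_cons_self
          have h1 := PB.mono g2 (PB.const hb)
          have h3 : (fun k => (Z (k + e)).headD 0) = (fun _ => (Z e).headD 0) := by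
            funext k
            rw [hconst k]
          rw [h3]
          exact h1
        · have h1 : SB (Fs (N + 1 + e)) (Z e).tail := by
            refine ⟨?_, ?_⟩
            · rw [List.length_tail]
              exact (Nat.sub_le _ _).trans hsb.1
            · intro x hx
              exact hsb.2 x (List.mem_of_mem_tail hx)
          have h4 : FS (Fs (N + 1 + e) + 1) (fun _ => (Z e).tail) := FS.const h1
          have h3 : P (e + 1) (Fs (N + 1 + e) + 1 + 1) (fun _ => (Z e).tail) := P.ofFS h4
          have g5 : Fs (N + 1 + e) + 1 + 1 ≤ G N := by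
            show Fs (N + 1 + e) + 1 + 1 ≤
              (N + 1) + (Fs (N + 1 + e) + 1) + (c1 N + e + 1) + (A N + 1 + B N)
            omega
          have h5 := P.mono g5 h3
          have h6 : (fun k => (Z (k + e)).tail) = (fun _ => (Z e).tail) := by
            funext k
            rw [hconst k]
          rw [h6]
          exact h5
      · -- growing at the left end
        have hY' : P e (Fa (N + e)) (fun k => Y (k + e)) :=
          Ha (N + e) Y e (P.mono (Nat.le_add_right _ _) hY) (Nat.le_add_left _ _)
        obtain ⟨i1, i2⟩ := ih (Fa (N + e)) (fun k => Y (k + e)) hY'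
          (fun k => hdi (k + e) (Nat.le_add_left _ _))
        have j1 := i1 (c1 N) le_rfl
        have j2 := i2 (c1 N) le_rfl
        have hshift : ∀ k, Z (k + (c1 N + e + 1)) = Y (k + c1 N + e) ++ Z (k + (c1 N + e)) := by
          intro k
          have h1 : k + (c1 N + e + 1) = (k + c1 N + e) + 1 := by ring
          rw [h1, hrec (k + c1 N + e), Nat.add_assoc k (c1 N) e]
        have hYne : ∀ k, Y (k + c1 N + e) ≠ [] := fun k => hdi _ (Nat.le_add_left _ _)
        refine ⟨c1 N + e + 1, c1 N + e + 1, g3, g3, ?_, ?_⟩
        · have h1 : PB (G N) (fun k => (Y (k + c1 N + e)).headD 0) := by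
            refine PB.mono ?_ j1
            show A N ≤ G N
            have : A N ≤ A N + 1 + B N := by omega
            exact this.trans g4
          have h3 : (fun k => (Z (k + (c1 N + e + 1))).headD 0) =
              (fun k => (Y (k + c1 N + e)).headD 0) := by
            funext k
            rw [hshift k]
            cases h : Y (k + c1 N + e) with
            | nil => exact absurd h (hYne k)
            | cons a t => rfl
          rw [h3]
          exact h1
        · have h1 : P (e + 1) (A N + 1) (fun k => (Y (k + c1 N + e)).tail) := P.up j2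
          have h2 : P (e + 1) (B N) (fun k => Z (k + (c1 N + e))) :=
            Hb (N + 1 + (c1 N + e)) Z (c1 N + e) (P.mono (Nat.le_add_right _ _) hP)
              (Nat.le_add_left _ _)
          have h3 := P.mono g4 (P.append h1 h2)
          have h4 : (fun k => (Z (k + (c1 N + e + 1))).tail) =
              (fun k => (Y (k + c1 N + e)).tail ++ Z (k + (c1 N + e))) := by
            funext k
            rw [hshift k, List.tail_append_of_ne_nil (hYne k)]
          rw [h4]
          exact h3
  obtain ⟨c, c', hc, hc', hpb, hp⟩ := key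
  constructor
  · exact Ev.mono (Q := PB) (fun N M W h hW => PB.mono h hW) hF1 (fun n => Nat.le_add_right _ _)
      le_rfl (H1 N c (fun k => (Z k).headD 0) hc hpb)
  · exact Ev.mono (Q := P (e + 1)) (fun N M W h hW => P.mono h hW) hF2
      (fun n => Nat.le_add_left _ _) le_rfl (H2 N c' (fun k => (Z k).tail) hc' hp)

end AW
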