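import Pool.Agent.Lib.MP_dd05d9_lc.PB3

/-!
Second wave, part (d): if equal words of the two systems are always ultimately periodic, then equality is
decidable (both equality and inequality are recursively enumerable).
-/

set_option autoImplicit false

namespace AW

theorem re_exists {α : Type} [Primcodable α] {R : α → ℕ → Prop} (hR : PrimrecRel R) :
    REPred (fun a => ∃ n, R a n) := by
  obtain ⟨inst, hd⟩ := hR
  have h1 : Partrec₂ (fun (a : α) (n : ℕ) =>
      (Part.some (@decide (R a n) (inst (a, n))) : Part Bool)) := hd.to_comp.partrec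
  refine (Partrec.rfind h1).dom_re.of_eq ?_
  intro a
  rw [Nat.rfind_dom]
  constructor
  · rintro ⟨n, h, _⟩
    exact ⟨n, @of_decide_eq_true _ (inst (a, n)) (Part.mem_some_iff.1 h).symm⟩
  · rintro ⟨n, h⟩
    exact ⟨n, Part.mem_some_iff.2 (@decide_eq_true _ (inst (a, n)) h).symm, fun _ => trivial⟩

/-- the letter number `i` of the word of the pair `u` -/
noncomputable def vl {k : ℕ} {σ : Type} [Fintype σ] (M : DFA (Fin k) σ) (u : List ℕ × List ℕ)
    (i : ℕ) : ℕ := (catN M u.1 u.2 (Fintype.card σ * (i + 1))).getD i 0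

theorem vl_primrec {k : ℕ} {σ : Type} [Fintype σ] (M : DFA (Fin k) σ) :
    Primrec (fun x : (List ℕ × List ℕ) × ℕ => vl M x.1 x.2) := by
  unfold vl
  exact (Primrec.list_getD 0).comp ((catN_primrec M).comp (Primrec.fst.pair
    (Primrec.nat_mul.comp (Primrec.const _) (Primrec.succ.comp Primrec.snd)))) Primrec.snd

theorem vl_eq {k : ℕ} {σ : Type} [Fintype σ] {M : DFA (Fin k) σ}
    (hinf : {w : List (Fin k) | w ∈ M.accepts}.Infinite) {t o : List ℕ} {f : ℕ → ℤ}
    (hf : ∀ m, IsPre (cat M t o m) f) (i : ℕ) : ((vl M (t, o) i : ℕ) : ℤ) = f i := by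
  unfold vl
  rw [getD_catN, (hf _).getD (cat_len hinf t o i)]

/-- the input: two pairs of tables -/
abbrev Inp : Type := (List ℕ × List ℕ) × (List ℕ × List ℕ)

/-- size of the input and of the number `n` -/
def sz (x : Inp) (n : ℕ) : ℕ :=
  szN x.1.1 + szN x.1.2 + (szN x.2.1 + szN x.2.2) + (n + 1)

theorem sz_primrec : Primrec (fun y : Inp × ℕ => sz y.1 y.2) := by
  unfold sz
  exact Primrec.nat_add.comp (Primrec.nat_add.comp
    (Primrec.nat_add.comp (szN_primrec.comp (Primrec.fst.comp (Primrec.fst.comp Primrec.fst)))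
      (szN_primrec.comp (Primrec.snd.comp (Primrec.fst.comp Primrec.fst))))
    (Primrec.nat_add.comp (szN_primrec.comp (Primrec.fst.comp (Primrec.snd.comp Primrec.fst)))
      (szN_primrec.comp (Primrec.snd.comp (Primrec.snd.comp Primrec.fst)))))
    (Primrec.succ.comp Primrec.snd)

/-- the common bound -/
def KK (k1 c1 k2 c2 : ℕ) (x : Inp) (n : ℕ) : ℕ := FP k1 c1 (sz x n) + FP k2 c2 (sz x n)

theorem KK_primrec (k1 c1 k2 c2 : ℕ) : Primrec (fun y : Inp × ℕ => KK k1 c1 k2 c2 y.1 y.2) := by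
  unfold KK
  exact Primrec.nat_add.comp ((FP_PM k1 c1).1.comp sz_primrec) ((FP_PM k2 c2).1.comp sz_primrec)

/-- for two given numbers `(a, p)` coded by `n`: agreement and periodicity on a computable segment -/
def RR {k1 k2 : ℕ} {σ1 σ2 : Type} [Fintype σ1] [Fintype σ2] (M1 : DFA (Fin k1) σ1)
    (M2 : DFA (Fin k2) σ2) (x : Inp) (n : ℕ) : Prop :=
  (∀ i ∈ List.range (KK k1 (Fintype.card σ1) k2 (Fintype.card σ2) x n +
      (n.unpair.1 + n.unpair.2 + 1)), vl M1 x.1 i = vl M2 x.2 i) ∧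
    (∀ i ∈ List.range (KK k1 (Fintype.card σ1) k2 (Fintype.card σ2) x n),
      vl M1 x.1 (n.unpair.1 + i + (n.unpair.2 + 1)) = vl M1 x.1 (n.unpair.1 + i))

theorem RR_primrec {k1 k2 : ℕ} {σ1 σ2 : Type} [Fintype σ1] [Fintype σ2] (M1 : DFA (Fin k1) σ1)
    (M2 : DFA (Fin k2) σ2) : PrimrecRel (RR M1 M2) := by
  have u1 : Primrec (fun y : Inp × ℕ => y.2.unpair.1) :=
    Primrec.fst.comp (Primrec.unpair.comp Primrec.snd)
  have u2 : Primrec (fun y : Inp × ℕ => y.2.unpair.2) :=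
    Primrec.snd.comp (Primrec.unpair.comp Primrec.snd)
  have r1 : PrimrecRel (fun (i : ℕ) (y : Inp × ℕ) => vl M1 y.1.1 i = vl M2 y.1.2 i) := by
    refine Primrec.eq.comp ?_ ?_
    · exact (vl_primrec M1).comp ((Primrec.fst.comp (Primrec.fst.comp Primrec.snd)).pair Primrec.fst)
    · exact (vl_primrec M2).comp ((Primrec.snd.comp (Primrec.fst.comp Primrec.snd)).pair Primrec.fst)
  have r2 : PrimrecRel (fun (i : ℕ) (y : Inp × ℕ) =>
      vl M1 y.1.1 (y.2.unpair.1 + i + (y.2.unpair.2 + 1)) = vl M1 y.1.1 (y.2.unpair.1 + i)) := by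
    refine Primrec.eq.comp ?_ ?_
    · exact (vl_primrec M1).comp ((Primrec.fst.comp (Primrec.fst.comp Primrec.snd)).pair
        (Primrec.nat_add.comp (Primrec.nat_add.comp (u1.comp Primrec.snd) Primrec.fst)
          (Primrec.succ.comp (u2.comp Primrec.snd))))
    · exact (vl_primrec M1).comp ((Primrec.fst.comp (Primrec.fst.comp Primrec.snd)).pair
        (Primrec.nat_add.comp (u1.comp Primrec.snd) Primrec.fst))
  have hK := KK_primrec k1 (Fintype.card σ1) k2 (Fintype.card σ2)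
  exact PrimrecPred.and
    (r1.forall_mem_list.comp (Primrec.list_range.comp (Primrec.nat_add.comp hK
      (Primrec.succ.comp (Primrec.nat_add.comp u1 u2)))) Primrec.id)
    (r2.forall_mem_list.comp (Primrec.list_range.comp hK) Primrec.id)

theorem RR_iff {k1 k2 : ℕ} {σ1 σ2 : Type} [Fintype σ1] [Fintype σ2] {M1 : DFA (Fin k1) σ1}
    {M2 : DFA (Fin k2) σ2} (h1 : {w : List (Fin k1) | w ∈ M1.accepts}.Infinite)
    (h2 : {w : List (Fin k2) | w ∈ M2.accepts}.Infinite) (x : Inp) (f1 f2 : ℕ → ℤ)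
    (hf1 : ∀ m, IsPre (cat M1 x.1.1 x.1.2 m) f1) (hf2 : ∀ m, IsPre (cat M2 x.2.1 x.2.2 m) f2)
    (hCOB : f1 = f2 → ∃ a p, ∀ i, a ≤ i → f1 (i + (p + 1)) = f1 i) :
    (∃ n, RR M1 M2 x n) ↔ f1 = f2 := by
  have v1 : ∀ i, ((vl M1 x.1 i : ℕ) : ℤ) = f1 i := fun i => vl_eq h1 (t := x.1.1) (o := x.1.2) hf1 i
  have v2 : ∀ i, ((vl M2 x.2 i : ℕ) : ℤ) = f2 i := fun i => vl_eq h2 (t := x.2.1) (o := x.2.2) hf2 i
  constructor
  · rintro ⟨n, r1, r2⟩
    have e1 : ∀ i, i < KK k1 (Fintype.card σ1) k2 (Fintype.card σ2) x n +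
        (n.unpair.1 + n.unpair.2 + 1) → f1 i = f2 i := by
      intro i hi
      rw [← v1, ← v2, r1 i (List.mem_range.2 hi)]
    have e2 : ∀ i, n.unpair.1 ≤ i → i + (n.unpair.2 + 1) <
        KK k1 (Fintype.card σ1) k2 (Fintype.card σ2) x n → f1 (i + (n.unpair.2 + 1)) = f1 i := by
      intro i hi hi2
      have := r2 (i - n.unpair.1) (List.mem_range.2 (by omega))
      have hi3 : n.unpair.1 + (i - n.unpair.1) = i := by omega
      rw [hi3] at this
      rw [← v1, ← v1, this]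
    have hn1 : n.unpair.1 ≤ n := Nat.unpair_left_le n
    have hn2 : n.unpair.2 ≤ n := Nat.unpair_right_le n
    have hsz : sz x n = szN x.1.1 + szN x.1.2 + (szN x.2.1 + szN x.2.2) + (n + 1) := rfl
    have hKK : KK k1 (Fintype.card σ1) k2 (Fintype.card σ2) x n =
      FP k1 (Fintype.card σ1) (sz x n) + FP k2 (Fintype.card σ2) (sz x n) := rfl
    have p1 := PERB h1 (N := sz x n) (a := n.unpair.1) (p := n.unpair.2 + 1) (t := x.1.1) (o := x.1.2)
      (SN_szN (by omega)) (SN_szN (by omega)) (by omega) (by omega) hf1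
      (fun i hi hi2 => e2 i hi (by omega))
    have p2 := PERB h2 (N := sz x n) (a := n.unpair.1) (p := n.unpair.2 + 1) (t := x.2.1) (o := x.2.2)
      (SN_szN (by omega)) (SN_szN (by omega)) (by omega) (by omega) hf2
      (fun i hi hi2 => by
        rw [← e1 i (by omega), ← e1 (i + (n.unpair.2 + 1)) (by omega)]
        exact p1 i hi)
    funext i
    induction i using Nat.strong_induction_on with
    | _ i ih =>
      rcases Nat.lt_or_ge i (n.unpair.1 + n.unpair.2 + 1) with hi | hi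
      · exact e1 i (by omega)
      · have q1 := p1 (i - (n.unpair.2 + 1)) (by omega)
        have q2 := p2 (i - (n.unpair.2 + 1)) (by omega)
        have q3 : i - (n.unpair.2 + 1) + (n.unpair.2 + 1) = i := by omega
        rw [q3] at q1 q2
        rw [q1, q2]
        exact ih _ (by omega)
  · intro h
    obtain ⟨a, p, hp⟩ := hCOB h
    refine ⟨Nat.pair a p, ?_, ?_⟩
    · intro i _
      have : ((vl M1 x.1 i : ℕ) : ℤ) = ((vl M2 x.2 i : ℕ) : ℤ) := by rw [v1, v2, h]
      exact_mod_cast this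
    · intro i _
      rw [Nat.unpair_pair]
      have : ((vl M1 x.1 (a + i + (p + 1)) : ℕ) : ℤ) = ((vl M1 x.1 (a + i) : ℕ) : ℤ) := by
        rw [v1, v1]
        exact hp _ (by omega)
      exact_mod_cast this

/-- if equal words of the two systems are always ultimately periodic, then equality is decidable -/
theorem re_core {k1 k2 : ℕ} {σ1 σ2 : Type} [Fintype σ1] [Fintype σ2] (M1 : DFA (Fin k1) σ1)
    (M2 : DFA (Fin k2) σ2) (h1 : {w : List (Fin k1) | w ∈ M1.accepts}.Infinite)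
    (h2 : {w : List (Fin k2) | w ∈ M2.accepts}.Infinite)
    (hCOB : ∀ (t1 o1 t2 o2 : List ℕ) (f : ℕ → ℤ), (∀ m, IsPre (cat M1 t1 o1 m) f) →
      (∀ m, IsPre (cat M2 t2 o2 m) f) → ∃ a p, ∀ i, a ≤ i → f (i + (p + 1)) = f i) :
    ComputablePred (fun (p : (List ℕ × List ℕ) × (List ℕ × List ℕ)) =>
      ∀ w1 ∈ M1.accepts, ∀ w2 ∈ M2.accepts,
        Set.ncard {v : List (Fin k1) | v ∈ M1.accepts ∧
            (v.length < w1.length ∨ (v.length = w1.length ∧ List.Lex (· < ·) v w1))} =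
          Set.ncard {v : List (Fin k2) | v ∈ M2.accepts ∧
            (v.length < w2.length ∨ (v.length = w2.length ∧ List.Lex (· < ·) v w2))} →
        p.1.2.getD (List.foldl (fun q a => p.1.1.getD (q * k1 + a.val) 0) 0 w1) 0 =
          p.2.2.getD (List.foldl (fun q a => p.2.1.getD (q * k2 + a.val) 0) 0 w2) 0) := by
  classical
  have hw1 : ∀ x : Inp, ∃ f1 : ℕ → ℤ, ∀ m, IsPre (cat M1 x.1.1 x.1.2 m) f1 :=
    fun x => cat_word h1 x.1.1 x.1.2
  have hw2 : ∀ x : Inp, ∃ f2 : ℕ → ℤ, ∀ m, IsPre (cat M2 x.2.1 x.2.2 m) f2 :=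
    fun x => cat_word h2 x.2.1 x.2.2
  have key : ∀ x : Inp, (∃ n, RR M1 M2 x n) ↔
      (∀ w1 ∈ M1.accepts, ∀ w2 ∈ M2.accepts,
        Set.ncard {v : List (Fin k1) | v ∈ M1.accepts ∧
            (v.length < w1.length ∨ (v.length = w1.length ∧ List.Lex (· < ·) v w1))} =
          Set.ncard {v : List (Fin k2) | v ∈ M2.accepts ∧
            (v.length < w2.length ∨ (v.length = w2.length ∧ List.Lex (· < ·) v w2))} →
        x.1.2.getD (List.foldl (fun q a => x.1.1.getD (q * k1 + a.val) 0) 0 w1) 0 =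
          x.2.2.getD (List.foldl (fun q a => x.2.1.getD (q * k2 + a.val) 0) 0 w2) 0) := by
    intro x
    obtain ⟨f1, hf1⟩ := hw1 x
    obtain ⟨f2, hf2⟩ := hw2 x
    rw [pred_iff M1 M2 h1 h2 x.1.1 x.1.2 x.2.1 x.2.2 f1 f2 hf1 hf2]
    refine RR_iff h1 h2 x f1 f2 hf1 hf2 (fun h => ?_)
    exact hCOB x.1.1 x.1.2 x.2.1 x.2.2 f1 hf1 (fun m => h ▸ hf2 m)
  have hr : PrimrecRel (fun (x : Inp) (i : ℕ) => ¬ vl M1 x.1 i = vl M2 x.2 i) := by
    refine PrimrecPred.not (Primrec.eq.comp ?_ ?_)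
    · exact (vl_primrec M1).comp ((Primrec.fst.comp Primrec.fst).pair Primrec.snd)
    · exact (vl_primrec M2).comp ((Primrec.snd.comp Primrec.fst).pair Primrec.snd)
  rw [ComputablePred.computable_iff_re_compl_re']
  refine ⟨(re_exists (RR_primrec M1 M2)).of_eq key, (re_exists hr).of_eq ?_⟩
  intro x
  rw [← key x]
  obtain ⟨f1, hf1⟩ := hw1 x
  obtain ⟨f2, hf2⟩ := hw2 x
  have v1 : ∀ i, ((vl M1 x.1 i : ℕ) : ℤ) = f1 i := fun i => vl_eq h1 (t := x.1.1) (o := x.1.2) hf1 i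
  have v2 : ∀ i, ((vl M2 x.2 i : ℕ) : ℤ) = f2 i := fun i => vl_eq h2 (t := x.2.1) (o := x.2.2) hf2 i
  rw [RR_iff h1 h2 x f1 f2 hf1 hf2 (fun h => hCOB x.1.1 x.1.2 x.2.1 x.2.2 f1 hf1 (fun m => h ▸ hf2 m))]
  constructor
  · rintro ⟨i, hi⟩ h
    refine hi ?_
    have : ((vl M1 x.1 i : ℕ) : ℤ) = ((vl M2 x.2 i : ℕ) : ℤ) := by rw [v1, v2, h]
    exact_mod_cast this
  · intro h
    by_contra hc
    refine h ?_
    funext i
    have : vl M1 x.1 i = vl M2 x.2 i := by
      by_contra hi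
      exact hc ⟨i, hi⟩
    rw [← v1, ← v2, this]

end AW
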