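import Pool.Agent.Lib.MP_dd05d9_lc.SF
import Pool.Agent.Lib.MP_dd05d9_lc.GMul
import Pool.Agent.Lib.MP_dd05d9_lc.FSdl
import Pool.Agent.Lib.MP_dd05d9_lc.RXm

/-!
Given: for all pieces `Z` over `P e N` : `Ev (GP e') F0 M` of `cmp (dl R (Z k))` (hypothesis `h`).  Show the same for all `W` in `P (e+1) N`.
`W k = Z1 k ++ ... ++ Zj k`, `j <= N <= M`.  With `n = R.natDegree` and `rest_i = Z_{i+1} ++ ... ++ Z_j`:
`dl R (Z_i ++ rest_i) = dl R Z_i ++ (dl R (sfx n Z_i ++ take n rest_i) ++ dl R rest_i)` (dl_append), so by list induction `cmp (dl R (W k))` is the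
product (foldr gm) of `cmp (dl R (Z_i k))` and `cmp (dl R (sfx n (Z_i k) ++ take n (rest_i k)))`, `i = 1..j`: `2 j` factors.
`sfx n Z_i`: P.sf for the piece alone (in `P (e+1) (N+1)`, then mono to `M + 1`; `n <= M`), `take n rest_i`: P.pr, `rest_i` in `P (e+1) N`; FS.append, FS.dl, cmp_FS:
`Ev (GP e')`.  GP.prod (N there := 2 M).  [Ev: combine for a common shift `c`: for `c >= F M` every ingredient is available.]
-/

set_option autoImplicit false

namespace AW

private theorem HF_mono (e N M : ℕ) (W : ℕ → List ℤ × ℤ) (h : N ≤ M) (hW : GP e N W) :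
    GP e M W := GP.mono h hW

private theorem HF_unshift {α : Type} {Q : ℕ → (ℕ → α) → Prop}
    (hQ : ∀ N M W, N ≤ M → Q N W → Q M W)
    {F F' : ℕ → ℕ} (hF : Monotone F) (hFF : ∀ n, F n ≤ F' n) {N N' c0 : ℕ} (h : F N + c0 ≤ F' N')
    {W : ℕ → α} (hW : Ev Q F N (fun k => W (k + c0))) : Ev Q F' N' W := by
  intro c hc
  have h1 := hW (c - c0) (by omega)
  have h2 : (fun k => (fun k => W (k + c0)) (k + (c - c0))) = fun k => W (k + c) := by
    funext k
    change W (k + (c - c0) + c0) = W (k + c)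
    congr 1
    omega
  rw [h2] at h1
  exact hQ _ _ _ ((hF (Nat.sub_le c c0)).trans (hFF c)) h1

private theorem HF_mid (e e' : ℕ) : ∃ F : ℕ → ℕ, PM F ∧
    ∀ (N M : ℕ) (R : Polynomial ℤ), N ≤ M → RB N M R → ∀ Z V : ℕ → List ℤ,
    P (e + 1) (N + 1) Z → P (e + 1) N V →
    Ev (GP e') F M (fun k => cmp (dl R (sfx R.natDegree (Z k) ++ (V k).take R.natDegree))) := by
  obtain ⟨Fs, hFs, HFs⟩ := P.sf (e + 1)
  obtain ⟨Fp, hFp, HFp⟩ := P.pr (e + 1)
  obtain ⟨Fd, hFd, HFd⟩ := FS.dl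
  obtain ⟨Fc, hFc, HFc⟩ := cmp_FS e'
  have hc : PM (fun M => Fs (M + 1) + Fp (M + 1)) :=
    (PM.comp (F := Fs) (G := fun M => M + 1) hFs (PM.addc PM.id 1)).add
      (PM.comp (F := Fp) (G := fun M => M + 1) hFp (PM.addc PM.id 1))
  have hm : PM (fun M => Fs (Fs (M + 1) + Fp (M + 1)) + Fp (Fs (M + 1) + Fp (M + 1)) + M) :=
    ((PM.comp hFs hc).add (PM.comp hFp hc)).add PM.id
  have hx := PM.comp hFd hm
  have hy := PM.comp hFc hx
  refine ⟨_, hy.add hc, ?_⟩
  intro N M R hNM hR Z V hZ hV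
  have a1 := HFs (M + 1) R.natDegree Z (P.mono (by omega) hZ) (by have := hR.2.1; omega)
    (Fs (M + 1) + Fp (M + 1)) (Nat.le_add_right _ _)
  have a2 := HFp (M + 1) R.natDegree V (P.mono (by omega) hV) (by have := hR.2.1; omega)
    (Fs (M + 1) + Fp (M + 1)) (Nat.le_add_left _ _)
  have a3 := FS.mono (Nat.le_add_right _ M) (FS.append a1 a2)
  have a4 := HFd _ _ R a3 (hR.2.1.trans (Nat.le_add_left _ _))
    (fun j => (hR.2.2.1 j).trans (by exact_mod_cast Nat.le_add_left _ _))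
  have a5 := HFc _ _ a4
  have hFF : ∀ n, Fc n ≤ (fun M => Fc (Fd (Fs (Fs (M + 1) + Fp (M + 1)) +
      Fp (Fs (M + 1) + Fp (M + 1)) + M)) + (Fs (M + 1) + Fp (M + 1))) n :=
    fun n => (hFc.2.1 (hx.2.2 n)).trans (Nat.le_add_right _ _)
  exact HF_unshift (HF_mono e') hFc.2.1 hFF (c0 := Fs (M + 1) + Fp (M + 1)) (N' := M)
    (W := fun k => cmp (dl R (sfx R.natDegree (Z k) ++ (V k).take R.natDegree))) le_rfl a5

theorem HF (e e' : ℕ) {F0 : ℕ → ℕ} (h0 : PM F0) : ∃ F : ℕ → ℕ, PM F ∧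
    ∀ (N M : ℕ) (R : Polynomial ℤ), N ≤ M → RB N M R →
    (∀ Z : ℕ → List ℤ, Piece (P e N) N Z → Ev (GP e') F0 M (fun k => cmp (dl R (Z k)))) →
    ∀ W : ℕ → List ℤ, P (e + 1) N W → Ev (GP e') F M (fun k => cmp (dl R (W k))) := by
  obtain ⟨F2, hF2, HF2⟩ := HF_mid e e'
  obtain ⟨F3, hF3, HF3⟩ := GP.prod e' (h0.add hF2)
  have hF' : PM (fun n => F3 (n * 2)) := PM.comp (F := F3) (G := fun n => n * 2) hF3
    (PM.mulc PM.id 2 (by norm_num))
  refine ⟨fun n => F3 (n * 2), hF', ?_⟩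
  intro N M R hNM hR hP W hW
  obtain ⟨L, hL, hLP, hLW⟩ := hW
  -- the list of factors
  have key : ∀ L : List (ℕ → List ℤ), L.length ≤ N → (∀ Z ∈ L, Piece (P e N) N Z) →
      ∃ LL : List (ℕ → List ℤ × ℤ), LL.length = 2 * L.length ∧
        (∀ G ∈ LL, Ev (GP e') (fun n => F0 n + F2 n) (M * 2) G) ∧
        ∀ k, cmp (dl R ((L.map (fun Z => Z k)).flatten)) =
          (LL.map (fun G => G k)).foldr gm ([], 0) := by
    intro L
    induction L with
    | nil =>
      intro _ _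
      refine ⟨[], rfl, fun G hG => absurd hG List.not_mem_nil, fun k => ?_⟩
      simp [dl, cmp]
    | cons Z L ih =>
      intro hlen hpc
      rw [List.length_cons] at hlen
      obtain ⟨LL, l1, l2, l3⟩ := ih (by omega) (fun Z' hZ' => hpc Z' (List.mem_cons_of_mem _ hZ'))
      have hZ := hpc Z List.mem_cons_self
      have hZP : P (e + 1) (N + 1) Z := by
        refine P.mono (Nat.le_succ N) ⟨[Z], by simpa using (by omega : 1 ≤ N), ?_, fun k => by simp⟩
        intro Z' hZ'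
        rw [List.mem_singleton] at hZ'
        subst hZ'
        exact hZ
      have hVP : P (e + 1) N (fun k => (L.map (fun Z => Z k)).flatten) :=
        ⟨L, by omega, fun Z' hZ' => hpc Z' (List.mem_cons_of_mem _ hZ'), fun _ => rfl⟩
      have e1 := hP Z hZ
      have e2 := HF2 N M R hNM hR Z _ hZP hVP
      refine ⟨(fun k => cmp (dl R (Z k))) :: (fun k => cmp (dl R (sfx R.natDegree (Z k) ++
        ((L.map (fun Z => Z k)).flatten).take R.natDegree))) :: LL, ?_, ?_, ?_⟩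
      · rw [List.length_cons, List.length_cons, l1, List.length_cons]
        omega
      · intro G hG
        rw [List.mem_cons, List.mem_cons] at hG
        rcases hG with rfl | rfl | hG
        · exact Ev.mono (HF_mono e') h0 (fun n => Nat.le_add_right _ _) (by omega) e1
        · exact Ev.mono (HF_mono e') hF2 (fun n => Nat.le_add_left _ _) (by omega) e2
        · exact l2 G hG
      · intro k
        rw [List.map_cons, List.flatten_cons, dl_append, cmp_append, cmp_append, l3 k]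
        rfl
  obtain ⟨LL, l1, l2, l3⟩ := key L hL hLP
  have h1 := HF3 (M * 2) LL (by omega) l2
  have h2 : (fun k => cmp (dl R (W k))) = fun k => (LL.map (fun G => G k)).foldr gm ([], 0) := by
    funext k
    rw [hLW k, l3 k]
  rw [h2]
  intro c hc
  exact GP.mono (hF3.2.1 (by omega)) (h1 c hc)

end AW
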