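import Pool.Agent.Lib.MP_dd05d9_lc.ADV
import Pool.Agent.Lib.MP_dd05d9_lc.GD

/-!
Hypothesis `h`: for all `Y` in `P (e+1) N`: `Ev (GP e) F0 M` of `cmp (dl R (Y k))`.
Claim: for every piece `Z` over `P (e+1) N`: `Ev (GP (e+1)) F M` of `cmp (dl R (Z k))`.
* `Z` FS: FS.mono to M, FS.dl, cmp_FS.
* inc: `G k = cmp (dl R (Z k))`, adv_inc, ADVi gives `A` `Ev (GP e) F1 M`.  For the shift `c = F1 M`: `A (. + c)` in `GP e (F1 c)`, GP.inc for `G (. + c)` with the size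
  `F1 c + size of G c`, where the size of `G c` comes from P.size (Z in P (e+2) (N+1), mono to M + 1 + c), dl_SB, cmp_SB.  `Ev` of `G (. + c)` gives `Ev` of `G`:
  Ev_of_GP (or directly).
* dec: the same with adv_dec, ADVd, GP.dec.
-/

set_option autoImplicit false

namespace AW

theorem HP_mono (e N M : ℕ) (W : ℕ → List ℤ × ℤ) (h : N ≤ M) (hW : GP e N W) : GP e M W :=
  GP.mono h hW

/-- from an `Ev` of a shifted family to an `Ev` of the family -/
theorem HP_unshift {α : Type} {Q : ℕ → (ℕ → α) → Prop} (hQ : ∀ N M W, N ≤ M → Q N W → Q M W)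
    {F F' : ℕ → ℕ} (hF : Monotone F) (hFF : ∀ n, F n ≤ F' n) {N N' c0 : ℕ} (h : F N + c0 ≤ F' N')
    {W : ℕ → α} (hW : Ev Q F N (fun k => W (k + c0))) : Ev Q F' N' W := by
  intro c hc
  have h1 := hW (c - c0) (by omega)
  have h2 : (fun k => (fun k => W (k + c0)) (k + (c - c0))) = fun k => W (k + c) := by
    funext k
    change W (k + (c - c0) + c0) = W (k + c)
    congr 1
    omega
  rw [h2] at h1
  exact hQ _ _ _ ((hF (Nat.sub_le c c0)).trans (hFF c)) h1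

private theorem HP_rec (e : ℕ) {Fi G : ℕ → ℕ} (hFi : PM Fi) (hG : PM G)
    (hGm : ∀ (N : ℕ) (G' A : ℕ → List ℤ × ℤ), GP e N A → SB N (G' 0).1 → |(G' 0).2| ≤ (N : ℤ) →
      ((∀ k, G' (k + 1) = gm (G' k) (A k)) ∨ (∀ k, G' (k + 1) = gm (A k) (G' k))) →
      Ev (GP (e + 1)) G N G') :
    ∃ F : ℕ → ℕ, PM F ∧ ∀ (N M : ℕ) (R : Polynomial ℤ), N ≤ M → RB N M R →
      ∀ Z : ℕ → List ℤ, P (e + 2) (N + 1) Z → ∀ A : ℕ → List ℤ × ℤ, Ev (GP e) Fi M A →
      ((∀ k, cmp (dl R (Z (k + 1))) = gm (cmp (dl R (Z k))) (A k)) ∨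
        (∀ k, cmp (dl R (Z (k + 1))) = gm (A k) (cmp (dl R (Z k))))) →
      Ev (GP (e + 1)) F M (fun k => cmp (dl R (Z k))) := by
  obtain ⟨S, hS, HS⟩ := P.size (e + 2)
  -- a bound of the size of `cmp (dl R (Z c0))`, `c0 = Fi M`
  let B : ℕ → ℕ := fun M => S (M + 1 + Fi M)
  have hB : PM B := PM.comp (F := S) (G := fun M => M + 1 + Fi M) hS ((PM.addc PM.id 1).add hFi)
  let B2 : ℕ → ℕ := fun M => 2 * (B M * ((M + 1) * M + 1))
  let C : ℕ → ℕ := fun M => (B M * ((M + 1) * (M + 1) + 1)) * 2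
  have hC : PM C := by
    refine PM.mulc ?_ 2 (by norm_num)
    have h1 : PM (fun M => (M + 1) * (M + 1)) := PM.mul (PM.addc PM.id 1) PM.id
    exact PM.mul hB h1
  have hBC : ∀ M, B2 M ≤ C M := by
    intro M
    change 2 * (B M * ((M + 1) * M + 1)) ≤ (B M * ((M + 1) * (M + 1) + 1)) * 2
    rw [mul_comm 2]
    refine Nat.mul_le_mul_right 2 (Nat.mul_le_mul_left _ ?_)
    have : (M + 1) * M ≤ (M + 1) * (M + 1) := Nat.mul_le_mul_left _ (Nat.le_succ M)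
    omega
  have hN' : PM (fun M => Fi (Fi M) + C M) := (PM.comp hFi hFi).add hC
  refine ⟨fun M => G (Fi (Fi M) + C M) + Fi M, (PM.comp (F := G) (G := fun M => Fi (Fi M) + C M)
    hG hN').add hFi, ?_⟩
  intro N M R hNM hR Z hZ A hA hrec
  have hZc : SB (B M) (Z (Fi M)) := by
    have h1 : P (e + 2) (M + 1 + Fi M) Z := P.mono (by omega) hZ
    exact HS _ _ _ h1 (by omega)
  have hd : SB (B M * ((M + 1) * M + 1)) (dl R (Z (Fi M))) := dl_SB R hZc hR.2.1 hR.2.2.1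
  obtain ⟨c1, c2, c3⟩ := cmp_SB hd
  have hle : B M * ((M + 1) * M + 1) ≤ C M := by
    have := hBC M
    change 2 * (B M * ((M + 1) * M + 1)) ≤ C M at this
    omega
  have key := hGm (Fi (Fi M) + C M) (fun k => cmp (dl R (Z (k + Fi M)))) (fun k => A (k + Fi M))
    (GP.mono (Nat.le_add_right _ _) (hA (Fi M) le_rfl))
    (by
      rw [Nat.zero_add]
      exact SB.mono (le_trans (hBC M) (Nat.le_add_left _ _)) c1)
    (by
      rw [Nat.zero_add, abs_of_nonneg c2]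
      refine c3.trans ?_
      exact_mod_cast le_trans hle (Nat.le_add_left _ _))
    (by
      rcases hrec with h | h
      · left
        intro k
        have := h (k + Fi M)
        rw [show k + Fi M + 1 = k + 1 + Fi M by omega] at this
        exact this
      · right
        intro k
        have := h (k + Fi M)
        rw [show k + Fi M + 1 = k + 1 + Fi M by omega] at this
        exact this)
  have hFF : ∀ n, G n ≤ (fun M => G (Fi (Fi M) + C M) + Fi M) n :=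
    fun n => (hG.2.1 (hN'.2.2 n)).trans (Nat.le_add_right _ _)
  exact HP_unshift (HP_mono _) hG.2.1 (F' := fun M => G (Fi (Fi M) + C M) + Fi M) hFF
    (N := Fi (Fi M) + C M) (N' := M) (c0 := Fi M) (W := fun k => cmp (dl R (Z k))) le_rfl key

theorem HP (e : ℕ) {F0 : ℕ → ℕ} (h0 : PM F0) : ∃ F : ℕ → ℕ, PM F ∧
    ∀ (N M : ℕ) (R : Polynomial ℤ), N ≤ M → RB N M R →
    (∀ Y : ℕ → List ℤ, P (e + 1) N Y → Ev (GP e) F0 M (fun k => cmp (dl R (Y k)))) →
    ∀ Z : ℕ → List ℤ, Piece (P (e + 1) N) N Z → Ev (GP (e + 1)) F M (fun k => cmp (dl R (Z k))) := by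
  obtain ⟨Fd, hFd, HFd⟩ := FS.dl
  obtain ⟨Fc, hFc, HFc⟩ := cmp_FS (e + 1)
  obtain ⟨Fi, hFi, HFi⟩ := ADVi e h0
  obtain ⟨Fe, hFe, HFe⟩ := ADVd e h0
  obtain ⟨Gi, hGi, HGi⟩ := GP.inc e
  obtain ⟨Ge, hGe, HGe⟩ := GP.dec e
  have hGG : PM (fun n => Gi n + Ge n) := hGi.add hGe
  have hGm : ∀ (N : ℕ) (G' A : ℕ → List ℤ × ℤ), GP e N A → SB N (G' 0).1 → |(G' 0).2| ≤ (N : ℤ) →
      ((∀ k, G' (k + 1) = gm (G' k) (A k)) ∨ (∀ k, G' (k + 1) = gm (A k) (G' k))) →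
      Ev (GP (e + 1)) (fun n => Gi n + Ge n) N G' := by
    intro N G' A hA h1 h2 h3
    rcases h3 with h3 | h3
    · exact Ev.mono (HP_mono _) hGi (fun n => Nat.le_add_right _ _) le_rfl
        (HGi N G' A hA h1 h2 h3)
    · exact Ev.mono (HP_mono _) hGe (fun n => Nat.le_add_left _ _) le_rfl
        (HGe N G' A hA h1 h2 h3)
  obtain ⟨F1, hF1, H1⟩ := HP_rec e (hFi.add hFe) hGG hGm
  refine ⟨fun M => Fc (Fd M) + F1 M, (PM.comp hFc hFd).add hF1, ?_⟩
  intro N M R hNM hR hY Z hZ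
  rcases hZ with hZ | ⟨Y, hYP, hY0, hrec⟩ | ⟨Y, hYP, hY0, hrec⟩
  · have h1 : FS (Fd M) (fun k => dl R (Z k)) := HFd M Z R (FS.mono hNM hZ) hR.2.1 hR.2.2.1
    have h2 := HFc (Fd M) _ h1
    intro c hc
    have h3 := h2 c (le_trans (Nat.le_add_right _ _) hc)
    refine GP.mono ?_ h3
    exact (hFc.2.1 (hFd.2.2 c)).trans (Nat.le_add_right _ _)
  · have hA := HFi N M R hNM hR hY Z Y hYP hY0 hrec
    have hA' := Ev.mono (HP_mono _) hFi (F' := fun n => Fi n + Fe n)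
      (fun n => Nat.le_add_right _ _) le_rfl hA
    have h1 := H1 N M R hNM hR Z (P.inc hYP hY0 hrec) _ hA' (Or.inl (adv_inc R hrec))
    exact Ev.mono (HP_mono _) hF1 (fun n => Nat.le_add_left _ _) le_rfl h1
  · have hA := HFe N M R hNM hR hY Z Y hYP hY0 hrec
    have hA' := Ev.mono (HP_mono _) hFe (F' := fun n => Fi n + Fe n)
      (fun n => Nat.le_add_left _ _) le_rfl hA
    have h1 := H1 N M R hNM hR Z (P.dec hYP hY0 hrec) _ hA' (Or.inr (adv_dec R hrec))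
    exact Ev.mono (HP_mono _) hF1 (fun n => Nat.le_add_left _ _) le_rfl h1

end AW
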