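import Pool.Agent.Lib.MP_dd05d9_lc.H0
import Pool.Agent.Lib.MP_dd05d9_lc.HF
import Pool.Agent.Lib.MP_dd05d9_lc.HP

/-! induction on `e` with H0, HF, HP -/

set_option autoImplicit false

namespace AW

theorem HH (e : ℕ) : ∃ F : ℕ → ℕ, PM F ∧ ∀ (N M : ℕ) (R : Polynomial ℤ) (W : ℕ → List ℤ), N ≤ M →
    RB N M R → P (e + 1) N W → Ev (GP e) F M (fun k => cmp (dl R (W k))) := by
  induction e with
  | zero =>
    obtain ⟨F0, h0, H0'⟩ := H0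
    obtain ⟨F, hF, h⟩ := HF 0 0 h0
    exact ⟨F, hF, fun N M R W hNM hR hW => h N M R hNM hR (fun Z hZ => H0' N M R Z hNM hR hZ) W hW⟩
  | succ e ih =>
    obtain ⟨F0, h0, H0'⟩ := ih
    obtain ⟨F1, h1, H1⟩ := HP e h0
    obtain ⟨F, hF, h⟩ := HF (e + 1) (e + 1) h1
    exact ⟨F, hF, fun N M R W hNM hR hW => h N M R hNM hR
      (fun Z hZ => H1 N M R hNM hR (fun Y hY => H0' N M R Y hNM hR hY) Z hZ) W hW⟩

end AW
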