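import Pool.Agent.Lib.MP_dd05d9_lc.EV
import Pool.Agent.Lib.MP_dd05d9_lc.DI

/-!
For a PIECE `Z` over `P e N`: either `Z (. + (e+1))` is FS of size `F N` or `|Z k| < |Z (k+1)|` for all `k >= e + 1`.
  FS: clear (shift).  `Z (k+1) = Z k ++ Y k`: by P.di for `Y`: if `Y k = []` for `k >= e` then `Z k = Z (e+1)` for `k >= e + 1`, a constant list of
  size bounded by P.size (as a piece; N replaced by N + e + 1); otherwise the length grows.  The same for `Y k ++ Z k`.
  Product: if all pieces are of the first kind the product is FS (FS.append, list induction, at most `N` pieces: size `N * F N`);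
  otherwise the length grows strictly (the others grow weakly by len_mono).
For `P e`: `e = 0` FS, shift.  Ev_of_FS with `c = e` or `e + 1`, `F0 N = ... + e + 1`.
-/

set_option autoImplicit false

namespace AW

private theorem LD_mono {e N M : ℕ} {Z : ℕ → List ℤ} (h : N ≤ M) (hZ : Piece (P e N) N Z) :
    Piece (P e M) M Z := by
  rcases hZ with hZ | ⟨Y, hY, h0, hk⟩ | ⟨Y, hY, h0, hk⟩
  · exact Or.inl (hZ.mono h)
  · exact Or.inr (Or.inl ⟨Y, hY.mono h, h0.mono h, hk⟩)
  · exact Or.inr (Or.inr ⟨Y, hY.mono h, h0.mono h, hk⟩)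

private theorem LD_piece {e N : ℕ} {Z : ℕ → List ℤ} (hZ : Piece (P e N) N Z) :
    P (e + 1) (N + 1) Z := by
  refine ⟨[Z], by simp, fun Z' hZ' => ?_, fun k => by simp⟩
  rw [List.mem_singleton] at hZ'
  subst hZ'
  exact LD_mono (Nat.le_succ N) hZ

private theorem LD_const {Z : ℕ → List ℤ} {e : ℕ} (h : ∀ k, e ≤ k → Z (k + 1) = Z k) (k : ℕ) :
    Z (k + (e + 1)) = Z (e + 1) := by
  induction k with
  | zero => rw [Nat.zero_add]
  | succ k ih =>
    have h1 := h (k + (e + 1)) (by omega)
    rw [← ih, ← h1]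
    congr 1
    omega

private theorem LD_core (e : ℕ) : ∃ F : ℕ → ℕ, PM F ∧ ∀ (N : ℕ) (Z : ℕ → List ℤ),
    Piece (P e N) N Z → FS (F N) (fun k => Z (k + (e + 1))) ∨
      ∀ k, e + 1 ≤ k → (Z k).length < (Z (k + 1)).length := by
  obtain ⟨Fs, hFs, hsize⟩ := P.size (e + 1)
  have hPM : PM (fun n => n * 2 ^ (e + 1) + (Fs (n + (e + 1)) + 1)) :=
    PM.add (PM.mulc PM.id (2 ^ (e + 1)) Nat.one_le_two_pow)
      (PM.addc (PM.comp hFs (PM.addc PM.id (e + 1))) 1)
  refine ⟨_, hPM, fun N Z hZ => ?_⟩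
  have hSB : SB (Fs (N + (e + 1))) (Z (e + 1)) :=
    hsize (N + (e + 1)) Z (e + 1) (P.mono (by omega) (LD_piece hZ)) (by omega)
  have hcon : (∀ k, e ≤ k → Z (k + 1) = Z k) →
      FS (N * 2 ^ (e + 1) + (Fs (N + (e + 1)) + 1)) (fun k => Z (k + (e + 1))) := by
    intro h
    have h1 : (fun k => Z (k + (e + 1))) = fun _ => Z (e + 1) := by
      funext k
      exact LD_const h k
    rw [h1]
    exact (FS.const hSB).mono (by omega)
  rcases hZ with hZ | ⟨Y, hY, h0, hk⟩ | ⟨Y, hY, h0, hk⟩
  · left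
    refine (FS.shift hZ (e + 1)).mono ?_
    rw [mul_comm]
    omega
  · rcases P.di hY with hd | hd
    · left
      apply hcon
      intro k hek
      rw [hk, hd k hek, List.append_nil]
    · right
      intro k hek
      rw [hk, List.length_append]
      have := List.length_pos_iff.2 (hd k (by omega))
      omega
  · rcases P.di hY with hd | hd
    · left
      apply hcon
      intro k hek
      rw [hk, hd k hek, List.nil_append]
    · right
      intro k hek
      rw [hk, List.length_append]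
      have := List.length_pos_iff.2 (hd k (by omega))
      omega

theorem P.ld (e : ℕ) : ∃ F : ℕ → ℕ, PM F ∧ ∀ (N : ℕ) (W : ℕ → List ℤ), P e N W →
    Ev FS F N W ∨ ∀ k, e ≤ k → (W k).length < (W (k + 1)).length := by
  cases e with
  | zero =>
    obtain ⟨F, hF, h⟩ := Ev_of_FS (F0 := fun n => n) PM.id
    exact ⟨F, hF, fun N W hW => Or.inl (h N 0 W (Nat.zero_le _) hW)⟩
  | succ e =>
    obtain ⟨F1, hF1, hcore⟩ := LD_core e
    obtain ⟨F, hF, h⟩ := Ev_of_FS (F0 := fun n => n * (F1 n + 1) + (e + 1))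
      (PM.addc (PM.mul PM.id hF1) (e + 1))
    refine ⟨F, hF, fun N W hW => ?_⟩
    obtain ⟨L, hLN, hL, hWk⟩ := hW
    by_cases hall : ∀ Z ∈ L, FS (F1 N) (fun k => Z (k + (e + 1)))
    · left
      apply h N (e + 1) W (Nat.le_add_left _ _)
      have h1 := P.prod (e := 0) (N := F1 N) (L.map (fun Z k => Z (k + (e + 1)))) (by
        intro Z' hZ'
        rw [List.mem_map] at hZ'
        obtain ⟨Z, hZ, rfl⟩ := hZ'
        exact hall Z hZ)
      have h2 : (fun k => ((L.map (fun Z k => Z (k + (e + 1)))).map (fun Z => Z k)).flatten) =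
          fun k => W (k + (e + 1)) := by
        funext k
        rw [hWk, List.map_map]
        rfl
      rw [h2, List.length_map] at h1
      have h3 : FS (L.length * F1 N) (fun k => W (k + (e + 1))) := h1
      refine h3.mono ?_
      have h4 : L.length * F1 N ≤ N * (F1 N + 1) := Nat.mul_le_mul hLN (Nat.le_succ _)
      exact h4.trans (Nat.le_add_right _ _)
    · right
      push Not at hall
      obtain ⟨Z, hZ, hnot⟩ := hall
      have hgrow : ∀ k, e + 1 ≤ k → (Z k).length < (Z (k + 1)).length :=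
        (hcore N Z (hL Z hZ)).resolve_left hnot
      intro k hk
      rw [hWk, hWk, List.length_flatten, List.length_flatten, List.map_map, List.map_map]
      exact List.sum_lt_sum _ _ (fun V hV => P.len_mono (LD_piece (hL V hV)) k)
        ⟨Z, hZ, hgrow k hk⟩

theorem piece_P {e N : ℕ} {Z : ℕ → List ℤ} (hZ : Piece (P e N) N Z) : P (e + 1) (N + 1) Z :=
  LD_piece hZ

end AW
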