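import Pool.Agent.Lib.MP_dd05d9_lc.BD

/-!
Levels of states (pure graph theory of `M`; `To M s u` is reflexive (x = []) and transitive (x ++ y, `DFA.evalFrom_of_append`)).
* Lev.succ: induction on `e`, all `s`.  `e = 0`: there is no `u` with `LC M u` (contradiction).  `e + 1`: from the induction hypothesis
  applied to `v`.
* Lev.le: iterate Lev.succ.
* Lev.to: `e = 0` and `e + 1` both by transitivity of `To` (no induction necessary).
* Lev.top: classical; strong induction on `n`: if `Set.ncard {u | To M s u} <= n` then `Lev M n s`.  `n = 0`: impossible, `s` is in the set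
  (finite: `Set.toFinite`).  `n + 1`: `u, v` as in the definition: `{w | To v w}` is a proper subset of `{w | To s w}` (contained in
  it by transitivity; `u` is in the second, not in the first), so its ncard is `<= n` (`Set.ncard_lt_ncard`).  Then `Set.ncard_le_card` / the whole
  set has ncard at most `Fintype.card sigma` (`Set.ncard_univ`, `Nat.card_eq_fintype_card`, `Set.ncard_le_ncard`), Lev.le.
-/

set_option autoImplicit false

namespace AW

variable {k : ℕ} {σ : Type} {M : DFA (Fin k) σ}

theorem To.refl (s : σ) : To M s s := ⟨[], rfl⟩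

theorem To.trans {s u v : σ} (h1 : To M s u) (h2 : To M u v) : To M s v := by
  obtain ⟨x, hx⟩ := h1
  obtain ⟨y, hy⟩ := h2
  exact ⟨x ++ y, by rw [DFA.evalFrom_of_append, hx, hy]⟩

theorem Rch.to {s u : σ} (h1 : Rch M s) (h2 : To M s u) : Rch M u := by
  obtain ⟨x, hx⟩ := h1
  obtain ⟨y, hy⟩ := h2
  exact ⟨x ++ y, by rw [DFA.evalFrom_of_append, hx, hy]⟩

theorem Coa.to {s u : σ} (h1 : Coa M u) (h2 : To M s u) : Coa M s := by
  obtain ⟨x, hx⟩ := h1
  obtain ⟨y, hy⟩ := h2
  exact ⟨y ++ x, by rw [DFA.evalFrom_of_append, hy]; exact hx⟩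

theorem Lev.succ {e : ℕ} {s : σ} (h : Lev M e s) : Lev M (e + 1) s := by
  induction e generalizing s with
  | zero => intro u hu hl; exact absurd hl (h u hu)
  | succ e ih => intro u hu hl v hv hn; exact ih (h u hu hl v hv hn)

theorem Lev.le {e e' : ℕ} {s : σ} (he : e ≤ e') (h : Lev M e s) : Lev M e' s := by
  induction he with
  | refl => exact h
  | step _ ih => exact ih.succ

theorem Lev.to {e : ℕ} {s u : σ} (h : Lev M e s) (hu : To M s u) : Lev M e u := by
  cases e with
  | zero => intro w hw; exact h w (hu.trans hw)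
  | succ e => intro w hw hl v hv hn; exact h w (hu.trans hw) hl v hv hn

theorem LV_top_aux [Finite σ] (n : ℕ) : ∀ s : σ, Set.ncard {u | To M s u} ≤ n → Lev M n s := by
  induction n with
  | zero =>
    intro s hs
    have h1 : s ∈ {u | To M s u} := To.refl s
    have h2 : 0 < Set.ncard {u | To M s u} := (Set.ncard_pos (Set.toFinite _)).2 ⟨s, h1⟩
    omega
  | succ n ih =>
    intro s hs u hu hl v hv hn
    apply ih
    have h1 : {w | To M v w} ⊂ {w | To M s w} := by
      refine ⟨fun w hw => (hu.trans hv).trans hw, fun hc => ?_⟩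
      exact hn (hc (show u ∈ {w | To M s w} from hu))
    have h2 := Set.ncard_lt_ncard h1 (Set.toFinite _)
    omega

theorem Lev.top [Fintype σ] (s : σ) : Lev M (Fintype.card σ) s := by
  apply LV_top_aux
  calc Set.ncard {u | To M s u} ≤ Set.ncard (Set.univ : Set σ) :=
        Set.ncard_le_ncard (Set.subset_univ _) (Set.toFinite _)
    _ = Fintype.card σ := by rw [Set.ncard_univ, Nat.card_eq_fintype_card]

end AW
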