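import Pool.Agent.Lib.MP_dd05d9_lc.LV

/-!
`y` has length `>= card sigma`: `DFA.evalFrom_split` gives `y = a ++ b ++ c`, `b <> []`, `u := M.evalFrom s a`, `M.evalFrom u b = u`,
`M.evalFrom u c = v := M.evalFrom s y`.  So `u` is on a cycle, `To s u`, `To u v`.  If `v` is not coaccessible: first case.  Otherwise `u` is live
(Rch.to, Coa.to), `LC M u`.  If `To v u`: then `v` is on a cycle (v -> u -> (b) u -> v, nonempty since `b <> []`), so `LC M v`: second case.
Otherwise `Lev M e v` by the definition of `Lev M (e+1) s`: third case.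
-/

set_option autoImplicit false

namespace AW

theorem PAS_loop {k : ℕ} {σ : Type} [Fintype σ] {M : DFA (Fin k) σ} {s : σ} {y : List (Fin k)}
    (hy : Fintype.card σ ≤ y.length) :
    ∃ u, To M s u ∧ Cyc M u ∧ To M u (M.evalFrom s y) := by
  obtain ⟨q, a, b, c, hx, hlen, hb, hq1, hq2, hq3⟩ := DFA.evalFrom_split (M := M) (s := s)
    (t := M.evalFrom s y) hy rfl
  exact ⟨q, ⟨a, hq1⟩, ⟨b, hb, hq2⟩, ⟨c, hq3⟩⟩

theorem PASS {k : ℕ} {σ : Type} [Fintype σ] {M : DFA (Fin k) σ} {e : ℕ} {s : σ} (hr : Rch M s)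
    (h : Lev M (e + 1) s) {y : List (Fin k)} (hy : Fintype.card σ ≤ y.length) :
    ¬ Coa M (M.evalFrom s y) ∨ LC M (M.evalFrom s y) ∨ Lev M e (M.evalFrom s y) := by
  obtain ⟨u, h1, ⟨b, hb, h2⟩, h3⟩ := PAS_loop (M := M) (s := s) hy
  by_cases hc : Coa M (M.evalFrom s y)
  · right
    have hlu : LC M u := ⟨hr.to h1, hc.to h3, b, hb, h2⟩
    by_cases hv : To M (M.evalFrom s y) u
    · left
      refine ⟨(hr.to h1).to h3, hc, ?_⟩
      obtain ⟨x, hx⟩ := hv
      obtain ⟨z, hz⟩ := h3
      refine ⟨x ++ b ++ z, ?_, ?_⟩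
      · intro h0
        apply hb
        have := congrArg List.length h0
        simp only [List.length_append, List.length_nil] at this
        exact List.length_eq_zero_iff.1 (by omega)
      · rw [DFA.evalFrom_of_append, DFA.evalFrom_of_append, hx, h2, hz]
    · right
      exact h u h1 hlu _ h3 hv
  · left; exact hc

/-- after a long word from a state of level 0 nothing is accepted -/
theorem PASS0 {k : ℕ} {σ : Type} [Fintype σ] {M : DFA (Fin k) σ} {s : σ} (hr : Rch M s)
    (h : Lev M 0 s) {y : List (Fin k)} (hy : Fintype.card σ ≤ y.length) :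
    M.evalFrom s y ∉ M.accept := by
  obtain ⟨u, h1, h2, h3⟩ := PAS_loop (M := M) (s := s) hy
  intro hacc
  have hc : Coa M (M.evalFrom s y) := ⟨[], hacc⟩
  exact h u h1 ⟨hr.to h1, hc.to h3, h2⟩

end AW
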