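import Mathlib

/-!
Second wave, part (c): decidability of ultimate periodicity with given preperiod and period.
The type `ph p w` of a list `w` (first `p` entries, last `p` entries, is `w` p-periodic) is multiplicative.
-/

set_option autoImplicit false

namespace AW

/-- the list `w` has period `p` -/
def Per (p : ℕ) (w : List ℤ) : Prop := ∀ i, i + p < w.length → w[i + p]? = w[i]?

/-- the type of a list: first `p` entries, last `p` entries (reversed), periodicity -/
def ph (p : ℕ) (w : List ℤ) : List ℤ × List ℤ × Prop := (w.take p, w.reverse.take p, Per p w)

theorem take_append_eq (p : ℕ) (u v : List ℤ) :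
    (u ++ v).take p = (u.take p ++ v.take p).take p := by
  rw [List.take_append, List.take_append, List.take_take, List.take_take, List.length_take]
  have h1 : min p p = p := min_self p
  have h2 : min (p - min p u.length) p = p - u.length := by omega
  rw [h1, h2]

theorem take_append_congr {p : ℕ} {u u' v v' : List ℤ} (h1 : u.take p = u'.take p)
    (h2 : v.take p = v'.take p) : (u ++ v).take p = (u' ++ v').take p := by
  rw [take_append_eq, h1, h2, ← take_append_eq]

theorem Per_append (p : ℕ) (u v : List ℤ) :
    Per p (u ++ v) ↔ Per p u ∧ Per p v ∧ Per p ((u.reverse.take p).reverse ++ v.take p) := by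
  have hx : (u.reverse.take p).reverse = u.drop (u.length - p) := by
    rw [List.reverse_take, List.reverse_reverse, List.length_reverse]
  rw [hx]
  constructor
  · intro h
    refine ⟨?_, ?_, ?_⟩
    · intro i hi
      have h1 := h i (by rw [List.length_append]; omega)
      rw [List.getElem?_append_left (by omega), List.getElem?_append_left (by omega)] at h1
      exact h1
    · intro i hi
      have h1 := h (u.length + i) (by rw [List.length_append]; omega)
      rw [List.getElem?_append_right (by omega), List.getElem?_append_right (by omega)] at h1
      have e1 : u.length + i + p - u.length = i + p := by omega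
      have e2 : u.length + i - u.length = i := by omega
      rw [e1, e2] at h1
      exact h1
    · intro i hi
      rw [List.length_append, List.length_drop, List.length_take] at hi
      have h1 := h (u.length - p + i) (by rw [List.length_append]; omega)
      have hL : (u.drop (u.length - p)).length = u.length - (u.length - p) := List.length_drop
      rcases Nat.lt_or_ge i (u.length - (u.length - p)) with hi2 | hi2
      · rw [List.getElem?_append_right (by omega), List.getElem?_append_left (by omega)] at h1
        rw [List.getElem?_append_right (by rw [hL]; omega), List.getElem?_append_left (by rw [hL]; omega),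
          List.getElem?_drop, ← h1, hL, List.getElem?_take_of_lt (by omega)]
        congr 1
        omega
      · omega
  · rintro ⟨h1, h2, h3⟩ i hi
    rw [List.length_append] at hi
    rcases Nat.lt_or_ge (i + p) u.length with a | a
    · rw [List.getElem?_append_left a, List.getElem?_append_left (by omega)]
      exact h1 i a
    · rcases Nat.lt_or_ge i u.length with b | b
      · have hL : (u.drop (u.length - p)).length = u.length - (u.length - p) := List.length_drop
        have h4 := h3 (i - (u.length - p)) (by
          rw [List.length_append, List.length_drop, List.length_take]
          omega)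
        rw [List.getElem?_append_right (by rw [hL]; omega), List.getElem?_append_left (by rw [hL]; omega),
          List.getElem?_drop, hL, List.getElem?_take_of_lt (by omega)] at h4
        rw [List.getElem?_append_right a, List.getElem?_append_left b]
        have e1 : i - (u.length - p) + p - (u.length - (u.length - p)) = i + p - u.length := by omega
        have e2 : u.length - p + (i - (u.length - p)) = i := by omega
        rw [e1, e2] at h4
        exact h4
      · rw [List.getElem?_append_right a, List.getElem?_append_right b]
        have h4 := h2 (i - u.length) (by omega)
        have e1 : i + p - u.length = i - u.length + p := by omega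
        rw [e1]
        exact h4

theorem ph_append {p : ℕ} {u u' v v' : List ℤ} (h1 : ph p u = ph p u') (h2 : ph p v = ph p v') :
    ph p (u ++ v) = ph p (u' ++ v') := by
  unfold ph at h1 h2 ⊢
  simp only [Prod.mk.injEq] at h1 h2 ⊢
  obtain ⟨a1, a2, a3⟩ := h1
  obtain ⟨b1, b2, b3⟩ := h2
  refine ⟨take_append_congr a1 b1, ?_, ?_⟩
  · rw [List.reverse_append, List.reverse_append]
    exact take_append_congr b2 a2
  · rw [eq_iff_iff, Per_append p u v, Per_append p u' v', a2, a3, b1, b3]

theorem ph_flatMap {p : ℕ} {β : Type} (l : List β) (g g' : β → List ℤ)
    (h : ∀ a ∈ l, ph p (g a) = ph p (g' a)) : ph p (l.flatMap g) = ph p (l.flatMap g') := by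
  induction l with
  | nil => rfl
  | cons a l ih =>
    rw [List.flatMap_cons, List.flatMap_cons]
    exact ph_append (h a List.mem_cons_self) (ih (fun b hb => h b (List.mem_cons_of_mem _ hb)))

end AW
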