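import Pool.Agent.Lib.MP_dd05d9_lc.PB1
import Pool.Agent.Lib.MP_dd05d9_lc.LEN

/-!
Second wave, part (c): the types of the lists `wl M t o m s q` and of `(cat M t o m).drop a` evolve
deterministically in `m`.
-/

set_option autoImplicit false

namespace AW

theorem SN.getD_le {N : ℕ} {l : List ℕ} (h : SN N l) (i : ℕ) : l.getD i 0 ≤ N := by
  rcases Nat.lt_or_ge i l.length with hi | hi
  · rw [List.getD_eq_getElem _ _ hi]
    exact h.2 _ (List.getElem_mem hi)
  · rw [List.getD_eq_default _ _ hi]
    exact Nat.zero_le _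

theorem cat_succ {k : ℕ} {σ : Type} (M : DFA (Fin k) σ) (t o : List ℕ) (m : ℕ) :
    cat M t o (m + 1) = cat M t o m ++ wl M t o m M.start 0 := by
  unfold cat
  rw [List.range_succ, List.flatMap_append, List.flatMap_singleton]

theorem cat_length_mono {k : ℕ} {σ : Type} (M : DFA (Fin k) σ) (t o : List ℕ) {m m' : ℕ}
    (h : m ≤ m') : (cat M t o m).length ≤ (cat M t o m').length := by
  induction m', h using Nat.le_induction with
  | base => exact le_rfl
  | succ m' _ ih =>
    rw [cat_succ, List.length_append]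
    omega

theorem cat_prefix {k : ℕ} {σ : Type} (M : DFA (Fin k) σ) (t o : List ℕ) {m m' : ℕ}
    (h : m ≤ m') : cat M t o m <+: cat M t o m' := by
  induction m', h using Nat.le_induction with
  | base => exact List.prefix_refl _
  | succ m' _ ih =>
    rw [cat_succ]
    exact ih.trans (List.prefix_append _ _)

/-- the infinite word of the pair `(t, o)` -/
theorem cat_word {k : ℕ} {σ : Type} [Fintype σ] {M : DFA (Fin k) σ}
    (hinf : {w : List (Fin k) | w ∈ M.accepts}.Infinite) (t o : List ℕ) :
    ∃ f : ℕ → ℤ, ∀ m, IsPre (cat M t o m) f := by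
  refine ⟨fun i => (cat M t o (Fintype.card σ * (i + 1))).getD i 0, ?_⟩
  intro m
  unfold IsPre
  refine List.ext_getElem (by rw [List.length_map, List.length_range]) ?_
  intro i hi _
  rw [List.getElem_map, List.getElem_range]
  have hl := cat_len hinf t o i
  rw [List.getD_eq_getElem _ _ hl]
  rcases le_total m (Fintype.card σ * (i + 1)) with h | h
  · exact (cat_prefix M t o h).getElem hi
  · exact ((cat_prefix M t o h).getElem hl).symm

/-- the state of the dynamics -/
noncomputable def key {k : ℕ} {σ : Type} (M : DFA (Fin k) σ) (t o : List ℕ) (N p a m : ℕ) :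
    (σ → Fin (N + 1) → List ℤ × List ℤ × Prop) × (List ℤ × List ℤ × Prop) :=
  (fun s q => ph p (wl M t o m s q.val), ph p ((cat M t o m).drop a))

theorem wl_step {k : ℕ} {σ : Type} (M : DFA (Fin k) σ) (t o : List ℕ) {N p m m' : ℕ} (hN : SN N t)
    (h : ∀ s, ∀ q ≤ N, ph p (wl M t o m s q) = ph p (wl M t o m' s q)) (s : σ) (q : ℕ) :
    ph p (wl M t o (m + 1) s q) = ph p (wl M t o (m' + 1) s q) := by
  unfold wl
  exact ph_flatMap _ _ _ (fun a _ => h _ _ (hN.getD_le _))

theorem key_step {k : ℕ} {σ : Type} (M : DFA (Fin k) σ) (t o : List ℕ) {N p a m m' : ℕ}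
    (hN : SN N t) (h1 : a ≤ (cat M t o m).length) (h2 : a ≤ (cat M t o m').length)
    (h : key M t o N p a m = key M t o N p a m') :
    key M t o N p a (m + 1) = key M t o N p a (m' + 1) := by
  unfold key at h ⊢
  simp only [Prod.mk.injEq] at h ⊢
  obtain ⟨e1, e2⟩ := h
  have e3 : ∀ s, ∀ q ≤ N, ph p (wl M t o m s q) = ph p (wl M t o m' s q) := by
    intro s q hq
    exact congrFun (congrFun e1 s) ⟨q, Nat.lt_succ_of_le hq⟩
  refine ⟨?_, ?_⟩
  · funext s q
    exact wl_step M t o hN e3 s q.val
  · rw [cat_succ, cat_succ, List.drop_append_of_le_length h1, List.drop_append_of_le_length h2]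
    exact ph_append e2 (e3 _ _ (Nat.zero_le _))

theorem key_shift {k : ℕ} {σ : Type} (M : DFA (Fin k) σ) (t o : List ℕ) {N p a m m' : ℕ}
    (hN : SN N t) (h1 : a ≤ (cat M t o m).length) (hmm : m ≤ m')
    (h : key M t o N p a m = key M t o N p a m') (j : ℕ) :
    key M t o N p a (m + j) = key M t o N p a (m' + j) := by
  induction j with
  | zero => exact h
  | succ j ih =>
    exact key_step M t o hN (h1.trans (cat_length_mono M t o (Nat.le_add_right _ _)))
      (h1.trans (cat_length_mono M t o (hmm.trans (Nat.le_add_right _ _)))) ih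

theorem key_back {k : ℕ} {σ : Type} (M : DFA (Fin k) σ) (t o : List ℕ) {N p a m m' : ℕ}
    (hN : SN N t) (h1 : a ≤ (cat M t o m).length) (hmm : m < m')
    (h : key M t o N p a m = key M t o N p a m') (n : ℕ) :
    ∃ n' ≤ m', key M t o N p a n = key M t o N p a n' := by
  induction n using Nat.strong_induction_on with
  | _ n ih =>
    rcases Nat.lt_or_ge m' n with hn | hn
    · obtain ⟨n', hn', e⟩ := ih (m + (n - m')) (by omega)
      refine ⟨n', hn', ?_⟩
      rw [← e, key_shift M t o hN h1 hmm.le h (n - m')]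
      congr 1
      omega
    · exact ⟨n, hn, rfl⟩

theorem wl_entries {k : ℕ} {σ : Type} (M : DFA (Fin k) σ) (t o : List ℕ) {N : ℕ} (ho : SN N o)
    (m : ℕ) (s : σ) (q : ℕ) : ∀ x ∈ wl M t o m s q, 0 ≤ x ∧ x ≤ (N : ℤ) := by
  induction m generalizing s q with
  | zero =>
    intro x hx
    unfold wl at hx
    split_ifs at hx with hs
    · rw [List.mem_singleton] at hx
      subst hx
      exact ⟨Int.natCast_nonneg _, by exact_mod_cast ho.getD_le q⟩
    · exact absurd hx (by simp)
  | succ m ih =>
    intro x hx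
    unfold wl at hx
    rw [List.mem_flatMap] at hx
    obtain ⟨a, _, ha⟩ := hx
    exact ih _ _ x ha

theorem cat_entries {k : ℕ} {σ : Type} (M : DFA (Fin k) σ) (t o : List ℕ) {N : ℕ} (ho : SN N o)
    (m : ℕ) : ∀ x ∈ cat M t o m, 0 ≤ x ∧ x ≤ (N : ℤ) := by
  intro x hx
  unfold cat at hx
  rw [List.mem_flatMap] at hx
  obtain ⟨a, _, ha⟩ := hx
  exact wl_entries M t o ho _ _ _ x ha

theorem wl_length {k : ℕ} {σ : Type} (M : DFA (Fin k) σ) (t o : List ℕ) (m : ℕ) (s : σ) (q : ℕ) :
    (wl M t o m s q).length ≤ k ^ m := by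
  induction m generalizing s q with
  | zero =>
    unfold wl
    split_ifs <;> simp
  | succ m ih =>
    unfold wl
    rw [List.length_flatMap]
    have h1 : ((List.finRange k).map (fun a => (wl M t o m (M.step s a) (tst k t q a.val)).length)).sum ≤
        (List.finRange k).length • k ^ m := by
      have := List.sum_le_card_nsmul
        ((List.finRange k).map (fun a => (wl M t o m (M.step s a) (tst k t q a.val)).length)) (k ^ m)
        (by
          intro x hx
          rw [List.mem_map] at hx
          obtain ⟨a, _, rfl⟩ := hx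
          exact ih _ _)
      rwa [List.length_map] at this
    rw [List.length_finRange, smul_eq_mul] at h1
    calc _ ≤ k * k ^ m := h1
      _ = k ^ (m + 1) := by ring

theorem cat_length_le {k : ℕ} {σ : Type} (M : DFA (Fin k) σ) (t o : List ℕ) (m : ℕ) :
    (cat M t o m).length ≤ 2 ^ (m * (k + 2)) := by
  have h0 : (cat M t o m).length ≤ (k + 2) ^ m := by
    induction m with
    | zero => unfold cat; simp
    | succ m ih =>
      rw [cat_succ, List.length_append]
      have h1 := wl_length M t o m M.start 0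
      have h2 : k ^ m ≤ (k + 2) ^ m := Nat.pow_le_pow_left (by omega) m
      calc _ ≤ (k + 2) ^ m + (k + 2) ^ m := Nat.add_le_add ih (h1.trans h2)
        _ = (k + 2) ^ m * 2 := by ring
        _ ≤ (k + 2) ^ m * (k + 2) := Nat.mul_le_mul_left _ (by omega)
        _ = (k + 2) ^ (m + 1) := by ring
  calc (cat M t o m).length ≤ (k + 2) ^ m := h0
    _ ≤ (2 ^ (k + 2)) ^ m := Nat.pow_le_pow_left (Nat.lt_two_pow_self).le m
    _ = 2 ^ (m * (k + 2)) := by rw [← pow_mul, mul_comm]

end AW
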