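import Pool.Agent.Lib.MP_dd05d9_lc.PB2
import Pool.Agent.Lib.MP_dd05d9_lc.FinCore

/-!
Second wave, part (c): the number of states of the dynamics is bounded by a size function; hence
ultimate periodicity with given preperiod and period can be seen on a computable initial segment.
-/

set_option autoImplicit false

namespace AW

/-- code of the first `N` entries of a list with entries in `{0, ..., N}` -/
def cd1 (N : ℕ) (w : List ℤ) (i : Fin N) : Option (Fin (N + 1)) :=
  w[i.val]?.map (fun x => ⟨min x.toNat N, by omega⟩)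

theorem cd1_inj {N p : ℕ} {w w' : List ℤ} (hp : p ≤ N) (hw : ∀ x ∈ w, 0 ≤ x ∧ x ≤ (N : ℤ))
    (hw' : ∀ x ∈ w', 0 ≤ x ∧ x ≤ (N : ℤ)) (h : cd1 N w = cd1 N w') : w.take p = w'.take p := by
  apply List.ext_getElem?
  intro i
  rcases Nat.lt_or_ge i p with hi | hi
  · rw [List.getElem?_take_of_lt hi, List.getElem?_take_of_lt hi]
    have h1 := congrFun h ⟨i, by omega⟩
    unfold cd1 at h1
    simp only at h1
    cases e : w[i]? with
    | none =>
      cases e' : w'[i]? with
      | none => rfl
      | some y =>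
        rw [e, e'] at h1
        simp at h1
    | some x =>
      cases e' : w'[i]? with
      | none =>
        rw [e, e'] at h1
        simp at h1
      | some y =>
        rw [e, e'] at h1
        simp only [Option.map_some, Option.some.injEq, Fin.mk.injEq] at h1
        have a1 := hw x (List.mem_of_getElem? e)
        have a2 := hw' y (List.mem_of_getElem? e')
        congr 1
        omega
  · rw [List.getElem?_take_eq_none hi, List.getElem?_take_eq_none hi]

open Classical in
/-- code of the type of a list -/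
noncomputable def cd (N p : ℕ) (w : List ℤ) :
    (Fin N → Option (Fin (N + 1))) × (Fin N → Option (Fin (N + 1))) × Bool :=
  (cd1 N w, cd1 N w.reverse, decide (Per p w))

theorem cd_inj {N p : ℕ} {w w' : List ℤ} (hp : p ≤ N) (hw : ∀ x ∈ w, 0 ≤ x ∧ x ≤ (N : ℤ))
    (hw' : ∀ x ∈ w', 0 ≤ x ∧ x ≤ (N : ℤ)) (h : cd N p w = cd N p w') : ph p w = ph p w' := by
  unfold cd at h
  unfold ph
  simp only [Prod.mk.injEq] at h ⊢
  obtain ⟨h1, h2, h3⟩ := h
  refine ⟨cd1_inj hp hw hw' h1, cd1_inj hp (fun x hx => hw x (List.mem_reverse.1 hx))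
    (fun x hx => hw' x (List.mem_reverse.1 hx)) h2, ?_⟩
  rw [eq_iff_iff]
  exact decide_eq_decide.1 h3

/-- the exponent of the bound for the number of keys, `c` = number of states of the language -/
def eN (c n : ℕ) : ℕ := ((n + 2) * (n + 1) * 2 + 1) * (n * (c + 1) + c + 1)

theorem eN_PM (c : ℕ) : PM (eN c) := by
  have h : PM (fun n => ((n + 2) * (n + 1) * 2 + 1) * (n * (c + 1) + c + 1)) :=
    PM.mul (F := fun n => (n + 2) * (n + 1) * 2 + 1) (G := fun n => n * (c + 1) + c)
      (((PM.mul (F := fun n => n + 2) (G := fun n => n) (PM.id.addc 2) PM.id).mulc 2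
        (by omega)).addc 1) ((PM.id.mulc (c + 1) (by omega)).addc c)
  exact h

/-- the type of codes of keys -/
abbrev KC (σ : Type) (N : ℕ) : Type :=
  (σ → Fin (N + 1) → (Fin N → Option (Fin (N + 1))) × (Fin N → Option (Fin (N + 1))) × Bool) ×
    ((Fin N → Option (Fin (N + 1))) × (Fin N → Option (Fin (N + 1))) × Bool)

open Classical in
theorem KC_card (σ : Type) [Fintype σ] (N : ℕ) :
    Fintype.card (KC σ N) ≤ 2 ^ eN (Fintype.card σ) N := by
  have h1 : Fintype.card (KC σ N) =
      (((N + 2) ^ N * ((N + 2) ^ N * 2)) ^ (N + 1)) ^ Fintype.card σ *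
        ((N + 2) ^ N * ((N + 2) ^ N * 2)) := by
    simp [KC, Fintype.card_pi]
  rw [h1]
  have h2 : (N + 2) ^ N * ((N + 2) ^ N * 2) ≤ 2 ^ ((N + 2) * (N + 1) * 2 + 1) := by
    have h3 : (N + 2) ^ N ≤ 2 ^ ((N + 2) * (N + 1)) := by
      calc (N + 2) ^ N ≤ (2 ^ (N + 2)) ^ N := Nat.pow_le_pow_left (Nat.lt_two_pow_self).le N
        _ = 2 ^ ((N + 2) * N) := by rw [← pow_mul]
        _ ≤ 2 ^ ((N + 2) * (N + 1)) :=
          Nat.pow_le_pow_right (by omega) (Nat.mul_le_mul_left _ (by omega))
    calc (N + 2) ^ N * ((N + 2) ^ N * 2) ≤ 2 ^ ((N + 2) * (N + 1)) * (2 ^ ((N + 2) * (N + 1)) * 2) :=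
          Nat.mul_le_mul h3 (Nat.mul_le_mul_right _ h3)
      _ = 2 ^ ((N + 2) * (N + 1) * 2 + 1) := by ring
  calc _ ≤ ((2 ^ ((N + 2) * (N + 1) * 2 + 1)) ^ (N + 1)) ^ Fintype.card σ *
        2 ^ ((N + 2) * (N + 1) * 2 + 1) :=
        Nat.mul_le_mul (Nat.pow_le_pow_left (Nat.pow_le_pow_left h2 _) _) h2
    _ = 2 ^ (((N + 2) * (N + 1) * 2 + 1) * ((N + 1) * Fintype.card σ + 1)) := by
        rw [← pow_mul, ← pow_mul, ← pow_add]
        ring_nf
    _ ≤ 2 ^ eN (Fintype.card σ) N := by
        refine Nat.pow_le_pow_right (by omega) ?_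
        unfold eN
        refine Nat.mul_le_mul_left _ ?_
        have : N * (Fintype.card σ + 1) = N * Fintype.card σ + N := by ring
        have h5 : (N + 1) * Fintype.card σ = N * Fintype.card σ + Fintype.card σ := by ring
        omega

/-- the size of the initial segment -/
def FP (k c n : ℕ) : ℕ := 2 ^ ((n * (c + 1) + (c + 1) + 2 ^ eN c n) * (k + 2))

theorem FP_PM (k c : ℕ) : PM (FP k c) := by
  have h : PM (fun n => 2 ^ ((n * (c + 1) + (c + 1) + 2 ^ eN c n) * (k + 2))) := by
    refine PM.comp (F := fun n => 2 ^ n)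
      (G := fun n => (n * (c + 1) + (c + 1) + 2 ^ eN c n) * (k + 2)) PM.pow2 ?_
    refine PM.mulc (F := fun n => n * (c + 1) + (c + 1) + 2 ^ eN c n) ?_ (k + 2) (by omega)
    exact PM.add (F := fun n => n * (c + 1) + (c + 1)) (G := fun n => 2 ^ eN c n)
      ((PM.id.mulc (c + 1) (by omega)).addc (c + 1))
      (PM.comp (F := fun n => 2 ^ n) (G := eN c) PM.pow2 (eN_PM c))
  exact h

theorem key_pigeon {k : ℕ} {σ : Type} [Fintype σ] (M : DFA (Fin k) σ) (t o : List ℕ) {N p a : ℕ}
    (ho : SN N o) (hp : p ≤ N) (m0 : ℕ) :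
    ∃ m m', m0 ≤ m ∧ m < m' ∧ m' ≤ m0 + 2 ^ eN (Fintype.card σ) N ∧
      key M t o N p a m = key M t o N p a m' := by
  classical
  let g : Fin (2 ^ eN (Fintype.card σ) N + 1) → KC σ N := fun j =>
    (fun s q => cd N p (wl M t o (m0 + j.val) s q.val), cd N p ((cat M t o (m0 + j.val)).drop a))
  obtain ⟨x, y, hxy, hg⟩ := Fintype.exists_ne_map_eq_of_card_lt g (by
    rw [Fintype.card_fin]
    exact Nat.lt_succ_of_le (KC_card σ N))
  have hk : key M t o N p a (m0 + x.val) = key M t o N p a (m0 + y.val) := by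
    unfold key
    have hg' := Prod.mk.injEq _ _ _ _ ▸ hg
    rw [Prod.mk.injEq]
    refine ⟨?_, ?_⟩
    · funext s q
      exact cd_inj hp (wl_entries M t o ho _ _ _) (wl_entries M t o ho _ _ _)
        (congrFun (congrFun hg'.1 s) q)
    · exact cd_inj hp (fun z hz => cat_entries M t o ho _ z (List.mem_of_mem_drop hz))
        (fun z hz => cat_entries M t o ho _ z (List.mem_of_mem_drop hz)) hg'.2
  have hx := x.isLt
  have hy := y.isLt
  rcases lt_or_gt_of_ne (fun h => hxy (Fin.ext h) : x.val ≠ y.val) with h | h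
  · exact ⟨m0 + x.val, m0 + y.val, by omega, by omega, by omega, hk⟩
  · exact ⟨m0 + y.val, m0 + x.val, by omega, by omega, by omega, hk.symm⟩

/-- ultimate periodicity with given preperiod and period can be seen on a computable initial
segment, for every abstract numeration system -/
theorem PERB {k : ℕ} {σ : Type} [Fintype σ] {M : DFA (Fin k) σ}
    (hinf : {w : List (Fin k) | w ∈ M.accepts}.Infinite) {N a p : ℕ} {t o : List ℕ}
    (ht : SN N t) (ho : SN N o) (ha : a ≤ N) (hp : p ≤ N) {f : ℕ → ℤ}
    (hf : ∀ m, IsPre (cat M t o m) f)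
    (h : ∀ i, a ≤ i → i + p < FP k (Fintype.card σ) N → f (i + p) = f i) :
    ∀ i, a ≤ i → f (i + p) = f i := by
  have hget : ∀ m i, i < (cat M t o m).length → (cat M t o m)[i]? = some (f i) := by
    intro m i hi
    have := (hf m).getD hi
    rw [List.getD_eq_getElem _ _ hi] at this
    rw [List.getElem?_eq_getElem hi, this]
  have m0len : N < (cat M t o (Fintype.card σ * (N + 1))).length := cat_len hinf t o N
  obtain ⟨m, m', q1, q2, q3, q4⟩ := key_pigeon M t o (a := a) (p := p) ho hp (Fintype.card σ * (N + 1))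
  have hml : a ≤ (cat M t o m).length :=
    ha.trans (m0len.le.trans (cat_length_mono M t o q1))
  have hper : ∀ n ≤ m', Per p ((cat M t o n).drop a) := by
    intro n hn i hi
    rw [List.length_drop] at hi
    rw [List.getElem?_drop, List.getElem?_drop, hget _ _ (by omega), hget _ _ (by omega)]
    congr 1
    have hlen : (cat M t o n).length ≤ FP k (Fintype.card σ) N := by
      refine (cat_length_le M t o n).trans ?_
      unfold FP
      refine Nat.pow_le_pow_right (by omega) (Nat.mul_le_mul_right _ ?_)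
      have e1 : Fintype.card σ * (N + 1) ≤ N * (Fintype.card σ + 1) + (Fintype.card σ + 1) := by
        have : Fintype.card σ * (N + 1) = N * Fintype.card σ + Fintype.card σ := by ring
        have h5 : N * (Fintype.card σ + 1) = N * Fintype.card σ + N := by ring
        omega
      omega
    have := h (a + i) (by omega) (by omega)
    rw [← this]
    congr 1
    omega
  have hall : ∀ n, Per p ((cat M t o n).drop a) := by
    intro n
    obtain ⟨n', hn', e⟩ := key_back M t o ht hml q2 q4 n
    have h1 := hper n' hn'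
    unfold key ph at e
    simp only [Prod.mk.injEq] at e
    rw [e.2.2.2]
    exact h1
  intro i hi
  have hl : i + p < (cat M t o (Fintype.card σ * (i + p + 1))).length := cat_len hinf t o (i + p)
  have h1 := hall (Fintype.card σ * (i + p + 1)) (i - a) (by rw [List.length_drop]; omega)
  rw [List.getElem?_drop, List.getElem?_drop, hget _ _ (by omega), hget _ _ (by omega)] at h1
  have e1 : a + (i - a + p) = i + p := by omega
  have e2 : a + (i - a) = i := by omega
  rw [e1, e2] at h1
  exact Option.some.inj h1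

end AW
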