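import Pool.Agent.Lib.MP_dd05d9_lc.EV

/-!
`W k = Z1 k ++ ... ++ Zj k`, `j <= N`; the hypothesis `h` for all pieces.  For a shift `c >= F0 N` all pieces at once: by induction on the list
the family `take n ((Z1 ++ ... ++ Zi) (k + c))` is FS of size `i * F0 c`: in case (B) for `Z1` it is `take n Z1` (`c >= F0 N`, so `n <= |Z1 (k+c)|`); in case (A) it is
`take n (Z1 ++ take n rest)` (`List.take_append`: `take n (l ++ l') = take n (l ++ take n l')`), FS.append and FS.take.
So `F c = F0 c + c * (F0 c + 1)` type bound: `i <= N <= F0 N <= c`.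
-/

set_option autoImplicit false

namespace AW

private theorem PRq_take (n : ℕ) (l l' : List ℤ) : (l ++ l').take n = (l ++ l'.take n).take n := by
  rw [List.take_append, List.take_append, List.take_take]
  congr 2
  omega

private theorem PRq_list {e : ℕ} {F0 : ℕ → ℕ} {N n c : ℕ} (h : ∀ (Z : ℕ → List ℤ),
    Piece (P e N) N Z → Ev FS F0 N Z ∨
      ((∀ k, F0 N ≤ k → n ≤ (Z k).length) ∧ Ev FS F0 N (fun k => (Z k).take n)))
    (hc : F0 N ≤ c) : ∀ L : List (ℕ → List ℤ), (∀ Z ∈ L, Piece (P e N) N Z) →
    FS (L.length * F0 c) (fun k => ((L.map (fun Z => Z (k + c))).flatten).take n) := by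
  intro L
  induction L with
  | nil =>
    intro _
    have := FS.nil (([] : List (ℕ → List ℤ)).length * F0 c)
    simpa using this
  | cons Z L ih =>
    intro hL
    have ih' := ih (fun Z' hZ' => hL Z' (List.mem_cons_of_mem _ hZ'))
    have hlen : (Z :: L).length * F0 c = F0 c + L.length * F0 c := by
      rw [List.length_cons]; ring
    rw [hlen]
    rcases h Z (hL Z List.mem_cons_self) with hA | ⟨hB1, hB2⟩
    · have h1 : FS (F0 c) (fun k => Z (k + c)) := hA c hc
      have h2 := FS.take n (FS.append h1 ih')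
      have he : (fun k => (((Z :: L).map (fun Z => Z (k + c))).flatten).take n) =
          (fun k => (Z (k + c) ++ ((L.map (fun Z => Z (k + c))).flatten).take n).take n) := by
        funext k
        rw [List.map_cons, List.flatten_cons]
        exact PRq_take n _ _
      rw [he]
      exact h2
    · have h1 : FS (F0 c) (fun k => (Z (k + c)).take n) := hB2 c hc
      have he : (fun k => (((Z :: L).map (fun Z => Z (k + c))).flatten).take n) =
          (fun k => (Z (k + c)).take n) := by
        funext k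
        rw [List.map_cons, List.flatten_cons]
        have hk : n ≤ (Z (k + c)).length := hB1 (k + c) (by omega)
        rw [List.take_append, Nat.sub_eq_zero_of_le hk, List.take_zero, List.append_nil]
      rw [he]
      exact FS.mono (Nat.le_add_right _ _) h1

theorem PRq (e : ℕ) {F0 : ℕ → ℕ} (h0 : PM F0) (h : ∀ (N n : ℕ) (Z : ℕ → List ℤ),
    Piece (P e N) N Z → n ≤ N → Ev FS F0 N Z ∨
      ((∀ k, F0 N ≤ k → n ≤ (Z k).length) ∧ Ev FS F0 N (fun k => (Z k).take n))) :
    ∃ F : ℕ → ℕ, PM F ∧ ∀ (N n : ℕ) (W : ℕ → List ℤ), P (e + 1) N W → n ≤ N →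
    Ev FS F N (fun k => (W k).take n) := by
  refine ⟨fun c => F0 c * (c + 1), PM.mul (F := F0) (G := fun c => c) h0 PM.id, ?_⟩
  intro N n W hW hn c hc
  obtain ⟨L, hLN, hL, hWL⟩ := hW
  have hc' : F0 N ≤ c := (Nat.le_mul_of_pos_right _ (Nat.succ_pos N)).trans hc
  have hNc : N ≤ c := (h0.2.2 N).trans hc'
  have h1 := PRq_list (n := n) (fun Z hZ => h N n Z hZ hn) hc' L hL
  have he : (fun k => (W (k + c)).take n) =
      (fun k => ((L.map (fun Z => Z (k + c))).flatten).take n) := by
    funext k
    rw [hWL]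
  show FS (F0 c * (c + 1)) (fun k => (W (k + c)).take n)
  rw [he]
  refine FS.mono ?_ h1
  calc L.length * F0 c ≤ c * F0 c := Nat.mul_le_mul_right _ (hLN.trans hNc)
    _ = F0 c * c := Nat.mul_comm _ _
    _ ≤ F0 c * (c + 1) := Nat.mul_le_mul_left _ (Nat.le_succ c)

end AW
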