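import Pool.Agent.Lib.MP_dd05d9_lc.PRp
import Pool.Agent.Lib.MP_dd05d9_lc.PRq

/-! induction on `e` with PRp, PRq; `e = 0`: FS.take, Ev_of_FS -/

set_option autoImplicit false

namespace AW

theorem P.pr (e : ℕ) : ∃ F : ℕ → ℕ, PM F ∧ ∀ (N n : ℕ) (W : ℕ → List ℤ), P e N W → n ≤ N →
    Ev FS F N (fun k => (W k).take n) := by
  induction e with
  | zero =>
    obtain ⟨F, hF, h⟩ := Ev_of_FS PM.id
    refine ⟨F, hF, fun N n W hW _ => h N 0 _ (Nat.zero_le _) ?_⟩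
    exact FS.take n hW
  | succ e ih =>
    obtain ⟨F0, h0, H0'⟩ := ih
    obtain ⟨F1, h1, H1⟩ := PRp e h0 H0'
    exact PRq e h1 H1

end AW
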