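import Pool.Agent.Lib.MP_dd05d9_lc.LD

/-!
`ih`: the statement of P.pr at level `e` with function `F0`.  Claim for a piece `Z` over `P e N`, `n <= N`: (A) `Ev FS` of `Z` itself, or (B)
`n <= |Z k|` for all `k >= F N` and `Ev FS` of `take n (Z k)`.
 P.ld for `Z` (piece_P: level e+1, size N+1): either (A), or `|Z k| < |Z (k+1)|` for `k >= e + 1`, so `|Z k| >= n` for `k >= e + 1 + n`.  In the second case
 (Z FS is impossible or also (A): FS.shift):
 inc: `take n (Z k) = take n (Z (e+1+n))` for `k >= e+1+n`: a constant list, size by P.size (N replaced by N + e + 1 + n).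
 dec: `Z (k+1) = Y k ++ Z k`.  By P.ld for `Y` (level `e`): if `Y` is eventually FS (shift c), of constant length `l`; `l >= 1` (otherwise
   `Z` would not grow); then for `k >= c` : `Z (k+n) = Y (k+n-1) ++ ... ++ Y k ++ Z k`, `take n (Z (k+n)) = take n (Y (k+n-1) ++ ... ++ Y k)` (length `>= n`), FS by
   FS.append, FS.shift, FS.take (size `n * 2^n * ...`).  If `|Y k|` grows: `|Y k| >= n` for `k >= e + n` and `take n (Z (k+1)) = take n (Y k)`, `Ev FS` by `ih`.
 Finish with Ev_of_FS (one good shift is enough).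
-/

set_option autoImplicit false

namespace AW

private lemma PRp_SB_take {N : ℕ} {l : List ℤ} (n : ℕ) (h : SB N l) : SB N (l.take n) := by
  refine ⟨?_, fun x hx => h.2 x (List.mem_of_mem_take hx)⟩
  have := h.1
  rw [List.length_take]
  omega

private lemma PRp_grow {W : ℕ → List ℤ} {a : ℕ}
    (h : ∀ k, a ≤ k → (W k).length < (W (k + 1)).length) (n k : ℕ) (hk : a + n ≤ k) :
    n ≤ (W k).length := by
  have h1 : ∀ m, m ≤ (W (a + m)).length := by
    intro m
    induction m with
    | zero => omega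
    | succ m ih =>
      have := h (a + m) (by omega)
      rw [← Nat.add_assoc]
      omega
  have h2 := h1 (k - a)
  have h3 : a + (k - a) = k := by omega
  rw [h3] at h2
  omega

private lemma PRp_inc {Z Y : ℕ → List ℤ} (h : ∀ k, Z (k + 1) = Z k ++ Y k) {n a : ℕ}
    (ha : n ≤ (Z a).length) (k : ℕ) (hk : a ≤ k) :
    n ≤ (Z k).length ∧ (Z k).take n = (Z a).take n := by
  induction k, hk using Nat.le_induction with
  | base => exact ⟨ha, rfl⟩
  | succ k _ ih =>
    rw [h, List.length_append, List.take_append_of_le_length ih.1]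
    exact ⟨by omega, ih.2⟩

private def PRp_B (Y : ℕ → List ℤ) : ℕ → ℕ → List ℤ
  | 0, _ => []
  | m + 1, k => Y (k + m) ++ PRp_B Y m k

private lemma PRp_B_eq {Z Y : ℕ → List ℤ} (h : ∀ k, Z (k + 1) = Y k ++ Z k) (m k : ℕ) :
    Z (k + m) = PRp_B Y m k ++ Z k := by
  induction m with
  | zero => rfl
  | succ m ih =>
    rw [← Nat.add_assoc, h, ih, PRp_B, List.append_assoc]

private lemma PRp_B_len {Y : ℕ → List ℤ} (k : ℕ) (m : ℕ) (h : ∀ j, 1 ≤ (Y (k + j)).length) :
    m ≤ (PRp_B Y m k).length := by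
  induction m with
  | zero => omega
  | succ m ih =>
    rw [PRp_B, List.length_append]
    have := h m
    omega

private lemma PRp_B_FS {Y : ℕ → List ℤ} {M c : ℕ} (m : ℕ)
    (h : ∀ j < m, FS M (fun k => Y (k + (c + j)))) : FS (m * M) (fun k => PRp_B Y m (k + c)) := by
  induction m with
  | zero => exact FS.nil _
  | succ m ih =>
    have h1 := ih (fun j hj => h j (by omega))
    have h2 := FS.append (h m (by omega)) h1
    have e1 : (fun k => PRp_B Y (m + 1) (k + c)) =
        fun k => Y (k + (c + m)) ++ PRp_B Y m (k + c) := by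
      funext k
      rw [PRp_B, Nat.add_assoc]
    rw [e1]
    refine FS.mono ?_ h2
    rw [Nat.succ_mul]
    omega

theorem PRp (e : ℕ) {F0 : ℕ → ℕ} (h0 : PM F0) (ih : ∀ (N n : ℕ) (W : ℕ → List ℤ), P e N W → n ≤ N →
    Ev FS F0 N (fun k => (W k).take n)) : ∃ F : ℕ → ℕ, PM F ∧ ∀ (N n : ℕ) (Z : ℕ → List ℤ),
    Piece (P e N) N Z → n ≤ N → Ev FS F N Z ∨
      ((∀ k, F N ≤ k → n ≤ (Z k).length) ∧ Ev FS F N (fun k => (Z k).take n)) := by
  obtain ⟨Fl, hl, Hl⟩ := P.ld (e + 1)
  obtain ⟨Fy, hy, Hy⟩ := P.ld e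
  obtain ⟨Fs, hs, Hs⟩ := P.size (e + 1)
  refine ⟨fun n => ((Fl (n + 1) + 2 ^ n * (n + 1)) + Fs (n + n + (e + 2))) +
      (Fy (n + n) * (n + 1) + (F0 n + (n + (e + 2) + Fy n))), ?_, ?_⟩
  · exact PM.add (PM.add (PM.add (PM.comp hl (PM.addc PM.id 1)) (PM.mul PM.pow2 PM.id))
      (PM.comp hs (PM.addc (PM.add PM.id PM.id) (e + 2))))
      (PM.add (PM.mul (PM.comp hy (PM.add PM.id PM.id)) PM.id)
        (PM.add h0 (PM.add (PM.addc PM.id (e + 2)) hy)))
  intro N n Z hZ hn
  have hP := piece_P hZ
  rcases Hl (N + 1) Z hP with hA | hgr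
  · left
    intro c hc
    dsimp only at hc ⊢
    refine FS.mono ?_ (hA c (by omega))
    have := hl.2.1 (Nat.le_succ c)
    have e1 : c.succ = c + 1 := rfl
    rw [e1] at this
    omega
  have hlen : ∀ k, e + 1 + n ≤ k → n ≤ (Z k).length := fun k hk => PRp_grow hgr n k hk
  rcases hZ with hFS | ⟨Y, hY, -, h⟩ | ⟨Y, hY, -, h⟩
  · left
    intro c hc
    dsimp only at hc ⊢
    refine FS.mono ?_ (FS.shift hFS c)
    have m2 : 2 ^ c * N ≤ 2 ^ c * (c + 1) := Nat.mul_le_mul_left _ (by omega)
    omega
  · right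
    refine ⟨fun k hk => hlen k ?_, ?_⟩
    · dsimp only at hk
      omega
    intro c hc
    dsimp only at hc ⊢
    have e1 : (fun k => (Z (k + c)).take n) = fun _ => (Z (e + 1 + n)).take n := by
      funext k
      exact (PRp_inc h (hlen (e + 1 + n) le_rfl) (k + c) (by omega)).2
    rw [e1]
    have s1 : SB (Fs (N + N + (e + 2))) (Z (e + 1 + n)) :=
      Hs (N + N + (e + 2)) Z (e + 1 + n) (P.mono (by omega) hP) (by omega)
    refine FS.mono ?_ (FS.const (PRp_SB_take n s1))
    have m3 : Fs (N + N + (e + 2)) ≤ Fs (c + c + (e + 2)) := hs.2.1 (by omega)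
    omega
  · right
    refine ⟨fun k hk => hlen k ?_, ?_⟩
    · dsimp only at hk
      omega
    intro C hC
    dsimp only at hC ⊢
    have hyN : Fy N ≤ Fy (N + N) := hy.2.1 (by omega)
    rcases Hy N Y hY with hi | hii
    · -- `Y` is eventually of fixed shape
      have hpos : ∀ k, Fy N ≤ k → e + 1 ≤ k → 1 ≤ (Y k).length := by
        intro k _ hk2
        have h1 := hgr k hk2
        rw [h, List.length_append] at h1
        omega
      have hCn : Fy N + (e + 1) ≤ C - n := by omega
      have e1 : (fun k => (Z (k + C)).take n) = fun k => (PRp_B Y n (k + (C - n))).take n := by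
        funext k
        have e2 : k + C = k + (C - n) + n := by omega
        rw [e2, PRp_B_eq h n (k + (C - n))]
        apply List.take_append_of_le_length
        apply PRp_B_len
        intro j
        exact hpos _ (by omega) (by omega)
      rw [e1]
      apply FS.take
      have s1 : FS (n * Fy (C + C)) (fun k => PRp_B Y n (k + (C - n))) := by
        apply PRp_B_FS
        intro j hj
        refine FS.mono ?_ (hi (C - n + j) (by omega))
        exact hy.2.1 (by omega)
      refine FS.mono ?_ s1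
      have m4 : n * Fy (C + C) ≤ Fy (C + C) * (C + 1) := by
        rw [Nat.mul_comm]
        exact Nat.mul_le_mul_left _ (by omega)
      omega
    · have hlenY : ∀ k, e + n ≤ k → n ≤ (Y k).length := fun k hk => PRp_grow hii n k hk
      have e1 : (fun k => (Z (k + C)).take n) = fun k => (Y (k + (C - 1))).take n := by
        funext k
        have e2 : k + C = k + (C - 1) + 1 := by omega
        rw [e2, h]
        apply List.take_append_of_le_length
        exact hlenY _ (by omega)
      rw [e1]
      refine FS.mono ?_ (ih N n Y hY hn (C - 1) (by omega))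
      have m5 : F0 (C - 1) ≤ F0 C := h0.2.1 (by omega)
      omega

end AW
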