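import Pool.Agent.Lib.MP_dd05d9_lc.Aut

/-!
The words accepted from a state, in lexicographic order; the lists `wl`, `cat` are their lists of outputs; the
rank (`ncard` in S15477) of an accepted word is its place in `cat`.
-/

set_option autoImplicit false

namespace AW

open Classical in
/-- words of length `m` accepted from the state `s`, in lexicographic order -/
noncomputable def wlw {k : ℕ} {σ : Type} (M : DFA (Fin k) σ) : ℕ → σ → List (List (Fin k))
  | 0, s => if s ∈ M.accept then [[]] else []
  | m + 1, s => (List.finRange k).flatMap (fun a => (wlw M m (M.step s a)).map (fun w => a :: w))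

/-- accepted words of length less than `m`, in radix order -/
noncomputable def catw {k : ℕ} {σ : Type} (M : DFA (Fin k) σ) (m : ℕ) : List (List (Fin k)) :=
  (List.range m).flatMap (fun j => wlw M j M.start)

/-- output of the table automaton started in `q` -/
def outp (k : ℕ) (t o : List ℕ) (q : ℕ) (w : List (Fin k)) : ℕ :=
  o.getD (List.foldl (fun q a => t.getD (q * k + a.val) 0) q w) 0

/-- the radix order -/
def Rdx {k : ℕ} (v w : List (Fin k)) : Prop :=
  v.length < w.length ∨ (v.length = w.length ∧ List.Lex (· < ·) v w)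

theorem mem_wlw {k : ℕ} {σ : Type} (M : DFA (Fin k) σ) (m : ℕ) (s : σ) (w : List (Fin k)) :
    w ∈ wlw M m s ↔ w.length = m ∧ M.evalFrom s w ∈ M.accept := by
  induction m generalizing s w with
  | zero =>
    unfold wlw
    by_cases h : s ∈ M.accept
    · rw [if_pos h]
      constructor
      · intro hw
        rw [List.mem_singleton] at hw
        subst hw
        exact ⟨rfl, h⟩
      · rintro ⟨hl, _⟩
        rw [List.length_eq_zero_iff] at hl
        subst hl
        exact List.mem_singleton.2 rfl
    · rw [if_neg h]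
      constructor
      · intro hw
        exact absurd hw List.not_mem_nil
      · rintro ⟨hl, ha⟩
        rw [List.length_eq_zero_iff] at hl
        subst hl
        exact absurd ha h
  | succ m ih =>
    unfold wlw
    rw [List.mem_flatMap]
    constructor
    · rintro ⟨a, _, hw⟩
      rw [List.mem_map] at hw
      obtain ⟨v, hv, rfl⟩ := hw
      obtain ⟨h1, h2⟩ := (ih _ _).1 hv
      exact ⟨by rw [List.length_cons, h1], h2⟩
    · rintro ⟨hl, ha⟩
      cases w with
      | nil => simp at hl
      | cons a v =>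
        refine ⟨a, List.mem_finRange a, ?_⟩
        rw [List.mem_map]
        refine ⟨v, (ih _ _).2 ⟨?_, ha⟩, rfl⟩
        rw [List.length_cons] at hl
        omega

theorem wl_eq {k : ℕ} {σ : Type} (M : DFA (Fin k) σ) (t o : List ℕ) (m : ℕ) (s : σ) (q : ℕ) :
    wl M t o m s q = (wlw M m s).map (fun w => ((outp k t o q w : ℕ) : ℤ)) := by
  induction m generalizing s q with
  | zero =>
    unfold wl wlw
    by_cases h : s ∈ M.accept
    · rw [if_pos h, if_pos h]
      rfl
    · rw [if_neg h, if_neg h]
      rfl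
  | succ m ih =>
    unfold wl wlw
    rw [List.map_flatMap]
    congr 1
    funext a
    rw [ih, List.map_map]
    rfl

theorem pair_wlw {k : ℕ} {σ : Type} (M : DFA (Fin k) σ) (m : ℕ) (s : σ) :
    (wlw M m s).Pairwise (fun v w => List.Lex (· < ·) v w) := by
  induction m generalizing s with
  | zero =>
    unfold wlw
    by_cases h : s ∈ M.accept
    · rw [if_pos h]
      exact List.pairwise_singleton _ _
    · rw [if_neg h]
      exact List.Pairwise.nil
  | succ m ih =>
    unfold wlw
    rw [List.pairwise_flatMap]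
    refine ⟨?_, ?_⟩
    · intro a _
      rw [List.pairwise_map]
      exact (ih _).imp (fun h => List.Lex.cons h)
    · have h1 : (List.finRange k).Pairwise (· < ·) := List.pairwise_lt_finRange k
      refine h1.imp ?_
      intro a b hab x hx y hy
      rw [List.mem_map] at hx hy
      obtain ⟨v, _, rfl⟩ := hx
      obtain ⟨w, _, rfl⟩ := hy
      exact List.Lex.rel hab

theorem pair_catw {k : ℕ} {σ : Type} (M : DFA (Fin k) σ) (m : ℕ) : (catw M m).Pairwise Rdx := by
  unfold catw
  rw [List.pairwise_flatMap]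
  refine ⟨?_, ?_⟩
  · intro j _
    refine (List.Pairwise.and_mem.1 (pair_wlw M j M.start)).imp ?_
    rintro v w ⟨hv, hw, h⟩
    exact Or.inr ⟨((mem_wlw M j _ v).1 hv).1.trans ((mem_wlw M j _ w).1 hw).1.symm, h⟩
  · have h1 : (List.range m).Pairwise (· < ·) := List.pairwise_lt_range
    refine h1.imp ?_
    intro i j hij x hx y hy
    refine Or.inl ?_
    rw [((mem_wlw M i _ x).1 hx).1, ((mem_wlw M j _ y).1 hy).1]
    exact hij

theorem mem_catw {k : ℕ} {σ : Type} (M : DFA (Fin k) σ) (m : ℕ) (w : List (Fin k)) :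
    w ∈ catw M m ↔ w.length < m ∧ w ∈ M.accepts := by
  unfold catw
  rw [List.mem_flatMap]
  constructor
  · rintro ⟨j, hj, hw⟩
    obtain ⟨h1, h2⟩ := (mem_wlw M j _ w).1 hw
    rw [List.mem_range] at hj
    exact ⟨by omega, h2⟩
  · rintro ⟨h1, h2⟩
    exact ⟨w.length, List.mem_range.2 h1, (mem_wlw M _ _ w).2 ⟨rfl, h2⟩⟩

theorem cat_eq {k : ℕ} {σ : Type} (M : DFA (Fin k) σ) (t o : List ℕ) (m : ℕ) :
    cat M t o m = (catw M m).map (fun w => ((outp k t o 0 w : ℕ) : ℤ)) := by
  unfold cat catw
  rw [List.map_flatMap]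
  congr 1
  funext j
  exact wl_eq M t o j M.start 0

theorem Rdx.irrefl {k : ℕ} (w : List (Fin k)) : ¬ Rdx w w := by
  rintro (h | ⟨_, h⟩)
  · exact lt_irrefl _ h
  · exact lt_irrefl w h

theorem Rdx.trans {k : ℕ} {u v w : List (Fin k)} (h1 : Rdx u v) (h2 : Rdx v w) : Rdx u w := by
  rcases h1 with h1 | ⟨h1, h1'⟩ <;> rcases h2 with h2 | ⟨h2, h2'⟩
  · exact Or.inl (h1.trans h2)
  · exact Or.inl (h2 ▸ h1)
  · exact Or.inl (h1 ▸ h2)
  · exact Or.inr ⟨h1.trans h2, (lt_trans (a := u) (b := v) (c := w) h1' h2')⟩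

/-- in a list which is sorted for a strict order the entries before the `i`-th one are the first `i` ones -/
theorem ncard_lt {α : Type} {R : α → α → Prop} (hi : ∀ a, ¬ R a a)
    (ht : ∀ a b c, R a b → R b c → R a c) (l : List α) (h : l.Pairwise R) (i : ℕ) (hl : i < l.length) :
    Set.ncard {v : α | v ∈ l ∧ R v l[i]} = i := by
  classical
  have hset : {v : α | v ∈ l ∧ R v l[i]} = ((l.take i).toFinset : Set α) := by
    ext v
    simp only [Set.mem_ofPred_eq, List.coe_toFinset]
    constructor
    · rintro ⟨hv, hR⟩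
      obtain ⟨j, hj, rfl⟩ := List.mem_iff_getElem.1 hv
      have hji : j < i := by
        by_contra hc
        rcases Nat.lt_or_ge i j with hc' | hc'
        · exact hi _ (ht _ _ _ hR (List.pairwise_iff_getElem.1 h i j hl hj hc'))
        · have : j = i := by omega
          subst this
          exact hi _ hR
      exact List.mem_iff_getElem.2 ⟨j, by rw [List.length_take]; omega, by rw [List.getElem_take]⟩
    · intro hv
      obtain ⟨j, hj, rfl⟩ := List.mem_iff_getElem.1 hv
      rw [List.length_take] at hj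
      rw [List.getElem_take]
      exact ⟨List.getElem_mem _, List.pairwise_iff_getElem.1 h j i (by omega) hl (by omega)⟩
  rw [hset, Set.ncard_coe_finset]
  have hnd : l.Nodup := by
    refine List.Pairwise.imp ?_ h
    intro a b hR hab
    rw [hab] at hR
    exact hi b hR
  rw [List.toFinset_card_of_nodup (hnd.sublist (List.take_sublist _ _)), List.length_take]
  omega

/-- the set whose cardinality is the rank -/
theorem rank_set {k : ℕ} {σ : Type} (M : DFA (Fin k) σ) (m : ℕ) (w : List (Fin k)) (hm : w.length < m) :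
    {v : List (Fin k) | v ∈ M.accepts ∧ (v.length < w.length ∨ (v.length = w.length ∧
      List.Lex (· < ·) v w))} = {v | v ∈ catw M m ∧ Rdx v w} := by
  ext v
  simp only [Set.mem_ofPred_eq]
  constructor
  · rintro ⟨h1, h2⟩
    refine ⟨(mem_catw M m v).2 ⟨?_, h1⟩, h2⟩
    rcases h2 with h2 | ⟨h2, _⟩ <;> omega
  · rintro ⟨h1, h2⟩
    exact ⟨((mem_catw M m v).1 h1).2, h2⟩

/-- (RK) the rank of an accepted word is its place -/
theorem rank_cat {k : ℕ} {σ : Type} (M : DFA (Fin k) σ) (t o : List ℕ) (m : ℕ) (w : List (Fin k))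
    (hw : w ∈ M.accepts) (hm : w.length < m) :
    Set.ncard {v : List (Fin k) | v ∈ M.accepts ∧ (v.length < w.length ∨ (v.length = w.length ∧
      List.Lex (· < ·) v w))} < (cat M t o m).length ∧
    (cat M t o m).getD (Set.ncard {v : List (Fin k) | v ∈ M.accepts ∧ (v.length < w.length ∨
      (v.length = w.length ∧ List.Lex (· < ·) v w))}) 0 = ((outp k t o 0 w : ℕ) : ℤ) := by
  rw [rank_set M m w hm, cat_eq]
  obtain ⟨i, hi, hiw⟩ := List.mem_iff_getElem.1 ((mem_catw M m w).2 ⟨hm, hw⟩)
  have h1 : Set.ncard {v | v ∈ catw M m ∧ Rdx v w} = i := by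
    rw [← hiw]
    exact ncard_lt Rdx.irrefl (fun _ _ _ h h' => Rdx.trans h h') (catw M m) (pair_catw M m) i hi
  rw [h1]
  refine ⟨by rw [List.length_map]; exact hi, ?_⟩
  rw [List.getD_eq_getElem _ _ (by rw [List.length_map]; exact hi), List.getElem_map, hiw]

/-- every place is the rank of an accepted word -/
theorem exists_rank {k : ℕ} {σ : Type} (M : DFA (Fin k) σ) (t o : List ℕ) (m i : ℕ)
    (hi : i < (cat M t o m).length) : ∃ w ∈ M.accepts, w.length < m ∧
    Set.ncard {v : List (Fin k) | v ∈ M.accepts ∧ (v.length < w.length ∨ (v.length = w.length ∧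
      List.Lex (· < ·) v w))} = i := by
  rw [cat_eq, List.length_map] at hi
  have h := (mem_catw M m (catw M m)[i]).1 (List.getElem_mem hi)
  refine ⟨(catw M m)[i], h.2, h.1, ?_⟩
  rw [rank_set M m _ h.1]
  exact ncard_lt Rdx.irrefl (fun _ _ _ h h' => Rdx.trans h h') (catw M m) (pair_catw M m) i hi

end AW
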