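import Pool.Agent.Lib.MP_dd05d9_lc.PR

/-!
`sfx n l = (l.reverse.take n).reverse`: P.reverse, P.pr, FS.reverse.
-/

set_option autoImplicit false

namespace AW

theorem P.sf (e : ℕ) : ∃ F : ℕ → ℕ, PM F ∧ ∀ (N n : ℕ) (W : ℕ → List ℤ), P e N W → n ≤ N →
    Ev FS F N (fun k => sfx n (W k)) := by
  obtain ⟨F, hF, h⟩ := P.pr e
  refine ⟨F, hF, fun N n W hW hn c hc => ?_⟩
  have h1 := h N n (fun k => (W k).reverse) (P.reverse hW) hn c hc
  exact FS.reverse h1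

end AW
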