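import Pool.Agent.Lib.MP_dd05d9_lc.PMa
import Pool.Agent.Lib.MP_dd05d9_lc.Pb1

/-!
Induction on `e`.  `e = 0`: FS.bound gives `SB (N*N*2^k)`, `k <= N`; F N = N * (N+1) * 2^N ... (PM.mul, PM.pow2).
`e + 1`: with `F_e`: a piece: FS: as before.  `Z (k+1) = Z k ++ Y k`: `Z k = Z 0 ++ Y 0 ++ ... ++ Y (k-1)`, so `SB (N + k * F_e N)`
(SB.append, induction on `k`), `k <= N`.  The product of at most `N` pieces: SB (N * (F_0 N + N + N * F_e N)).
-/

set_option autoImplicit false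

namespace AW

private theorem SZ_inc {A B : ℕ} {Y Z : ℕ → List ℤ} (h0 : SB A (Z 0)) (k : ℕ)
    (hY : ∀ j < k, SB B (Y j)) (h : ∀ j, Z (j + 1) = Z j ++ Y j) : SB (A + k * B) (Z k) := by
  induction k with
  | zero => rw [Nat.zero_mul, Nat.add_zero]; exact h0
  | succ k ih =>
    rw [h k]
    refine SB.mono ?_ (SB.append (ih (fun j hj => hY j (by omega))) (hY k (Nat.lt_succ_self k)))
    rw [Nat.succ_mul]
    omega

private theorem SZ_dec {A B : ℕ} {Y Z : ℕ → List ℤ} (h0 : SB A (Z 0)) (k : ℕ)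
    (hY : ∀ j < k, SB B (Y j)) (h : ∀ j, Z (j + 1) = Y j ++ Z j) : SB (A + k * B) (Z k) := by
  induction k with
  | zero => rw [Nat.zero_mul, Nat.add_zero]; exact h0
  | succ k ih =>
    rw [h k]
    refine SB.mono ?_ (SB.append (hY k (Nat.lt_succ_self k)) (ih (fun j hj => hY j (by omega))))
    rw [Nat.succ_mul]
    omega

private theorem SZ_flat {B : ℕ} (L : List (List ℤ)) (h : ∀ l ∈ L, SB B l) :
    SB (L.length * B) L.flatten := by
  induction L with
  | nil => exact ⟨by simp, by simp⟩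
  | cons l L ih =>
    rw [List.flatten_cons, List.length_cons]
    refine SB.mono ?_ (SB.append (h l List.mem_cons_self)
      (ih (fun x hx => h x (List.mem_cons_of_mem _ hx))))
    rw [Nat.succ_mul]
    omega

private theorem SZ_fs {N : ℕ} {W : ℕ → List ℤ} (hW : FS N W) {k : ℕ} (hk : k ≤ N) :
    SB (N * (N + 1) * (2 ^ N + 1)) (W k) := by
  refine SB.mono ?_ (FS.bound hW k)
  have h1 : (2 : ℕ) ^ k ≤ 2 ^ N := Nat.pow_le_pow_right (by norm_num) hk
  exact Nat.mul_le_mul (Nat.mul_le_mul_left _ (Nat.le_succ _)) (h1.trans (Nat.le_succ _))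

theorem P.size (e : ℕ) : ∃ F : ℕ → ℕ, PM F ∧ ∀ (N : ℕ) (W : ℕ → List ℤ) (k : ℕ),
    P e N W → k ≤ N → SB (F N) (W k) := by
  have hA : PM (fun n => n * (n + 1) * (2 ^ n + 1)) := PM.mul (PM.mul PM.id PM.id) PM.pow2
  induction e with
  | zero => exact ⟨_, hA, fun N W k hW hk => SZ_fs hW hk⟩
  | succ e ih =>
    obtain ⟨Fe, hFe, he⟩ := ih
    refine ⟨fun n => n * ((n * (n + 1) * (2 ^ n + 1) + n * (Fe n + 1)) + 1),
      PM.mul PM.id (PM.add hA (PM.mul PM.id hFe)), ?_⟩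
    intro N W k hW hk
    obtain ⟨L, hL, hp, hW⟩ := hW
    rw [hW k]
    have hB : ∀ Z ∈ L, SB (N * (N + 1) * (2 ^ N + 1) + N * (Fe N + 1)) (Z k) := by
      intro Z hZ
      have hk2 : k * Fe N ≤ N * Fe N := Nat.mul_le_mul_right _ hk
      have e1 : N * (Fe N + 1) = N + N * Fe N := by ring
      rcases hp Z hZ with h | ⟨Y, hY, h0, h⟩ | ⟨Y, hY, h0, h⟩
      · exact SB.mono (Nat.le_add_right _ _) (SZ_fs h hk)
      · refine SB.mono ?_ (SZ_inc h0 k (fun j hj => he N Y j hY (by omega)) h)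
        rw [e1]
        omega
      · refine SB.mono ?_ (SZ_dec h0 k (fun j hj => he N Y j hY (by omega)) h)
        rw [e1]
        omega
    have hfl := SZ_flat (B := N * (N + 1) * (2 ^ N + 1) + N * (Fe N + 1)) (L.map (fun Z => Z k)) (by
      intro l hl
      rw [List.mem_map] at hl
      obtain ⟨Z, hZ, rfl⟩ := hl
      exact hB Z hZ)
    refine SB.mono ?_ hfl
    rw [List.length_map]
    exact Nat.mul_le_mul hL (Nat.le_succ _)

end AW
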