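import Pool.Agent.Lib.MP_dd05d9_lc.Poly1
import Pool.Agent.Lib.MP_dd05d9_lc.Pb1

/-!
Induction on `e`: `|W k| = pe a k` for all `k`, some list `a` of integers.  FS: constant.  inc, dec: `|Z (k+1)| = |Z k| + |Y k|`: PB.sum (for a suitable size N').  Products: sums (PB.add, list induction).
State it as `exists N', PB N' (fun k => (W k).length)`.
* pe_growth: if `PB N' p` and `p k >= 1` for all large `k`... see XL2.
-/

set_option autoImplicit false

namespace AW

private theorem XL1_const (l : ℕ) : ∃ N', PB N' (fun _ => (l : ℤ)) :=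
  ⟨l + 1, PB.const (by simp)⟩

private theorem XL1_piece {Q : (ℕ → List ℤ) → Prop}
    (hQ : ∀ Y, Q Y → ∃ N', PB N' (fun k => ((Y k).length : ℤ))) {N : ℕ} {Z : ℕ → List ℤ}
    (h : Piece Q N Z) : ∃ N', PB N' (fun k => ((Z k).length : ℤ)) := by
  have key : ∀ Y : ℕ → List ℤ, Q Y → (∀ k, (Z (k + 1)).length = (Z k).length + (Y k).length) →
      ∃ N', PB N' (fun k => ((Z k).length : ℤ)) := by
    intro Y hY hs
    obtain ⟨M, hM⟩ := hQ Y hY
    refine ⟨(M + (Z 0).length) + 1, PB.sum (a := fun k => ((Y k).length : ℤ))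
      (PB.mono (Nat.le_add_right _ _) hM) ?_ ?_⟩
    · rw [abs_of_nonneg (by positivity)]
      push_cast
      omega
    · intro k
      show ((Z (k + 1)).length : ℤ) = _
      rw [hs k]
      push_cast
      rfl
  rcases h with ⟨l, -, hl, -⟩ | ⟨Y, hY, -, hs⟩ | ⟨Y, hY, -, hs⟩
  · obtain ⟨M, hM⟩ := XL1_const l
    refine ⟨M, ?_⟩
    simpa [hl] using hM
  · exact key Y hY fun k => by rw [hs k, List.length_append]
  · exact key Y hY fun k => by rw [hs k, List.length_append, Nat.add_comm]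

private theorem XL1_list (L : List (ℕ → List ℤ))
    (h : ∀ Z ∈ L, ∃ N', PB N' (fun k => ((Z k).length : ℤ))) :
    ∃ N', PB N' (fun k => (((L.map (fun Z => Z k)).flatten).length : ℤ)) := by
  induction L with
  | nil => simpa using XL1_const 0
  | cons Z L ih =>
    obtain ⟨M, hM⟩ := h Z (by simp)
    obtain ⟨M', hM'⟩ := ih fun Y hY => h Y (by simp [hY])
    refine ⟨M + M', ?_⟩
    have := PB.add hM hM'
    simpa using this

theorem P.len_poly {e N : ℕ} {W : ℕ → List ℤ} (h : P e N W) :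
    ∃ N', PB N' (fun k => ((W k).length : ℤ)) := by
  induction e generalizing W with
  | zero =>
    obtain ⟨l, -, hl, -⟩ := h
    obtain ⟨M, hM⟩ := XL1_const l
    refine ⟨M, ?_⟩
    simpa [hl] using hM
  | succ e ih =>
    obtain ⟨L, -, hL, hW⟩ := h
    obtain ⟨M, hM⟩ := XL1_list L fun Z hZ => XL1_piece (fun Y hY => ih hY) (hL Z hZ)
    refine ⟨M, ?_⟩
    simpa [hW] using hM

end AW
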