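import Pool.Agent.Lib.MP_dd05d9_lc.XD
import Pool.Agent.Lib.MP_dd05d9_lc.WB
import Pool.Agent.Lib.MP_dd05d9_lc.LV
import Pool.Agent.Lib.MP_dd05d9_lc.AUT
import Pool.Agent.Lib.MP_dd05d9_lc.XL1

/-!
Fix `M`, a table `t` of size `N` (Fin k).  `Mt` = DFA on `Option (sigma x Fin (N+1))`: start `some (start, 0)`; step from `none`: `none`; from `some (s,q)`: if Bad M t s q: `none`, otherwise `some (step s a, tst k t q a)` (tst_le);
accept: `some (s,q)` with (Bad M t s q) or (s in M.accept and not Bad).  ULH Mt: a state `some (s,q)` on a nonempty loop is not bad (a bad state goes to none, which never returns), and if it is coaccessible in `Mt` then `s` is coaccessible in `M`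
(follow the run: an accepted state is bad (then Coa) or in M.accept); two different loops of equal length stay inside `some`, so they are loops of `s` and of `q`: then (s,q) would be Bad.
By AU_u for `Mt` with the table `t' = []`, `o' = []` (the DFAO with one state; wl counts accepted words: entries 0) and any level `e = card`: `VF` is in P e F, so by XL1 lengths polynomial in the time, for each residue `r`:
there is `c` with `|wl Mt [] [] m start 0| <= c (m+1)^c`.  [for all states x reachable the same; only start is needed.]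
If no AU_u-version is available: count directly.
Statement: `np m` = number of accepted words of `Mt` of length `m`.
-/

set_option autoImplicit false

namespace AW

open Classical in
/-- the automaton of the words which meet a bad state only at the end or never -/
noncomputable def Mt {k : ℕ} {σ : Type} (M : DFA (Fin k) σ) (t : List ℕ) (N : ℕ) :
    DFA (Fin k) (Option (σ × Fin (N + 1))) where
  step x a := match x with
    | none => none
    | some (s, q) => if Bad M t s q then none else
        some (M.step s a, ⟨min (tst k t q a) N, by omega⟩)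
  start := some (M.start, 0)
  accept := {x | ∃ s q, x = some (s, q) ∧ (Bad M t s q ∨ s ∈ M.accept)}

private theorem XB3_none {k : ℕ} {σ : Type} (M : DFA (Fin k) σ) (t : List ℕ) (N : ℕ)
    (x : List (Fin k)) : (Mt M t N).evalFrom none x = none := by
  induction x with
  | nil => rfl
  | cons a x ih => exact ih

private theorem XB3_run {k : ℕ} {σ : Type} (M : DFA (Fin k) σ) {t : List ℕ} {N : ℕ} (ht : SN N t)
    (x : List (Fin k)) : ∀ (s : σ) (q : Fin (N + 1)) (s' : σ) (q' : Fin (N + 1)),
      (Mt M t N).evalFrom (some (s, q)) x = some (s', q') →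
        M.evalFrom s x = s' ∧ run k t q x = q' := by
  induction x with
  | nil =>
    intro s q s' q' h
    have h1 : (some (s, q) : Option (σ × Fin (N + 1))) = some (s', q') := h
    have h2 := Option.some.inj h1
    have h3 : s = s' := congrArg Prod.fst h2
    have h4 : q = q' := congrArg Prod.snd h2
    subst h3 h4
    exact ⟨rfl, rfl⟩
  | cons a x ih =>
    intro s q s' q' h
    have h1 : (Mt M t N).evalFrom ((Mt M t N).step (some (s, q)) a) x = some (s', q') := h
    by_cases hb : Bad M t s q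
    · have h2 : (Mt M t N).step (some (s, q)) a = none := if_pos hb
      rw [h2, XB3_none] at h1
      exact absurd h1 (by simp)
    · have h2 : (Mt M t N).step (some (s, q)) a =
        some (M.step s a, ⟨min (tst k t q a) N, by omega⟩) := if_neg hb
      rw [h2] at h1
      obtain ⟨h3, h4⟩ := ih _ _ _ _ h1
      refine ⟨h3, ?_⟩
      have h5 : min (tst k t q a) N = tst k t q a := min_eq_left (tst_le ht _ _)
      have h6 : run k t (min (tst k t q a) N) x = q' := h4
      rw [h5] at h6
      exact h6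

private theorem XB3_bad {k : ℕ} {σ : Type} (M : DFA (Fin k) σ) {t : List ℕ} {N : ℕ} {s : σ}
    {q : Fin (N + 1)} (hb : Bad M t s q) {x : List (Fin k)} (hx : x ≠ []) :
    (Mt M t N).evalFrom (some (s, q)) x = none := by
  cases x with
  | nil => exact absurd rfl hx
  | cons a x =>
    have h2 : (Mt M t N).step (some (s, q)) a = none := if_pos hb
    show (Mt M t N).evalFrom ((Mt M t N).step (some (s, q)) a) x = none
    rw [h2]
    exact XB3_none M t N x

private theorem XB3_acc {k : ℕ} {σ : Type} (M : DFA (Fin k) σ) {t : List ℕ} {N : ℕ}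
    {x : Option (σ × Fin (N + 1))} (h : x ∈ (Mt M t N).accept) :
    ∃ (s : σ) (q : Fin (N + 1)), x = some (s, q) ∧ (Bad M t s q ∨ s ∈ M.accept) := h

theorem Mt_ULH {k : ℕ} {σ : Type} (M : DFA (Fin k) σ) {t : List ℕ} {N : ℕ} (ht : SN N t) :
    ULH (Mt M t N) := by
  intro S _ hcoa x y hl hx hy
  by_contra hne
  have hx0 : x ≠ [] := by
    rintro rfl
    exact hne (List.length_eq_zero_iff.1 hl.symm).symm
  obtain ⟨z, hz⟩ := hcoa
  obtain ⟨s1, q1, hz1, hz2⟩ := XB3_acc M hz
  cases S with
  | none =>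
    rw [XB3_none] at hz1
    exact absurd hz1 (by simp)
  | some sq =>
    obtain ⟨s, q⟩ := sq
    have hnb : ¬ Bad M t s q := fun hb => by
      rw [XB3_bad M hb hx0] at hx
      exact absurd hx (by simp)
    apply hnb
    obtain ⟨a1, a2⟩ := XB3_run M ht x s q s q hx
    obtain ⟨b1, b2⟩ := XB3_run M ht y s q s q hy
    obtain ⟨c1, c2⟩ := XB3_run M ht z s q s1 q1 hz1
    refine ⟨?_, x, y, hl, hne, a1, b1, a2, b2⟩
    rcases hz2 with hz2 | hz2
    · exact Coa.to hz2.1 ⟨z, c1⟩
    · exact ⟨z, by rw [c1]; exact hz2⟩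

private theorem XB3_pe (a : List ℤ) (j : ℕ) :
    pe a j ≤ (∑ i ∈ Finset.range a.length, |a.getD i 0|) * ((j : ℤ) + 1) ^ a.length := by
  unfold pe
  rw [Finset.sum_mul]
  refine Finset.sum_le_sum fun i hi => ?_
  rw [Finset.mem_range] at hi
  have h1 : (j.choose i : ℤ) ≤ ((j : ℤ) + 1) ^ a.length := by
    have h2 : j.choose i ≤ (j + 1) ^ a.length :=
      (Nat.choose_le_pow j i).trans ((Nat.pow_le_pow_left (Nat.le_succ j) i).trans
        (Nat.pow_le_pow_right (Nat.succ_pos j) hi.le))
    exact_mod_cast h2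
  calc a.getD i 0 * (j.choose i : ℤ) ≤ |a.getD i 0| * (j.choose i : ℤ) :=
        mul_le_mul_of_nonneg_right (le_abs_self _) (by positivity)
    _ ≤ _ := mul_le_mul_of_nonneg_left h1 (abs_nonneg _)

private theorem XB3_pow {c d A m : ℕ} (h : A ≤ c * (m + 1) ^ c) (hcd : c ≤ d) :
    A ≤ d * (m + 1) ^ d :=
  h.trans (Nat.mul_le_mul hcd (Nat.pow_le_pow_right (Nat.succ_pos m) hcd))

private theorem XB3_PB {N : ℕ} {p : ℕ → ℕ} (h : PB N (fun j => (p j : ℤ))) :
    ∃ c, ∀ j, p j ≤ c * (j + 1) ^ c := by
  obtain ⟨a, _, ha⟩ := h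
  obtain ⟨C, hC⟩ : ∃ C : ℕ, (C : ℤ) = ∑ i ∈ Finset.range a.length, |a.getD i 0| :=
    ⟨(∑ i ∈ Finset.range a.length, |a.getD i 0|).toNat,
      Int.toNat_of_nonneg (Finset.sum_nonneg fun i _ => abs_nonneg _)⟩
  refine ⟨C + a.length, fun j => ?_⟩
  have h1 := XB3_pe a j
  have h0 : (p j : ℤ) = pe a j := ha j
  rw [← h0, ← hC] at h1
  have h2 : p j ≤ C * (j + 1) ^ a.length := by exact_mod_cast h1
  exact h2.trans (Nat.mul_le_mul (Nat.le_add_right _ _)
    (Nat.pow_le_pow_right (Nat.succ_pos j) (Nat.le_add_left _ _)))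

private theorem XB3_unif {P : ℕ} (g : ℕ → ℕ → ℕ)
    (h : ∀ r < P, ∃ c, ∀ j, g r j ≤ c * (j + 1) ^ c) : ∃ c, ∀ r < P, ∀ j, g r j ≤ c * (j + 1) ^ c := by
  induction P with
  | zero => exact ⟨0, fun r hr => absurd hr (Nat.not_lt_zero r)⟩
  | succ P ih =>
    obtain ⟨c, hc⟩ := ih fun r hr => h r (by omega)
    obtain ⟨d, hd⟩ := h P (Nat.lt_succ_self P)
    refine ⟨c + d, fun r hr j => ?_⟩
    rcases Nat.lt_succ_iff_lt_or_eq.1 hr with hr | rfl
    · exact XB3_pow (hc r hr j) (Nat.le_add_right _ _)
    · exact XB3_pow (hd j) (Nat.le_add_left _ _)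

theorem count_ULH {k : ℕ} {σ : Type} [Fintype σ] {M : DFA (Fin k) σ} (h : ULH M) :
    ∃ c : ℕ, ∀ m, (wl M [] [] m M.start 0).length ≤ c * (m + 1) ^ c := by
  obtain ⟨F, _, hA⟩ := AU_u h (Fintype.card σ)
  have hS : SN 0 [] := ⟨le_refl 0, fun x hx => absurd hx List.not_mem_nil⟩
  set p := pp (Fintype.card σ) 0 with hP
  set e := Fintype.card σ with he
  have hP0 : 0 < p := by
    rw [hP]
    unfold pp
    positivity
  obtain ⟨c, hc⟩ := XB3_unif (P := p)
    (fun r j => (wl M [] [] (p * (j + (2 * e + 1)) + r) M.start 0).length) (fun r hr => by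
      obtain ⟨N', hN'⟩ := P.len_poly (hA 0 [] [] hS hS M.start ⟨[], rfl⟩ (Lev.top M.start) 0
        (le_refl 0) r hr)
      exact XB3_PB (p := fun j => (wl M [] [] (p * (j + (2 * e + 1)) + r) M.start 0).length) hN')
  set D := ∑ m ∈ Finset.range (p * (2 * e + 1)), (wl M [] [] m M.start 0).length with hD
  refine ⟨c + D, fun m => ?_⟩
  rcases Nat.lt_or_ge m (p * (2 * e + 1)) with hm | hm
  · have h1 : (wl M [] [] m M.start 0).length ≤ D :=
      Finset.single_le_sum (f := fun m => (wl M [] [] m M.start 0).length)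
        (fun i _ => Nat.zero_le _) (Finset.mem_range.2 hm)
    calc (wl M [] [] m M.start 0).length ≤ (c + D) * 1 := by omega
      _ ≤ (c + D) * (m + 1) ^ (c + D) := Nat.mul_le_mul_left _ (Nat.one_le_pow _ _ (Nat.succ_pos m))
  · have h1 : 2 * e + 1 ≤ m / p := by
      rw [Nat.le_div_iff_mul_le hP0, mul_comm]
      exact hm
    obtain ⟨j, hj⟩ := Nat.exists_eq_add_of_le h1
    have h2 : p * (j + (2 * e + 1)) + m % p = m := by
      have h3 := Nat.div_add_mod m p
      rw [hj] at h3
      rw [Nat.add_comm j]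
      exact h3
    have h4 := hc (m % p) (Nat.mod_lt _ hP0) j
    simp only [h2] at h4
    have h5 : j ≤ m := by
      have h6 : m / p ≤ m := Nat.div_le_self _ _
      omega
    calc (wl M [] [] m M.start 0).length ≤ c * (j + 1) ^ c := h4
      _ ≤ c * (m + 1) ^ c := Nat.mul_le_mul_left _ (Nat.pow_le_pow_left (by omega) _)
      _ ≤ (c + D) * (m + 1) ^ (c + D) := Nat.mul_le_mul (Nat.le_add_right _ _)
          (Nat.pow_le_pow_right (Nat.succ_pos m) (Nat.le_add_right _ _))

end AW
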