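import Pool.Agent.Lib.MP_dd05d9_lc.XD

/-!
`b : N -> N` the numbers of words.  Hypotheses: (1) exponential growth on a progression: `2^i <= b (r + i * p)` for all `i`; (2) for every `m` with `b j <= b m` for all `j <= m` (record) and `b m` large there is `l` with
`b m <= c (m+1)^c * l` ... see the statement: for all `m`, if `c (m+1)^c < b m` then there are `a, l` with `b m <= c (m+1)^c * l`, `a + 1 <= S (m+1) + 1`, where `S (m+1) = sum_{j<=m} b j`, and `l^D <= C (a+1)^(D-1)`.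
CONTRADICTION: for given `i` let `m` be an argmax of `b` on `[0, r + i p]`: then `b m >= 2^i`, `b j <= b m` for `j <= m`, `m <= r + i p`, `S <= (m+1) b m`.  For `i` large `c (m+1)^c < 2^i <= b m`.  Then
`(b m)^D <= (c (m+1)^c)^D l^D <= (c (m+1)^c)^D C ((m+1) b m + 1)^(D-1) <= (c (m+1)^c)^D C (2 (m+1))^(D-1) (b m)^(D-1)`, so `b m <= C' (m+1)^C' <= C' (r + i p + 1)^C'`, which is `< 2^i` for large `i`: contradiction.
-/

set_option autoImplicit false

namespace AW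

private theorem poly_lt (K E : ℕ) : ∀ᶠ i : ℕ in Filter.atTop, K * (i + 1) ^ E < 2 ^ i := by
  have h1 := tendsto_pow_const_div_const_pow_of_one_lt E (one_lt_two : (1 : ℝ) < 2)
  have h2 := (Filter.tendsto_add_atTop_iff_nat 1).2 h1
  have h3 : ∀ᶠ i : ℕ in Filter.atTop,
      (((i + 1 : ℕ) : ℝ)) ^ E / 2 ^ (i + 1) < 1 / (2 * (K + 1 : ℝ)) :=
    h2.eventually_lt_const (by positivity)
  filter_upwards [h3] with i hi
  rw [div_lt_div_iff₀ (by positivity) (by positivity)] at hi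
  have h4 : ((K * (i + 1) ^ E : ℕ) : ℝ) < ((2 ^ i : ℕ) : ℝ) := by
    push_cast at hi ⊢
    have h5 : (2 : ℝ) ^ (i + 1) = 2 * 2 ^ i := by ring
    rw [h5] at hi
    have h6 : (0 : ℝ) ≤ ((i : ℝ) + 1) ^ E := by positivity
    nlinarith
  exact_mod_cast h4

theorem arith_contra {b : ℕ → ℕ} {r p c C D : ℕ} (hD : 1 ≤ D) (h1 : ∀ i, 2 ^ i ≤ b (r + i * p))
    (h2 : ∀ m, c * (m + 1) ^ c < b m → ∃ a l : ℕ, b m ≤ c * (m + 1) ^ c * l ∧
      a ≤ ∑ j ∈ Finset.range (m + 1), b j ∧ l ^ D ≤ C * (a + 1) ^ (D - 1)) : False := by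
  obtain ⟨i, hi1, hi2⟩ := ((poly_lt (c * (r + p + 1) ^ c) c).and
    (poly_lt ((c * (r + p + 1) ^ c) ^ D * C * (2 * (r + p + 1)) ^ (D - 1))
      (c * D + (D - 1)))).exists
  obtain ⟨m, hm1, hm2⟩ := Finset.exists_max_image (Finset.range (r + i * p + 1)) b
    ⟨0, Finset.mem_range.2 (Nat.succ_pos _)⟩
  have hm3 : m ≤ r + i * p := Nat.lt_succ_iff.1 (Finset.mem_range.1 hm1)
  have hm4 : 2 ^ i ≤ b m := (h1 i).trans (hm2 _ (Finset.mem_range.2 (Nat.lt_succ_self _)))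
  have hn : m + 1 ≤ (r + p + 1) * (i + 1) := by nlinarith
  have hq : c * (m + 1) ^ c ≤ c * (r + p + 1) ^ c * (i + 1) ^ c := by
    rw [mul_assoc, ← mul_pow]
    exact Nat.mul_le_mul_left _ (Nat.pow_le_pow_left hn c)
  obtain ⟨a, l, e1, e2, e3⟩ := h2 m (hq.trans_lt (hi1.trans_le hm4))
  have hb : 1 ≤ b m := Nat.one_le_two_pow.trans hm4
  have e4 : a ≤ (m + 1) * b m := by
    refine e2.trans ?_
    calc ∑ j ∈ Finset.range (m + 1), b j ≤ ∑ j ∈ Finset.range (m + 1), b m :=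
          Finset.sum_le_sum fun j hj => hm2 j (Finset.mem_range.2
            ((Finset.mem_range.1 hj).trans_le (by omega)))
      _ = (m + 1) * b m := by rw [Finset.sum_const, Finset.card_range, smul_eq_mul]
  have e5 : a + 1 ≤ 2 * (m + 1) * b m := by nlinarith
  have e6 : b m ^ D ≤ (c * (m + 1) ^ c) ^ D * C * (2 * (m + 1)) ^ (D - 1) * b m ^ (D - 1) := by
    calc b m ^ D ≤ (c * (m + 1) ^ c * l) ^ D := Nat.pow_le_pow_left e1 D
      _ = (c * (m + 1) ^ c) ^ D * l ^ D := mul_pow _ _ _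
      _ ≤ (c * (m + 1) ^ c) ^ D * (C * (a + 1) ^ (D - 1)) := Nat.mul_le_mul_left _ e3
      _ ≤ (c * (m + 1) ^ c) ^ D * (C * (2 * (m + 1) * b m) ^ (D - 1)) :=
          Nat.mul_le_mul_left _ (Nat.mul_le_mul_left _ (Nat.pow_le_pow_left e5 _))
      _ = _ := by rw [mul_pow (2 * (m + 1)) (b m)]; ring
  have e7 : b m ^ D = b m * b m ^ (D - 1) := by
    rw [← pow_succ']
    congr 1
    omega
  rw [e7] at e6
  have e8 : b m ≤ (c * (m + 1) ^ c) ^ D * C * (2 * (m + 1)) ^ (D - 1) :=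
    Nat.le_of_mul_le_mul_right e6 (pow_pos hb _)
  have e9 : (c * (m + 1) ^ c) ^ D * C * (2 * (m + 1)) ^ (D - 1) ≤
      (c * (r + p + 1) ^ c * (i + 1) ^ c) ^ D * C * (2 * ((r + p + 1) * (i + 1))) ^ (D - 1) :=
    Nat.mul_le_mul (Nat.mul_le_mul_right _ (Nat.pow_le_pow_left hq D))
      (Nat.pow_le_pow_left (Nat.mul_le_mul_left _ hn) _)
  have e10 : (c * (r + p + 1) ^ c * (i + 1) ^ c) ^ D * C *
      (2 * ((r + p + 1) * (i + 1))) ^ (D - 1) =
      (c * (r + p + 1) ^ c) ^ D * C * (2 * (r + p + 1)) ^ (D - 1) *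
        (i + 1) ^ (c * D + (D - 1)) := by
    rw [mul_pow (c * (r + p + 1) ^ c), ← pow_mul, ← mul_assoc 2 (r + p + 1), mul_pow (2 * _),
      pow_add]
    ring
  rw [e10] at e9
  exact absurd (hm4.trans (e8.trans e9)) (not_le.2 hi2)

end AW
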