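import Pool.Agent.Lib.MP_dd05d9_lc.XD

/-!
* infix_two: `T <:+: A ++ B`: `A ++ B = x ++ T ++ y`.  If `|x| >= |A|`: `T1 = []`, `T2 = T`.  If `|x| + |T| <= |A|`: `T1 = T`.  Otherwise cut `T` at `|A| - |x|`
  (`List.take`, `List.drop`; `List.append_eq_append_iff`).
* infix_flat: induction on `L`: `T <:+: l ++ L.flatten`, infix_two: `T = T1 ++ T2`; if `|T1| >= C` take it, otherwise `|T2| > |L| * C`.
* infix_big: `T` an infix of `L.flatten` where all members have length `>= C`, and `|T| >= 2 C + 1`: a member `l` and an infix of length `>= C`.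
  Induction on `L`: infix_two with `T1 <:+: l`, `T2 <:+: L.flatten`: if `|T1| >= C`: done.  If `T1 = []` (or generally if `T2 = T`): induction.  Otherwise `0 < |T1| < C`, `T2` is a PREFIX of `L.flatten`
  with `|T2| >= C + 1`: so it contains a part of length `>= C` of the first member of `L` (of length `>= C`).  Use a stronger infix_two: either
  `T <:+: A`, or `T <:+: B`, or `T = T1 ++ T2` with `T1 <:+ A`, `T2 <+: B`.
-/

set_option autoImplicit false

namespace AW

theorem infix_cases {A B T : List ℤ} (h : T <:+: A ++ B) : T <:+: A ∨ T <:+: B ∨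
    ∃ T1 T2, T = T1 ++ T2 ∧ T1 <:+ A ∧ T2 <+: B := by
  obtain ⟨x, y, h⟩ := h
  rw [List.append_assoc, List.append_eq_append_iff] at h
  rcases h with ⟨a, h1, h2⟩ | ⟨b, h1, h2⟩
  · rw [List.append_eq_append_iff] at h2
    rcases h2 with ⟨c, h3, h4⟩ | ⟨c, h3, h4⟩
    · left
      exact ⟨x, c, by rw [h1, h3, List.append_assoc]⟩
    · right; right
      exact ⟨a, c, h3, ⟨x, h1.symm⟩, ⟨y, h4.symm⟩⟩
  · right; left
    exact ⟨b, y, by rw [h2, List.append_assoc]⟩

theorem infix_flat {L : List (List ℤ)} {T : List ℤ} {C : ℕ} (h : T <:+: L.flatten)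
    (hT : L.length * C < T.length) : ∃ l ∈ L, ∃ S, S <:+: T ∧ S <:+: l ∧ C ≤ S.length := by
  induction L generalizing T with
  | nil =>
    simp at h
    subst h
    simp at hT
  | cons l L ih =>
    rw [List.flatten_cons] at h
    rw [List.length_cons, Nat.add_mul, one_mul] at hT
    rcases infix_cases h with h1 | h1 | ⟨T1, T2, h1, h2, h3⟩
    · exact ⟨l, List.mem_cons_self, T, List.infix_rfl, h1, by omega⟩
    · obtain ⟨l', hl', S, hS⟩ := ih h1 (by omega)
      exact ⟨l', List.mem_cons_of_mem _ hl', S, hS⟩
    · by_cases hc : C ≤ T1.length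
      · exact ⟨l, List.mem_cons_self, T1, ⟨[], T2, by rw [h1]; simp⟩, h2.isInfix, hc⟩
      · have hl : T.length = T1.length + T2.length := by rw [h1, List.length_append]
        obtain ⟨l', hl', S, hS1, hS2⟩ := ih h3.isInfix (by omega)
        refine ⟨l', List.mem_cons_of_mem _ hl', S, hS1.trans ⟨T1, [], by rw [h1]; simp⟩, hS2⟩

theorem infix_big {L : List (List ℤ)} {T : List ℤ} {C : ℕ} (h : T <:+: L.flatten)
    (hL : ∀ l ∈ L, C ≤ l.length) (hT : 2 * C + 1 ≤ T.length) :
    ∃ l ∈ L, ∃ S, S <:+: T ∧ S <:+: l ∧ C ≤ S.length := by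
  induction L generalizing T with
  | nil =>
    simp at h
    subst h
    simp at hT
  | cons l L ih =>
    rw [List.flatten_cons] at h
    rcases infix_cases h with h1 | h1 | ⟨T1, T2, h1, h2, h3⟩
    · exact ⟨l, List.mem_cons_self, T, List.infix_rfl, h1, by omega⟩
    · obtain ⟨l', hl', S, hS⟩ := ih h1 (fun l' h' => hL l' (List.mem_cons_of_mem _ h')) hT
      exact ⟨l', List.mem_cons_of_mem _ hl', S, hS⟩
    · by_cases hc : C ≤ T1.length
      · exact ⟨l, List.mem_cons_self, T1, ⟨[], T2, by rw [h1]; simp⟩, h2.isInfix, hc⟩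
      · have hl : T.length = T1.length + T2.length := by rw [h1, List.length_append]
        have hT2 : C ≤ T2.length := by omega
        cases L with
        | nil =>
          simp at h3
          rw [h3] at hl
          simp at hl
          omega
        | cons l2 L =>
          have h5 : C ≤ l2.length := hL l2 (by simp)
          rw [List.flatten_cons] at h3
          refine ⟨l2, by simp, T2.take C, ?_, ?_, ?_⟩
          · refine (List.take_prefix C T2).isInfix.trans ⟨T1, [], by rw [h1]; simp⟩
          · obtain ⟨z, hz⟩ := h3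
            have h6 : T2.take C = l2.take C := by
              have h7 := congrArg (List.take C) hz
              rwa [List.take_append_of_le_length hT2, List.take_append_of_le_length h5] at h7
            rw [h6]
            exact (List.take_prefix C l2).isInfix
          · rw [List.length_take]; omega

end AW
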