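import Pool.Agent.Lib.MP_dd05d9_lc.XG0
import Pool.Agent.Lib.MP_dd05d9_lc.XQa
import Pool.Agent.Lib.MP_dd05d9_lc.LD
import Pool.Agent.Lib.MP_dd05d9_lc.ANN

/-!
Statement (GP-property) of a family `W`: for every `G` there is `C` such that every infix `T` of a value `W k` with `|T| >= C` has an infix `S` with `|S| >= G` and `Zr R S`.
PIECES over `P e N`, given the property for all members of `P e N` (function `K0`), and `R` with RB N' M R, `N' >=` a bound depending on `e, N` only.
* FS: `|Z k| <= N`: C = N + 1 (vacuous).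
* inc `Z (k+1) = Z k ++ Y k`.  P.ld for `Y`: first case: with `c = F N`: `Y (. + c)` is FS of size `F c`, constant length `l`.  For `k <= c`: `|Z k| <= |Z c|` (monotone).  For `k >= c`: if `l = 0`: `Z k = Z c`.
  If `l >= 1`: `T` an infix of `Z k`; `T.drop |Z c|` is an infix of `(Z k).drop |Z c|`, which is killed by ann_inc (for the family `Z (. + c)`, with N' >= F c, FS.mono); zr_infix.  C = |Z c| + G + 1.
  Second case: `|Y (j+1)| > |Y j|` for `j >= e`, so `|Y j| >= j - e`.  Let `C1` be the constant for `Y` and `G`; `J0 = e + C1`: `|Y j| >= C1` for `j >= J0`.  `C = |Z J0| + 2 C1 + 1`: `T.drop |Z J0|` is an infix of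
  `(Z k).drop |Z J0|` = flatten of the `Y j`, `J0 <= j < k`; infix_big gives an infix `S` of `T` inside one `Y j`, `|S| >= C1`; the property of `Y`.
* dec: by reversal: `(Z k).reverse` is an inc family with `(Y k).reverse` in `P e N` (P.reverse); `T` infix iff `T.reverse` infix (`List.reverse_infix`); `Zr R S` iff `Zr R S.reverse` (dl_rev).
* drop_infix: `T <:+: Z`, then `T.drop n <:+: Z.drop n`.
-/

set_option autoImplicit false

namespace AW

/-- the gap property of a family -/
def GapP (R : Polynomial ℤ) (W : ℕ → List ℤ) : Prop :=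
  ∀ G : ℕ, ∃ C : ℕ, ∀ k, ∀ T : List ℤ, T <:+: W k → C ≤ T.length →
    ∃ S, S <:+: T ∧ G ≤ S.length ∧ Zr R S

theorem drop_infix {T Z : List ℤ} (h : T <:+: Z) (n : ℕ) : T.drop n <:+: Z.drop n := by
  obtain ⟨x, y, rfl⟩ := h
  rcases Nat.lt_or_ge T.length n with hn | hn
  · rw [List.drop_eq_nil_of_le hn.le]
    exact List.nil_infix
  · have h1 : (x ++ T ++ y).drop (n + x.length) = T.drop n ++ y := by
      rw [add_comm, ← List.drop_drop, List.append_assoc, List.drop_left,
        List.drop_append_of_le_length hn]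
    have h2 : (x ++ T ++ y).drop (n + x.length) <:+ (x ++ T ++ y).drop n := by
      rw [← List.drop_drop]
      exact List.drop_suffix _ _
    rw [h1] at h2
    exact (List.prefix_append _ _).isInfix.trans h2.isInfix

theorem GapP.rev {N M : ℕ} {R : Polynomial ℤ} (hR : RB N M R) {W : ℕ → List ℤ} (h : GapP R W) :
    GapP R (fun k => (W k).reverse) := by
  intro G
  obtain ⟨C, hC⟩ := h G
  refine ⟨C, fun k T hT hTC => ?_⟩
  have h1 : T.reverse <:+: W k := by
    rw [← List.reverse_infix, List.reverse_reverse]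
    exact hT
  obtain ⟨S, hS, hG, hz⟩ := hC k T.reverse h1 (by rw [List.length_reverse]; exact hTC)
  refine ⟨S.reverse, ?_, by rw [List.length_reverse]; exact hG, dl_rev hR S hz⟩
  rw [← List.reverse_infix, List.reverse_reverse]
  exact hS

private theorem XG1_mono {Y Z : ℕ → List ℤ} (hk : ∀ k, Z (k + 1) = Z k ++ Y k) (k c : ℕ) :
    (Z k).length ≤ (Z (k + c)).length := by
  induction c with
  | zero => exact le_rfl
  | succ c ih =>
    have h1 := hk (k + c)
    rw [← add_assoc, h1, List.length_append]
    omega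

private theorem XG1_flat {Y Z : ℕ → List ℤ} (hk : ∀ k, Z (k + 1) = Z k ++ Y k) (k c : ℕ) :
    Z (k + c) = Z k ++ ((List.range c).map (fun j => Y (k + j))).flatten := by
  induction c with
  | zero => simp
  | succ c ih =>
    rw [← add_assoc, hk, ih, List.range_succ, List.map_append, List.flatten_append,
      List.append_assoc]
    simp

private theorem XG1_inc (e : ℕ) {F : ℕ → ℕ} (hF : PM F)
    (hld : ∀ (N : ℕ) (W : ℕ → List ℤ), P e N W →
      Ev FS F N W ∨ ∀ k, e ≤ k → (W k).length < (W (k + 1)).length)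
    {N N' M : ℕ} {R : Polynomial ℤ} (hN : F (F N) ≤ N') (hR : RB N' M R) {Y Z : ℕ → List ℤ}
    (hY : P e N Y) (hgap : GapP R Y) (hk : ∀ k, Z (k + 1) = Z k ++ Y k) : GapP R Z := by
  intro G
  rcases hld N Y hY with hev | hgrow
  · have hfs := hev (F N) le_rfl
    obtain ⟨l, hlN, hl, hp⟩ := hfs
    have hfs' : FS N' (fun k => Y (k + F N)) := ⟨l, hlN.trans hN, hl, fun i hi => by
      obtain ⟨a, ⟨ha1, ha2⟩, ha3⟩ := hp i hi
      refine ⟨a, ⟨ha1.trans hN, fun x hx => (ha2 x hx).trans ?_⟩, ha3⟩
      exact_mod_cast hN⟩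
    have hW : ∀ k, Z (k + 1 + F N) = Z (k + F N) ++ Y (k + F N) := by
      intro k
      have e1 : k + 1 + F N = k + F N + 1 := by omega
      rw [e1]
      exact hk _
    refine ⟨(Z (F N)).length + G + 1, fun k T hT hTC => ?_⟩
    rcases Nat.lt_or_ge k (F N) with hlt | hge
    · exfalso
      have h1 := XG1_mono hk k (F N - k)
      have e1 : k + (F N - k) = F N := by omega
      rw [e1] at h1
      have h2 := hT.length_le
      omega
    · obtain ⟨c, rfl⟩ : ∃ c, k = c + F N := ⟨k - F N, by omega⟩
      rcases Nat.eq_zero_or_pos l with h0 | h0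
      · exfalso
        have h3 : ∀ c, (Z (c + F N)).length = (Z (F N)).length := by
          intro c
          induction c with
          | zero => rw [Nat.zero_add]
          | succ c ih =>
            rw [hW, List.length_append, ih, hl c, h0, add_zero]
        have h2 := hT.length_le
        rw [h3 c] at h2
        omega
      · have hann := ann_inc (W := fun k => Z (k + F N)) hR hfs' hl h0 hW 0 c
        simp only [Nat.zero_add] at hann
        refine ⟨T.drop (Z (F N)).length, List.drop_suffix _ _ |>.isInfix, ?_, ?_⟩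
        · rw [List.length_drop]
          omega
        · exact zr_infix (drop_infix hT _) hann
  · obtain ⟨C1, hC1⟩ := hgap G
    have hlen : ∀ j, j ≤ (Y (e + j)).length := by
      intro j
      induction j with
      | zero => exact Nat.zero_le _
      | succ j ih =>
        have h1 := hgrow (e + j) (by omega)
        have e1 : e + (j + 1) = e + j + 1 := by omega
        rw [e1]
        omega
    refine ⟨(Z (e + C1)).length + (2 * C1 + 1), fun k T hT hTC => ?_⟩
    rcases Nat.lt_or_ge k (e + C1) with hlt | hge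
    · exfalso
      have h1 := XG1_mono hk k (e + C1 - k)
      have e1 : k + (e + C1 - k) = e + C1 := by omega
      rw [e1] at h1
      have h2 := hT.length_le
      omega
    · obtain ⟨c, rfl⟩ : ∃ c, k = e + C1 + c := ⟨k - (e + C1), by omega⟩
      have h3 := drop_infix hT (Z (e + C1)).length
      rw [XG1_flat hk (e + C1) c, List.drop_left] at h3
      obtain ⟨l, hl, S, hS1, hS2, hS3⟩ := infix_big (C := C1) h3 (by
        intro l hl
        rw [List.mem_map] at hl
        obtain ⟨j, -, rfl⟩ := hl
        have h4 := hlen (C1 + j)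
        have e1 : e + (C1 + j) = e + C1 + j := by omega
        rw [e1] at h4
        omega) (by
        rw [List.length_drop]
        omega)
      rw [List.mem_map] at hl
      obtain ⟨j, -, rfl⟩ := hl
      obtain ⟨S', hS', hG, hz⟩ := hC1 _ S hS2 hS3
      exact ⟨S', (hS'.trans hS1).trans (List.drop_suffix _ _).isInfix, hG, hz⟩

theorem gap_piece (e : ℕ) {K0 : ℕ → ℕ} (h : ∀ N N' M R, K0 N ≤ N' → RB N' M R →
    ∀ W : ℕ → List ℤ, P e N W → GapP R W) : ∃ K : ℕ → ℕ, ∀ N N' M R, K N ≤ N' → RB N' M R →
    ∀ Z : ℕ → List ℤ, Piece (P e N) N Z → GapP R Z := by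
  obtain ⟨F, hF, hld⟩ := P.ld e
  refine ⟨fun N => K0 N + F (F N), fun N N' M R hK hR Z hZ => ?_⟩
  have hK' : K0 N + F (F N) ≤ N' := hK
  rcases hZ with hZ | ⟨Y, hY, -, hk⟩ | ⟨Y, hY, -, hk⟩
  · intro G
    obtain ⟨l, hlN, hl, -⟩ := hZ
    refine ⟨N + 1, fun k T hT hTC => ?_⟩
    exfalso
    have h1 := hT.length_le
    rw [hl k] at h1
    omega
  · exact XG1_inc e hF hld (by omega) hR hY (h N N' M R (by omega) hR Y hY) hk
  · have hY' := P.reverse hY
    have h1 := XG1_inc e hF hld (N := N) (N' := N') (M := M) (R := R) (by omega) hR hY'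
      (Z := fun k => (Z k).reverse) (h N N' M R (by omega) hR _ hY') (fun k => by
        show (Z (k + 1)).reverse = (Z k).reverse ++ (Y k).reverse
        rw [hk, List.reverse_append])
    have h2 := GapP.rev hR h1
    simp only [List.reverse_reverse] at h2
    exact h2

end AW
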