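import Pool.Agent.Lib.MP_dd05d9_lc.XQa
import Pool.Agent.Lib.MP_dd05d9_lc.CMb

/-!
`ic l` = the code of `l` without the first gap: `[v_1, g_2, v_2, ..., g_t, v_t]`.
* ic_ne: if `l` has a nonzero entry then `(cmp l).1 <> []` (cmp_fst_eq_nil) has even length (cmp_length), so at least 2; the tail is not empty.
* ic_fac: `Cd F M h g`, FacA a l h.  Take `J = 2 * (a + |l|) + 1`; the witness `i`: `(cmp (pref h i)).1` has length `>= J`, and length `<= 2 i` (cmp_length), so `i >= a + |l|`.
  `pref h i = pref h a ++ l ++ rest`; by cmp_append and `gm`: `(cmp (pref h i)).1 = X ++ addF (cmp l).1 b ++ Y` for some `X, b, Y` (use that `(cmp l).1 <> []`;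
  rest: `(gm (..) (cmp rest)).1` extends), hence its tail part `(cmp l).1.tail` is a factor of `g` at the place `|X| + 1` (IsPre).
* ic_dup: `(cmp (a ++ (l ++ (b ++ (l ++ c))))).1 = X ++ addF (cmp l).1 u ++ Y ++ addF (cmp l).1 v ++ Z`; the tail of the whole (first entry belongs to `X` or, if `X = []`, to `addF (cmp l).1 u`)
  contains `(cmp l).1.tail` twice, disjointly.
* ic_gap: suppose all entries of `ic l` are at most `G` in absolute value.  Write `l = zeros ++ T ++ zeros'` with `T` from the first to the last nonzero entry (exists as there is one).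
  All gaps between consecutive nonzero entries of `T` are entries of `ic l` (gap = number of zeros between), so at most `G` zeros in a row in `T`.
  By induction on `l` from the right prove: (P) for every infix `S` of `T` of length `G + 1` there is a nonzero entry in `S`.  `|T| >=` number of nonzero entries.
-/

set_option autoImplicit false

namespace AW

/-- inner code -/
def ic (l : List ℤ) : List ℤ := (cmp l).1.tail

private theorem XQb_nn {l : List ℤ} (h : ∃ x ∈ l, x ≠ 0) : (cmp l).1 ≠ [] := by
  intro h1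
  obtain ⟨x, hx, hx0⟩ := h
  exact hx0 ((cmp_fst_eq_nil l).1 h1 x hx)

private theorem XQb_form {l : List ℤ} (h : ∃ x ∈ l, x ≠ 0) : ∃ e, (cmp l).1 = e :: ic l := by
  have h1 := XQb_nn h
  unfold ic
  cases hc : (cmp l).1 with
  | nil => exact absurd hc h1
  | cons e t => exact ⟨e, rfl⟩

theorem ic_ne {l : List ℤ} (h : ∃ x ∈ l, x ≠ 0) : ic l ≠ [] := by
  intro h1
  obtain ⟨e, he⟩ := XQb_form h
  have h2 := cmp_length l
  rw [he, h1] at h2
  simp only [List.length_singleton] at h2
  omega

/-- a code contains `m` after its first entry -/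
private def XQb_Has (L m : List ℤ) : Prop := ∃ X e Y, L = X ++ e :: (m ++ Y)

private theorem XQb_has_addF {L m : List ℤ} (h : XQb_Has L m) (v : ℤ) : XQb_Has (addF L v) m := by
  obtain ⟨X, e, Y, rfl⟩ := h
  cases X with
  | nil => exact ⟨[], e + v, Y, rfl⟩
  | cons x X => exact ⟨(x + v) :: X, e, Y, rfl⟩

private theorem XQb_gm {g h : List ℤ × ℤ} (hh : h.1 ≠ []) : (gm g h).1 = g.1 ++ addF h.1 g.2 := by
  unfold gm
  rw [if_neg hh]

/-- the code of `l ++ B` -/
private theorem XQb_right {l : List ℤ} (h : ∃ x ∈ l, x ≠ 0) (B : List ℤ) :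
    ∃ e Y, (cmp (l ++ B)).1 = e :: (ic l ++ Y) ∧ (((cmp B).1 = [] ∧ Y = []) ∨ Y = addF (cmp B).1 (cmp l).2) := by
  obtain ⟨e, he⟩ := XQb_form h
  rw [cmp_append]
  by_cases hB : (cmp B).1 = []
  · refine ⟨e, [], ?_, Or.inl ⟨hB, rfl⟩⟩
    unfold gm
    rw [if_pos hB, List.append_nil]
    exact he
  · refine ⟨e, addF (cmp B).1 (cmp l).2, ?_, Or.inr rfl⟩
    rw [XQb_gm hB, he]
    rfl

private theorem XQb_mid {l : List ℤ} (h : ∃ x ∈ l, x ≠ 0) (A B : List ℤ) :
    ∃ X e Y, (cmp (A ++ (l ++ B))).1 = X ++ e :: (ic l ++ Y) ∧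
      (((cmp B).1 = [] ∧ Y = []) ∨ Y = addF (cmp B).1 (cmp l).2) := by
  obtain ⟨e, Y, h1, h2⟩ := XQb_right h B
  have hne : (cmp (l ++ B)).1 ≠ [] := by
    rw [h1]
    exact List.cons_ne_nil _ _
  refine ⟨(cmp A).1, e + (cmp A).2, Y, ?_, h2⟩
  rw [cmp_append, XQb_gm hne, h1]
  rfl

private theorem XQb_isPre {L : List ℤ} {g : ℕ → ℤ} (h : IsPre L g) {j : ℕ} (hj : j < L.length) :
    L.getD j 0 = g j := by
  unfold IsPre at h
  have h1 : L.getD j 0 = ((List.range L.length).map g).getD j 0 := by rw [← h]
  rw [h1, List.getD_eq_getElem _ _ (by simpa using hj)]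
  simp

private theorem XQb_list {l : List ℤ} {a : ℕ} {w : ℕ → ℤ} (ha : FacA a l w) :
    l = (List.range l.length).map (fun j => w (a + j)) := by
  apply List.ext_getElem
  · simp
  · intro i h1 h2
    have h3 := ha i h1
    rw [List.getD_eq_getElem _ _ h1] at h3
    rw [h3]
    simp

theorem ic_fac {l : List ℤ} (h : ∃ x ∈ l, x ≠ 0) {a : ℕ} {w g : ℕ → ℤ} (ha : FacA a l w) {F : ℕ → ℕ} {M : ℕ}
    (hc : Cd F M w g) : Fac (ic l) g := by
  obtain ⟨i, _, hi, hp⟩ := hc (2 * (a + l.length) + 1)
  have hlen : (cmp (pref w i)).1.length ≤ 2 * i := by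
    rw [cmp_length]
    have h1 : ((pref w i).filter (fun x => x ≠ 0)).length ≤ (pref w i).length := List.length_filter_le _ _
    have h2 : (pref w i).length = i := by unfold pref; simp
    omega
  obtain ⟨r, rfl⟩ : ∃ r, i = a + (l.length + r) := ⟨i - a - l.length, by omega⟩
  have hsplit : ∃ R, pref w (a + (l.length + r)) = pref w a ++ (l ++ R) := by
    refine ⟨(List.range r).map (fun j => w (a + (l.length + j))), ?_⟩
    conv_rhs => rw [XQb_list ha]
    unfold pref
    rw [List.range_add, List.map_append, List.map_map, List.range_add, List.map_append, List.map_map]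
    simp [Function.comp_def]
  obtain ⟨R, hR⟩ := hsplit
  rw [hR] at hp
  obtain ⟨X, e, Y, hX, _⟩ := XQb_mid h (pref w a) R
  rw [hX] at hp
  refine ⟨X.length + 1, ?_⟩
  intro j hj
  have h3 : X.length + 1 + j < (X ++ e :: (ic l ++ Y)).length := by
    simp only [List.length_append, List.length_cons]
    omega
  rw [← XQb_isPre hp h3]
  rw [List.getD_append_right _ _ _ _ (by omega)]
  have h4 : X.length + 1 + j - X.length = j + 1 := by omega
  rw [h4, List.getD_cons_succ, List.getD_append _ _ _ _ hj]

theorem ic_dup {l l' : List ℤ} (h : ∃ x ∈ l, x ≠ 0) (hd : Dup l l') : Dup (ic l) (ic l') := by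
  obtain ⟨a, b, c, rfl⟩ := hd
  obtain ⟨X, e, Y, hX, hY⟩ := XQb_mid h a (b ++ (l ++ c))
  obtain ⟨X2, e2, Y2, hX2, _⟩ := XQb_mid h b c
  have hne : (cmp (b ++ (l ++ c))).1 ≠ [] := by
    rw [hX2]
    intro h1
    have h2 := congrArg List.length h1
    simp at h2
  have hY' : Y = addF (cmp (b ++ (l ++ c))).1 (cmp l).2 := by
    rcases hY with h1 | h1
    · exact absurd h1.1 hne
    · exact h1
  have hhas : XQb_Has Y (ic l) := by
    rw [hY']
    exact XQb_has_addF ⟨X2, e2, Y2, hX2⟩ _
  obtain ⟨X3, e3, Y3, h3⟩ := hhas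
  have h4 : ic (a ++ (l ++ (b ++ (l ++ c)))) = (X ++ e :: (ic l ++ Y)).tail := by
    rw [← hX]
    rfl
  rw [h4, h3]
  cases X with
  | nil =>
    refine ⟨[], X3 ++ [e3], Y3, ?_⟩
    simp
  | cons x X =>
    refine ⟨X ++ [e], X3 ++ [e3], Y3, ?_⟩
    simp

/-! Gaps -/

/-- every second entry is not zero -/
private def XQb_alt : List ℤ → Prop
  | _ :: v :: t => v ≠ 0 ∧ XQb_alt t
  | _ => True

private theorem XQb_alt_append : ∀ (m : List ℤ) (g x : ℤ), Even m.length → XQb_alt m → x ≠ 0 →
    XQb_alt (m ++ [g, x])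
  | [], g, x, _, _, hx => ⟨hx, trivial⟩
  | [y], g, x, h, _, _ => by simp at h
  | y :: v :: t, g, x, h, ha, hx => by
    have h' : Even t.length := by
      have h2 : Even (t.length + 1 + 1) := by simpa using h
      rcases h2 with ⟨r, hr⟩
      exact ⟨r - 1, by omega⟩
    exact ⟨ha.1, XQb_alt_append t g x h' ha.2 hx⟩

private theorem XQb_alt_cmp (l : List ℤ) : XQb_alt (cmp l).1 := by
  induction l using List.reverseRecOn with
  | nil => exact trivial
  | append_singleton l x ih =>
    have h1 : cmp (l ++ [x]) = stp (cmp l) x := by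
      unfold cmp
      rw [List.foldl_append]
      rfl
    rw [h1]
    unfold stp
    split_ifs with hx
    · exact ih
    · exact XQb_alt_append _ _ _ (by rw [cmp_length]; exact ⟨_, by ring⟩) ih hx

private theorem XQb_split {S A B : List ℤ} {x : ℤ} (h : S <:+: A ++ x :: B) (hx : x ∉ S) :
    S <:+: A ∨ S <:+: B := by
  obtain ⟨s, t, hst⟩ := h
  rcases List.append_eq_append_iff.1 hst with ⟨a', ha1, ha2⟩ | ⟨c', hc1, hc2⟩
  · left
    exact ⟨s, a', ha1.symm⟩
  · cases c' with
    | nil =>
      left
      rw [List.append_nil] at hc1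
      exact ⟨s, [], by rw [List.append_nil]; exact hc1⟩
    | cons y c' =>
      rw [List.cons_append, List.cons.injEq] at hc2
      obtain ⟨hy, hB⟩ := hc2
      subst hy
      rcases List.append_eq_append_iff.1 hc1 with ⟨a', ha1, ha2⟩ | ⟨d, hd1, hd2⟩
      · exfalso
        apply hx
        rw [ha2]
        simp
      · cases d with
        | nil =>
          exfalso
          apply hx
          rw [List.nil_append] at hd2
          rw [← hd2]
          simp
        | cons z d =>
          right
          rw [List.cons_append, List.cons.injEq] at hd2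
          refine ⟨d, t, ?_⟩
          rw [hB, hd2.2]

private theorem XQb_run {G : ℕ} : ∀ (t : List ℤ) (v : ℤ), v ≠ 0 → XQb_alt t → (∀ x ∈ t, |x| ≤ (G : ℤ)) →
    ∀ S : List ℤ, S <:+: v :: dec t → (∀ x ∈ S, x = 0) → S.length ≤ G
  | [], v, hv, _, _, S, hS, h0 => by
    have h1 : S <:+: ([] : List ℤ) ++ v :: [] := hS
    rcases XQb_split h1 (fun h2 => hv (h0 v h2)) with h2 | h2
    · have := h2.length_le
      simp only [List.length_nil] at this
      omega
    · have := h2.length_le
      simp only [List.length_nil] at this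
      omega
  | [y], v, hv, _, _, S, hS, h0 => by
    have h1 : S <:+: ([] : List ℤ) ++ v :: [] := hS
    rcases XQb_split h1 (fun h2 => hv (h0 v h2)) with h2 | h2
    · have := h2.length_le
      simp only [List.length_nil] at this
      omega
    · have := h2.length_le
      simp only [List.length_nil] at this
      omega
  | g :: v' :: t, v, hv, ha, hG, S, hS, h0 => by
    have h1 : S <:+: ([] : List ℤ) ++ v :: (List.replicate g.toNat 0 ++ v' :: dec t) := hS
    rcases XQb_split h1 (fun h2 => hv (h0 v h2)) with h2 | h2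
    · have := h2.length_le
      simp only [List.length_nil] at this
      omega
    · rcases XQb_split h2 (fun h3 => ha.1 (h0 v' h3)) with h3 | h3
      · have h4 := h3.length_le
        rw [List.length_replicate] at h4
        have h5 := hG g (by simp)
        have h6 := le_abs_self g
        omega
      · refine XQb_run t v' ha.1 ha.2 (fun x hx => hG x (by simp [hx])) S ?_ h0
        exact h3.trans (List.infix_cons List.infix_rfl)

theorem ic_gap {l : List ℤ} {G : ℕ} (h : ∀ x ∈ ic l, |x| ≤ (G : ℤ)) :
    ∃ T : List ℤ, T <:+: l ∧ (l.filter (fun x => x ≠ 0)).length ≤ T.length ∧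
      ∀ S : List ℤ, S <:+: T → G + 1 ≤ S.length → ∃ x ∈ S, x ≠ 0 := by
  by_cases hl : ∃ x ∈ l, x ≠ 0
  · obtain ⟨e, he⟩ := XQb_form hl
    have hne := ic_ne hl
    obtain ⟨v, t, hvt⟩ : ∃ v t, ic l = v :: t := by
      cases hc : ic l with
      | nil => exact absurd hc hne
      | cons v t => exact ⟨v, t, rfl⟩
    have halt := XQb_alt_cmp l
    rw [he, hvt] at halt
    rw [hvt] at h
    have hdec := dec_cmp l
    rw [he, hvt] at hdec
    have hdec' : l = (List.replicate e.toNat 0 ++ v :: dec t) ++ List.replicate (cmp l).2.toNat 0 := hdec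
    refine ⟨v :: dec t, ⟨List.replicate e.toNat 0, List.replicate (cmp l).2.toNat 0, hdec'.symm⟩, ?_, ?_⟩
    · have h1 : (l.filter (fun x => x ≠ 0)) = (v :: dec t).filter (fun x => x ≠ 0) := by
        conv_lhs => rw [hdec']
        have h2 : ∀ n : ℕ, (List.replicate n (0 : ℤ)).filter (fun x => x ≠ 0) = [] := by
          intro n
          rw [List.filter_eq_nil_iff]
          intro x hx
          rw [List.eq_of_mem_replicate hx]
          simp
        rw [List.filter_append, List.filter_append, h2, h2, List.append_nil, List.nil_append]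
      rw [h1]
      exact List.length_filter_le _ _
    · intro S hS hlen
      by_contra hcon
      push Not at hcon
      have := XQb_run (G := G) t v halt.1 halt.2 (fun x hx => h x (by simp [hx])) S hS hcon
      omega
  · push Not at hl
    refine ⟨[], List.nil_infix, ?_, ?_⟩
    · have : l.filter (fun x => x ≠ 0) = [] := by
        rw [List.filter_eq_nil_iff]
        intro x hx
        simp [hl x hx]
      rw [this]
    · intro S hS hlen
      have := hS.length_le
      simp only [List.length_nil] at this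
      omega

end AW
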